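import Pool.Agent.Helper26.RC.Defs

/-! Block RC-CERT (about 100 lines): Nullstellensatz certificate and integrality.

`exists_cert`. Let `J ⊂ K[x]` be the ideal generated by the forms `Φ_{j,d} = homogeneousComponent d (Φ j)`. By `h.2` its zero locus in `Ω^N` is contained in `{0}`, so every `X i` is in
`vanishingIdeal K (zeroLocus Ω J) = J.radical` (`MvPolynomial.vanishingIdeal_zeroLocus_eq_radical`, coefficients in `K`, points in `Ω`). So `X i ^ r ∈ J` for all `i` with one `r ≥ d`; write
`X i ^ r = ∑ Q' i j * Φ_{j,d}` and replace `Q' i j` by its homogeneous component of degree `e = r - d` (take the component of degree `r` of both sides).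

`finite_over`: every polynomial is a combination of the monomials of degree `< N (e + d)` with coefficients polynomials in the `Φ j`. Strong induction on the degree of a monomial `X^m`: if
`|m| ≥ N (e + d)` (and `N > 0`) then some `m_i ≥ e + d` and `X^m = X^{m'} X_i^{e+d} = ∑_j X^{m'} Q i j Φ_{j,d} = ∑_j (X^{m'} Q i j) Φ_j - ∑_j X^{m'} Q i j (Φ_j - Φ_{j,d})`, where
`X^{m'} Q i j` has degree `|m| - d < |m|` and the last sum has degree `< |m|` (`1 ≤ d`, `Φ_j - Φ_{j,d}` has degree `≤ d - 1`). -/

set_option autoImplicit false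

namespace Pool.Agent.Helper26.RC

open MvPolynomial Filter Topology

variable {K Ω : Type*} [Field K] [Field Ω] [Algebra K Ω] {N d : ℕ}
  {Φ : Fin N → MvPolynomial (Fin N) K}

private theorem hc_mul97 {e d : ℕ} (φ ψ : MvPolynomial (Fin N) K) (hψ : ψ.IsHomogeneous d) :
    homogeneousComponent (e + d) (φ * ψ) = homogeneousComponent e φ * ψ := by
  conv_lhs => rw [← sum_homogeneousComponent φ]
  rw [Finset.sum_mul, map_sum]
  have h1 : ∀ i ∈ Finset.range (φ.totalDegree + 1),
      homogeneousComponent (e + d) (homogeneousComponent i φ * ψ) =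
        if i = e then homogeneousComponent e φ * ψ else 0 := by
    intro i _
    have h2 : homogeneousComponent i φ * ψ ∈ homogeneousSubmodule (Fin N) K (i + d) :=
      (homogeneousComponent_isHomogeneous i φ).mul hψ
    rw [homogeneousComponent_of_mem h2]
    by_cases h : i = e
    · subst h
      rw [if_pos rfl, if_pos rfl]
    · rw [if_neg h, if_neg (by omega)]
  rw [Finset.sum_congr rfl h1, Finset.sum_ite_eq']
  split_ifs with h
  · rfl
  · rw [Finset.mem_range, not_lt] at h
    rw [homogeneousComponent_eq_zero _ _ (by omega), zero_mul]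

theorem exists_cert [IsAlgClosed Ω] (h : Reg Ω d Φ) :
    ∃ (e : ℕ) (Q : Fin N → Fin N → MvPolynomial (Fin N) K), (∀ i j, (Q i j).IsHomogeneous e) ∧
      ∀ i, (X i : MvPolynomial (Fin N) K) ^ (e + d) = ∑ j, Q i j * homogeneousComponent d (Φ j) := by
  set J : Ideal (MvPolynomial (Fin N) K) :=
    Ideal.span (Set.range fun j => homogeneousComponent d (Φ j)) with hJ
  have h1 : ∀ i, (X i : MvPolynomial (Fin N) K) ∈ J.radical := by
    intro i
    rw [← vanishingIdeal_zeroLocus_eq_radical (K := Ω), mem_vanishingIdeal_iff]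
    intro z hz
    rw [aeval_X]
    have h2 : infMap d Φ z = 0 := by
      funext j
      exact hz _ (Ideal.subset_span ⟨j, rfl⟩)
    rw [h.2 z h2]
    rfl
  choose n hn using h1
  set e : ℕ := Finset.univ.sup n with he
  have h2 : ∀ i, ∃ c : Fin N → MvPolynomial (Fin N) K,
      (X i : MvPolynomial (Fin N) K) ^ (e + d) = ∑ j, c j * homogeneousComponent d (Φ j) := by
    intro i
    have h3 : (X i : MvPolynomial (Fin N) K) ^ (e + d) ∈ J := by
      have h4 : n i ≤ e := Finset.le_sup (Finset.mem_univ i)
      exact J.pow_mem_of_pow_mem (hn i) (by omega)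
    rw [hJ, Ideal.mem_span_range_iff_exists_fun] at h3
    obtain ⟨c, hc⟩ := h3
    exact ⟨c, hc.symm⟩
  choose c hc using h2
  refine ⟨e, fun i j => homogeneousComponent e (c i j),
    fun i j => homogeneousComponent_isHomogeneous _ _, fun i => ?_⟩
  have h3 : homogeneousComponent (e + d) ((X i : MvPolynomial (Fin N) K) ^ (e + d)) = X i ^ (e + d) := by
    apply homogeneousComponent_eq_self
    exact isHomogeneous_X_pow i (e + d)
  rw [← h3, hc i, map_sum]
  refine Finset.sum_congr rfl fun j _ => ?_
  exact hc_mul97 _ _ (homogeneousComponent_isHomogeneous _ _)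

private theorem deg_sum97 (m : Fin N →₀ ℕ) : (m.sum fun _ e => e) = m.degree := rfl

private theorem td_sub97 (hd : 1 ≤ d) {f : MvPolynomial (Fin N) K} (hf : f.totalDegree ≤ d) :
    (f - homogeneousComponent d f).totalDegree < d := by
  unfold totalDegree
  rw [Finset.sup_lt_iff (by exact hd)]
  intro m hm
  rw [deg_sum97]
  rw [mem_support_iff, coeff_sub, coeff_homogeneousComponent] at hm
  have h1 : m.degree ≠ d := by
    intro h
    rw [if_pos h, sub_self] at hm
    exact hm rfl
  rw [if_neg h1, sub_zero] at hm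
  have h2 := le_totalDegree (mem_support_iff.mpr hm)
  rw [deg_sum97] at h2
  omega

/-- representation with monomials of degree at most `B` -/
private def Rp97 (Φ : Fin N → MvPolynomial (Fin N) K) (S : Finset (Fin N →₀ ℕ))
    (f : MvPolynomial (Fin N) K) : Prop :=
  ∃ c : (Fin N →₀ ℕ) → MvPolynomial (Fin N) K, f = ∑ m ∈ S, aeval Φ (c m) * monomial m 1

private theorem Rp97.add {S : Finset (Fin N →₀ ℕ)} {f g : MvPolynomial (Fin N) K}
    (hf : Rp97 Φ S f) (hg : Rp97 Φ S g) : Rp97 Φ S (f + g) := by
  obtain ⟨c, hc⟩ := hf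
  obtain ⟨c', hc'⟩ := hg
  refine ⟨fun m => c m + c' m, ?_⟩
  rw [hc, hc', ← Finset.sum_add_distrib]
  exact Finset.sum_congr rfl fun m _ => by rw [map_add, add_mul]

private theorem Rp97.mul {S : Finset (Fin N →₀ ℕ)} {f : MvPolynomial (Fin N) K}
    (hf : Rp97 Φ S f) (g : MvPolynomial (Fin N) K) : Rp97 Φ S (aeval Φ g * f) := by
  obtain ⟨c, hc⟩ := hf
  refine ⟨fun m => g * c m, ?_⟩
  rw [hc, Finset.mul_sum]
  exact Finset.sum_congr rfl fun m _ => by rw [map_mul, mul_assoc]

private theorem Rp97.zero (S : Finset (Fin N →₀ ℕ)) : Rp97 Φ S 0 :=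
  ⟨fun _ => 0, by simp⟩

private theorem Rp97.sum {ι : Type*} {S : Finset (Fin N →₀ ℕ)} {s : Finset ι}
    {f : ι → MvPolynomial (Fin N) K} (h : ∀ i ∈ s, Rp97 Φ S (f i)) : Rp97 Φ S (∑ i ∈ s, f i) := by
  classical
  induction s using Finset.induction_on with
  | empty => rw [Finset.sum_empty]; exact Rp97.zero S
  | insert a s ha ih =>
    rw [Finset.sum_insert ha]
    exact (h a (Finset.mem_insert_self a s)).add (ih fun i hi => h i (Finset.mem_insert_of_mem hi))

private theorem Rp97.neg {S : Finset (Fin N →₀ ℕ)} {f : MvPolynomial (Fin N) K}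
    (hf : Rp97 Φ S f) : Rp97 Φ S (-f) := by
  have h := hf.mul (-1)
  rw [map_neg, map_one, neg_one_mul] at h
  exact h

private theorem Rp97.mono {S : Finset (Fin N →₀ ℕ)} {m : Fin N →₀ ℕ} (hm : m ∈ S) :
    Rp97 Φ S (monomial m 1) := by
  classical
  refine ⟨fun m' => if m' = m then 1 else 0, ?_⟩
  rw [Finset.sum_eq_single_of_mem m hm]
  · show monomial m 1 = aeval Φ (if m = m then (1 : MvPolynomial (Fin N) K) else 0) * monomial m 1
    rw [if_pos rfl, map_one (aeval Φ), one_mul]
  · intro b _ hb
    show aeval Φ (if b = m then (1 : MvPolynomial (Fin N) K) else 0) * monomial b 1 = 0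
    rw [if_neg hb, map_zero, zero_mul]

theorem finite_over (hd : 1 ≤ d) (hdeg : ∀ i, (Φ i).totalDegree ≤ d) {e : ℕ}
    {Q : Fin N → Fin N → MvPolynomial (Fin N) K} (hQ : ∀ i j, (Q i j).IsHomogeneous e)
    (hc : ∀ i, (X i : MvPolynomial (Fin N) K) ^ (e + d) = ∑ j, Q i j * homogeneousComponent d (Φ j))
    (f : MvPolynomial (Fin N) K) :
    ∃ (s : Finset (Fin N →₀ ℕ)) (c : (Fin N →₀ ℕ) → MvPolynomial (Fin N) K),
      (∀ m ∈ s, m.degree ≤ N * (e + d)) ∧
        f = ∑ m ∈ s, aeval Φ (c m) * monomial m 1 := by
  classical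
  set S : Finset (Fin N →₀ ℕ) := (Finsupp.finite_of_degree_le (σ := Fin N) (N * (e + d))).toFinset
    with hS
  have hmem : ∀ m : Fin N →₀ ℕ, m ∈ S ↔ m.degree ≤ N * (e + d) := by
    intro m
    rw [hS, Set.Finite.mem_toFinset]
    rfl
  have key : ∀ n : ℕ, ∀ f : MvPolynomial (Fin N) K, f.totalDegree < n → Rp97 Φ S f := by
    intro n
    induction n with
    | zero => intro f hf; exact absurd hf (Nat.not_lt_zero _)
    | succ n ih =>
      intro f hf
      rw [← f.support_sum_monomial_coeff]
      refine Rp97.sum fun m hm => ?_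
      have hmn : m.degree ≤ n := by
        have := le_totalDegree hm
        rw [deg_sum97] at this
        omega
      have hC : monomial m (coeff m f) = aeval Φ (C (coeff m f)) * monomial m 1 := by
        rw [aeval_C, algebraMap_eq, C_mul_monomial, mul_one]
      rw [hC]
      refine Rp97.mul ?_ _
      by_cases hB : m.degree ≤ N * (e + d)
      · exact Rp97.mono ((hmem m).mpr hB)
      · obtain ⟨i, hi⟩ : ∃ i, e + d ≤ m i := by
          by_contra hcon
          push Not at hcon
          apply hB
          rw [Finsupp.degree_eq_sum]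
          calc ∑ i, m i ≤ ∑ _i : Fin N, (e + d) := Finset.sum_le_sum fun i _ => (hcon i).le
            _ = N * (e + d) := by rw [Finset.sum_const, Finset.card_univ, Fintype.card_fin, smul_eq_mul]
        set m' : Fin N →₀ ℕ := m - Finsupp.single i (e + d) with hm'
        have hmm : m' + Finsupp.single i (e + d) = m := by
          rw [hm', tsub_add_cancel_of_le]
          rw [Finsupp.single_le_iff]
          exact hi
        have hdm : m'.degree + (e + d) = m.degree := by
          rw [← hmm, map_add, Finsupp.degree_single]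
        have hsplit : (monomial m 1 : MvPolynomial (Fin N) K) =
            ∑ j, (aeval Φ (X j : MvPolynomial (Fin N) K) * (monomial m' 1 * Q i j) +
              -((monomial m' 1 * Q i j) * (Φ j - homogeneousComponent d (Φ j)))) := by
          have h1 : (monomial m 1 : MvPolynomial (Fin N) K) = monomial m' 1 * X i ^ (e + d) := by
            rw [X_pow_eq_monomial, monomial_mul, mul_one, hmm]
          rw [h1, hc i, Finset.mul_sum]
          refine Finset.sum_congr rfl fun j _ => ?_
          rw [aeval_X]
          ring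
        rw [hsplit]
        refine Rp97.sum fun j _ => ?_
        have hdeg1 : (monomial m' (1 : K) * Q i j).totalDegree ≤ m'.degree + e := by
          refine (totalDegree_mul _ _).trans (add_le_add ?_ ?_)
          · exact totalDegree_monomial_le m' 1
          · exact (hQ i j).totalDegree_le
        refine Rp97.add (Rp97.mul (ih _ ?_) _) (Rp97.neg (ih _ ?_))
        · omega
        · have h2 := td_sub97 hd (hdeg j)
          have h3 := totalDegree_mul (monomial m' (1 : K) * Q i j) (Φ j - homogeneousComponent d (Φ j))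
          omega
  obtain ⟨c, hcc⟩ := key (f.totalDegree + 1) f (Nat.lt_succ_self _)
  exact ⟨S, c, fun m hm => (hmem m).mp hm, hcc⟩

end Pool.Agent.Helper26.RC
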