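import Pool.Agent.Helper26.RC.Defs

/-! Block RC-FIN (about 100 lines): progressions from ultrafilters.

`union_of_ultra`. Let `𝒜` be the (countable) set of the progressions `P = {a + m k : k}`, `m > 0`, `P ⊂ R`. If no finite union of members of `𝒜` covers `R` up to a finite set, the sets `R ∖ (P_1 ∪ .. ∪ P_r ∪ finite)` are
nonempty and form a filter base; an ultrafilter `U` finer than the generated filter contains `R`, is finer than `cofinite` and contains no `P ∈ 𝒜`: contradiction to `h`. So `R = P_1 ∪ .. ∪ P_r ∪ (finite set)`;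
a point `a` is the progression `(a, 0)`.

`union_of_periodic`: `x (n + m) = x n` for `n ≥ n0`: `R = {n : x n ∈ Z}`; the part of `R` in `[n0, ∞)` is a union of at most `m` progressions with difference `m`, the rest is finite. -/

set_option autoImplicit false

namespace Pool.Agent.Helper26.RC

open Filter Topology

theorem union_of_ultra (R : Set ℕ)
    (h : ∀ U : Ultrafilter ℕ, (U : Filter ℕ) ≤ cofinite → R ∈ U →
      ∃ a m : ℕ, 0 < m ∧ (∀ k, a + m * k ∈ R) ∧ {n | ∃ k, n = a + m * k} ∈ U) :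
    ∃ A : Finset (ℕ × ℕ), R = ⋃ p ∈ A, {n | ∃ k, n = p.1 + p.2 * k} := by
  classical
  let PS : ℕ × ℕ → Set ℕ := fun p => {n | ∃ k, n = p.1 + p.2 * k}
  have key : ∃ S : Finset (ℕ × ℕ), (∀ p ∈ S, PS p ⊆ R) ∧ (R \ ⋃ p ∈ S, PS p).Finite := by
    by_contra hcon
    push Not at hcon
    let F : Filter ℕ :=
      { sets := {s | ∃ S : Finset (ℕ × ℕ), (∀ p ∈ S, PS p ⊆ R) ∧ ((R \ ⋃ p ∈ S, PS p) \ s).Finite}
        univ_sets := ⟨∅, by simp, by simp⟩
        sets_of_superset := by
          rintro s s' ⟨S, hS, hf⟩ hss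
          exact ⟨S, hS, hf.subset (Set.diff_subset_diff_right hss)⟩
        inter_sets := by
          rintro s s' ⟨S, hS, hf⟩ ⟨S', hS', hf'⟩
          refine ⟨S ∪ S', fun p hp => ?_, (hf.union hf').subset ?_⟩
          · rcases Finset.mem_union.1 hp with hp | hp
            · exact hS p hp
            · exact hS' p hp
          · rintro n ⟨⟨hn, hnu⟩, hns⟩
            have h1 : n ∉ ⋃ p ∈ S, PS p := by
              intro hh
              apply hnu
              simp only [Set.mem_iUnion] at hh ⊢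
              obtain ⟨p, hp, hh⟩ := hh
              exact ⟨p, Finset.mem_union_left _ hp, hh⟩
            have h2 : n ∉ ⋃ p ∈ S', PS p := by
              intro hh
              apply hnu
              simp only [Set.mem_iUnion] at hh ⊢
              obtain ⟨p, hp, hh⟩ := hh
              exact ⟨p, Finset.mem_union_right _ hp, hh⟩
            by_cases h3 : n ∈ s
            · exact Or.inr ⟨⟨hn, h2⟩, fun h4 => hns ⟨h3, h4⟩⟩
            · exact Or.inl ⟨⟨hn, h1⟩, h3⟩ }
    have hmem : ∀ s, s ∈ F ↔ ∃ S : Finset (ℕ × ℕ), (∀ p ∈ S, PS p ⊆ R) ∧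
        ((R \ ⋃ p ∈ S, PS p) \ s).Finite := fun s => Iff.rfl
    have hne : F.NeBot := by
      rw [← Filter.empty_mem_iff_bot.not.trans Filter.neBot_iff.symm, hmem]
      rintro ⟨S, hS, hf⟩
      rw [Set.diff_empty] at hf
      exact hcon S hS hf
    have hU : ((Ultrafilter.of F : Ultrafilter ℕ) : Filter ℕ) ≤ F := Ultrafilter.of_le F
    obtain ⟨a, m, hm, hR, hP⟩ := h (Ultrafilter.of F) (hU.trans (by
      intro s hs
      rw [Filter.mem_cofinite] at hs
      rw [hmem]
      exact ⟨∅, by simp, hs.subset fun n hn => hn.2⟩)) (hU (by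
      rw [hmem]
      exact ⟨∅, by simp, by simp⟩))
    have h1 : (PS (a, m))ᶜ ∈ F := by
      rw [hmem]
      refine ⟨{(a, m)}, ?_, ?_⟩
      · intro p hp
        rw [Finset.mem_singleton.1 hp]
        rintro n ⟨k, rfl⟩
        exact hR k
      · refine Set.finite_empty.subset ?_
        rintro n ⟨⟨_, h2⟩, h3⟩
        apply h2
        simp only [Finset.mem_singleton, Set.iUnion_iUnion_eq_left]
        exact not_not.1 h3
    have h2 := Filter.inter_mem hP (hU h1)
    have h3 : ({n | ∃ k, n = a + m * k} ∩ (PS (a, m))ᶜ : Set ℕ) = ∅ := Set.inter_compl_self _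
    rw [h3] at h2
    exact Filter.empty_notMem _ h2
  obtain ⟨S, hS, hf⟩ := key
  refine ⟨S ∪ hf.toFinset.image (fun a => (a, 0)), ?_⟩
  ext n
  simp only [Set.mem_iUnion]
  constructor
  · intro hn
    by_cases h1 : n ∈ ⋃ p ∈ S, PS p
    · simp only [Set.mem_iUnion] at h1
      obtain ⟨p, hp, h2⟩ := h1
      exact ⟨p, Finset.mem_union_left _ hp, h2⟩
    · refine ⟨(n, 0), Finset.mem_union_right _ ?_, 0, by simp⟩
      exact Finset.mem_image.2 ⟨n, hf.mem_toFinset.2 ⟨hn, h1⟩, rfl⟩
  · rintro ⟨p, hp, hn⟩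
    rcases Finset.mem_union.1 hp with hp | hp
    · exact hS p hp hn
    · obtain ⟨a, ha, rfl⟩ := Finset.mem_image.1 hp
      obtain ⟨k, hk⟩ := hn
      have h1 : n = a := by simpa using hk
      rw [h1]
      exact (hf.mem_toFinset.1 ha).1

theorem union_of_periodic {X : Type*} {x : ℕ → X} {n0 m : ℕ} (hm : 0 < m)
    (hx : ∀ n, n0 ≤ n → x (n + m) = x n) (Z : Set X) :
    ∃ A : Finset (ℕ × ℕ), {n | x n ∈ Z} = ⋃ p ∈ A, {n | ∃ k, n = p.1 + p.2 * k} := by
  classical
  have hper : ∀ a k, n0 ≤ a → x (a + m * k) = x a := by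
    intro a k ha
    induction k with
    | zero => simp
    | succ k ih =>
      rw [← ih, mul_add, mul_one, ← add_assoc]
      exact hx _ (by omega)
  refine ⟨((Finset.range (n0 + m)).filter fun n => x n ∈ Z).image
    (fun a => (a, if a < n0 then 0 else m)), ?_⟩
  ext n
  simp only [Set.mem_iUnion, Set.mem_setOf_eq]
  constructor
  · intro hn
    rcases lt_or_ge n (n0 + m) with h1 | h1
    · refine ⟨(n, if n < n0 then 0 else m), Finset.mem_image.2 ⟨n, ?_, rfl⟩, 0, by simp⟩
      exact Finset.mem_filter.2 ⟨Finset.mem_range.2 h1, hn⟩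
    · have h2 : (n - n0) % m < m := Nat.mod_lt _ hm
      have h3 : n = n0 + (n - n0) % m + m * ((n - n0) / m) := by
        have := Nat.mod_add_div (n - n0) m
        omega
      have h4 : x (n0 + (n - n0) % m) ∈ Z := by
        have h5 := hper (n0 + (n - n0) % m) ((n - n0) / m) (by omega)
        rw [← h3] at h5
        rwa [← h5]
      refine ⟨(n0 + (n - n0) % m, m), Finset.mem_image.2 ⟨n0 + (n - n0) % m, ?_, ?_⟩, _, h3⟩
      · exact Finset.mem_filter.2 ⟨Finset.mem_range.2 (by omega), h4⟩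
      · rw [if_neg (by omega)]
  · rintro ⟨p, hp, k, hk⟩
    obtain ⟨a, ha, rfl⟩ := Finset.mem_image.1 hp
    obtain ⟨ha1, ha2⟩ := Finset.mem_filter.1 ha
    by_cases h1 : a < n0
    · simp only [h1, if_true, zero_mul, add_zero] at hk
      rw [hk]
      exact ha2
    · simp only [h1, if_false] at hk
      rw [hk, hper a k (by omega)]
      exact ha2

end Pool.Agent.Helper26.RC
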