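import Pool.Agent.Helper26.RC.Defs

/-! Block RC-ARC (about 200 lines): invariant polynomial arcs at a cycle at infinity, up to any order.

`homP d Φ A = ∑_{e ≤ d} X ^ (d - e) * Φ_{i,e} (A)`. Induction on `T`.
`T = 0`: `A l i = C (q l i)`. (`T = 0` divides everything.) It also satisfies the condition for `T = 1`: the value at `0` of `homP d Φ A' i` is `Φ_{i,d} (A' (0)) = infMap d Φ (q (l+1)) i = c l * q l i` (terms with `e < d` have a factor `X`;
use `Φ_{i,e}` homogeneous), equal to the value at `0` of `C (c l) * (A l i).comp (..)` (`X ^ d` vanishes at `0`, `d ≥ 2`).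
Step `T → T + 1`, `T ≥ 1`: put `A' l i = A l i + C (a l i) X ^ T` with unknown `a l ∈ F ^ N`, periodic. `homP d Φ (A' (l+1)) i ≡ homP d Φ (A (l+1)) i + X ^ T ∑_j (∂_j Φ_{i,d}) (q (l+1)) a_{l+1,j}` modulo `X ^ (T+1)` (Taylor: for a polynomial `f` and `T ≥ 1`,
`f (A + X ^ T a) ≡ f (A) + X ^ T ∑_j ∂_j f (A) a_j` modulo `X ^ (T+1)`, `A ≡ q` modulo `X`; the terms with `e < d` contribute with an additional factor `X`) and `(A' l i).comp (C (c l)⁻¹ * X ^ d) ≡ (A l i).comp (..)` modulo `X ^ (d T)`, `d T ≥ T + 1`. So the condition
is the linear system `J (q (l+1)) a_{l+1} = e_l`, `J` = matrix of `jac`, invertible (`hjac`), entries in `F`, `e_l ∈ F ^ N` the coefficient of `X ^ T` in `C (c l) * (A l i).comp (..) - homP d Φ (A (l+1)) i`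
(lower coefficients vanish). Define `a (l+1) = J (q (l+1))⁻¹ e_l` for all `l`, and `a 0 = a p`. Everything is periodic with period `p` (`c` is by `hcper`), and `a l ∈ F` (`F` is a field; inverse matrix by the
adjugate; coefficients of `Φ` are in `K ⊂ F`). -/

set_option autoImplicit false

namespace Pool.Agent.Helper26.RC

open MvPolynomial Filter Topology

variable {K Ω : Type*} [Field K] [Field Ω] [Algebra K Ω] {N d : ℕ}

private theorem aeval_coeff_zero (A : Fin N → Polynomial Ω) (f : MvPolynomial (Fin N) K) :
    (aeval A f).coeff 0 = aeval (fun i => (A i).coeff 0) f := by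
  have h := DFunLike.congr_fun (MvPolynomial.comp_aeval A
    ((Polynomial.aeval (0 : Ω)).restrictScalars K : Polynomial Ω →ₐ[K] Ω)) f
  simp only [AlgHom.comp_apply, AlgHom.restrictScalars_apply, Polynomial.coe_aeval_eq_eval] at h
  simp only [Polynomial.coeff_zero_eq_eval_zero]
  exact h

private theorem sub_coeff_dvd {P : Polynomial Ω} {T : ℕ} (h : (Polynomial.X : Polynomial Ω) ^ T ∣ P) :
    (Polynomial.X : Polynomial Ω) ^ (T + 1) ∣ P - Polynomial.X ^ T * Polynomial.C (P.coeff T) := by
  obtain ⟨R, rfl⟩ := h
  have h1 : (Polynomial.X ^ T * R).coeff T = R.coeff 0 := by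
    have := Polynomial.coeff_X_pow_mul R T 0
    rwa [zero_add] at this
  rw [h1, ← mul_sub, pow_succ]
  refine mul_dvd_mul_left _ ?_
  rw [Polynomial.X_dvd_iff]
  simp

/-- first order Taylor expansion -/
private theorem taylor (f : MvPolynomial (Fin N) K) {T : ℕ} (hT : 1 ≤ T) (A : Fin N → Polynomial Ω)
    (a : Fin N → Ω) :
    (Polynomial.X : Polynomial Ω) ^ (T + 1) ∣
      aeval (fun i => A i + Polynomial.X ^ T * Polynomial.C (a i)) f - aeval A f -
        Polynomial.X ^ T * Polynomial.C (∑ j, a j * aeval (fun i => (A i).coeff 0) (pderiv j f)) := by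
  induction f using MvPolynomial.induction_on with
  | C r => simp
  | add f g hf hg =>
    have h := dvd_add hf hg
    convert h using 1
    simp only [map_add, mul_add, Finset.sum_add_distrib]
    ring
  | mul_X f j hf =>
    obtain ⟨R, hR⟩ := hf
    set P := aeval A f with hP
    set P' := aeval (fun i => A i + Polynomial.X ^ T * Polynomial.C (a i)) f with hP'
    set D := ∑ j, a j * aeval (fun i => (A i).coeff 0) (pderiv j f) with hD
    have hPe : P' = P + Polynomial.X ^ T * Polynomial.C D + Polynomial.X ^ (T + 1) * R := by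
      linear_combination hR
    have hder : ∑ i, a i * aeval (fun i => (A i).coeff 0) (pderiv i (f * X j)) =
        D * (A j).coeff 0 + a j * P.coeff 0 := by
      have h1 : ∀ i, a i * aeval (fun i => (A i).coeff 0) (pderiv i (f * X j)) =
          (a i * aeval (fun i => (A i).coeff 0) (pderiv i f)) * (A j).coeff 0 +
            (if j = i then a j * P.coeff 0 else 0) := by
        intro i
        rw [Derivation.leibniz, pderiv_X, smul_eq_mul, smul_eq_mul, map_add, map_mul, map_mul,
          aeval_X, hP, aeval_coeff_zero]
        by_cases h : j = i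
        · subst h
          simp
          ring
        · rw [if_neg h, Pi.single_eq_of_ne h]
          simp
          ring
      simp only [h1]
      rw [Finset.sum_add_distrib, ← Finset.sum_mul, Finset.sum_ite_eq, if_pos (Finset.mem_univ _)]
    rw [map_mul, map_mul, aeval_X, aeval_X, hder, ← hP, ← hP', hPe]
    have e1 : (Polynomial.X : Polynomial Ω) ∣ P - Polynomial.C (P.coeff 0) := by
      rw [Polynomial.X_dvd_iff]; simp
    have e2 : (Polynomial.X : Polynomial Ω) ∣ A j - Polynomial.C ((A j).coeff 0) := by
      rw [Polynomial.X_dvd_iff]; simp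
    obtain ⟨R1, hR1⟩ := e1
    obtain ⟨R2, hR2⟩ := e2
    have e3 : (Polynomial.X : Polynomial Ω) ^ T = Polynomial.X * Polynomial.X ^ (T - 1) := by
      rw [← pow_succ', Nat.sub_add_cancel hT]
    refine ⟨R * (A j + Polynomial.X ^ T * Polynomial.C (a j)) + R1 * Polynomial.C (a j) +
      R2 * Polynomial.C D + Polynomial.X ^ (T - 1) * Polynomial.C (D * a j), ?_⟩
    have e4 : P = Polynomial.C (P.coeff 0) + Polynomial.X * R1 := by linear_combination hR1
    have e5 : A j = Polynomial.C ((A j).coeff 0) + Polynomial.X * R2 := by linear_combination hR2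
    simp only [Polynomial.C_add, Polynomial.C_mul]
    have e6 : (Polynomial.X : Polynomial Ω) ^ (T + 1) = Polynomial.X ^ T * Polynomial.X := pow_succ _ _
    rw [e6]
    linear_combination (Polynomial.X ^ T * Polynomial.C (a j)) * hR1 +
      (Polynomial.X ^ T * Polynomial.C D) * hR2 +
      (Polynomial.X ^ T * Polynomial.C D * Polynomial.C (a j)) * e3

/-- the case without the field of definition -/
private theorem arcs0 {Φ : Fin N → MvPolynomial (Fin N) K} (hd : 2 ≤ d) {q : ℕ → Fin N → Ω} {p : ℕ}
    (hp : 0 < p) (hper : ∀ l, q (l + p) = q l) {c : ℕ → Ω}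
    (hcper : ∀ l, c (l + p) = c l) (hstep : ∀ l, infMap d Φ (q (l + 1)) = c l • q l)
    (hjac : ∀ l, jac d Φ (q l) ≠ 0) (T : ℕ) :
    ∃ A : ℕ → Fin N → Polynomial Ω, (∀ l, A (l + p) = A l) ∧
      (∀ l i, (A l i).coeff 0 = q l i) ∧
      ∀ l i, (Polynomial.X : Polynomial Ω) ^ T ∣ homP d Φ (A (l + 1)) i -
        Polynomial.C (c l) * (A l i).comp (Polynomial.C (c l)⁻¹ * Polynomial.X ^ d) := by
  have hX : ∀ l, (Polynomial.C (c l)⁻¹ * Polynomial.X ^ d : Polynomial Ω).eval 0 = 0 := by
    intro l
    simp only [Polynomial.eval_mul, Polynomial.eval_C, Polynomial.eval_pow, Polynomial.eval_X]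
    rw [zero_pow (by omega), mul_zero]
  induction T with
  | zero =>
    refine ⟨fun l i => Polynomial.C (q l i), fun l => by simp only [hper], fun l i => by simp,
      fun l i => by rw [pow_zero]; exact one_dvd _⟩
  | succ T ih =>
    obtain ⟨A, hA1, hA2, hA3⟩ := ih
    rcases Nat.eq_zero_or_pos T with hT | hT
    · subst hT
      refine ⟨A, hA1, hA2, fun l i => ?_⟩
      rw [zero_add, pow_one, Polynomial.X_dvd_iff, Polynomial.coeff_sub,
        Polynomial.coeff_zero_eq_eval_zero (Polynomial.C (c l) * _), Polynomial.eval_mul,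
        Polynomial.eval_C, Polynomial.eval_comp, hX, ← Polynomial.coeff_zero_eq_eval_zero, hA2]
      have h1 : (homP d Φ (A (l + 1)) i).coeff 0 = infMap d Φ (q (l + 1)) i := by
        unfold homP infMap
        rw [Polynomial.finsetSum_coeff, Finset.sum_range_succ, Nat.sub_self, pow_zero, one_mul,
          aeval_coeff_zero]
        simp only [hA2]
        rw [add_eq_right]
        refine Finset.sum_eq_zero fun e he => ?_
        have he' : d - e ≠ 0 := by have := Finset.mem_range.1 he; omega
        rw [Polynomial.coeff_zero_eq_eval_zero, Polynomial.eval_mul, Polynomial.eval_pow,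
          Polynomial.eval_X, zero_pow he', zero_mul]
      rw [h1, hstep, Pi.smul_apply, smul_eq_mul, sub_self]
    · -- the errors
      set E : ℕ → Fin N → Ω := fun l i => (homP d Φ (A (l + 1)) i -
        Polynomial.C (c l) * (A l i).comp (Polynomial.C (c l)⁻¹ * Polynomial.X ^ d)).coeff T with hE
      set J : ℕ → Matrix (Fin N) (Fin N) Ω := fun l => Matrix.of fun i j =>
        aeval (q l) (pderiv j (homogeneousComponent d (Φ i))) with hJ
      have hJu : ∀ l, IsUnit (J l).det := fun l => isUnit_iff_ne_zero.2 (hjac l)
      set sol : ℕ → Fin N → Ω := fun l => (J (l + 1))⁻¹.mulVec (-E l) with hsol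
      have hsolp : ∀ l, sol (l + p) = sol l := by
        intro l
        have e1 : J (l + p + 1) = J (l + 1) := by
          rw [hJ]
          simp only
          rw [show l + p + 1 = l + 1 + p by ring, hper]
        have e2 : E (l + p) = E l := by
          rw [hE]
          simp only
          rw [show l + p + 1 = l + 1 + p by ring, hA1, hA1, hcper]
        simp only [hsol, e1, e2]
      set a : ℕ → Fin N → Ω := fun l => sol (l + (p - 1)) with ha
      have ha1 : ∀ l, a (l + 1) = sol l := by
        intro l
        rw [ha]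
        simp only
        rw [show l + 1 + (p - 1) = l + p by omega, hsolp]
      have hap : ∀ l, a (l + p) = a l := by
        intro l
        rw [ha]
        simp only
        rw [show l + p + (p - 1) = l + (p - 1) + p by omega, hsolp]
      refine ⟨fun l i => A l i + Polynomial.X ^ T * Polynomial.C (a l i), fun l => ?_, fun l i => ?_,
        fun l i => ?_⟩
      · simp only [hA1, hap]
      · rw [Polynomial.coeff_add, hA2, Polynomial.coeff_zero_eq_eval_zero, Polynomial.eval_mul,
          Polynomial.eval_pow, Polynomial.eval_X, zero_pow (by omega), zero_mul, add_zero]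
      · -- the homogenised map
        have h1 : (Polynomial.X : Polynomial Ω) ^ (T + 1) ∣
            homP d Φ (fun i => A (l + 1) i + Polynomial.X ^ T * Polynomial.C (a (l + 1) i)) i -
              homP d Φ (A (l + 1)) i - Polynomial.X ^ T * Polynomial.C
                (∑ j, a (l + 1) j * aeval (q (l + 1)) (pderiv j (homogeneousComponent d (Φ i)))) := by
          have hcf : (fun i => (A (l + 1) i).coeff 0) = q (l + 1) := by
            funext i; exact hA2 _ _
          have h2 : ∀ e, (Polynomial.X : Polynomial Ω) ^ (T + 1) ∣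
              aeval (fun i => A (l + 1) i + Polynomial.X ^ T * Polynomial.C (a (l + 1) i))
                (homogeneousComponent e (Φ i)) - aeval (A (l + 1)) (homogeneousComponent e (Φ i)) -
              Polynomial.X ^ T * Polynomial.C (∑ j, a (l + 1) j *
                aeval (q (l + 1)) (pderiv j (homogeneousComponent e (Φ i)))) := by
            intro e
            have := taylor (homogeneousComponent e (Φ i)) hT (A (l + 1)) (a (l + 1))
            rwa [hcf] at this
          unfold homP
          rw [Finset.sum_range_succ, Finset.sum_range_succ, Nat.sub_self, pow_zero, one_mul, one_mul]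
          have h3 := h2 d
          have h4 : (Polynomial.X : Polynomial Ω) ^ (T + 1) ∣
              ∑ e ∈ Finset.range d, (Polynomial.X ^ (d - e) *
                aeval (fun i => A (l + 1) i + Polynomial.X ^ T * Polynomial.C (a (l + 1) i))
                (homogeneousComponent e (Φ i)) - Polynomial.X ^ (d - e) *
                aeval (A (l + 1)) (homogeneousComponent e (Φ i))) := by
            refine Finset.dvd_sum fun e he => ?_
            have he' : 1 ≤ d - e := by have := Finset.mem_range.1 he; omega
            have h5 := Dvd.dvd.mul_left (h2 e) (Polynomial.X ^ (d - e))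
            have h6 : (Polynomial.X : Polynomial Ω) ^ (T + 1) ∣ Polynomial.X ^ (d - e) *
                (Polynomial.X ^ T * Polynomial.C (∑ j, a (l + 1) j *
                aeval (q (l + 1)) (pderiv j (homogeneousComponent e (Φ i))))) := by
              rw [← mul_assoc, ← pow_add]
              exact Dvd.dvd.mul_right (pow_dvd_pow _ (by omega)) _
            have h7 := dvd_add h5 h6
            convert h7 using 1
            ring
          have h8 := dvd_add h4 h3
          convert h8 using 1
          rw [Finset.sum_sub_distrib]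
          ring
        -- composition
        have h9 : (Polynomial.X : Polynomial Ω) ^ (T + 1) ∣ Polynomial.C (c l) *
            (A l i + Polynomial.X ^ T * Polynomial.C (a l i)).comp
              (Polynomial.C (c l)⁻¹ * Polynomial.X ^ d) -
            Polynomial.C (c l) * (A l i).comp (Polynomial.C (c l)⁻¹ * Polynomial.X ^ d) := by
          rw [Polynomial.add_comp, mul_add, add_sub_cancel_left, Polynomial.mul_comp,
            Polynomial.pow_comp, Polynomial.X_comp, Polynomial.C_comp, mul_pow, ← pow_mul]
          refine Dvd.dvd.mul_left (Dvd.dvd.mul_right (Dvd.dvd.mul_left (pow_dvd_pow _ ?_) _) _) _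
          nlinarith
        have h10 := sub_coeff_dvd (hA3 l i)
        -- the linear system
        have h11 : ∑ j, a (l + 1) j * aeval (q (l + 1)) (pderiv j (homogeneousComponent d (Φ i))) =
            -E l i := by
          have h12 : (J (l + 1)).mulVec (sol l) = -E l := by
            rw [hsol]
            simp only
            rw [Matrix.mulVec_mulVec, Matrix.mul_nonsing_inv _ (hJu _), Matrix.one_mulVec]
          have h13 := congrFun h12 i
          rw [ha1]
          rw [Pi.neg_apply] at h13
          rw [← h13]
          unfold Matrix.mulVec dotProduct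
          refine Finset.sum_congr rfl fun j _ => ?_
          rw [mul_comm]
          rfl
        rw [h11] at h1
        have h14 := dvd_sub (dvd_add h1 h10) h9
        convert h14 using 1
        simp only [hE, Polynomial.C_neg]
        ring

theorem exists_arcs {Φ : Fin N → MvPolynomial (Fin N) K} (hd : 2 ≤ d) {q : ℕ → Fin N → Ω} {p : ℕ}
    (hp : 0 < p) (hper : ∀ l, q (l + p) = q l) {c : ℕ → Ω} (hc : ∀ l, c l ≠ 0)
    (hcper : ∀ l, c (l + p) = c l) (hstep : ∀ l, infMap d Φ (q (l + 1)) = c l • q l)
    (hjac : ∀ l, jac d Φ (q l) ≠ 0) (F : IntermediateField K Ω) (hF : ∀ l j, q l j ∈ F)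
    (hcF : ∀ l, c l ∈ F) (T : ℕ) :
    ∃ A : ℕ → Fin N → Polynomial Ω, (∀ l, A (l + p) = A l) ∧ (∀ l i m, (A l i).coeff m ∈ F) ∧
      (∀ l i, (A l i).coeff 0 = q l i) ∧
      ∀ l i, (Polynomial.X : Polynomial Ω) ^ T ∣ homP d Φ (A (l + 1)) i -
        Polynomial.C (c l) * (A l i).comp (Polynomial.C (c l)⁻¹ * Polynomial.X ^ d) := by
  set q' : ℕ → Fin N → F := fun l j => ⟨q l j, hF l j⟩ with hq'
  set c' : ℕ → F := fun l => ⟨c l, hcF l⟩ with hc'
  have hval : ∀ (l : ℕ) (f : MvPolynomial (Fin N) K),
      ((aeval (q' l) f : F) : Ω) = aeval (q l) f := by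
    intro l f
    have h := DFunLike.congr_fun (MvPolynomial.comp_aeval (q' l) F.val) f
    exact h
  have hper' : ∀ l, q' (l + p) = q' l := fun l => by
    funext j
    apply Subtype.ext
    exact congrFun (hper l) j
  have hcper' : ∀ l, c' (l + p) = c' l := fun l => Subtype.ext (hcper l)
  have hstep' : ∀ l, infMap d Φ (q' (l + 1)) = c' l • q' l := fun l => by
    funext j
    apply Subtype.ext
    have h1 := congrFun (hstep l) j
    change ((aeval (q' (l + 1)) (homogeneousComponent d (Φ j)) : F) : Ω) = _
    rw [hval]
    exact h1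
  have hjac' : ∀ l, jac d Φ (q' l) ≠ 0 := fun l h => by
    apply hjac l
    have h1 : ((jac d Φ (q' l) : F) : Ω) = jac d Φ (q l) := by
      unfold jac
      have h2 := RingHom.map_det (F.val : F →+* Ω) (Matrix.of fun i j =>
        aeval (q' l) (pderiv j (homogeneousComponent d (Φ i))))
      refine Eq.trans h2 ?_
      congr 1
      ext i j
      exact hval l _
    rw [← h1, h]
    rfl
  obtain ⟨A, hA1, hA2, hA3⟩ := arcs0 hd hp hper' hcper' hstep' hjac' T
  refine ⟨fun l i => (A l i).map (algebraMap F Ω), fun l => by simp only [hA1], fun l i m => ?_,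
    fun l i => ?_, fun l i => ?_⟩
  · rw [Polynomial.coeff_map]
    exact ((A l i).coeff m).2
  · rw [Polynomial.coeff_map, hA2]
    rfl
  · have h1 := map_dvd (Polynomial.mapRingHom (algebraMap F Ω)) (hA3 l i)
    simp only [map_sub, map_mul, map_pow, Polynomial.coe_mapRingHom, Polynomial.map_X,
      Polynomial.map_C, Polynomial.map_comp, Polynomial.map_mul, Polynomial.map_pow] at h1
    have h2 : ∀ e, (aeval (A (l + 1)) (homogeneousComponent e (Φ i))).map (algebraMap F Ω) =
        aeval (fun i => (A (l + 1) i).map (algebraMap F Ω)) (homogeneousComponent e (Φ i)) := by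
      intro e
      have h := DFunLike.congr_fun (MvPolynomial.comp_aeval (A (l + 1))
        ((Polynomial.mapAlgHom (F.val)) : Polynomial F →ₐ[K] Polynomial Ω))
        (homogeneousComponent e (Φ i))
      exact h
    have h3 : (homP d Φ (A (l + 1)) i).map (algebraMap F Ω) =
        homP d Φ (fun i => (A (l + 1) i).map (algebraMap F Ω)) i := by
      unfold homP
      rw [Polynomial.map_sum]
      refine Finset.sum_congr rfl fun e _ => ?_
      rw [Polynomial.map_mul, Polynomial.map_pow, Polynomial.map_X, h2]
    rw [h3] at h1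
    exact h1

end Pool.Agent.Helper26.RC
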