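import Pool.Agent.Helper26.RC.Defs

/-! Block RC-DIM (about 150 lines): few linear conditions, so the zero set is small; minimal primes.

`trdeg_of_jets`. Suppose `trdeg_K (K[x]/Q) > 1`. The classes of the `X i` generate, so two of them, `X i`, `X j`, are algebraically independent over `K` modulo `Q` (`exists_isTranscendenceBasis_subset` of the set of generators; a
transcendence basis inside it has at least two elements). Then the monomials `X i ^ a X j ^ b`, `a + b ≤ δ` (there are `(δ + 2).choose 2` of them) are linearly independent over `K` modulo `Q`. The `K`-linear map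
`p ↦ ((jet δ p A).coeff m)_{m < T}` on their span has values in `F ^ T`, a `K`-vector space of dimension `≤ 2 T` (`hA`, coefficients of `p` are in `K`), so some nonzero `p` in the span has `X ^ T ∣ jet δ p A`
(`Polynomial.X_pow_dvd_iff`), `totalDegree ≤ δ`, so `p ∈ Q`: contradiction.

`prime_eq`. Let `f ∈ P ∖ Q`. Not all `X i` are algebraic modulo `P` (`hP`; generators) so some `X i` is transcendental over `K` modulo `P`. `X i` and `f` are algebraically dependent modulo `Q` (`hQ`, `AlgebraicIndependent.cardinalMk_le_trdeg`): `∑_j a_j (X i) f ^ j ∈ Q`,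
`a_j ∈ K[T]` not all zero; divide by the power `f ^ k`, `k` least with `a_k ≠ 0` (`Q` prime, `f ∉ Q`): `a_k (X i) + f (..) ∈ Q ⊂ P`, so `a_k (X i) ∈ P`: contradiction.

`van_transc`. If `K[x] / van U x` is algebraic over `K`, then for every `i` there is `p_i ≠ 0` in `K[T]` with `p_i (x n i) = 0` a.e.; so `x n` is a.e. in a finite set (product of the root sets), and an ultrafilter containing a finite union
of sets contains one of them: `x n = c` a.e., contradiction. -/

set_option autoImplicit false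

namespace Pool.Agent.Helper26.RC

open MvPolynomial Filter Topology

variable {K Ω : Type*} [Field K] [Field Ω] [Algebra K Ω] {N : ℕ}

section Aux

variable {K : Type*} [Field K] {N : ℕ}

private theorem cd_aeval_mk {n : ℕ} (Q : Ideal (MvPolynomial (Fin N) K)) (v : Fin n → MvPolynomial (Fin N) K)
    (p : MvPolynomial (Fin n) K) :
    aeval (fun i => Ideal.Quotient.mk Q (v i)) p = Ideal.Quotient.mk Q (aeval v p) := by
  have h := MvPolynomial.comp_aeval v (Ideal.Quotient.mkₐ K Q)
  have h2 := congrArg (fun φ : MvPolynomial (Fin n) K →ₐ[K] (MvPolynomial (Fin N) K ⧸ Q) => φ p) h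
  exact h2.symm

private theorem cd_paeval_mk (Q : Ideal (MvPolynomial (Fin N) K)) (v : MvPolynomial (Fin N) K)
    (p : Polynomial K) :
    Polynomial.aeval (Ideal.Quotient.mk Q v) p = Ideal.Quotient.mk Q (Polynomial.aeval v p) :=
  Polynomial.aeval_algHom_apply (Ideal.Quotient.mkₐ K Q) v p

private theorem cd_alg_of_X (P : Ideal (MvPolynomial (Fin N) K)) [P.IsPrime]
    (h : ∀ i, IsAlgebraic K (Ideal.Quotient.mk P (X i))) :
    Algebra.IsAlgebraic K (MvPolynomial (Fin N) K ⧸ P) := by
  constructor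
  intro b
  obtain ⟨p, rfl⟩ := Ideal.Quotient.mk_surjective b
  rw [isAlgebraic_iff_isIntegral]
  induction p using MvPolynomial.induction_on with
  | C a => exact isIntegral_algebraMap (R := K) (A := MvPolynomial (Fin N) K ⧸ P) (x := a)
  | add p q hp hq =>
    rw [map_add]
    exact hp.add hq
  | mul_X p i hp =>
    rw [map_mul]
    exact hp.mul (isAlgebraic_iff_isIntegral.1 (h i))

/-- the index set of the monomials of degree at most `δ` in two variables -/
private abbrev CdI (δ : ℕ) : Type := (e : Fin (δ + 1)) × Fin (e.1 + 1)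

private theorem cd_card (δ : ℕ) : Fintype.card (CdI δ) = (δ + 2).choose 2 := by
  rw [Fintype.card_sigma]
  simp only [Fintype.card_fin]
  rw [Fin.sum_univ_eq_sum_range (fun e => e + 1) (δ + 1)]
  induction δ with
  | zero => rfl
  | succ δ ih =>
    rw [Finset.sum_range_succ, ih, Nat.choose_succ_succ (δ + 2) 1, Nat.choose_one_right, add_comm]

private noncomputable def cdMon {n : ℕ} (i j : Fin n) {δ : ℕ} (z : CdI δ) : MvPolynomial (Fin n) K :=
  X i ^ (z.2 : ℕ) * X j ^ ((z.1 : ℕ) - z.2)

private theorem cd_linInd (δ : ℕ) :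
    LinearIndependent K (fun z : CdI δ => (cdMon 0 1 z : MvPolynomial (Fin 2) K)) := by
  have h1 := (MvPolynomial.basisMonomials (Fin 2) K).linearIndependent
  have h2 : Function.Injective (fun z : CdI δ =>
      (Finsupp.single (0 : Fin 2) (z.2 : ℕ) + Finsupp.single (1 : Fin 2) ((z.1 : ℕ) - z.2) :
        Fin 2 →₀ ℕ)) := by
    rintro ⟨e, a⟩ ⟨e', a'⟩ h
    have h0 := DFunLike.congr_fun h 0
    have h1 := DFunLike.congr_fun h 1
    simp only [Finsupp.add_apply, Finsupp.single_apply] at h0 h1
    simp at h0 h1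
    have hea : (e : ℕ) = e' := by
      have := a.2
      have := a'.2
      omega
    have he : e = e' := Fin.ext hea
    subst he
    have ha : a = a' := Fin.ext h0
    rw [ha]
  have h3 := h1.comp _ h2
  have e : (fun z : CdI δ => (cdMon 0 1 z : MvPolynomial (Fin 2) K)) =
      (MvPolynomial.basisMonomials (Fin 2) K) ∘ (fun z : CdI δ =>
      (Finsupp.single (0 : Fin 2) (z.2 : ℕ) + Finsupp.single (1 : Fin 2) ((z.1 : ℕ) - z.2) :
        Fin 2 →₀ ℕ)) := by
    funext z
    unfold cdMon
    rw [Function.comp_apply, MvPolynomial.coe_basisMonomials, X_pow_eq_monomial, X_pow_eq_monomial,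
      monomial_mul, one_mul]
  rw [e]
  exact h3

private theorem cd_deg {n : ℕ} (i j : Fin n) {δ : ℕ} (c : CdI δ → K) :
    (Fintype.linearCombination K (fun z => (cdMon i j z : MvPolynomial (Fin n) K)) c).totalDegree ≤ δ := by
  rw [← mem_restrictTotalDegree, Fintype.linearCombination_apply]
  refine Submodule.sum_mem _ fun z _ => Submodule.smul_mem _ _ ?_
  rw [mem_restrictTotalDegree]
  unfold cdMon
  refine (totalDegree_mul _ _).trans ?_
  refine (add_le_add (totalDegree_pow _ _) (totalDegree_pow _ _)).trans ?_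
  rw [totalDegree_X, totalDegree_X, mul_one, mul_one]
  have h1 := z.2.2
  have h2 := z.1.2
  omega

/-- the jet is linear -/
private noncomputable def cdJet {L : Type*} [Field L] [Algebra K L] (δ : ℕ) (A : Fin N → Polynomial L) :
    MvPolynomial (Fin N) K →ₗ[K] Polynomial L where
  toFun g := jet δ g A
  map_add' g g' := by
    unfold jet
    rw [← Finset.sum_add_distrib]
    refine Finset.sum_congr rfl fun e _ => ?_
    rw [map_add, map_add, mul_add]
  map_smul' c g := by
    unfold jet
    rw [RingHom.id_apply, Finset.smul_sum]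
    refine Finset.sum_congr rfl fun e _ => ?_
    rw [map_smul, map_smul, mul_smul_comm]

private theorem cd_jet_map {L Ω : Type*} [Field L] [Field Ω] [Algebra K L] [Algebra K Ω] (f : L →ₐ[K] Ω)
    (δ : ℕ) (A : Fin N → Polynomial L) (g : MvPolynomial (Fin N) K) :
    jet δ g (fun i => (A i).map (f : L →+* Ω)) = (jet δ g A).map (f : L →+* Ω) := by
  unfold jet
  rw [Polynomial.map_sum]
  refine Finset.sum_congr rfl fun e _ => ?_
  rw [Polynomial.map_mul, Polynomial.map_pow, Polynomial.map_X]
  congr 1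
  have h := MvPolynomial.comp_aeval A (Polynomial.mapAlgHom f)
  have h2 := congrArg (fun φ : MvPolynomial (Fin N) K →ₐ[K] Polynomial Ω =>
    φ (homogeneousComponent e g)) h
  exact h2.symm

end Aux

theorem trdeg_of_jets (F : IntermediateField K Ω) [FiniteDimensional K F]
    (hF : Module.finrank K F ≤ 2) {A : Fin N → Polynomial Ω} (hA : ∀ i m, (A i).coeff m ∈ F)
    {T δ : ℕ} (h : 2 * T < (δ + 2).choose 2) (Q : Ideal (MvPolynomial (Fin N) K)) [Q.IsPrime]
    (hQ : ∀ p : MvPolynomial (Fin N) K, p.totalDegree ≤ δ →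
      (Polynomial.X : Polynomial Ω) ^ T ∣ jet δ p A → p ∈ Q) :
    Algebra.trdeg K (MvPolynomial (Fin N) K ⧸ Q) ≤ 1 := by
  by_contra hcon
  push Not at hcon
  -- two independent generators
  set s : Set (MvPolynomial (Fin N) K ⧸ Q) := Set.range fun i => Ideal.Quotient.mk Q (X i) with hs
  have htop : Algebra.adjoin K s = ⊤ := by
    have h1 : s = (Ideal.Quotient.mkₐ K Q) '' (Set.range (X : Fin N → MvPolynomial (Fin N) K)) := by
      rw [← Set.range_comp]
      rfl
    rw [h1, ← AlgHom.map_adjoin, adjoin_range_X, Algebra.map_top, AlgHom.range_eq_top]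
    exact Ideal.Quotient.mk_surjective
  have halg : Algebra.IsAlgebraic (Algebra.adjoin K s) (MvPolynomial (Fin N) K ⧸ Q) := by
    have hsur : Function.Surjective (algebraMap (Algebra.adjoin K s) (MvPolynomial (Fin N) K ⧸ Q)) := by
      intro b
      exact ⟨⟨b, by rw [htop]; trivial⟩, rfl⟩
    constructor
    intro b
    obtain ⟨y, rfl⟩ := hsur b
    exact isAlgebraic_algebraMap y
  obtain ⟨t, hts, ht⟩ := exists_isTranscendenceBasis_subset (R := K) s
  have hnt : Nontrivial t := by
    rw [← Cardinal.one_lt_iff_nontrivial, ht.cardinalMk_eq_trdeg]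
    exact hcon
  obtain ⟨u, v, huv⟩ := hnt.exists_pair_ne
  obtain ⟨i, hi⟩ := hts u.2
  obtain ⟨j, hj⟩ := hts v.2
  have hind : AlgebraicIndependent K (fun k : Fin 2 => Ideal.Quotient.mk Q ((![X i, X j] :
      Fin 2 → MvPolynomial (Fin N) K) k)) := by
    have h1 := ht.1.comp (![u, v] : Fin 2 → t) (by
      intro a b hab
      fin_cases a <;> fin_cases b <;> simp_all)
    convert h1 using 1
    funext k
    fin_cases k
    · exact hi
    · exact hj
  -- lift of the arc to `F`
  have hex : ∀ i, ∃ B : Polynomial F, B.map (F.val : F →+* Ω) = A i := by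
    intro i
    have h1 : A i ∈ Polynomial.lifts (F.val : F →+* Ω) := by
      rw [Polynomial.lifts_iff_coeff_lifts]
      intro m
      exact ⟨⟨(A i).coeff m, hA i m⟩, rfl⟩
    exact (Polynomial.mem_lifts _).1 h1
  choose B hB using hex
  have hAB : A = fun i => (B i).map (F.val : F →+* Ω) := funext fun i => (hB i).symm
  set G : (CdI δ → K) →ₗ[K] MvPolynomial (Fin N) K :=
    Fintype.linearCombination K (fun z => (cdMon i j z : MvPolynomial (Fin N) K)) with hG
  set Lm : (CdI δ → K) →ₗ[K] (Fin T → F) :=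
    (LinearMap.pi fun m : Fin T => (Polynomial.lcoeff F (m : ℕ)).restrictScalars K) ∘ₗ
      (cdJet δ B) ∘ₗ G with hLm
  have hker : LinearMap.ker Lm ≠ ⊥ := by
    refine LinearMap.ker_ne_bot_of_finrank_lt ?_
    rw [Module.finrank_fintype_fun_eq_card, cd_card, Module.finrank_pi_fintype, Finset.sum_const,
      Finset.card_univ, Fintype.card_fin, smul_eq_mul]
    calc T * Module.finrank K F ≤ T * 2 := Nat.mul_le_mul_left _ hF
      _ = 2 * T := mul_comm _ _
      _ < _ := h
  obtain ⟨c, hc, hc0⟩ := Submodule.exists_mem_ne_zero_of_ne_bot hker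
  rw [LinearMap.mem_ker] at hc
  have hdvd : (Polynomial.X : Polynomial F) ^ T ∣ jet δ (G c) B := by
    rw [Polynomial.X_pow_dvd_iff]
    intro m hm
    exact congrFun hc ⟨m, hm⟩
  have hdvd2 : (Polynomial.X : Polynomial Ω) ^ T ∣ jet δ (G c) A := by
    rw [hAB, cd_jet_map]
    have h1 := Polynomial.map_dvd (F.val : F →+* Ω) hdvd
    rwa [Polynomial.map_pow, Polynomial.map_X] at h1
  have hmem : G c ∈ Q := hQ _ (cd_deg i j c) hdvd2
  have hG2 : G c = aeval (![X i, X j] : Fin 2 → MvPolynomial (Fin N) K)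
      (Fintype.linearCombination K (fun z => (cdMon 0 1 z : MvPolynomial (Fin 2) K)) c) := by
    rw [hG, Fintype.linearCombination_apply, Fintype.linearCombination_apply, map_sum]
    refine Finset.sum_congr rfl fun z _ => ?_
    rw [map_smul]
    unfold cdMon
    rw [map_mul, map_pow, map_pow, aeval_X, aeval_X]
    rfl
  have hzero : Fintype.linearCombination K (fun z => (cdMon 0 1 z : MvPolynomial (Fin 2) K)) c = 0 := by
    refine hind.eq_zero_of_aeval_eq_zero _ ?_
    rw [cd_aeval_mk, ← hG2, Ideal.Quotient.eq_zero_iff_mem]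
    exact hmem
  rw [Fintype.linearCombination_apply] at hzero
  exact hc0 (funext fun z => (Fintype.linearIndependent_iff.1 (cd_linInd δ)) c hzero z)

theorem prime_eq {Q P : Ideal (MvPolynomial (Fin N) K)} [Q.IsPrime] [P.IsPrime] (hQP : Q ≤ P)
    (hQ : Algebra.trdeg K (MvPolynomial (Fin N) K ⧸ Q) ≤ 1)
    (hP : ¬ Algebra.IsAlgebraic K (MvPolynomial (Fin N) K ⧸ P)) : Q = P := by
  refine le_antisymm hQP fun f hf => ?_
  by_contra hfQ
  obtain ⟨i, hi⟩ : ∃ i, ¬ IsAlgebraic K (Ideal.Quotient.mk P (X i)) := by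
    by_contra hall
    push Not at hall
    exact hP (cd_alg_of_X P hall)
  have htr : Transcendental K (Ideal.Quotient.mk Q (X i : MvPolynomial (Fin N) K)) := by
    rintro ⟨p, hp, hp0⟩
    refine hi ⟨p, hp, ?_⟩
    rw [cd_paeval_mk, Ideal.Quotient.eq_zero_iff_mem] at hp0 ⊢
    exact hQP hp0
  have hind : AlgebraicIndependent K (fun _ : PUnit.{1} => Ideal.Quotient.mk Q
      (X i : MvPolynomial (Fin N) K)) := by
    rw [algebraicIndependent_unique_type_iff]
    exact htr
  have hb := hind.isTranscendenceBasis_of_lift_trdeg_le_of_finite (by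
    rw [Cardinal.mk_punit, Cardinal.lift_one, Cardinal.lift_le_one_iff]
    exact hQ)
  have halg := hb.isAlgebraic
  have hf0 : Ideal.Quotient.mk Q f ≠ 0 := fun h0 => hfQ (Ideal.Quotient.eq_zero_iff_mem.1 h0)
  obtain ⟨r, hr, b, hrb⟩ := (halg.isAlgebraic (Ideal.Quotient.mk Q f)).exists_nonzero_dvd
    (mem_nonZeroDivisors_of_ne_zero hf0)
  have hr2 : (r : MvPolynomial (Fin N) K ⧸ Q) ∈
      Algebra.adjoin K ({Ideal.Quotient.mk Q (X i)} : Set (MvPolynomial (Fin N) K ⧸ Q)) :=
    Algebra.adjoin_mono (by rintro _ ⟨_, rfl⟩; rfl) r.2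
  rw [Algebra.adjoin_singleton_eq_range_aeval] at hr2
  obtain ⟨p, hp⟩ := hr2
  have hp0 : p ≠ 0 := by
    rintro rfl
    apply hr
    apply Subtype.ext
    rw [← hp]
    exact map_zero _
  obtain ⟨b, rfl⟩ := Ideal.Quotient.mk_surjective b
  have e1 : Ideal.Quotient.mk Q (Polynomial.aeval (X i) p) = Ideal.Quotient.mk Q (f * b) := by
    rw [map_mul, ← hrb, ← cd_paeval_mk]
    exact hp
  have e2 : Polynomial.aeval (X i) p - f * b ∈ P := hQP (Ideal.Quotient.eq.1 e1)
  have e3 : Polynomial.aeval (X i : MvPolynomial (Fin N) K) p ∈ P := by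
    have := P.add_mem e2 (P.mul_mem_right b hf)
    rwa [sub_add_cancel] at this
  refine hi ⟨p, hp0, ?_⟩
  rw [cd_paeval_mk, Ideal.Quotient.eq_zero_iff_mem]
  exact e3

theorem van_transc {U : Ultrafilter ℕ} {x : ℕ → Fin N → K}
    (hx : ∀ c : Fin N → K, ∀ᶠ n in (U : Filter ℕ), x n ≠ c) :
    ¬ Algebra.IsAlgebraic K (MvPolynomial (Fin N) K ⧸ van U x) := by
  intro halg
  have hex : ∀ i, ∃ p : Polynomial K, p ≠ 0 ∧ ∀ᶠ n in (U : Filter ℕ), p.eval (x n i) = 0 := by
    intro i
    obtain ⟨p, hp, hp0⟩ := halg.isAlgebraic (Ideal.Quotient.mk (van U x) (X i))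
    rw [cd_paeval_mk, Ideal.Quotient.eq_zero_iff_mem, mem_van] at hp0
    refine ⟨p, hp, ?_⟩
    filter_upwards [hp0] with n hn
    have e : eval (x n) (Polynomial.aeval (X i : MvPolynomial (Fin N) K) p) = p.eval (x n i) := by
      have h1 := Polynomial.aeval_algHom_apply (aeval (R := K) (x n)) (X i : MvPolynomial (Fin N) K) p
      rw [aeval_X, Polynomial.coe_aeval_eq_eval] at h1
      rw [h1, ← MvPolynomial.coe_aeval_eq_eval]
      rfl
    rw [← e]
    exact hn
  choose p hp hpe using hex
  have hfin : {c : Fin N → K | ∀ i, c i ∈ (p i).rootSet K}.Finite :=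
    Set.Finite.pi' fun i => Polynomial.rootSet_finite (p i) K
  have hev : ∀ᶠ n in (U : Filter ℕ), ∃ c ∈ {c : Fin N → K | ∀ i, c i ∈ (p i).rootSet K},
      x n = c := by
    have h1 : ∀ᶠ n in (U : Filter ℕ), ∀ i, (p i).eval (x n i) = 0 := eventually_all.2 hpe
    filter_upwards [h1] with n hn
    refine ⟨x n, fun i => ?_, rfl⟩
    rw [Polynomial.mem_rootSet]
    exact ⟨hp i, by rw [Polynomial.coe_aeval_eq_eval]; exact hn i⟩
  rw [Ultrafilter.eventually_exists_mem_iff hfin] at hev
  obtain ⟨c, -, hc⟩ := hev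
  obtain ⟨n, h1, h2⟩ := (hc.and (hx c)).exists
  exact h2 h1

end Pool.Agent.Helper26.RC
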