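import Pool.Agent.Helper26.RC.Rates
import Pool.Agent.Helper26.RC.Cert

/-! Block RC-GROW (about 150 lines): growth of the local sizes along an orbit.

`sz_pmap`: let `s = sz μ x`. Upper bound: `eval_le` for every `Φ i` (`μ (Φ_i (x)) ≤ C s ^ d` as `1 ≤ s`). Lower bound: `x_i ^ (e + d) = ∑_j Q_ij (x) Φ_{j,d} (x)`, `Φ_{j,d} (x) = Φ_j (x) - (lower terms)`, lower terms `≤ C s ^ (d-1)`:
`μ (x_i) ^ (e+d) ≤ C s ^ e (S' + s ^ (d-1))` with `S' = sz μ (Φ (x))`. Sum over `i` (`s ≤ 1 + N max`, so `s ^ (e+d) ≤ C (1 + ∑ μ (x_i) ^ (e+d))`): `s ^ (e+d) ≤ C' s ^ e (S' + s ^ (d-1))` (absorbing `1 ≤ S'`), `s ^ d ≤ C' (S' + s ^ (d-1))`.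
If `s ≥ 2 C'` then `s ^ d ≤ 2 C' S'`; otherwise `s ^ d ≤ (2 C') ^ d ≤ (2 C') ^ d S'`. Take logarithms.

`grow_seq`: `b n = a n / d ^ n`, `|b (n+1) - b n| ≤ C / d ^ (n+1)`; `b` is Cauchy with limit `G`, `|b n - G| ≤ ∑_{k ≥ n} C / d ^ (k+1) ≤ C / d ^ n` (`d ≥ 2`).

`orb_growth`: `a n = log (sz (av v) (orb Φ α n)) ≥ 0`; `G ≥ 0` because `a n / d ^ n → G`. -/

set_option autoImplicit false

namespace Pool.Agent.Helper26.RC

open MvPolynomial Filter Topology NumberField
open Pool.Agent.Helper64.Vojta (Pl nv)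

private theorem rem_deg53 {K : Type*} [Field K] {N d : ℕ} (hd : 1 ≤ d) (p : MvPolynomial (Fin N) K)
    (hp : p.totalDegree ≤ d) :
    ∃ R : MvPolynomial (Fin N) K, R.totalDegree ≤ d - 1 ∧ homogeneousComponent d p = p - R := by
  refine ⟨∑ k ∈ Finset.range d, homogeneousComponent k p, ?_, ?_⟩
  · refine totalDegree_finsetSum_le fun k hk => ?_
    have h1 := (homogeneousComponent_isHomogeneous k p).totalDegree_le
    have h2 := Finset.mem_range.mp hk
    omega
  · have h1 : ∑ k ∈ Finset.range (d + 1), homogeneousComponent k p = p := by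
      conv_rhs => rw [← sum_homogeneousComponent p]
      symm
      refine Finset.sum_subset (Finset.range_subset_range.mpr (by omega)) fun k _ hk => ?_
      apply homogeneousComponent_eq_zero
      have := Finset.mem_range.not.mp hk
      omega
    rw [Finset.sum_range_succ] at h1
    rw [eq_sub_iff_add_eq, add_comm]
    exact h1

theorem sz_pmap {K : Type*} [Field K] {N d : ℕ} {Φ : Fin N → MvPolynomial (Fin N) K} (hd : 1 ≤ d)
    (hdeg : ∀ i, (Φ i).totalDegree ≤ d) {e : ℕ} {Q : Fin N → Fin N → MvPolynomial (Fin N) K}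
    (hQ : ∀ i j, (Q i j).IsHomogeneous e)
    (hc : ∀ i, (X i : MvPolynomial (Fin N) K) ^ (e + d) = ∑ j, Q i j * homogeneousComponent d (Φ j))
    (μ : AbsoluteValue K ℝ) :
    ∃ C : ℝ, ∀ x, |Real.log (sz μ (pmap Φ x)) - d * Real.log (sz μ x)| ≤ C := by
  classical
  have hsz1 : ∀ x : Fin N → K, 1 ≤ sz μ x := one_le_sz μ
  -- upper bound
  have hup : ∃ CU : ℝ, 1 ≤ CU ∧ ∀ x, sz μ (pmap Φ x) ≤ CU * sz μ x ^ d := by
    choose c hc0 hc1 using fun i => eval_le μ (Φ i)
    have h0 : 0 ≤ ∑ i, c i := Finset.sum_nonneg fun i _ => (hc0 i).le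
    refine ⟨1 + ∑ i, c i, by linarith, fun x => ?_⟩
    have hs := hsz1 x
    have hsd : 1 ≤ sz μ x ^ d := one_le_pow₀ hs
    have h1 : sz μ (pmap Φ x) ≤ 1 + ∑ i, c i * sz μ x ^ d := by
      unfold sz
      have : ∑ i, μ (pmap Φ x i) ≤ ∑ i, c i * (1 + ∑ i, μ (x i)) ^ d := by
        refine Finset.sum_le_sum fun i _ => ?_
        refine (hc1 i x).trans ?_
        exact mul_le_mul_of_nonneg_left (pow_le_pow_right₀ hs (hdeg i)) (hc0 i).le
      linarith
    rw [← Finset.sum_mul] at h1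
    linarith
  -- lower bound
  have hlo : ∃ CL : ℝ, 1 ≤ CL ∧ ∀ x, sz μ x ^ d ≤ CL * (sz μ (pmap Φ x) + sz μ x ^ (d - 1)) := by
    choose R hR1 hR2 using fun j => rem_deg53 hd (Φ j) (hdeg j)
    choose cR hcR0 hcR1 using fun j => eval_le μ (R j)
    choose cQ hcQ0 hcQ1 using fun p : Fin N × Fin N => eval_le μ (Q p.1 p.2)
    set A : ℝ := 1 + ∑ i, ∑ j, cQ (i, j) * (1 + cR j) with hA
    have hAnn : ∀ i j, 0 ≤ cQ (i, j) * (1 + cR j) := fun i j =>
      mul_nonneg (hcQ0 _).le (by have := hcR0 j; linarith)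
    have hA1 : 1 ≤ A := by
      have : 0 ≤ ∑ i, ∑ j, cQ (i, j) * (1 + cR j) :=
        Finset.sum_nonneg fun i _ => Finset.sum_nonneg fun j _ => hAnn i j
      linarith
    refine ⟨((N : ℝ) + 1) ^ (e + d) * A, ?_, fun x => ?_⟩
    · have : (1 : ℝ) ≤ ((N : ℝ) + 1) ^ (e + d) := one_le_pow₀ (by have : (0 : ℝ) ≤ N := Nat.cast_nonneg _; linarith)
      nlinarith
    · have hs := hsz1 x
      have hS := hsz1 (pmap Φ x)
      set s := sz μ x with hsdef
      set S' := sz μ (pmap Φ x) with hSdef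
      have hse : 1 ≤ s ^ e := one_le_pow₀ hs
      have hsd1 : 1 ≤ s ^ (d - 1) := one_le_pow₀ hs
      set P : ℝ := A * s ^ e * (S' + s ^ (d - 1)) with hP
      have hP1 : 1 ≤ P := by
        have h1 : 1 ≤ A * s ^ e := by nlinarith
        nlinarith
      have hxi : ∀ i, μ (x i) ^ (e + d) ≤ P := by
        intro i
        have h1 : x i ^ (e + d) = ∑ j, eval x (Q i j) * (eval x (Φ j) - eval x (R j)) := by
          have := congrArg (eval x) (hc i)
          rw [map_pow, eval_X, map_sum] at this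
          rw [this]
          refine Finset.sum_congr rfl fun j _ => ?_
          rw [map_mul, hR2 j, map_sub]
        rw [← map_pow, h1]
        refine (μ.sum_le _ _).trans ?_
        have h2 : ∀ j ∈ (Finset.univ : Finset (Fin N)), μ (eval x (Q i j) * (eval x (Φ j) - eval x (R j))) ≤
            (cQ (i, j) * (1 + cR j)) * (s ^ e * (S' + s ^ (d - 1))) := by
          intro j _
          rw [map_mul]
          have hq : μ (eval x (Q i j)) ≤ cQ (i, j) * s ^ e :=
            (hcQ1 (i, j) x).trans (mul_le_mul_of_nonneg_left (pow_le_pow_right₀ hs (hQ i j).totalDegree_le) (hcQ0 _).le)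
          have hr : μ (eval x (R j)) ≤ cR j * s ^ (d - 1) :=
            (hcR1 j x).trans (mul_le_mul_of_nonneg_left (pow_le_pow_right₀ hs (hR1 j)) (hcR0 _).le)
          have hp : μ (eval x (Φ j)) ≤ S' := le_sz μ (pmap Φ x) j
          have hd2 : μ (eval x (Φ j) - eval x (R j)) ≤ (1 + cR j) * (S' + s ^ (d - 1)) := by
            have h3 : μ (eval x (Φ j) - eval x (R j)) ≤ μ (eval x (Φ j)) + μ (eval x (R j)) := by
              have := μ.add_le (eval x (Φ j)) (-(eval x (R j)))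
              rwa [← sub_eq_add_neg, μ.map_neg] at this
            have h4 := hcR0 j
            nlinarith
          calc μ (eval x (Q i j)) * μ (eval x (Φ j) - eval x (R j)) ≤
              (cQ (i, j) * s ^ e) * ((1 + cR j) * (S' + s ^ (d - 1))) :=
                mul_le_mul hq hd2 (μ.nonneg _) (mul_nonneg (hcQ0 _).le (by positivity))
            _ = _ := by ring
        refine (Finset.sum_le_sum h2).trans ?_
        rw [← Finset.sum_mul]
        have h5 : ∑ j, cQ (i, j) * (1 + cR j) ≤ A := by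
          have := Finset.single_le_sum (f := fun i => ∑ j, cQ (i, j) * (1 + cR j))
            (fun i _ => Finset.sum_nonneg fun j _ => hAnn i j) (Finset.mem_univ i)
          linarith
        calc (∑ j, cQ (i, j) * (1 + cR j)) * (s ^ e * (S' + s ^ (d - 1))) ≤ A * (s ^ e * (S' + s ^ (d - 1))) :=
              mul_le_mul_of_nonneg_right h5 (by positivity)
          _ = P := by rw [hP]; ring
      have hp0 : e + d ≠ 0 := by omega
      set t : ℝ := P ^ (((e + d : ℕ) : ℝ)⁻¹) with ht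
      have htp : t ^ (e + d) = P := Real.rpow_inv_natCast_pow (by linarith) hp0
      have ht0 : 0 ≤ t := Real.rpow_nonneg (by linarith) _
      have ht1 : 1 ≤ t := by
        by_contra hcon
        push Not at hcon
        have := pow_lt_one₀ ht0 hcon hp0
        rw [htp] at this
        linarith
      have hxt : ∀ i, μ (x i) ≤ t := by
        intro i
        refine (pow_le_pow_iff_left₀ (μ.nonneg _) ht0 hp0).mp ?_
        rw [htp]
        exact hxi i
      have hst : s ≤ ((N : ℝ) + 1) * t := by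
        have h1 : ∑ i, μ (x i) ≤ ∑ _i : Fin N, t := Finset.sum_le_sum fun i _ => hxt i
        rw [Finset.sum_const, Finset.card_univ, Fintype.card_fin, nsmul_eq_mul] at h1
        have h2 : s = 1 + ∑ i, μ (x i) := rfl
        rw [h2]
        linarith
      have h6 : s ^ (e + d) ≤ ((N : ℝ) + 1) ^ (e + d) * P := by
        calc s ^ (e + d) ≤ (((N : ℝ) + 1) * t) ^ (e + d) := pow_le_pow_left₀ (by linarith) hst _
          _ = _ := by rw [mul_pow, htp]
      have hse0 : 0 < s ^ e := by linarith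
      rw [pow_add, hP] at h6
      have h7 : s ^ e * s ^ d ≤ s ^ e * (((N : ℝ) + 1) ^ (e + d) * A * (S' + s ^ (d - 1))) := by
        calc s ^ e * s ^ d ≤ _ := h6
          _ = _ := by ring
      exact le_of_mul_le_mul_left h7 hse0
  obtain ⟨CU, hCU, hup⟩ := hup
  obtain ⟨CL, hCL, hlo⟩ := hlo
  refine ⟨Real.log CU + d * Real.log (2 * CL), fun x => ?_⟩
  have hs := hsz1 x
  have hS := hsz1 (pmap Φ x)
  have h1 := hup x
  have h2 := hlo x
  set s := sz μ x with hsdef
  set S' := sz μ (pmap Φ x) with hSdef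
  have hlU : 0 ≤ Real.log CU := Real.log_nonneg hCU
  have hlL : 0 ≤ Real.log (2 * CL) := Real.log_nonneg (by linarith)
  have hdL : 0 ≤ (d : ℝ) * Real.log (2 * CL) := mul_nonneg (Nat.cast_nonneg _) hlL
  have h3 : Real.log S' ≤ Real.log CU + d * Real.log s := by
    have := Real.log_le_log (by linarith) h1
    rwa [Real.log_mul (by linarith) (by positivity), Real.log_pow] at this
  have h4 : s ^ d ≤ (2 * CL) ^ d * S' := by
    rcases le_total (2 * CL) s with hcase | hcase
    · have h5 : s ^ d = s * s ^ (d - 1) := by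
        rw [← pow_succ']
        congr 1
        omega
      have hsd1 : 1 ≤ s ^ (d - 1) := one_le_pow₀ hs
      have h6 : s ^ d ≤ 2 * CL * S' := by nlinarith
      have h7 : 2 * CL ≤ (2 * CL) ^ d := le_self_pow₀ (by linarith) (by omega)
      nlinarith
    · have h5 : s ^ d ≤ (2 * CL) ^ d := pow_le_pow_left₀ (by linarith) hcase _
      have h6 : 0 ≤ (2 * CL) ^ d := by positivity
      nlinarith
  have h5 : d * Real.log s ≤ d * Real.log (2 * CL) + Real.log S' := by
    have := Real.log_le_log (by positivity) h4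
    rwa [Real.log_mul (by positivity) (by linarith), Real.log_pow, Real.log_pow] at this
  rw [abs_le]
  constructor <;> linarith

theorem grow_seq {a : ℕ → ℝ} {d : ℕ} (hd : 2 ≤ d) {C : ℝ} (h : ∀ n, |a (n + 1) - d * a n| ≤ C) :
    ∃ G : ℝ, ∀ n, |a n - G * d ^ n| ≤ C := by
  have hd2 : (2 : ℝ) ≤ d := by exact_mod_cast hd
  have hd0 : (0 : ℝ) < d := by linarith
  have hC : 0 ≤ C := (abs_nonneg _).trans (h 0)
  have hstep : ∀ n, dist (a n / (d : ℝ) ^ n) (a (n + 1) / (d : ℝ) ^ (n + 1)) ≤ (C / d) * (1 / (d : ℝ)) ^ n := by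
    intro n
    have hp : (0 : ℝ) < (d : ℝ) ^ n := by positivity
    have h1 : a n / (d : ℝ) ^ n - a (n + 1) / (d : ℝ) ^ (n + 1) = -(a (n + 1) - d * a n) / (d : ℝ) ^ (n + 1) := by
      rw [pow_succ]
      field_simp
      ring
    rw [Real.dist_eq, h1, abs_div, abs_neg, abs_of_pos (by positivity : (0 : ℝ) < (d : ℝ) ^ (n + 1))]
    calc |a (n + 1) - d * a n| / (d : ℝ) ^ (n + 1) ≤ C / (d : ℝ) ^ (n + 1) :=
          div_le_div_of_nonneg_right (h n) (by positivity)
      _ = (C / d) * (1 / (d : ℝ)) ^ n := by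
          rw [pow_succ, div_pow, one_pow]
          field_simp
  have hr : 1 / (d : ℝ) < 1 := by
    rw [div_lt_one hd0]
    linarith
  obtain ⟨G, hG⟩ := cauchySeq_tendsto_of_complete (cauchySeq_of_le_geometric (1 / (d : ℝ)) (C / d) hr hstep)
  refine ⟨G, fun n => ?_⟩
  have h2 := dist_le_of_le_geometric_of_tendsto (1 / (d : ℝ)) (C / d) hr hstep hG n
  have hp : (0 : ℝ) < (d : ℝ) ^ n := by positivity
  rw [Real.dist_eq] at h2
  have h3 : |a n - G * (d : ℝ) ^ n| = |a n / (d : ℝ) ^ n - G| * (d : ℝ) ^ n := by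
    rw [← abs_of_pos hp, ← abs_mul, abs_of_pos hp]
    congr 1
    field_simp
  rw [h3]
  calc |a n / (d : ℝ) ^ n - G| * (d : ℝ) ^ n ≤ (C / d * (1 / (d : ℝ)) ^ n / (1 - 1 / d)) * (d : ℝ) ^ n :=
        mul_le_mul_of_nonneg_right h2 hp.le
    _ = C / (d - 1) := by
        have hd1 : (d : ℝ) - 1 ≠ 0 := by linarith
        have : (1 : ℝ) - 1 / d = (d - 1) / d := by field_simp
        rw [this, div_pow, one_pow]
        field_simp
    _ ≤ C := div_le_self hC (by linarith)

theorem orb_growth {K Ω : Type*} [Field K] [NumberField K] [Field Ω] [Algebra K Ω] [IsAlgClosed Ω]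
    {N d : ℕ} {Φ : Fin N → MvPolynomial (Fin N) K} (hd : 2 ≤ d) (h : Reg Ω d Φ) (α : Fin N → K)
    (v : Pl K) :
    ∃ G C : ℝ, 0 ≤ G ∧ ∀ n, |Real.log (sz (av v) (orb Φ α n)) - G * d ^ n| ≤ C := by
  obtain ⟨e, Q, hQ, hc⟩ := exists_cert h
  obtain ⟨C, hC⟩ := sz_pmap (by omega) h.1 hQ hc (av v)
  obtain ⟨G, hG⟩ := grow_seq (a := fun n => Real.log (sz (av v) (orb Φ α n))) hd (C := C) (fun n => by
    have := hC (orb Φ α n)
    have h1 : orb Φ α (n + 1) = pmap Φ (orb Φ α n) := Function.iterate_succ_apply' _ _ _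
    rw [h1]
    exact this)
  refine ⟨G, C, ?_, hG⟩
  by_contra hneg
  push Not at hneg
  have hd2 : (1 : ℝ) < d := by
    have : (2 : ℝ) ≤ d := by exact_mod_cast hd
    linarith
  obtain ⟨n, hn⟩ := pow_unbounded_of_one_lt (C / (-G)) hd2
  have h1 := (abs_le.mp (hG n)).2
  have h2 : 0 ≤ Real.log (sz (av v) (orb Φ α n)) := Real.log_nonneg (one_le_sz _ _)
  rw [div_lt_iff₀ (by linarith)] at hn
  nlinarith

end Pool.Agent.Helper26.RC
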