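import Pool.Agent.Helper26.RC.Step
import Pool.Agent.Helper21.V2.BB
import Pool.Agent.Helper21.V2.AR5

/-! Block RC-LIO (about 200 lines): a polynomial which vanishes on the arc to high order vanishes on the curve (product formula).

Let `y = emb Ω x`, `s n` the parameters of `hF`. (1) `(jet δ p A).eval s = ∑_{e ≤ δ} s ^ (δ - e) p_e (A (s))` and, because `deg p ≤ δ`, `∑_{e ≤ δ} s ^ (δ - e) p_e (s y) = s ^ δ p (y)` (`p_e` homogeneous of degree `e`, `p = ∑ p_e`).
The two differ by at most `C max_i μ (s y_i - A_i (s)) ≤ C' μ (s) ^ T` (the arguments stay bounded), and `X ^ T ∣ jet` gives `μ (jet.eval s) ≤ C μ (s) ^ T`. So `μ (p (y n)) ≤ C μ (s n) ^ (T - δ)` a.e.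
(2) `s y → q ≠ 0` (`hA`, `Nrm q`), so `μ (s n) * sz μ (y n)` is bounded above and below by positive constants a.e. (below: `q i = 1`; above: `sz μ (y) ≤ 1 + N max`). `sz μ (y n) = sz (av v) (x n)` (`Ext.base`).
(3) `T > δ` because `T wt_v g_v > δ ∑ ≥ δ wt_v g_v`. So `av v (p (x n)) ≤ C (sz (av v) (x n)) ^ (-(T - δ))`, and `nv v = av v ^ wt v`: `log nv v (p (x n)) ≤ - (T - δ) wt_v (g_v + o(1)) t n`.
(4) For `w ∈ S`, `w ≠ v`: `log nv w (p (x n)) ≤ δ wt_w log sz (av w) (x n) + C` (`eval_le` for the absolute value `av w` over `K`) `= (δ wt_w g_w + o(1)) t n`. For `w ∉ S`: `nv w (p (x n)) ≤ max (1, coefficients)`, which is `1` for all but finitely many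
`w`, and the finitely many others contribute `O(1)`.
(5) If `p ∉ van U x` then `p (x n) ≠ 0` a.e. and by the product formula `∑_w log nv w (p (x n)) = 0` (`gsum`; see `Pool/Agent/Helper21/V2/BA.lean`, `BB.lean`, or `NumberField.prod_abs_eq_one`) `≤ (- (T - δ) wt_v g_v + δ ∑_{w ≠ v} wt_w g_w + o(1)) t n < 0`
a.e. by `hT`: contradiction. -/

set_option autoImplicit false

namespace Pool.Agent.Helper26.RC

open MvPolynomial Filter Topology NumberField
open Pool.Agent.Helper64.Vojta (Pl nv)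

variable {K Ω : Type*} [Field K] [NumberField K] [Field Ω] [Algebra K Ω] {N : ℕ}

namespace Lio

/-- polynomials are bounded and Lipschitz on bounded sets -/
theorem lip {K Ω : Type*} [Field K] [Field Ω] [Algebra K Ω] {N : ℕ} (μ : AbsoluteValue Ω ℝ) (B : ℝ)
    (f : MvPolynomial (Fin N) K) :
    ∃ C M : ℝ, 0 ≤ C ∧ 0 ≤ M ∧ ∀ Y Y' : Fin N → Ω, (∀ i, μ (Y i) ≤ B) → (∀ i, μ (Y' i) ≤ B) →
      μ (aeval Y f) ≤ M ∧ μ (aeval Y f - aeval Y' f) ≤ C * ∑ i, μ (Y i - Y' i) := by
  induction f using MvPolynomial.induction_on with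
  | C a =>
    refine ⟨0, μ (algebraMap K Ω a), le_rfl, μ.nonneg _, fun Y Y' _ _ => ?_⟩
    simp
  | add f g hf hg =>
    obtain ⟨C, M, hC, hM, h⟩ := hf
    obtain ⟨C', M', hC', hM', h'⟩ := hg
    refine ⟨C + C', M + M', by positivity, by positivity, fun Y Y' hY hY' => ?_⟩
    have h1 := h Y Y' hY hY'
    have h2 := h' Y Y' hY hY'
    constructor
    · rw [map_add]
      exact (μ.add_le _ _).trans (add_le_add h1.1 h2.1)
    · rw [map_add, map_add, add_sub_add_comm, add_mul]
      exact (μ.add_le _ _).trans (add_le_add h1.2 h2.2)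
  | mul_X f i hf =>
    obtain ⟨C, M, hC, hM, h⟩ := hf
    refine ⟨C * |B| + M, M * |B|, by positivity, by positivity, fun Y Y' hY hY' => ?_⟩
    have h1 := h Y Y' hY hY'
    have hS : μ (Y i - Y' i) ≤ ∑ i, μ (Y i - Y' i) :=
      Finset.single_le_sum (f := fun i => μ (Y i - Y' i)) (fun i _ => μ.nonneg _) (Finset.mem_univ i)
    have hS0 : 0 ≤ ∑ i, μ (Y i - Y' i) := Finset.sum_nonneg fun i _ => μ.nonneg _
    constructor
    · rw [map_mul, aeval_X, map_mul]
      exact mul_le_mul h1.1 ((hY i).trans (le_abs_self B)) (μ.nonneg _) hM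
    · rw [map_mul, map_mul, aeval_X, aeval_X]
      have e : aeval Y f * Y i - aeval Y' f * Y' i =
          (aeval Y f - aeval Y' f) * Y' i + aeval Y f * (Y i - Y' i) := by ring
      rw [e]
      refine (μ.add_le _ _).trans ?_
      rw [map_mul, map_mul]
      have h2 : μ (aeval Y f - aeval Y' f) * μ (Y' i) ≤ (C * ∑ i, μ (Y i - Y' i)) * |B| :=
        mul_le_mul h1.2 ((hY' i).trans (le_abs_self B)) (μ.nonneg _) (by positivity)
      have h3 : μ (aeval Y f) * μ (Y i - Y' i) ≤ M * ∑ i, μ (Y i - Y' i) :=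
        mul_le_mul h1.1 hS (μ.nonneg _) hM
      nlinarith

/-- one variable polynomials are bounded on the unit ball -/
theorem bdd1 {Ω : Type*} [Field Ω] (μ : AbsoluteValue Ω ℝ) (r : Polynomial Ω) :
    ∃ C : ℝ, 0 ≤ C ∧ ∀ s, μ s ≤ 1 → μ (r.eval s) ≤ C := by
  refine ⟨∑ k ∈ Finset.range (r.natDegree + 1), μ (r.coeff k),
    Finset.sum_nonneg fun k _ => μ.nonneg _, fun s hs => ?_⟩
  rw [Polynomial.eval_eq_sum_range]
  refine (μ.sum_le _ _).trans (Finset.sum_le_sum fun k _ => ?_)
  rw [map_mul, map_pow]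
  exact mul_le_of_le_one_right (μ.nonneg _) (pow_le_one₀ (μ.nonneg _) hs)

/-- the value of the homogenised polynomial -/
noncomputable def jv {K Ω : Type*} [Field K] [Field Ω] [Algebra K Ω] {N : ℕ} (δ : ℕ)
    (p : MvPolynomial (Fin N) K) (s : Ω) (Y : Fin N → Ω) : Ω :=
  ∑ e ∈ Finset.range (δ + 1), s ^ (δ - e) * aeval Y (homogeneousComponent e p)

theorem aeval_smul {K Ω : Type*} [Field K] [Field Ω] [Algebra K Ω] {N : ℕ}
    {f : MvPolynomial (Fin N) K} {m : ℕ} (hf : f.IsHomogeneous m) (c : Ω) (z : Fin N → Ω) :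
    aeval (fun i => c * z i) f = c ^ m * aeval z f := by
  rw [aeval_def, aeval_def, eval₂_eq', eval₂_eq', Finset.mul_sum]
  refine Finset.sum_congr rfl fun s hs => ?_
  have h1 : ∑ i, s i = m := by
    have := hf (mem_support_iff.1 hs)
    rw [Finsupp.weight_apply, Finsupp.sum_fintype _ _ (by simp)] at this
    simpa using this
  have h2 : ∏ i, (c * z i) ^ s i = c ^ m * ∏ i, z i ^ s i := by
    simp only [mul_pow]
    rw [Finset.prod_mul_distrib, Finset.prod_pow_eq_pow_sum, h1]
  rw [h2]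
  ring

theorem jv_scale {K Ω : Type*} [Field K] [Field Ω] [Algebra K Ω] {N : ℕ} {δ : ℕ}
    {p : MvPolynomial (Fin N) K} (hp : p.totalDegree ≤ δ) (s : Ω) (y : Fin N → Ω) :
    jv δ p s (fun i => s * y i) = s ^ δ * aeval y p := by
  unfold jv
  have h1 : p = ∑ e ∈ Finset.range (δ + 1), homogeneousComponent e p := by
    conv_lhs => rw [← sum_homogeneousComponent p]
    refine Finset.sum_subset (Finset.range_mono (by omega)) fun e _ he => ?_
    refine homogeneousComponent_eq_zero _ _ ?_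
    rw [Finset.mem_range] at he
    omega
  conv_rhs => rw [h1, map_sum, Finset.mul_sum]
  refine Finset.sum_congr rfl fun e he => ?_
  have h2 : e ≤ δ := by
    rw [Finset.mem_range] at he
    omega
  rw [aeval_smul (homogeneousComponent_isHomogeneous e p), ← mul_assoc, ← pow_add,
    Nat.sub_add_cancel h2]

theorem jet_eval {K Ω : Type*} [Field K] [Field Ω] [Algebra K Ω] {N : ℕ} (δ : ℕ)
    (p : MvPolynomial (Fin N) K) (A : Fin N → Polynomial Ω) (s : Ω) :
    (jet δ p A).eval s = jv δ p s (fun j => (A j).eval s) := by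
  unfold jet jv
  rw [Polynomial.eval_finsetSum]
  refine Finset.sum_congr rfl fun e _ => ?_
  rw [Polynomial.eval_mul, Polynomial.eval_pow, Polynomial.eval_X]
  congr 1
  generalize homogeneousComponent e p = f
  induction f using MvPolynomial.induction_on with
  | C a => simp [Polynomial.algebraMap_apply]
  | add f g hf hg => rw [map_add, map_add, Polynomial.eval_add, hf, hg]
  | mul_X f i hf => rw [map_mul, map_mul, Polynomial.eval_mul, hf, aeval_X, aeval_X]

theorem jv_lip {K Ω : Type*} [Field K] [Field Ω] [Algebra K Ω] {N : ℕ} (μ : AbsoluteValue Ω ℝ)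
    (B : ℝ) (δ : ℕ) (p : MvPolynomial (Fin N) K) :
    ∃ C : ℝ, 0 ≤ C ∧ ∀ (s : Ω) (Y Y' : Fin N → Ω), μ s ≤ 1 → (∀ i, μ (Y i) ≤ B) →
      (∀ i, μ (Y' i) ≤ B) → μ (jv δ p s Y - jv δ p s Y') ≤ C * ∑ i, μ (Y i - Y' i) := by
  choose C M hC hM h using fun e : ℕ => lip μ B (homogeneousComponent e p)
  refine ⟨∑ e ∈ Finset.range (δ + 1), C e, Finset.sum_nonneg fun e _ => hC e,
    fun s Y Y' hs hY hY' => ?_⟩
  unfold jv
  rw [← Finset.sum_sub_distrib, Finset.sum_mul]
  refine (μ.sum_le _ _).trans (Finset.sum_le_sum fun e _ => ?_)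
  rw [← mul_sub, map_mul, map_pow]
  refine le_trans (mul_le_of_le_one_left (μ.nonneg _) (pow_le_one₀ (μ.nonneg _) hs)) ?_
  exact (h e Y Y' hY hY').2

/-- Local estimates at the distinguished place. -/
theorem local_est {K Ω : Type*} [Field K] [Field Ω] [Algebra K Ω] {N : ℕ} (U : Ultrafilter ℕ)
    {μ : AbsoluteValue Ω ℝ} {y : ℕ → Fin N → Ω} {q : Fin N → Ω} (hqn : Nrm q)
    {A : Fin N → Polynomial Ω} (hA : ∀ i, (A i).coeff 0 = q i) {T δ : ℕ} (hTδ : δ < T)
    (hF : Follow μ U y A T) {p : MvPolynomial (Fin N) K} (hp : p.totalDegree ≤ δ)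
    (hjet : (Polynomial.X : Polynomial Ω) ^ T ∣ jet δ p A) :
    ∃ C : ℝ, 0 < C ∧ ∀ᶠ n in (U : Filter ℕ),
      μ (aeval (y n) p) * sz μ (y n) ^ (T - δ) ≤ C := by
  obtain ⟨s, hs0, hs, C, hC⟩ := hF
  choose MA hMA hMAb using fun i => bdd1 μ (A i)
  -- the remainder of the coordinates at `0`
  have hrem : ∀ i, ∃ r : Polynomial Ω, A i = Polynomial.C (q i) + Polynomial.X * r := by
    intro i
    refine ⟨(A i).divX, ?_⟩
    rw [← hA i]
    conv_lhs => rw [← Polynomial.divX_mul_X_add (A i)]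
    ring
  obtain ⟨i0, hi0, -⟩ := hqn
  obtain ⟨r0, hr0⟩ := hrem i0
  obtain ⟨Cr, hCr, hCrb⟩ := bdd1 μ r0
  obtain ⟨w, hw⟩ := hjet
  obtain ⟨Cw, hCw, hCwb⟩ := bdd1 μ w
  set B : ℝ := ∑ i, MA i + |C| with hB
  obtain ⟨CL, hCL, hLip⟩ := jv_lip (Ω := Ω) μ B δ p
  have hT0 : 0 < T := by omega
  have hsmall : ∀ᶠ n in (U : Filter ℕ), μ (s n) < min 1 (1 / (2 * (|C| + Cr + 1))) :=
    hs.eventually (gt_mem_nhds (lt_min one_pos (by positivity)))
  have hBn : 0 ≤ B := by
    rw [hB]
    exact add_nonneg (Finset.sum_nonneg fun i _ => hMA i) (abs_nonneg C)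
  refine ⟨(Cw + CL * (N * |C|) + 1) * (1 + N * B) ^ (T - δ), by positivity, ?_⟩
  filter_upwards [hs0, hC, hsmall] with n h0 h1 h2
  have hs1 : μ (s n) < 1 := h2.trans_le (min_le_left _ _)
  have hs2 : μ (s n) < 1 / (2 * (|C| + Cr + 1)) := h2.trans_le (min_le_right _ _)
  have hsp : 0 < μ (s n) := μ.pos h0
  have hTle : μ (s n) ^ T ≤ μ (s n) := by
    calc μ (s n) ^ T ≤ μ (s n) ^ 1 := pow_le_pow_of_le_one hsp.le hs1.le hT0
      _ = μ (s n) := pow_one _
  have h1' : ∀ i, μ (s n * y n i - (A i).eval (s n)) ≤ |C| * μ (s n) ^ T := by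
    intro i
    have h3 := h1 i
    rw [Real.rpow_natCast] at h3
    exact h3.trans (mul_le_mul_of_nonneg_right (le_abs_self C) (by positivity))
  have hAb : ∀ i, μ ((A i).eval (s n)) ≤ B := by
    intro i
    refine (hMAb i _ hs1.le).trans ?_
    have : MA i ≤ ∑ i, MA i := Finset.single_le_sum (f := MA) (fun i _ => hMA i) (Finset.mem_univ i)
    rw [hB]
    have := abs_nonneg C
    linarith
  have hYb : ∀ i, μ (s n * y n i) ≤ B := by
    intro i
    have h3 := μ.add_le (s n * y n i - (A i).eval (s n)) ((A i).eval (s n))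
    rw [sub_add_cancel] at h3
    have h4 : MA i ≤ ∑ i, MA i := Finset.single_le_sum (f := MA) (fun i _ => hMA i) (Finset.mem_univ i)
    have h5 : |C| * μ (s n) ^ T ≤ |C| :=
      mul_le_of_le_one_right (abs_nonneg C) (hTle.trans hs1.le)
    have h6 := h1' i
    have h7 := hMAb i _ hs1.le
    rw [hB]
    linarith
  -- size
  have hszU : μ (s n) * sz μ (y n) ≤ 1 + N * B := by
    unfold sz
    rw [mul_add, mul_one, Finset.mul_sum]
    have h3 : ∑ i, μ (s n) * μ (y n i) ≤ ∑ _i : Fin N, B :=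
      Finset.sum_le_sum fun i _ => by rw [← map_mul]; exact hYb i
    rw [Finset.sum_const, Finset.card_univ, Fintype.card_fin, nsmul_eq_mul] at h3
    linarith
  -- main estimate
  have hmain : μ (s n) ^ δ * μ (aeval (y n) p) ≤ (Cw + CL * (N * |C|)) * μ (s n) ^ T := by
    have e1 : μ (s n) ^ δ * μ (aeval (y n) p) = μ (jv δ p (s n) (fun i => s n * y n i)) := by
      rw [jv_scale hp, map_mul, map_pow]
    have e2 : μ (jv δ p (s n) (fun j => (A j).eval (s n))) ≤ Cw * μ (s n) ^ T := by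
      rw [← jet_eval, hw, Polynomial.eval_mul, Polynomial.eval_pow, Polynomial.eval_X, map_mul,
        map_pow, mul_comm]
      exact mul_le_mul_of_nonneg_right (hCwb _ hs1.le) (by positivity)
    have e3 := hLip (s n) (fun i => s n * y n i) (fun j => (A j).eval (s n)) hs1.le hYb hAb
    have e4 : ∑ i, μ (s n * y n i - (A i).eval (s n)) ≤ N * (|C| * μ (s n) ^ T) := by
      have := Finset.sum_le_sum (s := Finset.univ) fun (i : Fin N) _ => h1' i
      rw [Finset.sum_const, Finset.card_univ, Fintype.card_fin, nsmul_eq_mul] at this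
      exact this
    have e5 := μ.add_le (jv δ p (s n) (fun i => s n * y n i) - jv δ p (s n) (fun j => (A j).eval (s n)))
      (jv δ p (s n) (fun j => (A j).eval (s n)))
    rw [sub_add_cancel] at e5
    rw [e1]
    have e6 := mul_le_mul_of_nonneg_left e4 hCL
    nlinarith
  -- conclusion
  have hpow : μ (s n) ^ T = μ (s n) ^ δ * μ (s n) ^ (T - δ) := by
    rw [← pow_add, Nat.add_sub_cancel' hTδ.le]
  rw [hpow] at hmain
  have h3 : μ (aeval (y n) p) ≤ (Cw + CL * (N * |C|)) * μ (s n) ^ (T - δ) := by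
    have hpos : 0 < μ (s n) ^ δ := by positivity
    refine le_of_mul_le_mul_left ?_ hpos
    calc μ (s n) ^ δ * μ (aeval (y n) p) ≤ _ := hmain
      _ = _ := by ring
  have hsz1 := one_le_sz μ (y n)
  have hB0 : 0 ≤ 1 + N * B := by
    have : 0 ≤ μ (s n) * sz μ (y n) := by positivity
    linarith
  calc μ (aeval (y n) p) * sz μ (y n) ^ (T - δ)
      ≤ ((Cw + CL * (N * |C|)) * μ (s n) ^ (T - δ)) * sz μ (y n) ^ (T - δ) :=
        mul_le_mul_of_nonneg_right h3 (by positivity)
    _ = (Cw + CL * (N * |C|)) * (μ (s n) * sz μ (y n)) ^ (T - δ) := by rw [mul_pow]; ring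
    _ ≤ (Cw + CL * (N * |C|)) * (1 + N * B) ^ (T - δ) :=
        mul_le_mul_of_nonneg_left (pow_le_pow_left₀ (by positivity) hszU _) (by positivity)
    _ ≤ (Cw + CL * (N * |C|) + 1) * (1 + N * B) ^ (T - δ) :=
        mul_le_mul_of_nonneg_right (by linarith) (by positivity)

theorem fin_big {K : Type*} [Field K] [NumberField K] (c : K) :
    {w : FinitePlace K | 1 < w c}.Finite := by
  by_cases hc : c = 0
  · have : {w : FinitePlace K | 1 < w c} = ∅ := by
      ext w
      simp only [Set.mem_ofPred_eq, Set.mem_empty_iff_false, iff_false, hc, map_zero]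
      exact not_lt.2 zero_le_one
    rw [this]
    exact Set.finite_empty
  · have h : (Function.mulSupport fun w : FinitePlace K => w c).Finite :=
      FinitePlace.hasFiniteMulSupport hc
    refine h.subset fun w hw => ?_
    rw [Function.mem_mulSupport]
    exact ne_of_gt hw

/-- outside finitely many places the values of a polynomial at integral points are integral -/
theorem fin_bad {K : Type*} [Field K] [NumberField K] {N : ℕ} (p : MvPolynomial (Fin N) K) :
    ∃ T : Finset (Pl K), ∀ w, w ∉ T → ∀ y : Fin N → K, (∀ i, nv w (y i) ≤ 1) →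
      nv w (eval y p) ≤ 1 := by
  classical
  have hT : (⋃ m ∈ (p.support : Set _), {w : FinitePlace K | 1 < w (coeff m p)}).Finite :=
    Set.Finite.biUnion (Finset.finite_toSet _) fun m _ => fin_big _
  refine ⟨(Finset.univ : Finset (InfinitePlace K)).disjSum hT.toFinset, fun v hv y hy => ?_⟩
  rcases v with v | w
  · exact absurd (Finset.inl_mem_disjSum.2 (Finset.mem_univ v)) hv
  · have hw : w ∉ hT.toFinset := fun h => hv (Finset.inr_mem_disjSum.2 h)
    rw [Set.Finite.mem_toFinset] at hw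
    have hf : ∀ m, w (coeff m p) ≤ 1 := by
      intro m
      by_cases hm : m ∈ p.support
      · by_contra hcon
        rw [not_le] at hcon
        apply hw
        simp only [Set.mem_iUnion]
        exact ⟨m, hm, hcon⟩
      · rw [MvPolynomial.notMem_support_iff.1 hm, map_zero]
        exact zero_le_one
    rw [MvPolynomial.eval_eq']
    refine Pool.Agent.Helper64.Vojta.nv_sum_le_inr w _ _ 1 zero_le_one fun m _ => ?_
    change w _ ≤ 1
    rw [map_mul, map_prod]
    refine mul_le_one₀ (hf m) (Finset.prod_nonneg fun j _ => apply_nonneg w _) ?_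
    refine Finset.prod_le_one (fun j _ => apply_nonneg w _) fun j _ => ?_
    rw [map_pow]
    exact pow_le_one₀ (apply_nonneg w _) (hy j)

end Lio

theorem jet_vanish (U : Ultrafilter ℕ) (x : ℕ → Fin N → K) (S : Finset (Pl K))
    (hS : ∀ n, ∀ v, v ∉ S → ∀ i, nv v (x n i) ≤ 1)
    (t : ℕ → ℝ) (ht : Tendsto t (U : Filter ℕ) atTop) (g : Pl K → ℝ)
    (hg : ∀ v ∈ S, Tendsto (fun n => Real.log (sz (av v) (x n)) / t n) (U : Filter ℕ) (𝓝 (g v)))
    {v : Pl K} (hv : v ∈ S) (hgv : 0 < g v) {μ : AbsoluteValue Ω ℝ} (hμ : Ext v μ)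
    {q : Fin N → Ω} (hqn : Nrm q) {A : Fin N → Polynomial Ω} (hA : ∀ i, (A i).coeff 0 = q i)
    {T δ : ℕ} (hF : Follow μ U (emb Ω x) A T)
    (hT : δ * ∑ w ∈ S, wt w * g w < T * (wt v * g v)) {p : MvPolynomial (Fin N) K}
    (hp : p.totalDegree ≤ δ) (hjet : (Polynomial.X : Polynomial Ω) ^ T ∣ jet δ p A) :
    p ∈ van U x := by
  classical
  have hlog0 : ∀ w n, 0 ≤ Real.log (sz (av w) (x n)) := fun w n =>
    Real.log_nonneg (one_le_sz (av w) (x n))
  have hg0 : ∀ w ∈ S, 0 ≤ g w := by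
    intro w hw
    refine ge_of_tendsto (hg w hw) ?_
    filter_upwards [ht.eventually_gt_atTop 0] with n hn
    exact div_nonneg (hlog0 w n) hn.le
  have hTδ : δ < T := by
    have h1 : (wt v * g v : ℝ) ≤ ∑ w ∈ S, wt w * g w :=
      Finset.single_le_sum (f := fun w => (wt w * g w : ℝ))
        (fun w hw => mul_nonneg (Nat.cast_nonneg _) (hg0 w hw)) hv
    have h2 : (0 : ℝ) < wt v * g v := mul_pos (Nat.cast_pos.2 (wt_pos v)) hgv
    have h3 : (δ : ℝ) * (wt v * g v) < T * (wt v * g v) :=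
      (mul_le_mul_of_nonneg_left h1 (Nat.cast_nonneg δ)).trans_lt hT
    exact_mod_cast lt_of_mul_lt_mul_right h3 h2.le
  by_contra hcon
  rw [notMem_van] at hcon
  obtain ⟨C, hC0, hC⟩ := Lio.local_est U hqn hA hTδ hF hp hjet
  obtain ⟨R, hR⟩ := Lio.fin_bad p
  choose c hc0 hc using fun w : Pl K => eval_le (av w) p
  set Z : Finset (Pl K) := S ∪ R with hZ
  set G : ℕ → Pl K → ℝ := fun n w =>
    if w ∈ Z then wt w * (Real.log (c w) + δ * Real.log (sz (av w) (x n))) else 0 with hG
  have hGle : ∀ n, eval (x n) p ≠ 0 → ∀ w, Real.log (nv w (eval (x n) p)) ≤ G n w := by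
    intro n hn w
    simp only [hG]
    have hpos : 0 < av w (eval (x n) p) := (av w).pos hn
    have hsz := one_le_sz (av w) (x n)
    split_ifs with h
    · rw [nv_eq, Real.log_pow]
      refine mul_le_mul_of_nonneg_left ?_ (Nat.cast_nonneg _)
      have h1 : av w (eval (x n) p) ≤ c w * sz (av w) (x n) ^ δ :=
        (hc w (x n)).trans (mul_le_mul_of_nonneg_left (pow_le_pow_right₀ hsz hp) (hc0 w).le)
      have h2 := Real.log_le_log hpos h1
      rw [Real.log_mul (hc0 w).ne' (by positivity), Real.log_pow] at h2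
      exact h2
    · rw [hZ, Finset.mem_union, not_or] at h
      exact Real.log_nonpos (Pool.Agent.Helper64.Vojta.nv_nonneg _ _) (hR w h.2 _ (hS n w h.1))
  have hGfin : ∀ n, Pool.Agent.V2.FinS (G n) := fun n =>
    Pool.Agent.V2.AR5.finS_supp Z (G n) fun w hw => by simp only [hG, hw, if_false]
  have hGs : ∀ n, Pool.Agent.V2.gsum (G n) = ∑ w ∈ Z, wt w * (Real.log (c w) +
      δ * Real.log (sz (av w) (x n))) := by
    intro n
    rw [Pool.Agent.V2.AR5.gsum_supp Z (G n) fun w hw => by simp only [hG, hw, if_false]]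
    refine Finset.sum_congr rfl fun w hw => ?_
    simp only [hG, hw, if_true]
  have hvZ : v ∈ Z := Finset.mem_union_left _ hv
  -- the constant
  set D : ℝ := wt v * Real.log C - wt v * Real.log (c v) + ∑ w ∈ Z, wt w * Real.log (c w) +
    δ * ∑ w ∈ Z \ S, wt w * Real.log (1 + N) with hD
  have hszR : ∀ w, w ∉ S → ∀ n, Real.log (sz (av w) (x n)) ≤ Real.log (1 + N) := by
    intro w hw n
    refine Real.log_le_log (lt_of_lt_of_le one_pos (one_le_sz _ _)) ?_
    unfold sz
    have h1 : ∀ i, av w (x n i) ≤ 1 := by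
      intro i
      have := hS n w hw i
      rw [nv_eq] at this
      exact (pow_le_one_iff_of_nonneg ((av w).nonneg _) (wt_pos w).ne').1 this
    have h2 : ∑ i, av w (x n i) ≤ ∑ _i : Fin N, (1 : ℝ) := Finset.sum_le_sum fun i _ => h1 i
    rw [Finset.sum_const, Finset.card_univ, Fintype.card_fin, nsmul_eq_mul, mul_one] at h2
    linarith
  have hkey : ∀ᶠ n in (U : Filter ℕ), T * (wt v * Real.log (sz (av v) (x n))) ≤
      D + δ * ∑ w ∈ S, wt w * Real.log (sz (av w) (x n)) := by
    filter_upwards [hC, hcon] with n h1 h2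
    have e0 : aeval (emb Ω x n) p = algebraMap K Ω (eval (x n) p) := by
      unfold emb
      rw [MvPolynomial.aeval_def, MvPolynomial.eval₂_eq', MvPolynomial.eval_eq', map_sum]
      refine Finset.sum_congr rfl fun m _ => ?_
      rw [map_mul, map_prod]
      simp only [map_pow]
    have e1 : sz μ (emb Ω x n) = sz (av v) (x n) := by
      unfold sz emb
      simp only [hμ.base]
    rw [e0, hμ.base, e1] at h1
    have hpos : 0 < av v (eval (x n) p) := (av v).pos h2
    have hsz := one_le_sz (av v) (x n)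
    have h3 := Real.log_le_log (by positivity) h1
    rw [Real.log_mul hpos.ne' (by positivity), Real.log_pow, Nat.cast_sub hTδ.le] at h3
    have h4 := Pool.Agent.V2.le_nv_of_ne_zero h2 (G n) (hGfin n) (hGle n h2) v
    rw [hGs, nv_eq, Real.log_pow] at h4
    simp only [hG, hvZ, if_true] at h4
    have h5 : ∑ w ∈ Z, wt w * (Real.log (c w) + δ * Real.log (sz (av w) (x n))) =
        ∑ w ∈ Z, wt w * Real.log (c w) + δ * ∑ w ∈ Z, wt w * Real.log (sz (av w) (x n)) := by
      rw [Finset.mul_sum, ← Finset.sum_add_distrib]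
      refine Finset.sum_congr rfl fun w _ => ?_
      ring
    have h6 : ∑ w ∈ Z, (wt w : ℝ) * Real.log (sz (av w) (x n)) ≤
        ∑ w ∈ S, wt w * Real.log (sz (av w) (x n)) + ∑ w ∈ Z \ S, wt w * Real.log (1 + N) := by
      rw [← Finset.sum_sdiff (Finset.subset_union_left : S ⊆ Z), add_comm]
      refine add_le_add le_rfl (Finset.sum_le_sum fun w hw => ?_)
      exact mul_le_mul_of_nonneg_left (hszR w (Finset.mem_sdiff.1 hw).2 n) (Nat.cast_nonneg _)
    have h7 := mul_le_mul_of_nonneg_left h3 (Nat.cast_nonneg (α := ℝ) (wt v))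
    have h8 := mul_le_mul_of_nonneg_left h6 (Nat.cast_nonneg (α := ℝ) δ)
    rw [h5] at h4
    rw [hD]
    nlinarith
  have hlim1 : Tendsto (fun n => T * (wt v * (Real.log (sz (av v) (x n)) / t n))) (U : Filter ℕ)
      (𝓝 (T * (wt v * g v))) := ((hg v hv).const_mul _).const_mul _
  have hlim2 : Tendsto (fun n => D / t n + δ * ∑ w ∈ S, wt w * (Real.log (sz (av w) (x n)) / t n))
      (U : Filter ℕ) (𝓝 (0 + δ * ∑ w ∈ S, wt w * g w)) :=
    (ht.const_div_atTop D).add ((tendsto_finsetSum S fun w hw => (hg w hw).const_mul _).const_mul _)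
  rw [zero_add] at hlim2
  have hle := le_of_tendsto_of_tendsto hlim1 hlim2 (by
    filter_upwards [hkey, ht.eventually_gt_atTop 0] with n h1 h2
    have h3 := div_le_div_of_nonneg_right h1 h2.le
    calc T * (wt v * (Real.log (sz (av v) (x n)) / t n))
        = T * (wt v * Real.log (sz (av v) (x n))) / t n := by ring
      _ ≤ _ := h3
      _ = _ := by
        rw [add_div, mul_div_assoc, Finset.sum_div]
        simp only [mul_div_assoc])
  exact absurd hT (not_lt.2 hle)

end Pool.Agent.Helper26.RC
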