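import Pool.Agent.Helper26.RC.Defs
import Pool.Agent.Helper36.SB.Gal

/-! Block RC-EXT (about 200 lines): absolute values of the algebraic closure above a place.

Infinite `v`: let `φ0 : K →+* ℂ` be `v.embedding` and `φ : Ω →ₐ[K] ℂ` an extension (`IsAlgClosed.lift` for the algebra structure on `ℂ` given by `φ0`), `μ z = ‖φ z‖`.
`μ = v` on `K` (`InfinitePlace.norm_embedding_eq`). For `L`: `w = InfinitePlace.mk (φ restricted to L)`, `w.comap = v` so `w ∈ above L v` (`mem_above`, `InfinitePlace.LiesOver`);
`nv w z = ‖φ z‖ ^ w.mult`, `a = w.mult > 0` (`Real.rpow_natCast`).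

Finite `v`. Let `J` be the directed set of the finite-dimensional intermediate fields of `Ω / K`, and for every `E ∈ J` choose `w_E ∈ above E v` (nonempty: the local degrees sum to
the degree, `sum_ldeg`). Let `𝒰` be an ultrafilter on `J` finer than `atTop` (`J` is directed: compositum). For `z ∈ Ω` put
`μ z = lim_𝒰 (nv w_E z) ^ (1 / ldeg v w_E)` over `E ∋ z`. For `E0 ≤ E` the place `w_E` lies above some `w' ∈ above E0 v` (`exists_below`, transitivity of `above`, `above_unique`), and
`above E0 v` is finite, so `𝒰`-almost surely `w'` is constant `=: w_{E0}'`; and `nv w_E z = nv w' z ^ ldeg w' w_E`, `ldeg v w_E = ldeg v w' * ldeg w' w_E`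
(or: for `z ∈ K` with `v z ≠ 1` compare `nv_above` directly) so `(nv w_E z) ^ (1 / ldeg v w_E) = (nv w' z) ^ (1 / ldeg v w')` for `z ∈ E0`: the limit exists, is eventually constant and on `E0`
`μ z = (nv w' z) ^ (1 / ldeg v w')`. Multiplicativity and the ultrametric inequality (`FinitePlace.add_le`) pass to `μ`. `a = ldeg v w'`. Restricted to `K`: `nv_above` gives `μ = nv v = av v`.
Other route: `spectralNorm` for the completion of `K` at `v` and an embedding of `Ω` in an algebraic closure of the completion, then identify the restrictions to `L`; the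
ultrafilter argument above avoids the identification. `numberField_of` : transitivity of finiteness over `ℚ`. -/

set_option autoImplicit false

namespace Pool.Agent.Helper26.RC

open Filter Topology NumberField
open Pool.Agent.Helper64.Vojta (Pl nv above mem_above)
open Pool.Agent.Helper52.Vojta (ldeg nv_above sum_ldeg)

variable {K Ω : Type*} [Field K] [NumberField K] [Field Ω] [Algebra K Ω]

theorem numberField_of (L : IntermediateField K Ω) [FiniteDimensional K L] : NumberField L :=
  NumberField.of_module_finite K L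

namespace Ext21

/-- The ring of integers of a subfield in the ring of all algebraic integers. -/
noncomputable def inc {L : Type*} [Field L] (j : L →+* Ω) : 𝓞 L →+* integralClosure ℤ Ω :=
  (j.comp (algebraMap (𝓞 L) L)).codRestrict (integralClosure ℤ Ω) fun z =>
    map_isIntegral_int j (RingOfIntegers.isIntegral_coe z)

theorem inc_apply {L : Type*} [Field L] (j : L →+* Ω) (z : 𝓞 L) :
    ((inc j z : integralClosure ℤ Ω) : Ω) = j (z : L) := rfl

section fin

variable {v : FinitePlace K} {Q : Ideal (integralClosure ℤ Ω)} [Q.IsPrime]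
  (hQ : Q.comap (inc (algebraMap K Ω)) = v.maximalIdeal.asIdeal)

include hQ in
theorem mem_iff (L : IntermediateField K Ω) [NumberField L] (z : 𝓞 K) :
    z ∈ v.maximalIdeal.asIdeal ↔
      algebraMap (𝓞 K) (𝓞 L) z ∈ Q.comap (inc (algebraMap L Ω)) := by
  rw [← hQ, Ideal.mem_comap, Ideal.mem_comap]
  have h1 : inc (algebraMap K Ω) z = inc (algebraMap L Ω) (algebraMap (𝓞 K) (𝓞 L) z) := by
    apply Subtype.ext
    rw [inc_apply, inc_apply]
    rfl
  rw [h1]

include hQ in
theorem ne_bot (L : IntermediateField K Ω) [NumberField L] :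
    Q.comap (inc (algebraMap L Ω)) ≠ ⊥ := by
  intro h0
  apply v.maximalIdeal.ne_bot
  rw [eq_bot_iff]
  intro z hz
  rw [mem_iff hQ L, h0, Ideal.mem_bot] at hz
  rw [Ideal.mem_bot]
  apply RingOfIntegers.algebraMap.injective K L
  rw [hz, map_zero]

/-- The place of `L` given by `Q`. -/
noncomputable def wpl (L : IntermediateField K Ω) [NumberField L] : FinitePlace L :=
  FinitePlace.mk ⟨Q.comap (inc (algebraMap L Ω)), inferInstance, ne_bot hQ L⟩

theorem wpl_max (L : IntermediateField K Ω) [NumberField L] :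
    (wpl hQ L).maximalIdeal.asIdeal = Q.comap (inc (algebraMap L Ω)) := by
  unfold wpl
  rw [FinitePlace.maximalIdeal_mk]

theorem wpl_above (L : IntermediateField K Ω) [NumberField L] :
    (Sum.inr (wpl hQ L) : Pl L) ∈ above L (Sum.inr v : Pl K) := by
  rw [mem_above]
  refine (Ideal.liesOver_iff _ _).2 ?_
  ext z
  rw [wpl_max]
  exact mem_iff hQ L z

theorem wpl_above' {L L' : IntermediateField K Ω} [NumberField L] [NumberField L'] (h : L ≤ L') :
    letI : Algebra L L' := (IntermediateField.inclusion h).toRingHom.toAlgebra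
    (Sum.inr (wpl hQ L') : Pl L') ∈ above L' (Sum.inr (wpl hQ L) : Pl L) := by
  let alg : Algebra L L' := (IntermediateField.inclusion h).toRingHom.toAlgebra
  rw [mem_above]
  refine (Ideal.liesOver_iff _ _).2 ?_
  ext z
  rw [wpl_max, wpl_max]
  have h1 : inc (algebraMap L Ω) z = inc (algebraMap L' Ω) (algebraMap (𝓞 L) (𝓞 L') z) := by
    apply Subtype.ext
    rw [inc_apply, inc_apply]
    rfl
  rw [Ideal.mem_comap, h1]
  rfl

/-- The absolute value on `L`. -/
noncomputable def NN (L : IntermediateField K Ω) [NumberField L] (z : L) : ℝ :=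
  nv (Sum.inr (wpl hQ L) : Pl L) z ^
    ((1 : ℝ) / ldeg (Sum.inr v : Pl K) (Sum.inr (wpl hQ L) : Pl L))

/-- An element of value strictly between 0 and 1. -/
theorem exists_small (v : FinitePlace K) : ∃ c : K, 0 < v c ∧ v c < 1 := by
  obtain ⟨c, hc, hc0⟩ := Submodule.exists_mem_ne_zero_of_ne_bot v.maximalIdeal.ne_bot
  refine ⟨(c : K), ?_, ?_⟩
  · rw [FinitePlace.pos_iff]
    exact RingOfIntegers.coe_ne_zero_iff.mpr hc0
  · rw [← FinitePlace.norm_embedding_eq]
    exact (FinitePlace.norm_lt_one_iff_mem K v.maximalIdeal c).mpr hc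

theorem ldeg_ne {L : Type*} [Field L] [NumberField L] [Algebra K L] {ν : Pl K} {w : Pl L}
    (h : w ∈ above L ν) : ldeg ν w ≠ 0 := by
  intro h0
  have h5 := nv_above h (0 : K)
  rw [h0, pow_zero, map_zero, Helper64.Vojta.nv_zero] at h5
  exact zero_ne_one h5

theorem NN_incl {L L' : IntermediateField K Ω} [NumberField L] [NumberField L'] (h : L ≤ L')
    (z : L) : NN hQ L' ⟨z, h z.2⟩ = NN hQ L z := by
  let alg : Algebra L L' := (IntermediateField.inclusion h).toRingHom.toAlgebra
  have h1 : (Sum.inr (wpl hQ L') : Pl L') ∈ above L' (Sum.inr (wpl hQ L) : Pl L) :=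
    wpl_above' hQ h
  have hz := nv_above h1 z
  have hz' : algebraMap L L' z = ⟨z, h z.2⟩ := rfl
  rw [hz'] at hz
  obtain ⟨c, hc0, hc1⟩ := exists_small v
  have e1 := nv_above (wpl_above hQ L) c
  have e2 := nv_above (wpl_above hQ L') c
  have e3 := nv_above h1 (algebraMap K L c)
  have e4 : algebraMap L L' (algebraMap K L c) = algebraMap K L' c := rfl
  rw [e4, e2, e1, ← pow_mul] at e3
  have e5 := pow_right_injective₀ hc0 hc1.ne e3
  have hd' := ldeg_ne (wpl_above hQ L')
  have hd := ldeg_ne (wpl_above hQ L)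
  rw [e5] at hd'
  have hm := right_ne_zero_of_mul hd'
  unfold NN
  rw [hz, e5, ← Real.rpow_natCast, ← Real.rpow_mul (Helper64.Vojta.nv_nonneg _ _)]
  congr 1
  push_cast
  have hm' : (ldeg (Sum.inr (wpl hQ L) : Pl L) (Sum.inr (wpl hQ L') : Pl L') : ℝ) ≠ 0 :=
    Nat.cast_ne_zero.mpr hm
  have hd'' : (ldeg (Sum.inr v : Pl K) (Sum.inr (wpl hQ L) : Pl L) : ℝ) ≠ 0 :=
    Nat.cast_ne_zero.mpr hd
  field_simp

theorem NN_pow (L : IntermediateField K Ω) [NumberField L] (z : L) :
    nv (Sum.inr (wpl hQ L) : Pl L) z =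
      NN hQ L z ^ (ldeg (Sum.inr v : Pl K) (Sum.inr (wpl hQ L) : Pl L) : ℝ) := by
  have hd : (ldeg (Sum.inr v : Pl K) (Sum.inr (wpl hQ L) : Pl L) : ℝ) ≠ 0 :=
    Nat.cast_ne_zero.mpr (ldeg_ne (wpl_above hQ L))
  unfold NN
  rw [← Real.rpow_mul (Helper64.Vojta.nv_nonneg _ _), one_div, inv_mul_cancel₀ hd, Real.rpow_one]

theorem NN_nonneg (L : IntermediateField K Ω) [NumberField L] (z : L) : 0 ≤ NN hQ L z :=
  Real.rpow_nonneg (Helper64.Vojta.nv_nonneg _ _) _

theorem NN_mul (L : IntermediateField K Ω) [NumberField L] (z z' : L) :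
    NN hQ L (z * z') = NN hQ L z * NN hQ L z' := by
  unfold NN
  rw [Helper64.Vojta.nv_mul, Real.mul_rpow (Helper64.Vojta.nv_nonneg _ _)
    (Helper64.Vojta.nv_nonneg _ _)]

theorem NN_add (L : IntermediateField K Ω) [NumberField L] (z z' : L) :
    NN hQ L (z + z') ≤ NN hQ L z + NN hQ L z' := by
  have hd : (0 : ℝ) ≤ 1 / (ldeg (Sum.inr v : Pl K) (Sum.inr (wpl hQ L) : Pl L) : ℝ) := by
    positivity
  have h1 : nv (Sum.inr (wpl hQ L) : Pl L) (z + z') ≤
      max (nv (Sum.inr (wpl hQ L) : Pl L) z) (nv (Sum.inr (wpl hQ L) : Pl L) z') :=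
    FinitePlace.add_le (wpl hQ L) z z'
  have h2 : NN hQ L (z + z') ≤ max (NN hQ L z) (NN hQ L z') := by
    rcases le_total (nv (Sum.inr (wpl hQ L) : Pl L) z) (nv (Sum.inr (wpl hQ L) : Pl L) z')
      with h3 | h3
    · rw [max_eq_right h3] at h1
      exact (Real.rpow_le_rpow (Helper64.Vojta.nv_nonneg _ _) h1 hd).trans (le_max_right _ _)
    · rw [max_eq_left h3] at h1
      exact (Real.rpow_le_rpow (Helper64.Vojta.nv_nonneg _ _) h1 hd).trans (le_max_left _ _)
  exact h2.trans (max_le_add_of_nonneg (NN_nonneg hQ L z) (NN_nonneg hQ L z'))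

theorem NN_zero (L : IntermediateField K Ω) [NumberField L] (z : L) : NN hQ L z = 0 ↔ z = 0 := by
  have hd : (1 : ℝ) / (ldeg (Sum.inr v : Pl K) (Sum.inr (wpl hQ L) : Pl L) : ℝ) ≠ 0 :=
    one_div_ne_zero (Nat.cast_ne_zero.mpr (ldeg_ne (wpl_above hQ L)))
  unfold NN
  rw [Real.rpow_eq_zero (Helper64.Vojta.nv_nonneg _ _) hd]
  constructor
  · intro h
    by_contra hz
    exact (Helper64.Vojta.nv_pos (Sum.inr (wpl hQ L) : Pl L) hz).ne' h
  · rintro rfl
    exact Helper64.Vojta.nv_zero _

end fin

end Ext21

open Ext21 in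
theorem exists_ext [IsAlgClosure K Ω] (v : Pl K) : ∃ μ : AbsoluteValue Ω ℝ, Ext v μ := by
  classical
  have halgc : IsAlgClosed Ω := IsAlgClosure.isAlgClosed K
  have halg : Algebra.IsAlgebraic K Ω := IsAlgClosure.isAlgebraic
  rcases v with v | v
  · let alg : Algebra K ℂ := v.embedding.toAlgebra
    let φ : Ω →ₐ[K] ℂ := IsAlgClosed.lift
    have hφ : ∀ z : K, (φ : Ω →+* ℂ) (algebraMap K Ω z) = v.embedding z := fun z => φ.commutes z
    refine ⟨NumberField.place (φ : Ω →+* ℂ), ?_, ?_⟩
    · intro z
      rw [NumberField.place_apply, hφ, InfinitePlace.norm_embedding_eq]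
      rfl
    · intro L _ _
      let w : InfinitePlace L := InfinitePlace.mk ((φ : Ω →+* ℂ).comp (algebraMap L Ω))
      refine ⟨.inl w, ?_, (w.mult : ℝ), Nat.cast_pos.mpr InfinitePlace.mult_pos, ?_⟩
      · rw [mem_above]
        have h1 : w.comap (algebraMap K L) = v := by
          rw [InfinitePlace.comap_mk]
          have h2 : ((φ : Ω →+* ℂ).comp (algebraMap L Ω)).comp (algebraMap K L) = v.embedding := by
            refine RingHom.ext fun z => ?_
            exact hφ z
          rw [h2, InfinitePlace.mk_embedding]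
        exact ⟨congrArg Subtype.val h1⟩
      · intro z
        rw [Real.rpow_natCast]
        rfl
  · -- the prime ideal of the ring of all algebraic integers
    let incK : 𝓞 K →+* integralClosure ℤ Ω := inc (algebraMap K Ω)
    let algK : Algebra (𝓞 K) (integralClosure ℤ Ω) := incK.toAlgebra
    have hint : Algebra.IsIntegral (𝓞 K) (integralClosure ℤ Ω) := by
      constructor
      intro z
      have h1 : IsIntegral ℤ z := by
        have h2 := z.2
        rw [mem_integralClosure_iff] at h2
        exact (isIntegral_algebraMap_iff (R := ℤ) (A := integralClosure ℤ Ω) (B := Ω)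
          Subtype.val_injective).mp h2
      exact h1.tower_top
    have hinj : Function.Injective incK := by
      intro a b hab
      have h1 := congrArg Subtype.val hab
      exact RingOfIntegers.coe_injective ((algebraMap K Ω).injective h1)
    have hp : v.maximalIdeal.asIdeal.IsPrime := v.maximalIdeal.isPrime
    obtain ⟨Q, -, hQp, hQ⟩ := Ideal.exists_ideal_over_prime_of_isIntegral
      (S := integralClosure ℤ Ω) v.maximalIdeal.asIdeal ⊥ (by
        have h1 : Ideal.comap (algebraMap (𝓞 K) (integralClosure ℤ Ω)) ⊥ = ⊥ :=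
          (RingHom.ker_eq_bot_iff_eq_zero _).mpr fun a ha => hinj (by rw [map_zero]; exact ha)
        rw [h1]
        exact bot_le)
    replace hQ : Q.comap (inc (algebraMap K Ω)) = v.maximalIdeal.asIdeal := hQ
    have hfd : ∀ z : Ω, FiniteDimensional K (IntermediateField.adjoin K {z}) := fun z =>
      IntermediateField.adjoin.finiteDimensional (Algebra.IsIntegral.isIntegral z)
    have hnf : ∀ z : Ω, NumberField (IntermediateField.adjoin K {z}) := fun z =>
      numberField_of _
    let f : Ω → ℝ := fun z => NN hQ (IntermediateField.adjoin K {z})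
      ⟨z, IntermediateField.mem_adjoin_simple_self K z⟩
    have hf : ∀ (L : IntermediateField K Ω) [NumberField L] (z : L), f z = NN hQ L z := by
      intro L _ z
      have h1 : IntermediateField.adjoin K {(z : Ω)} ≤ L := by
        rw [IntermediateField.adjoin_simple_le_iff]
        exact z.2
      exact (NN_incl hQ h1 ⟨z, IntermediateField.mem_adjoin_simple_self K (z : Ω)⟩).symm
    have hpair : ∀ x y : Ω, ∃ (L : IntermediateField K Ω) (_ : NumberField L), x ∈ L ∧ y ∈ L := by
      intro x y
      have h1 := hfd x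
      have h2 := hfd y
      have h3 : FiniteDimensional K
        (IntermediateField.adjoin K {x} ⊔ IntermediateField.adjoin K {y} :
          IntermediateField K Ω) := inferInstance
      exact ⟨_, numberField_of _,
        (le_sup_left : IntermediateField.adjoin K {x} ≤ _) (IntermediateField.mem_adjoin_simple_self K x),
        (le_sup_right : IntermediateField.adjoin K {y} ≤ _) (IntermediateField.mem_adjoin_simple_self K y)⟩
    let μ : AbsoluteValue Ω ℝ :=
      { toFun := f
        map_mul' := by
          intro x y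
          obtain ⟨L, _, hx, hy⟩ := hpair x y
          have h1 := hf L ⟨x, hx⟩
          have h2 := hf L ⟨y, hy⟩
          have h3 := hf L (⟨x, hx⟩ * ⟨y, hy⟩)
          change f (x * y) = _ at h3
          change f x = _ at h1
          change f y = _ at h2
          rw [h3, h1, h2, NN_mul]
        nonneg' := fun x => NN_nonneg hQ _ _
        eq_zero' := by
          intro x
          change NN hQ _ _ = 0 ↔ x = 0
          rw [NN_zero]
          constructor
          · exact fun h => congrArg Subtype.val h
          · exact fun h => Subtype.ext h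
        add_le' := by
          intro x y
          obtain ⟨L, _, hx, hy⟩ := hpair x y
          have h1 := hf L ⟨x, hx⟩
          have h2 := hf L ⟨y, hy⟩
          have h3 := hf L (⟨x, hx⟩ + ⟨y, hy⟩)
          change f (x + y) = _ at h3
          change f x = _ at h1
          change f y = _ at h2
          rw [h3, h1, h2]
          exact NN_add hQ L _ _ }
    have hμ : ∀ z, μ z = f z := fun z => rfl
    refine ⟨μ, ?_, ?_⟩
    · intro z
      have h0 := hnf (algebraMap K Ω z)
      have h1 : μ (algebraMap K Ω z) = NN hQ (IntermediateField.adjoin K {algebraMap K Ω z})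
          (algebraMap K _ z) := rfl
      rw [h1]
      unfold NN
      have h2 := wpl_above hQ (IntermediateField.adjoin K {algebraMap K Ω z})
      have hd : (ldeg (Sum.inr v : Pl K) (Sum.inr (wpl hQ
          (IntermediateField.adjoin K {algebraMap K Ω z})) : Pl _) : ℝ) ≠ 0 :=
        Nat.cast_ne_zero.mpr (ldeg_ne h2)
      rw [nv_above h2, ← Real.rpow_natCast, ← Real.rpow_mul (Helper64.Vojta.nv_nonneg _ _),
        mul_one_div, div_self hd, Real.rpow_one]
      rfl
    · intro L _ _
      refine ⟨.inr (wpl hQ L), wpl_above hQ L,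
        (ldeg (Sum.inr v : Pl K) (Sum.inr (wpl hQ L) : Pl L) : ℝ), ?_, ?_⟩
      · exact Nat.cast_pos.mpr (Nat.pos_of_ne_zero (ldeg_ne (wpl_above hQ L)))
      · intro z
        rw [hμ, hf L z]
        exact NN_pow hQ L z

end Pool.Agent.Helper26.RC
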