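import Pool.Agent.Helper26.RC.Cert
import Pool.Agent.Helper26.RC.ExtA

/-! Block RC-PER1 (about 120 lines): the limit points are defined over a field of degree at most two.

`few_field`. Let `F_l = K(q_l)` (`IntermediateField.adjoin K (Set.range (q l))`). Since `infMap d Φ (q (l+1)) = c • q l` and `q l i = 1` for some `i`, `c = infMap d Φ (q (l+1)) i ∈ F_{l+1}` and `q l j = infMap .. j / c ∈ F_{l+1}`: the
`F_l` increase. `[F_l : K] ≤ 2`: otherwise there are three different `K`-embeddings of `F_l` in `Ω` (separable; `IntermediateField.adjoin` of finitely many algebraic elements is finite; the number of embeddings is the degree,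
`AlgHom.card`), which extend to automorphisms of `Ω` over `K` (`Ω / K` algebraic and algebraically closed) and differ on the generators `q l j`: contradiction to `hfew`. An increasing sequence of fields of degree `≤ 2` is eventually constant; `F`
is the union. -/

set_option autoImplicit false

namespace Pool.Agent.Helper26.RC

open MvPolynomial Filter Topology NumberField

variable {K Ω : Type*} [Field K] [Field Ω] [Algebra K Ω] {N d : ℕ}
  {Φ : Fin N → MvPolynomial (Fin N) K}

/-- every embedding of an intermediate field in `Ω` extends to an automorphism of `Ω` -/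
private lemma exists_aut60 [IsAlgClosure K Ω] (F : IntermediateField K Ω) (f : F →ₐ[K] Ω) :
    ∃ σ : Ω ≃ₐ[K] Ω, ∀ x : F, σ x = f x := by
  have h1 : IsAlgClosed Ω := IsAlgClosure.isAlgClosed K
  have h2 : Algebra.IsAlgebraic K Ω := IsAlgClosure.isAlgebraic
  have h3 : Normal K Ω := normal_iff.2 fun x =>
    ⟨(Algebra.IsAlgebraic.isAlgebraic x).isIntegral, IsAlgClosed.splits _⟩
  refine ⟨AlgEquiv.ofBijective (f.liftNormal Ω) (Algebra.IsAlgebraic.algHom_bijective _),
    fun x => ?_⟩
  exact f.liftNormal_commutes Ω x

private lemma few_finrank60 [CharZero K] [IsAlgClosure K Ω] (z : Fin N → Ω)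
    (hfew : ∀ σ : Fin 3 → (Ω ≃ₐ[K] Ω), ¬ Function.Injective fun (i : Fin 3) (j : Fin N) => σ i (z j)) :
    FiniteDimensional K (IntermediateField.adjoin K (Set.range z)) ∧
      Module.finrank K (IntermediateField.adjoin K (Set.range z)) ≤ 2 := by
  classical
  have h1 : IsAlgClosed Ω := IsAlgClosure.isAlgClosed K
  have h2 : Algebra.IsAlgebraic K Ω := IsAlgClosure.isAlgebraic
  have hfin : FiniteDimensional K (IntermediateField.adjoin K (Set.range z)) := by
    have : Finite (Set.range z) := Set.finite_range z
    exact IntermediateField.finiteDimensional_adjoin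
      (fun x _ => (Algebra.IsAlgebraic.isAlgebraic x).isIntegral)
  refine ⟨hfin, ?_⟩
  by_contra hcon
  push Not at hcon
  have hsep : Algebra.IsSeparable K (IntermediateField.adjoin K (Set.range z)) := inferInstance
  have hcard : 3 ≤ Fintype.card ((IntermediateField.adjoin K (Set.range z)) →ₐ[K] Ω) := by
    rw [AlgHom.card]
    exact hcon
  obtain ⟨f⟩ : Nonempty (Fin 3 ↪ ((IntermediateField.adjoin K (Set.range z)) →ₐ[K] Ω)) := by
    rw [Function.Embedding.nonempty_iff_card_le, Fintype.card_fin]
    exact hcard
  choose σ hσ using fun i => exists_aut60 _ (f i)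
  refine hfew σ fun i j hij => f.injective ?_
  refine IntermediateField.adjoin_algHom_ext K ?_
  rintro _ ⟨k, rfl⟩
  rw [← hσ, ← hσ]
  exact congrFun hij k

private lemma aeval_mem60 (z : Fin N → Ω) (p : MvPolynomial (Fin N) K) :
    aeval z p ∈ IntermediateField.adjoin K (Set.range z) := by
  apply IntermediateField.algebra_adjoin_le_adjoin
  rw [Algebra.adjoin_range_eq_range_aeval]
  exact ⟨p, rfl⟩

theorem few_field [CharZero K] [IsAlgClosure K Ω] {q : ℕ → Fin N → Ω} (hn : ∀ l, Nrm (q l))
    (hstep : ∀ l, ∃ c : Ω, c ≠ 0 ∧ infMap d Φ (q (l + 1)) = c • q l)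
    (hfew : ∀ l, ∀ σ : Fin 3 → (Ω ≃ₐ[K] Ω),
      ¬ Function.Injective fun (i : Fin 3) (j : Fin N) => σ i (q l j)) :
    ∃ F : IntermediateField K Ω, FiniteDimensional K F ∧ Module.finrank K F ≤ 2 ∧
      ∀ l j, q l j ∈ F := by
  classical
  have hmono : ∀ l, IntermediateField.adjoin K (Set.range (q l)) ≤
      IntermediateField.adjoin K (Set.range (q (l + 1))) := by
    intro l
    obtain ⟨c, hc, hcq⟩ := hstep l
    have hmem : ∀ j, infMap d Φ (q (l + 1)) j ∈
        IntermediateField.adjoin K (Set.range (q (l + 1))) := fun j => aeval_mem60 _ _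
    have hval : ∀ j, infMap d Φ (q (l + 1)) j = c * q l j := by
      intro j
      rw [hcq, Pi.smul_apply, smul_eq_mul]
    obtain ⟨i, hi, -⟩ := hn l
    have hcm : c ∈ IntermediateField.adjoin K (Set.range (q (l + 1))) := by
      have h1 := hmem i
      rwa [hval, hi, mul_one] at h1
    rw [IntermediateField.adjoin_le_iff]
    rintro _ ⟨j, rfl⟩
    have h2 : q l j = c⁻¹ * infMap d Φ (q (l + 1)) j := by
      rw [hval, inv_mul_cancel_left₀ hc]
    rw [SetLike.mem_coe, h2]
    exact mul_mem (inv_mem hcm) (hmem j)
  have hmono' : Monotone fun l => IntermediateField.adjoin K (Set.range (q l)) :=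
    monotone_nat_of_le_succ hmono
  have hfin := fun l => few_finrank60 (q l) (hfew l)
  obtain ⟨l0, hl0⟩ : ∃ l0, ∀ l, Module.finrank K (IntermediateField.adjoin K (Set.range (q l))) ≤
      Module.finrank K (IntermediateField.adjoin K (Set.range (q l0))) := by
    have hbdd : BddAbove (Set.range fun l =>
        Module.finrank K (IntermediateField.adjoin K (Set.range (q l)))) := by
      refine ⟨2, ?_⟩
      rintro _ ⟨l, rfl⟩
      exact (hfin l).2
    obtain ⟨l0, h0⟩ := Nat.sSup_mem (Set.range_nonempty _) hbdd
    refine ⟨l0, fun l => ?_⟩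
    have h1 := le_csSup hbdd ⟨l, rfl⟩
    rw [← h0] at h1
    exact h1
  refine ⟨IntermediateField.adjoin K (Set.range (q l0)), (hfin l0).1, (hfin l0).2, fun l j => ?_⟩
  have hle : IntermediateField.adjoin K (Set.range (q l)) ≤
      IntermediateField.adjoin K (Set.range (q l0)) := by
    rcases le_total l l0 with h | h
    · exact hmono' h
    · have := (hfin l).1
      exact (IntermediateField.eq_of_le_of_finrank_le (hmono' h) (hl0 l)).ge
  exact hle (IntermediateField.subset_adjoin K _ ⟨j, rfl⟩)

end Pool.Agent.Helper26.RC
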