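import Pool.Agent.Helper26.RC.Cert
import Pool.Agent.Helper26.RC.ExtA

/-! Block RC-PER2 (about 150 lines): the limit points are periodic (Northcott).

`per_of_heights`. `F` is a number field (`numberField_of`). Regard `q l` as a vector over `F`, `h l = Height.logHeight (q l)`. `exists_cert` gives (over `K`, hence over `F`) the relations required by `Height.logHeight_eval_ge`
(`Mathlib/NumberTheory/Height/MvPolynomial.lean`): `logHeight (infMap (q (l+1))) ≥ d * h (l+1) - C`, and `logHeight (c • q l) = h l` (`Height.logHeight_smul_eq_logHeight`). So `h (l+1) ≤ (h l + C) / 2` (`h ≥ 0`, `d ≥ 2`) and `h l ≤ h 0 + C` for all `l`.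
As some coordinate of `q l` is `1`, every coordinate has `mulHeight₁ ≤ mulHeight (q l)` and by Northcott (instance `Northcott (Height.mulHeight₁ (K := F))`) the set `{q l}` is finite. The value `q l` is determined by `q (l+1)` (normalised: `Nrm`, and
`infMap d Φ (q (l+1))` is a nonzero multiple of it; two normalised proportional vectors are equal). Some value `w` is taken for infinitely many `l`, `l_1 < l_2 < ..`; with `π = l_2 - l_1 > 0`: going forward from `w = q l_1 = q l_2`
gives `q l = q (l + π)` for all `l ≤ l_1`. Choosing the pair so that the same `π` works for all `l`: let `π = ` the least `l_j - l_i > 0`..., simply: for `l` arbitrary choose `l_i ≥ l`; `q (l_i) = q (l_j) = w` implies that going forward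
`k` steps from `w` gives `q (l_i - k) = q (l_j - k)`. Let `P` be the exact period of `w` under the (partial) forward step `w ↦` normalised `infMap w` (it returns to `w` after `l_2 - l_1` steps); then all `q l` are on this cycle and `q (l + P) = q l`
for all `l`. -/

set_option autoImplicit false

namespace Pool.Agent.Helper26.RC

open MvPolynomial Filter Topology NumberField

variable {K Ω : Type*} [Field K] [Field Ω] [Algebra K Ω] {N d : ℕ}
  {Φ : Fin N → MvPolynomial (Fin N) K}

private theorem nrm_unique45 {a b : Fin N → Ω} (ha : Nrm a) (hb : Nrm b) {c c' : Ω} (hc : c ≠ 0)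
    (hc' : c' ≠ 0) (h : c • a = c' • b) : a = b := by
  obtain ⟨i, hi, hi'⟩ := ha
  obtain ⟨k, hk, hk'⟩ := hb
  have h1 : ∀ j, c * a j = c' * b j := fun j => congrFun h j
  have hik : i = k := by
    rcases lt_trichotomy i k with hlt | heq | hlt
    · exfalso
      have h2 := h1 i
      rw [hi, hk' i hlt, mul_one, mul_zero] at h2
      exact hc h2
    · exact heq
    · exfalso
      have h2 := h1 k
      rw [hk, hi' k hlt, mul_one, mul_zero] at h2
      exact hc' h2.symm
  subst hik
  have h2 := h1 i
  rw [hi, hk, mul_one, mul_one] at h2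
  subst h2
  funext j
  exact mul_left_cancel₀ hc (h1 j)

private theorem period45 {D : Type*} {q : ℕ → D} (hfin : (Set.range q).Finite)
    (hback : ∀ a b, q (a + 1) = q (b + 1) → q a = q b) :
    ∃ p : ℕ, 0 < p ∧ ∀ l, q (l + p) = q l := by
  have hb : ∀ k a b, q (a + k) = q (b + k) → q a = q b := by
    intro k
    induction k with
    | zero => intro a b h; exact h
    | succ k ih => intro a b h; exact ih a b (hback _ _ h)
  have : Finite (Set.range q) := hfin
  obtain ⟨w, hw⟩ := Finite.exists_infinite_fiber (fun l => (⟨q l, l, rfl⟩ : Set.range q))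
  have hinf : {l | q l = w.1}.Infinite := by
    have h1 : {l | q l = w.1} = (fun l => (⟨q l, l, rfl⟩ : Set.range q)) ⁻¹' {w} := by
      ext l
      constructor
      · intro h
        exact Subtype.ext h
      · intro h
        exact congrArg Subtype.val h
    rw [h1]
    exact Set.infinite_coe_iff.1 hw
  obtain ⟨l1, hl1, -⟩ := hinf.exists_gt 0
  obtain ⟨l2, hl2, hlt⟩ := hinf.exists_gt l1
  refine ⟨l2 - l1, by omega, fun l => ?_⟩
  obtain ⟨m, hm, hm'⟩ := hinf.exists_gt (l + (l2 - l1))
  have e1 : q l1 = w.1 := hl1
  have e2 : q l2 = w.1 := hl2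
  have e3 : q m = w.1 := hm
  have e4 : q (m - (l2 - l1)) = q l1 := by
    refine hb (l2 - l1) _ _ ?_
    rw [show m - (l2 - l1) + (l2 - l1) = m by omega, show l1 + (l2 - l1) = l2 by omega, e3, e2]
  refine hb (m - (l2 - l1) - l) _ _ ?_
  rw [show l + (l2 - l1) + (m - (l2 - l1) - l) = m by omega,
    show l + (m - (l2 - l1) - l) = m - (l2 - l1) by omega, e4, e3, e1]

theorem per_of_heights [NumberField K] [IsAlgClosure K Ω] (hd : 2 ≤ d) (hΦ : Reg Ω d Φ)
    {q : ℕ → Fin N → Ω} (hn : ∀ l, Nrm (q l))
    (hstep : ∀ l, ∃ c : Ω, c ≠ 0 ∧ infMap d Φ (q (l + 1)) = c • q l)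
    (F : IntermediateField K Ω) [FiniteDimensional K F] (hF : ∀ l j, q l j ∈ F) :
    ∃ p : ℕ, 0 < p ∧ ∀ l, q (l + p) = q l := by
  have hac : IsAlgClosed Ω := IsAlgClosure.isAlgClosed K
  have hNF : NumberField F := numberField_of F
  apply period45
  · -- finiteness
    obtain ⟨e, Q, hQ, hcert⟩ := exists_cert hΦ
    obtain ⟨q', hq'⟩ : ∃ q' : ℕ → Fin N → F, ∀ l j, ((q' l j : F) : Ω) = q l j :=
      ⟨fun l j => ⟨q l j, hF l j⟩, fun l j => rfl⟩
    obtain ⟨C, hC⟩ := Height.logHeight_eval_ge' (K := F) (M := e) (N := d) (ι := Fin N)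
      (ι' := Fin N) (q := fun ij => MvPolynomial.map (algebraMap K F) (Q ij.1 ij.2))
      (fun a => (hQ a.1 a.2).map _)
    have hstep' : ∀ l, C + d * Height.logHeight (q' (l + 1)) ≤ Height.logHeight (q' l) := by
      intro l
      have h1 := hC (fun j => MvPolynomial.map (algebraMap K F) (homogeneousComponent d (Φ j)))
        (x := q' (l + 1)) (by
          intro k
          have h2 := congrArg (fun P => eval (q' (l + 1)) (MvPolynomial.map (algebraMap K F) P))
            (hcert k)
          simp only [map_pow, map_X, eval_X, map_sum, map_mul] at h2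
          exact h2.symm)
      refine h1.trans ?_
      obtain ⟨c, hc, hcs⟩ := hstep l
      have hval : ∀ j, ((eval (q' (l + 1)) (MvPolynomial.map (algebraMap K F)
          (homogeneousComponent d (Φ j))) : F) : Ω) = c * q l j := by
        intro j
        have h3 : infMap d Φ (q (l + 1)) j = c * q l j := congrFun hcs j
        rw [← h3]
        unfold infMap
        rw [eval_map, ← aeval_def]
        have h4 : (fun i => algebraMap F Ω (q' (l + 1) i)) = q (l + 1) := by
          funext i
          exact hq' _ _
        rw [← h4]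
        exact (MvPolynomial.aeval_algebraMap_apply Ω (q' (l + 1)) (homogeneousComponent d (Φ j))).symm
      obtain ⟨i, hi, -⟩ := hn l
      obtain ⟨c', hc'⟩ : ∃ c' : F, (c' : Ω) = c := by
        refine ⟨_, (hval i).trans ?_⟩
        rw [hi, mul_one]
      have hc0 : c' ≠ 0 := by
        rintro rfl
        exact hc hc'.symm
      have hfun : (fun j => eval (q' (l + 1)) (MvPolynomial.map (algebraMap K F)
          (homogeneousComponent d (Φ j)))) = c' • q' l := by
        funext j
        apply Subtype.ext
        rw [hval j]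
        show c * q l j = ((c' * q' l j : F) : Ω)
        rw [← hc', ← hq']
        rfl
      rw [hfun, Height.logHeight_smul_eq_logHeight _ hc0]
    have hbd : ∀ l, Height.logHeight (q' l) ≤ Height.logHeight (q' 0) + |C| := by
      intro l
      induction l with
      | zero => linarith [abs_nonneg C]
      | succ l ih =>
        have h1 := hstep' l
        have h2 : (2 : ℝ) ≤ d := by exact_mod_cast hd
        have h3 : 0 ≤ Height.logHeight (q' (l + 1)) := Height.logHeight_nonneg _
        have h4 : 0 ≤ Height.logHeight (q' 0) := Height.logHeight_nonneg _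
        have h5 := neg_abs_le C
        nlinarith
    obtain ⟨B, hB⟩ : ∃ B, B = Height.logHeight (q' 0) + |C| := ⟨_, rfl⟩
    have hfin := NumberField.finite_setOfPred_logHeight₁_le F B
    have hpi : (Set.pi (Set.univ : Set (Fin N)) fun _ => {x : F | Height.logHeight₁ x ≤ B}).Finite :=
      Set.Finite.pi fun _ => hfin
    have hq1 : (Set.range q').Finite := by
      refine hpi.subset ?_
      rintro _ ⟨l, rfl⟩ j -
      show Height.logHeight₁ (q' l j) ≤ B
      obtain ⟨i, hi, -⟩ := hn l
      have hi' : q' l i = 1 := by
        apply Subtype.ext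
        rw [hq', hi]
        rfl
      rw [Height.logHeight₁_eq_logHeight]
      have h1 : ![q' l j, 1] = q' l ∘ ![j, i] := by
        funext k
        fin_cases k
        · rfl
        · exact hi'.symm
      rw [h1, hB]
      exact (Height.logHeight_comp_le _ _).trans (hbd l)
    have h2 : Set.range q = (fun (x : Fin N → F) j => ((x j : F) : Ω)) '' Set.range q' := by
      ext y
      constructor
      · rintro ⟨l, rfl⟩
        exact ⟨q' l, ⟨l, rfl⟩, funext fun j => hq' l j⟩
      · rintro ⟨_, ⟨l, rfl⟩, rfl⟩
        exact ⟨l, funext fun j => (hq' l j).symm⟩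
    rw [h2]
    exact hq1.image _
  · intro a b hab
    obtain ⟨c, hc, hca⟩ := hstep a
    obtain ⟨c', hc', hcb⟩ := hstep b
    rw [hab] at hca
    exact nrm_unique45 (hn a) (hn b) hc hc' (hca.symm.trans hcb)

end Pool.Agent.Helper26.RC
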