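import Pool.Agent.Helper26.RC.Defs

/-! Block RC-SINT (about 120 lines): integrality outside a finite set of places, and Northcott.

`exists_S`: `S` = all infinite places and the finitely many finite places where some coefficient of some `Φ i` or some coordinate of `α` has absolute value `> 1` (for `c ≠ 0` only finitely many finite places have
`v c ≠ 1`: `FinitePlace.hasFiniteMulSupport` / `FinitePlace.mulSupport_finite`). For `v ∉ S` (a finite place, nonarchimedean) by induction on `n` all coordinates of `orb Φ α n` have absolute value `≤ 1` (`nv_sum_le_inr`).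

`unbounded`: otherwise for every `v ∈ S` the logarithms `log sz (av v) (x n)` are bounded, so `av v (x n i) ≤ C_v`, and `nv v (x n i) ≤ 1` outside `S`; so the heights `Height.mulHeight₁ (x n i)` are bounded
(`NumberField.mulHeight₁_eq`: product over the infinite places of `max (v x) 1 ^ mult` times the finite product over finite places), and by Northcott (`Northcott (Height.mulHeight₁ (K := K))`, `finite_setOfPred_mulHeight₁_le`)
the coordinates of the `x n` are in a finite set; so `x` is not injective. -/

set_option autoImplicit false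

namespace Pool.Agent.Helper26.RC

open MvPolynomial Filter Topology NumberField
open Pool.Agent.Helper64.Vojta (Pl nv)

variable {K : Type*} [Field K] [NumberField K] {N : ℕ}

private lemma h36_fin (c : K) : {w : FinitePlace K | 1 < w c}.Finite := by
  by_cases hc : c = 0
  · have : {w : FinitePlace K | 1 < w c} = ∅ := by
      ext w
      simp only [Set.mem_ofPred_eq, Set.mem_empty_iff_false, iff_false, not_lt]
      rw [hc, map_zero]
      exact zero_le_one
    rw [this]
    exact Set.finite_empty
  · have h : (Function.mulSupport fun w : FinitePlace K => w c).Finite := FinitePlace.hasFiniteMulSupport hc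
    refine h.subset fun w hw => ?_
    rw [Function.mem_mulSupport]
    exact ne_of_gt hw

private lemma h36_nv_eval {w : FinitePlace K} {f : MvPolynomial (Fin N) K} {y : Fin N → K}
    (hf : ∀ m, w (coeff m f) ≤ 1) (hy : ∀ j, w (y j) ≤ 1) : nv (.inr w) (eval y f) ≤ 1 := by
  rw [MvPolynomial.eval_eq']
  refine Pool.Agent.Helper64.Vojta.nv_sum_le_inr w _ _ 1 zero_le_one fun m _ => ?_
  change w _ ≤ 1
  rw [map_mul, map_prod]
  refine mul_le_one₀ (hf m) (Finset.prod_nonneg fun j _ => apply_nonneg w _) ?_
  refine Finset.prod_le_one (fun j _ => apply_nonneg w _) fun j _ => ?_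
  rw [map_pow]
  exact pow_le_one₀ (apply_nonneg w _) (hy j)

theorem exists_S (Φ : Fin N → MvPolynomial (Fin N) K) (α : Fin N → K) :
    ∃ S : Finset (Pl K), ∀ n, ∀ v, v ∉ S → ∀ i, nv v (orb Φ α n i) ≤ 1 := by
  classical
  have hT : ((⋃ i, ⋃ m ∈ ((Φ i).support : Set _), {w : FinitePlace K | 1 < w (coeff m (Φ i))}) ∪
      ⋃ i, {w : FinitePlace K | 1 < w (α i)}).Finite := by
    refine Set.Finite.union ?_ ?_
    · exact Set.finite_iUnion fun i => Set.Finite.biUnion (Finset.finite_toSet _) fun m _ => h36_fin _
    · exact Set.finite_iUnion fun i => h36_fin _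
  refine ⟨(Finset.univ : Finset (InfinitePlace K)).disjSum hT.toFinset, fun n v hv => ?_⟩
  rcases v with v | w
  · exact absurd (Finset.inl_mem_disjSum.2 (Finset.mem_univ v)) hv
  · have hw : w ∉ hT.toFinset := fun h => hv (Finset.inr_mem_disjSum.2 h)
    rw [Set.Finite.mem_toFinset, Set.mem_union, not_or] at hw
    have h1 : ∀ i m, w (coeff m (Φ i)) ≤ 1 := by
      intro i m
      by_cases hm : m ∈ (Φ i).support
      · by_contra hcon
        rw [not_le] at hcon
        apply hw.1
        simp only [Set.mem_iUnion]
        exact ⟨i, m, hm, hcon⟩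
      · rw [MvPolynomial.notMem_support_iff.1 hm, map_zero]
        exact zero_le_one
    have h2 : ∀ i, w (α i) ≤ 1 := by
      intro i
      by_contra hcon
      rw [not_le] at hcon
      apply hw.2
      simp only [Set.mem_iUnion]
      exact ⟨i, hcon⟩
    induction n with
    | zero => exact fun i => h2 i
    | succ n ih =>
      intro i
      unfold orb
      rw [Function.iterate_succ_apply']
      exact h36_nv_eval (h1 i) fun j => ih j

theorem unbounded {x : ℕ → Fin N → K} (hx : Function.Injective x) {S : Finset (Pl K)}
    (hS : ∀ n, ∀ v, v ∉ S → ∀ i, nv v (x n i) ≤ 1) :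
    ∃ v ∈ S, ∀ C : ℝ, ∃ n, C < Real.log (sz (av v) (x n)) := by
  classical
  by_contra hcon
  push Not at hcon
  choose C hC using hcon
  have hav : ∀ v (hv : v ∈ S) n i, av v (x n i) ≤ Real.exp (C v hv) := by
    intro v hv n i
    have h0 : 0 < sz (av v) (x n) := by
      unfold sz
      have : 0 ≤ ∑ i, av v (x n i) := Finset.sum_nonneg fun i _ => (av v).nonneg _
      linarith
    have h1 := (Real.log_le_iff_le_exp h0).1 (hC v hv n)
    refine le_trans ?_ h1
    unfold sz
    have := Finset.single_le_sum (f := fun i => av v (x n i)) (fun i _ => (av v).nonneg _) (Finset.mem_univ i)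
    have h3 : av v (x n i) ≤ ∑ i, av v (x n i) := this
    linarith
  set D : Pl K → ℝ := fun v => if hv : v ∈ S then max (Real.exp (C v hv)) 1 else 1 with hD
  have hD1 : ∀ v, 1 ≤ D v := by
    intro v
    simp only [hD]
    split_ifs
    · exact le_max_right _ _
    · exact le_rfl
  have hDn : ∀ v, v ∉ S → D v = 1 := fun v hv => by simp only [hD, hv, dif_neg, not_false_iff]
  have hle : ∀ v n i, max (av v (x n i)) 1 ≤ D v := by
    intro v n i
    by_cases hv : v ∈ S
    · simp only [hD, hv, dif_pos]
      exact max_le_max (hav v hv n i) le_rfl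
    · rw [hDn v hv]
      refine max_le ?_ le_rfl
      have := hS n v hv i
      rw [nv_eq] at this
      exact (pow_le_one_iff_of_nonneg ((av v).nonneg _) (wt_pos v).ne').1 this
  set B : ℝ := (∏ v : InfinitePlace K, D (.inl v) ^ v.mult) * ∏ v ∈ S.toRight, D (.inr v) with hB
  have hht : ∀ n i, Height.mulHeight₁ (x n i) ≤ B := by
    intro n i
    rw [NumberField.mulHeight₁_eq]
    have e1 : ∏ᶠ v : FinitePlace K, max (v (x n i)) 1 = ∏ v ∈ S.toRight, max (v (x n i)) 1 := by
      apply finprod_eq_prod_of_mulSupport_subset
      intro v hv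
      rw [Function.mem_mulSupport] at hv
      by_contra hcon
      apply hv
      have h1 : (Sum.inr v : Pl K) ∉ S := by
        intro h
        apply hcon
        rw [Finset.mem_coe, Finset.mem_toRight]
        exact h
      have h2 := hle (.inr v) n i
      rw [hDn _ h1] at h2
      exact le_antisymm h2 (le_max_right _ _)
    rw [e1, hB]
    refine mul_le_mul ?_ ?_ ?_ ?_
    · refine Finset.prod_le_prod (fun v _ => by positivity) fun v _ => ?_
      exact pow_le_pow_left₀ (le_trans zero_le_one (le_max_right _ _)) (hle (.inl v) n i) _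
    · refine Finset.prod_le_prod (fun v _ => le_trans zero_le_one (le_max_right _ _)) fun v _ => hle (.inr v) n i
    · exact Finset.prod_nonneg fun v _ => le_trans zero_le_one (le_max_right _ _)
    · exact Finset.prod_nonneg fun v _ => pow_nonneg (le_trans zero_le_one (hD1 _)) _
  have hF : {y : K | Height.mulHeight₁ y ≤ B}.Finite := NumberField.finite_setOfPred_mulHeight₁_le K B
  have hP : (Set.pi Set.univ fun _ : Fin N => {y : K | Height.mulHeight₁ y ≤ B}).Finite :=
    Set.Finite.pi fun _ => hF
  have hsub : Set.range x ⊆ Set.pi Set.univ fun _ : Fin N => {y : K | Height.mulHeight₁ y ≤ B} := by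
    rintro _ ⟨n, rfl⟩ i _
    exact hht n i
  exact Set.infinite_range_of_injective hx (hP.subset hsub)

end Pool.Agent.Helper26.RC
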