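import Pool.Agent.Helper26.RC.Cert

/-! Block RC-TRD (about 150 lines): transcendence degrees.

`trdeg_emb`. Let `A_K = K[x] / van U x`, `A = Ω[x] / van U (emb Ω x)`. `map (algebraMap K Ω)` sends `van U x` into `van U (emb Ω x)`, so there is a `K`-algebra map `A_K → A`, and `A` is generated over `Ω` by the
images of the `X j`. If all classes of the `X j` in `A_K` are algebraic over `K` then they are algebraic over `Ω` in `A` and `trdeg_Ω A = 0`. Otherwise some `X i` is transcendental over `K` in `A_K`, and because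
`trdeg_K A_K ≤ 1` every `X j` is algebraic over `K[X i]` (`K[X i] → A_K`; `isTranscendenceBasis_of_le_trdeg_of_finite` or directly from the relation of `![X i, X j]`). So in `A` every `X j` is algebraic over
`Algebra.adjoin Ω {X i}`: `trdeg_Ω A ≤ 1` (`Algebra.trdeg_le_cardinalMk`). (The relation over `K` for `X j` stays nontrivial over `Ω[X i]` in `A`: if `X i` is algebraic over `Ω` in `A` everything is algebraic over `Ω`
only if the leading coefficient does not vanish; simplest: `R (X i, X j) = 0` with `R ∈ K[S, T]` nonzero. If `X i` is transcendental over `Ω` in `A` then `R (X i, T)` is a nonzero polynomial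
over `Ω[X i]`. If `X i` is algebraic over `Ω` in `A`, it is algebraic over `K` in `A_K`: `p (X i) = 0` in `A` with `p ∈ Ω[T]` nonzero; expand the coefficients in a `K`-basis of `Ω`: since the `x n` are over `K`, some
nonzero `p' ∈ K[T]` has `p' (X i) ∈ van U x`. Contradiction.)

`trdeg_step`. `x n = Φ (x' n)` a.e., so `f ↦ aeval Φ f` (`bind₁ Φ`) induces an injective map `A_0 = K[x] / van U x → A_1 = K[x] / van U x'` (`f ∈ van U x ↔ aeval Φ f ∈ van U x'`). By `finite_over` `A_1` is a finite
`A_0`-module, so algebraic, and `trdeg_K A_1 = trdeg_K A_0 + trdeg_{A_0} A_1 = trdeg_K A_0` (`Algebra.trdeg_add_eq`, `Algebra.trdeg_eq_zero`). -/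

set_option autoImplicit false

namespace Pool.Agent.Helper26.RC

open MvPolynomial Filter Topology

variable {K Ω : Type*} [Field K] [Field Ω] [Algebra K Ω] {N d : ℕ} {U : Ultrafilter ℕ}

/-- A domain generated by elements any two of which are dependent. -/
private theorem h21_trdeg_le {F A : Type*} [Field F] [CommRing A] [IsDomain A] [Algebra F A]
    (g : Fin N → A) (hgen : Algebra.adjoin F (Set.range g) = ⊤)
    (hdep : ∀ i j, ¬ AlgebraicIndependent F ![g i, g j]) : Algebra.trdeg F A ≤ 1 := by
  have halg : Algebra.IsAlgebraic (Algebra.adjoin F (Set.range g)) A := by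
    constructor
    intro a
    have h1 : a ∈ Algebra.adjoin F (Set.range g) := by
      rw [hgen]; exact Algebra.mem_top
    exact isAlgebraic_algebraMap (⟨a, h1⟩ : Algebra.adjoin F (Set.range g))
  obtain ⟨t, ht, hb⟩ := exists_isTranscendenceBasis_subset (R := F) (Set.range g)
  rw [← hb.cardinalMk_eq_trdeg, Cardinal.mk_le_one_iff_set_subsingleton]
  intro b hbt b' hbt'
  by_contra hne
  obtain ⟨i, hi⟩ := ht hbt
  obtain ⟨j, hj⟩ := ht hbt'
  apply hdep i j
  have hinj : Function.Injective (![⟨b, hbt⟩, ⟨b', hbt'⟩] : Fin 2 → t) := by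
    intro p q hpq
    fin_cases p <;> fin_cases q
    · rfl
    · exact absurd (congrArg Subtype.val hpq) hne
    · exact absurd (congrArg Subtype.val hpq).symm hne
    · rfl
  have h1 := hb.1.comp _ hinj
  have h2 : (((↑) : t → A) ∘ (![⟨b, hbt⟩, ⟨b', hbt'⟩] : Fin 2 → t)) = ![g i, g j] := by
    funext p
    fin_cases p
    · exact hi.symm
    · exact hj.symm
  rwa [h2] at h1

private theorem h21_map_van' (U : Ultrafilter ℕ) (x : ℕ → Fin N → K) {p : MvPolynomial (Fin N) K}
    (hp : p ∈ van U x) : p.map (algebraMap K Ω) ∈ van U (emb Ω x) := by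
  rw [mem_van] at hp ⊢
  filter_upwards [hp] with n hn
  rw [eval_map]
  have h1 := eval₂_comp_left (algebraMap K Ω) (RingHom.id K) (x n) p
  rw [RingHom.comp_id] at h1
  have h2 : eval₂ (RingHom.id K) (x n) p = 0 := hn
  rw [h2, map_zero] at h1
  exact h1.symm

theorem trdeg_emb {x : ℕ → Fin N → K}
    (h : Algebra.trdeg K (MvPolynomial (Fin N) K ⧸ van U x) ≤ 1) :
    Algebra.trdeg Ω (MvPolynomial (Fin N) Ω ⧸ van U (emb Ω x)) ≤ 1 := by
  have hdep : ∀ i j, ¬ AlgebraicIndependent K
      (![Ideal.Quotient.mk (van U x) (X i), Ideal.Quotient.mk (van U x) (X j)]) := by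
    intro i j hind
    have h1 := hind.lift_cardinalMk_le_trdeg
    have h2 := h1.trans (Cardinal.lift_le.mpr h)
    rw [Cardinal.mk_fin, Cardinal.lift_one, Cardinal.lift_natCast] at h2
    norm_num at h2
  refine h21_trdeg_le (fun i => Ideal.Quotient.mk (van U (emb Ω x)) (X i)) ?_ ?_
  · rw [eq_top_iff]
    intro a _
    obtain ⟨p, rfl⟩ := Ideal.Quotient.mk_surjective a
    induction p using MvPolynomial.induction_on with
    | C c => exact (Algebra.adjoin Ω _).algebraMap_mem c
    | add p q hp hq => rw [map_add]; exact add_mem (hp trivial) (hq trivial)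
    | mul_X p i hp =>
      rw [map_mul]
      exact mul_mem (hp trivial) (Algebra.subset_adjoin ⟨i, rfl⟩)
  · intro i j hind
    have h1 := hdep i j
    rw [algebraicIndependent_iff] at h1 hind
    push Not at h1
    obtain ⟨R, hR, hR0⟩ := h1
    have h2 : aeval ![X i, X j] R ∈ van U x := by
      rw [← Ideal.Quotient.eq_zero_iff_mem, ← hR]
      have h3 := comp_aeval_apply (Ideal.Quotient.mkₐ K (van U x))
        (f := (![X i, X j] : Fin 2 → MvPolynomial (Fin N) K)) R
      refine h3.trans ?_
      congr 2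
      funext p
      fin_cases p <;> rfl
    have h4 := h21_map_van' (Ω := Ω) U x h2
    apply (map_ne_zero_iff (MvPolynomial.map (σ := Fin 2) (algebraMap K Ω))
      (map_injective _ (algebraMap K Ω).injective)).mpr hR0
    apply hind
    have h5 := comp_aeval_apply (Ideal.Quotient.mkₐ Ω (van U (emb Ω x)))
        (f := (![X i, X j] : Fin 2 → MvPolynomial (Fin N) Ω)) (R.map (algebraMap K Ω))
    have h6 : (fun p : Fin 2 => (Ideal.Quotient.mkₐ Ω (van U (emb Ω x)))
        ((![X i, X j] : Fin 2 → MvPolynomial (Fin N) Ω) p)) =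
        ![Ideal.Quotient.mk (van U (emb Ω x)) (X i), Ideal.Quotient.mk (van U (emb Ω x)) (X j)] := by
      funext p
      fin_cases p <;> rfl
    rw [h6] at h5
    rw [← h5]
    have h7 : aeval (![X i, X j] : Fin 2 → MvPolynomial (Fin N) Ω) (R.map (algebraMap K Ω)) =
        (aeval (![X i, X j] : Fin 2 → MvPolynomial (Fin N) K) R).map (algebraMap K Ω) := by
      rw [aeval_map_algebraMap, aeval_def, aeval_def, eval₂_comp_left]
      congr 1
      · ext a
        simp
      · funext p
        fin_cases p <;> simp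
    rw [h7]
    exact Ideal.Quotient.eq_zero_iff_mem.mpr h4

theorem trdeg_step [IsAlgClosed Ω] {Φ : Fin N → MvPolynomial (Fin N) K} (hd : 1 ≤ d) (hΦ : Reg Ω d Φ)
    {x x' : ℕ → Fin N → K} (hx : ∀ᶠ n in (U : Filter ℕ), x n = pmap Φ (x' n))
    (h : Algebra.trdeg K (MvPolynomial (Fin N) K ⧸ van U x) ≤ 1) :
    Algebra.trdeg K (MvPolynomial (Fin N) K ⧸ van U x') ≤ 1 := by
  classical
  obtain ⟨e, Q, hQ, hc⟩ := exists_cert hΦ
  have hmem : ∀ f : MvPolynomial (Fin N) K, f ∈ van U x ↔ aeval Φ f ∈ van U x' := by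
    intro f
    rw [mem_van, mem_van]
    have h1 : ∀ n, eval (x' n) (aeval Φ f) = eval (pmap Φ (x' n)) f := by
      intro n
      have h2 := comp_aeval_apply (aeval (x' n) : MvPolynomial (Fin N) K →ₐ[K] K) (f := Φ) f
      exact h2
    constructor
    · intro h2
      filter_upwards [h2, hx] with n h3 h4
      rw [h1, ← h4, h3]
    · intro h2
      filter_upwards [h2, hx] with n h3 h4
      rw [h1, ← h4] at h3
      exact h3
  let φ : (MvPolynomial (Fin N) K ⧸ van U x) →ₐ[K] (MvPolynomial (Fin N) K ⧸ van U x') :=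
    Ideal.Quotient.liftₐ (van U x) ((Ideal.Quotient.mkₐ K (van U x')).comp (aeval Φ))
      (fun f hf => Ideal.Quotient.eq_zero_iff_mem.mpr ((hmem f).mp hf))
  have hφ : ∀ f, φ (Ideal.Quotient.mk (van U x) f) = Ideal.Quotient.mk (van U x') (aeval Φ f) :=
    fun f => rfl
  have hφi : Function.Injective φ := by
    rw [injective_iff_map_eq_zero]
    intro a ha
    obtain ⟨f, rfl⟩ := Ideal.Quotient.mk_surjective a
    rw [hφ, Ideal.Quotient.eq_zero_iff_mem, ← hmem] at ha
    exact Ideal.Quotient.eq_zero_iff_mem.mpr ha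
  let alg : Algebra (MvPolynomial (Fin N) K ⧸ van U x) (MvPolynomial (Fin N) K ⧸ van U x') :=
    φ.toRingHom.toAlgebra
  have tow : IsScalarTower K (MvPolynomial (Fin N) K ⧸ van U x)
      (MvPolynomial (Fin N) K ⧸ van U x') := IsScalarTower.of_algebraMap_eq fun c =>
        (φ.commutes c).symm
  have hfs : FaithfulSMul (MvPolynomial (Fin N) K ⧸ van U x)
      (MvPolynomial (Fin N) K ⧸ van U x') := by
    rw [faithfulSMul_iff_algebraMap_injective]
    exact hφi
  have hfin : Module.Finite (MvPolynomial (Fin N) K ⧸ van U x)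
      (MvPolynomial (Fin N) K ⧸ van U x') := by
    have hS : {m : Fin N →₀ ℕ | m.degree ≤ N * (e + d)}.Finite :=
      Finsupp.finite_of_degree_le _
    refine ⟨⟨hS.toFinset.image fun m => Ideal.Quotient.mk (van U x') (monomial m 1), ?_⟩⟩
    rw [eq_top_iff]
    intro a _
    obtain ⟨f, rfl⟩ := Ideal.Quotient.mk_surjective a
    obtain ⟨s, c, hs, hf⟩ := finite_over hd hΦ.1 hQ hc f
    rw [hf, map_sum]
    apply sum_mem
    intro m hm
    have h1 : Ideal.Quotient.mk (van U x') (aeval Φ (c m) * monomial m 1) =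
        Ideal.Quotient.mk (van U x) (c m) • Ideal.Quotient.mk (van U x') (monomial m 1) := by
      rw [map_mul, Algebra.smul_def]
      rfl
    rw [h1]
    apply Submodule.smul_mem
    apply Submodule.subset_span
    rw [Finset.coe_image]
    exact ⟨m, hS.mem_toFinset.mpr (hs m hm), rfl⟩
  have halg : Algebra.IsAlgebraic (MvPolynomial (Fin N) K ⧸ van U x)
      (MvPolynomial (Fin N) K ⧸ van U x') := inferInstance
  have h1 := _root_.trdeg_add_eq K (MvPolynomial (Fin N) K ⧸ van U x)
    (A := MvPolynomial (Fin N) K ⧸ van U x')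
  have h2 : Algebra.trdeg (MvPolynomial (Fin N) K ⧸ van U x)
      (MvPolynomial (Fin N) K ⧸ van U x') = 0 := _root_.trdeg_eq_zero
  rw [h2, add_zero] at h1
  rw [← h1]
  exact h

end Pool.Agent.Helper26.RC
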