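import Pool.Agent.Helper26.RC.PartA
import Pool.Agent.Helper26.RC.Grow
import Pool.Agent.Helper26.RC.SInt
import Pool.Agent.Helper26.RC.Trd
import Pool.Agent.Helper26.RC.PerA
import Pool.Agent.Helper26.RC.PerB
import Pool.Agent.Helper26.RC.Arc
import Pool.Agent.Helper26.RC.Lio
import Pool.Agent.Helper26.RC.Codim
import Pool.Agent.Helper26.RC.FinU

/-! Main assembly. -/

set_option autoImplicit false

namespace Pool.Agent.Helper26.RC

open MvPolynomial Filter Topology NumberField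
open Pool.Agent.Helper64.Vojta (Pl nv above mem_above)

section shift

variable {K : Type*} [Field K] {N : ℕ}

/-- The orbit shifted back by `l`. -/
noncomputable def back (Φ : Fin N → MvPolynomial (Fin N) K) (α : Fin N → K) (l n : ℕ) : Fin N → K :=
  orb Φ α (n - l)

theorem orb_succ (Φ : Fin N → MvPolynomial (Fin N) K) (α : Fin N → K) (n : ℕ) :
    orb Φ α (n + 1) = pmap Φ (orb Φ α n) := by
  unfold orb
  rw [Function.iterate_succ_apply']

theorem eventually_ge {U : Ultrafilter ℕ} (hU : (U : Filter ℕ) ≤ cofinite) (m : ℕ) :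
    ∀ᶠ n in (U : Filter ℕ), m ≤ n := by
  rw [Nat.cofinite_eq_atTop] at hU
  exact hU (eventually_ge_atTop m)

theorem back_step (Φ : Fin N → MvPolynomial (Fin N) K) (α : Fin N → K) {U : Ultrafilter ℕ}
    (hU : (U : Filter ℕ) ≤ cofinite) (l : ℕ) :
    ∀ᶠ n in (U : Filter ℕ), back Φ α l n = pmap Φ (back Φ α (l + 1) n) := by
  filter_upwards [eventually_ge hU (l + 1)] with n hn
  unfold back
  rw [← orb_succ]
  congr 1
  omega

/-- the composition with the map -/
noncomputable def cmp (Φ : Fin N → MvPolynomial (Fin N) K) (f : MvPolynomial (Fin N) K) :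
    MvPolynomial (Fin N) K := bind₁ Φ f

theorem eval_cmp (Φ : Fin N → MvPolynomial (Fin N) K) (f : MvPolynomial (Fin N) K) (x : Fin N → K) :
    eval x (cmp Φ f) = eval (pmap Φ x) f := by
  unfold cmp pmap
  rw [eval, eval₂Hom_bind₁]
  rfl

theorem cmp_mem {Φ : Fin N → MvPolynomial (Fin N) K} {α : Fin N → K} {U : Ultrafilter ℕ}
    (hU : (U : Filter ℕ) ≤ cofinite) (l : ℕ) (f : MvPolynomial (Fin N) K) :
    cmp Φ f ∈ van U (back Φ α (l + 1)) ↔ f ∈ van U (back Φ α l) := by
  rw [mem_van, mem_van]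
  constructor
  · intro h
    filter_upwards [h, back_step Φ α hU l] with n h1 h2
    rw [eval_cmp, ← h2] at h1
    exact h1
  · intro h
    filter_upwards [h, back_step Φ α hU l] with n h1 h2
    rw [eval_cmp, ← h2]
    exact h1

theorem cmp_iter_mem {Φ : Fin N → MvPolynomial (Fin N) K} {α : Fin N → K} {U : Ultrafilter ℕ}
    (hU : (U : Filter ℕ) ≤ cofinite) (k l : ℕ) (f : MvPolynomial (Fin N) K) :
    (cmp Φ)^[k] f ∈ van U (back Φ α (l + k)) ↔ f ∈ van U (back Φ α l) := by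
  induction k generalizing f with
  | zero => rfl
  | succ k ih =>
    rw [Function.iterate_succ_apply', ← add_assoc, cmp_mem hU, ih]

theorem eval_cmp_iter (Φ : Fin N → MvPolynomial (Fin N) K) (k : ℕ) (f : MvPolynomial (Fin N) K)
    (x : Fin N → K) : eval x ((cmp Φ)^[k] f) = eval ((pmap Φ)^[k] x) f := by
  induction k generalizing f x with
  | zero => rfl
  | succ k ih =>
    rw [Function.iterate_succ_apply', eval_cmp, ih, ← Function.iterate_succ_apply]

end shift

section homog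

variable {K Ω : Type*} [Field K] [Field Ω] [Algebra K Ω] {N d : ℕ}

theorem aeval_smul_of_homog {f : MvPolynomial (Fin N) K} {m : ℕ} (hf : f.IsHomogeneous m) (c : Ω)
    (z : Fin N → Ω) : aeval (c • z) f = c ^ m * aeval z f := by
  rw [aeval_def, aeval_def, eval₂_eq', eval₂_eq', Finset.mul_sum]
  refine Finset.sum_congr rfl fun s hs => ?_
  have h1 : ∑ i, s i = m := by
    have := hf (mem_support_iff.1 hs)
    rw [Finsupp.weight_apply, Finsupp.sum_fintype _ _ (by simp)] at this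
    simpa using this
  have h2 : ∏ i, (c • z) i ^ s i = c ^ m * ∏ i, z i ^ s i := by
    simp only [Pi.smul_apply, smul_eq_mul, mul_pow]
    rw [Finset.prod_mul_distrib, Finset.prod_pow_eq_pow_sum, h1]
  rw [h2]
  ring

theorem infMap_smul (Φ : Fin N → MvPolynomial (Fin N) K) (c : Ω) (z : Fin N → Ω) :
    infMap d Φ (c • z) = c ^ d • infMap d Φ z := by
  funext i
  exact aeval_smul_of_homog (homogeneousComponent_isHomogeneous d (Φ i)) c z

theorem jac_smul (Φ : Fin N → MvPolynomial (Fin N) K) {c : Ω} (hc : c ≠ 0) (z : Fin N → Ω) :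
    jac d Φ (c • z) = 0 ↔ jac d Φ z = 0 := by
  have h : (Matrix.of fun i j => aeval (c • z) (pderiv j (homogeneousComponent d (Φ i)))) =
      c ^ (d - 1) • (Matrix.of fun i j => aeval z (pderiv j (homogeneousComponent d (Φ i)))) := by
    ext i j
    have h1 := (homogeneousComponent_isHomogeneous d (Φ i)).pderiv (i := j)
    simp only [Matrix.of_apply, Matrix.smul_apply, smul_eq_mul]
    exact aeval_smul_of_homog h1 c z
  unfold jac
  rw [h, Matrix.det_smul]
  simp [hc]

theorem infMap_iter_smul (Φ : Fin N → MvPolynomial (Fin N) K) (k : ℕ) (c : Ω) (z : Fin N → Ω) :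
    (infMap d Φ)^[k] (c • z) = c ^ d ^ k • (infMap d Φ)^[k] z := by
  induction k generalizing c z with
  | zero => simp
  | succ k ih =>
    rw [Function.iterate_succ_apply, infMap_smul, ih, Function.iterate_succ_apply, ← pow_mul,
      pow_succ', mul_comm]

theorem iter_back {Φ : Fin N → MvPolynomial (Fin N) K} {q : ℕ → Fin N → Ω}
    (hstep : ∀ l, ∃ c : Ω, c ≠ 0 ∧ infMap d Φ (q (l + 1)) = c • q l) (k l : ℕ) :
    ∃ c : Ω, c ≠ 0 ∧ (infMap d Φ)^[k] (q (l + k)) = c • q l := by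
  induction k generalizing l with
  | zero => exact ⟨1, one_ne_zero, by simp⟩
  | succ k ih =>
    obtain ⟨c, hc, h⟩ := hstep (l + k)
    obtain ⟨c', hc', h'⟩ := ih l
    refine ⟨c ^ d ^ k * c', mul_ne_zero (pow_ne_zero _ hc) hc', ?_⟩
    rw [Function.iterate_succ_apply, ← add_assoc, h, infMap_iter_smul, h', smul_smul]

theorem nrm_ne_zero {q : Fin N → Ω} (h : Nrm q) : q ≠ 0 := by
  obtain ⟨i, hi, -⟩ := h
  intro h0
  rw [h0] at hi
  exact zero_ne_one hi

theorem gal_infMap (Φ : Fin N → MvPolynomial (Fin N) K) (σ : Ω ≃ₐ[K] Ω) (z : Fin N → Ω) (j : Fin N) :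
    σ (infMap d Φ z j) = infMap d Φ (fun i => σ (z i)) j := by
  unfold infMap
  have h := MvPolynomial.map_aeval z (σ : Ω →+* Ω) (homogeneousComponent d (Φ j))
  have h2 : (σ : Ω →+* Ω).comp (algebraMap K Ω) = algebraMap K Ω := by
    ext r
    exact σ.commutes r
  rw [h2] at h
  rw [aeval_def]
  exact h

/-- conjugates of `q (l+1)` determine the conjugates of `q l` -/
theorem few_mono {Φ : Fin N → MvPolynomial (Fin N) K} {q q' : Fin N → Ω} (hn : Nrm q)
    (hstep : ∃ c : Ω, c ≠ 0 ∧ infMap d Φ q' = c • q) {σ : Fin 3 → (Ω ≃ₐ[K] Ω)}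
    (h : Function.Injective fun (i : Fin 3) (j : Fin N) => σ i (q j)) :
    Function.Injective fun (i : Fin 3) (j : Fin N) => σ i (q' j) := by
  obtain ⟨c, hc, hcq⟩ := hstep
  obtain ⟨i0, hi0, -⟩ := hn
  have hc' : c = infMap d Φ q' i0 := by
    rw [hcq, Pi.smul_apply, hi0, smul_eq_mul, mul_one]
  have hq : ∀ j, q j = infMap d Φ q' j / infMap d Φ q' i0 := by
    intro j
    rw [← hc', hcq, Pi.smul_apply, smul_eq_mul, mul_div_cancel_left₀ _ hc]
  intro i i' hii
  refine h ?_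
  funext j
  have e : (fun j => σ i (q' j)) = fun j => σ i' (q' j) := hii
  change σ i (q j) = σ i' (q j)
  rw [hq, map_div₀, map_div₀, gal_infMap, gal_infMap, gal_infMap, gal_infMap, e]

theorem aeval_mem (F : IntermediateField K Ω) {z : Fin N → Ω} (hz : ∀ j, z j ∈ F)
    (f : MvPolynomial (Fin N) K) : aeval z f ∈ F := by
  induction f using MvPolynomial.induction_on with
  | C a => rw [aeval_C]; exact F.algebraMap_mem a
  | add f g hf hg => rw [map_add]; exact add_mem hf hg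
  | mul_X f i hf => rw [map_mul, aeval_X]; exact mul_mem hf (hz i)

end homog

theorem Follow.mono {Ω : Type*} [Field Ω] {N : ℕ} {μ : AbsoluteValue Ω ℝ} {U : Ultrafilter ℕ}
    {y : ℕ → Fin N → Ω} {A : Fin N → Polynomial Ω} {τ τ' : ℝ} (h : Follow μ U y A τ)
    (hτ : τ' ≤ τ) : Follow μ U y A τ' := by
  obtain ⟨s, hs0, hs, C, hC⟩ := h
  refine ⟨s, hs0, hs, |C|, ?_⟩
  filter_upwards [hs0, hC, hs.eventually (gt_mem_nhds one_pos)] with n h1 h2 h3 i
  have h4 : 0 < μ (s n) := μ.pos h1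
  calc μ (s n * y n i - (A i).eval (s n)) ≤ C * μ (s n) ^ τ := h2 i
    _ ≤ |C| * μ (s n) ^ τ := mul_le_mul_of_nonneg_right (le_abs_self C) (Real.rpow_nonneg h4.le _)
    _ ≤ |C| * μ (s n) ^ τ' := mul_le_mul_of_nonneg_left
      (Real.rpow_le_rpow_of_exponent_ge h4 h3.le hτ) (abs_nonneg C)

section main

variable {K Ω : Type*} [Field K] [NumberField K] [Field Ω] [Algebra K Ω] {N d : ℕ}

theorem sz_emb {v : Pl K} {μ : AbsoluteValue Ω ℝ} (h : Ext v μ) (x : ℕ → Fin N → K) (n : ℕ) :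
    sz μ (emb Ω x n) = sz (av v) (x n) := by
  unfold sz emb
  simp only [h.base]

theorem rate_back {Φ : Fin N → MvPolynomial (Fin N) K} {α : Fin N → K} (hd : 2 ≤ d)
    {U : Ultrafilter ℕ} (hU : (U : Filter ℕ) ≤ cofinite) {v : Pl K} {G C : ℝ}
    (h : ∀ n, |Real.log (sz (av v) (orb Φ α n)) - G * d ^ n| ≤ C) (l : ℕ) :
    Tendsto (fun n => Real.log (sz (av v) (back Φ α l n)) / (d : ℝ) ^ n) (U : Filter ℕ)
      (𝓝 (G / d ^ l)) := by
  have hd0 : (0 : ℝ) < d := by
    have : 0 < d := by omega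
    exact_mod_cast this
  have htop : Tendsto (fun n : ℕ => (d : ℝ) ^ n) atTop atTop :=
    tendsto_pow_atTop_atTop_of_one_lt (by exact_mod_cast (by omega : 1 < d))
  have hU' : (U : Filter ℕ) ≤ atTop := Nat.cofinite_eq_atTop ▸ hU
  have hz : Tendsto (fun n : ℕ => C / (d : ℝ) ^ n) (U : Filter ℕ) (𝓝 0) :=
    (Tendsto.const_div_atTop htop C).mono_left hU'
  rw [tendsto_iff_norm_sub_tendsto_zero]
  refine squeeze_zero' (Eventually.of_forall fun n => norm_nonneg _) ?_ hz
  filter_upwards [eventually_ge hU l] with n hn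
  have h1 := h (n - l)
  have hp : (0 : ℝ) < (d : ℝ) ^ n := pow_pos hd0 n
  have h2 : (d : ℝ) ^ n = d ^ (n - l) * d ^ l := by
    rw [← pow_add, Nat.sub_add_cancel hn]
  have h3 : Real.log (sz (av v) (back Φ α l n)) / (d : ℝ) ^ n - G / d ^ l =
      (Real.log (sz (av v) (orb Φ α (n - l))) - G * d ^ (n - l)) / (d : ℝ) ^ n := by
    unfold back
    rw [sub_div, h2]
    congr 1
    field_simp
  rw [h3, Real.norm_eq_abs, abs_div, abs_of_pos hp]
  exact div_le_div_of_nonneg_right h1 hp.le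

/-- The hypothesis on the points at infinity. -/
def NoCrit (Ω : Type*) [Field Ω] [Algebra K Ω] (d : ℕ) (Φ : Fin N → MvPolynomial (Fin N) K)
    (I : Ideal (MvPolynomial (Fin N) K)) : Prop :=
  ∀ z : Fin N → Ω, z ≠ 0 → (∀ f ∈ I, aeval z (homogeneousComponent f.totalDegree f) = 0) →
    (∃ m, 0 < m ∧ ∃ c : Ω, c ≠ 0 ∧ (infMap d Φ)^[m] z = c • z) →
    (∃ F : IntermediateField K Ω, FiniteDimensional K F ∧ Module.finrank K F ≤ 2 ∧ ∀ j, z j ∈ F) →
    ∀ k, jac d Φ ((infMap d Φ)^[k] z) ≠ 0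

theorem trdeg_back [IsAlgClosed Ω] (hd : 2 ≤ d) {Φ : Fin N → MvPolynomial (Fin N) K}
    (hΦ : Reg Ω d Φ) {α : Fin N → K} {I : Ideal (MvPolynomial (Fin N) K)}
    (hI : ∀ P : Ideal (MvPolynomial (Fin N) K), P.IsPrime → I ≤ P →
      Algebra.trdeg K (MvPolynomial (Fin N) K ⧸ P) ≤ 1)
    {U : Ultrafilter ℕ} (hU : (U : Filter ℕ) ≤ cofinite)
    (hR : {n | ∀ f ∈ I, eval (orb Φ α n) f = 0} ∈ U) (l : ℕ) :
    Algebra.trdeg K (MvPolynomial (Fin N) K ⧸ van U (back Φ α l)) ≤ 1 := by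
  induction l with
  | zero =>
    refine hI _ (van_prime _ _) fun f hf => ?_
    rw [mem_van]
    filter_upwards [hR] with n hn
    exact hn f hf
  | succ l ih => exact trdeg_step (Ω := Ω) (by omega) hΦ (back_step Φ α hU l) ih

theorem main_inj [IsAlgClosure K Ω] (hd : 2 ≤ d) {Φ : Fin N → MvPolynomial (Fin N) K}
    (hΦ : Reg Ω d Φ) {α : Fin N → K} (hinj : Function.Injective (orb Φ α))
    {I : Ideal (MvPolynomial (Fin N) K)}
    (hI : ∀ P : Ideal (MvPolynomial (Fin N) K), P.IsPrime → I ≤ P →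
      Algebra.trdeg K (MvPolynomial (Fin N) K ⧸ P) ≤ 1) (hcrit : NoCrit Ω d Φ I)
    {U : Ultrafilter ℕ} (hU : (U : Filter ℕ) ≤ cofinite)
    (hR : {n | ∀ f ∈ I, eval (orb Φ α n) f = 0} ∈ U) :
    ∃ m, 0 < m ∧ ∀ f, f ∈ van U (back Φ α 0) → (cmp Φ)^[m] f ∈ van U (back Φ α 0) := by
  classical
  have : IsAlgClosed Ω := IsAlgClosure.isAlgClosed K
  have hd1 : 1 ≤ d := by omega
  have hdR : (0 : ℝ) < d := by exact_mod_cast (by omega : 0 < d)
  -- growth of the local sizes
  choose G C hG0 hG using fun v : Pl K => orb_growth (Ω := Ω) hd hΦ α v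
  obtain ⟨S, hS⟩ := exists_S Φ α
  have hpos : ∃ v ∈ S, 0 < G v := by
    obtain ⟨v, hv, hunb⟩ := unbounded hinj hS
    refine ⟨v, hv, (hG0 v).lt_of_ne fun h => ?_⟩
    obtain ⟨n, hn⟩ := hunb (C v)
    have h1 := hG v n
    rw [← h, zero_mul, sub_zero] at h1
    exact absurd ((le_abs_self _).trans h1) (not_le.2 hn)
  let t : ℕ → ℝ := fun n => (d : ℝ) ^ n
  have htop : Tendsto t atTop atTop :=
    tendsto_pow_atTop_atTop_of_one_lt (by exact_mod_cast (by omega : 1 < d))
  have ht : Tendsto t (U : Filter ℕ) atTop := htop.mono_left (Nat.cofinite_eq_atTop ▸ hU)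
  let g : ℕ → Pl K → ℝ := fun l v => G v / d ^ l
  have hg : ∀ l v, Tendsto (fun n => Real.log (sz (av v) (back Φ α l n)) / t n) (U : Filter ℕ)
      (𝓝 (g l v)) := fun l v => rate_back hd hU (hG v) l
  have hgpos : ∀ l v, 0 < G v → 0 < g l v := fun l v h => div_pos h (pow_pos hdR l)
  have hgpos' : ∀ l v, 0 < g l v → 0 < G v := by
    intro l v h
    by_contra hcon
    have h1 : G v = 0 := le_antisymm (not_lt.1 hcon) (hG0 v)
    simp [g, h1] at h
  have hSb : ∀ l n, ∀ v, v ∉ S → ∀ i, nv v (back Φ α l n i) ≤ 1 := fun l n v hv i => hS (n - l) v hv i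
  have htd := fun l => trdeg_back (Ω := Ω) hd hΦ hI hU hR l
  -- absolute values of the closure
  choose μ hμ using fun v : Pl K => exists_ext (Ω := Ω) v
  have hgrow : ∀ l v, 0 < G v →
      Tendsto (fun n => Real.log (sz (μ v) (emb Ω (back Φ α l) n))) (U : Filter ℕ) atTop := by
    intro l v hv
    have h1 := (hg l v).pos_mul_atTop (hgpos l v hv) ht
    refine h1.congr fun n => ?_
    have h2 : t n ≠ 0 := (pow_pos hdR n).ne'
    rw [sz_emb (hμ v)]
    field_simp
  have hcv : ∀ l v, 0 < G v → Cv (μ v) U (emb Ω (back Φ α l)) := fun l v hv =>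
    ⟨hgrow l v hv, trdeg_emb (htd l)⟩
  have hdir : ∀ l v, ∃ q : Fin N → Ω, 0 < G v → Dir (μ v) U (emb Ω (back Φ α l)) q := by
    intro l v
    by_cases h : 0 < G v
    · obtain ⟨q, hq⟩ := dir_exists (hcv l v h)
      exact ⟨q, fun _ => hq⟩
    · exact ⟨0, fun h' => absurd h' h⟩
  choose qq hqq using hdir
  have hstepv : ∀ v, 0 < G v → ∀ l, ∃ c : Ω, c ≠ 0 ∧ infMap d Φ (qq (l + 1) v) = c • qq l v :=
    fun v hv l => dir_map hΦ (hgrow l v hv) (hgrow (l + 1) v hv) (back_step Φ α hU l) (hqq l v hv)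
      (hqq (l + 1) v hv)
  -- Part A
  have hA : ∀ l, ∃ v ∈ S, 0 < G v ∧ ∀ σ : Fin 3 → (Ω ≃ₐ[K] Ω),
      ¬ Function.Injective fun (i : Fin 3) (j : Fin N) => σ i (qq l v j) := by
    intro l
    obtain ⟨v, hv, hv', h⟩ := partA U (back Φ α l) S (hSb l) t ht (g l) (fun v _ => hg l v)
      (by obtain ⟨v, h1, h2⟩ := hpos; exact ⟨v, h1, hgpos l v h2⟩) μ (fun v _ => hμ v)
      (fun v _ h => hcv l v (hgpos' l v h)) (qq l) (fun v _ h => hqq l v (hgpos' l v h))
    exact ⟨v, hv, hgpos' l v hv', h⟩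
  obtain ⟨v, hvS, hv, hfew⟩ : ∃ v ∈ S, 0 < G v ∧ ∀ l, ∀ σ : Fin 3 → (Ω ≃ₐ[K] Ω),
      ¬ Function.Injective fun (i : Fin 3) (j : Fin N) => σ i (qq l v j) := by
    by_contra hcon
    push Not at hcon
    have h1 : ∀ v : Pl K, ∃ l0, v ∈ S → 0 < G v → ∀ l, l0 ≤ l → ∃ σ : Fin 3 → (Ω ≃ₐ[K] Ω),
        Function.Injective fun (i : Fin 3) (j : Fin N) => σ i (qq l v j) := by
      intro v
      by_cases h : v ∈ S ∧ 0 < G v
      · obtain ⟨l0, σ, hσ⟩ := hcon v h.1 h.2
        refine ⟨l0, fun _ _ l hl => ⟨σ, ?_⟩⟩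
        induction l, hl using Nat.le_induction with
        | base => exact hσ
        | succ l hl ih => exact few_mono (hqq l v h.2).nrm (hstepv v h.2 l) ih
      · exact ⟨0, fun h1 h2 => absurd ⟨h1, h2⟩ h⟩
    choose l0 hl0 using h1
    obtain ⟨v, hv, hv', h⟩ := hA (S.sup l0)
    obtain ⟨σ, hσ⟩ := hl0 v hv hv' (S.sup l0) (Finset.le_sup hv)
    exact h σ hσ
  -- the periodic cycle at infinity
  let q : ℕ → Fin N → Ω := fun l => qq l v
  have hdirq : ∀ l, Dir (μ v) U (emb Ω (back Φ α l)) (q l) := fun l => hqq l v hv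
  have hn : ∀ l, Nrm (q l) := fun l => (hdirq l).nrm
  have hstep : ∀ l, ∃ c : Ω, c ≠ 0 ∧ infMap d Φ (q (l + 1)) = c • q l := hstepv v hv
  obtain ⟨F, hFfin, hF2, hF⟩ := few_field hn hstep hfew
  obtain ⟨p, hp, hper⟩ := per_of_heights hd hΦ hn hstep F hF
  choose c hc hcq using hstep
  have hcper : ∀ l, c (l + p) = c l := by
    intro l
    have h1 := hcq (l + p)
    rw [show l + p + 1 = (l + 1) + p by ring, hper, hper, hcq] at h1
    obtain ⟨i, hi, -⟩ := hn l
    have h2 := congrFun h1 i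
    rw [Pi.smul_apply, Pi.smul_apply, hi, smul_eq_mul, smul_eq_mul, mul_one, mul_one] at h2
    exact h2.symm
  have hcF : ∀ l, c l ∈ F := by
    intro l
    obtain ⟨i, hi, -⟩ := hn l
    have h1 := congrFun (hcq l) i
    rw [Pi.smul_apply, hi, smul_eq_mul, mul_one] at h1
    rw [← h1]
    exact aeval_mem F (hF (l + 1)) _
  have hpermul : ∀ k, q (k * p) = q 0 := by
    intro k
    induction k with
    | zero => rw [zero_mul]
    | succ k ih => rw [Nat.succ_mul, hper, ih]
  have hjac : ∀ l, jac d Φ (q l) ≠ 0 := by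
    intro l
    have hstep' : ∀ l, ∃ c : Ω, c ≠ 0 ∧ infMap d Φ (q (l + 1)) = c • q l := fun l =>
      ⟨c l, hc l, hcq l⟩
    have hinf : ∀ f ∈ I, aeval (q 0) (homogeneousComponent f.totalDegree f) = 0 := by
      intro f hf
      refine at_inf (hgrow 0 v hv) (hdirq 0) ?_
      rw [mem_van]
      filter_upwards [hR] with n hn
      exact hn f hf
    have hperz : ∃ m, 0 < m ∧ ∃ c : Ω, c ≠ 0 ∧ (infMap d Φ)^[m] (q 0) = c • q 0 := by
      obtain ⟨c', hc', h⟩ := iter_back hstep' p 0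
      rw [hper 0] at h
      exact ⟨p, hp, c', hc', h⟩
    have h1 := hcrit (q 0) (nrm_ne_zero (hn 0)) hinf hperz ⟨F, hFfin, hF2, hF 0⟩ (l * p - l)
    obtain ⟨c', hc', h2⟩ := iter_back hstep' (l * p - l) l
    have h3 : l + (l * p - l) = l * p := by
      have : l ≤ l * p := Nat.le_mul_of_pos_right l hp
      omega
    rw [h3, hpermul] at h2
    rw [h2] at h1
    exact fun h => h1 ((jac_smul Φ hc' (q l)).2 h)
  -- parameters
  set s : ℝ := ∑ w ∈ S, wt w * G w with hs
  set a : ℝ := wt v * G v with ha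
  have ha0 : 0 < a := mul_pos (by exact_mod_cast wt_pos v) hv
  have hs0 : 0 ≤ s := Finset.sum_nonneg fun w _ => mul_nonneg (Nat.cast_nonneg _) (hG0 w)
  obtain ⟨M, hM⟩ := exists_nat_ge (s / a)
  have hM' : s ≤ M * a := by rwa [div_le_iff₀ ha0] at hM
  obtain ⟨δ, hδ⟩ : ∃ δ : ℕ, δ = 4 * M + 4 := ⟨_, rfl⟩
  obtain ⟨T, hTdef⟩ : ∃ T : ℕ, T = δ * M + 1 := ⟨_, rfl⟩
  have hT1 : 2 * T < (δ + 2).choose 2 := by
    rw [Nat.choose_two_right, hTdef, hδ]
    have h1 : (4 * M + 4 + 2) * (4 * M + 4 + 2 - 1) / 2 = (2 * M + 3) * (4 * M + 5) := by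
      rw [show 4 * M + 4 + 2 - 1 = 4 * M + 5 by omega,
        show (4 * M + 4 + 2) * (4 * M + 5) = 2 * ((2 * M + 3) * (4 * M + 5)) by ring,
        Nat.mul_div_cancel_left _ (by norm_num)]
    rw [h1]
    nlinarith
  have hT2 : (δ : ℝ) * s < T * a := by
    rw [hTdef]
    push_cast
    have h1 : (δ : ℝ) * s ≤ δ * (M * a) := mul_le_mul_of_nonneg_left hM' (Nat.cast_nonneg _)
    nlinarith
  have hT3 : ∀ l, (δ : ℝ) * ∑ w ∈ S, wt w * g l w < T * (wt v * g l v) := by
    intro l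
    have h1 : ∑ w ∈ S, (wt w : ℝ) * g l w = s / d ^ l := by
      rw [hs, Finset.sum_div]
      exact Finset.sum_congr rfl fun w _ => by simp only [g]; ring
    have h2 : (wt v : ℝ) * g l v = a / d ^ l := by
      simp only [g, ha]
      ring
    rw [h1, h2, ← mul_div_assoc, ← mul_div_assoc]
    exact div_lt_div_of_pos_right hT2 (pow_pos hdR l)
  -- arcs
  obtain ⟨A, hAper, hAF, hA0, hAfe⟩ := exists_arcs hd hp hper hc hcper hcq hjac F hF hcF T
  obtain ⟨τ, hτ, hfol0⟩ := follow_base (hgrow 0 v hv) (hdirq 0) (hA0 0)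
  have hTpos : (0 : ℝ) < T := by
    rw [hTdef]
    positivity
  have hfol : ∀ l, Follow (μ v) U (emb Ω (back Φ α l)) (A l) (min (d ^ l * τ) T) := by
    intro l
    induction l with
    | zero => exact hfol0.mono (by simp)
    | succ l ih =>
      have h1 := follow_step hd hΦ (back_step Φ α hU l) (hgrow (l + 1) v hv) (hdirq (l + 1)) (hn l)
        (hc l) (hcq l) (hjac (l + 1)) (hA0 l) (hA0 (l + 1)) (hAfe l)
        (lt_min (mul_pos (pow_pos hdR l) hτ) hTpos) ih
      refine h1.mono (le_min ?_ (min_le_right _ _))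
      rw [mul_min_of_nonneg _ _ hdR.le]
      refine le_min ?_ ?_
      · refine (min_le_left _ _).trans (le_of_eq ?_)
        ring
      · refine (min_le_right _ _).trans ?_
        have : (1 : ℝ) ≤ d := by exact_mod_cast hd1
        nlinarith
  obtain ⟨l0, hl0⟩ : ∃ l0 : ℕ, ∀ l, l0 ≤ l → (T : ℝ) ≤ d ^ l * τ := by
    have h1 : Tendsto (fun l : ℕ => (d : ℝ) ^ l * τ) atTop atTop := htop.atTop_mul_const hτ
    obtain ⟨l0, h⟩ := (h1.eventually_ge_atTop (T : ℝ)).exists_forall_of_atTop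
    exact ⟨l0, h⟩
  -- the ideals
  let J : ℕ → Ideal (MvPolynomial (Fin N) K) := fun l =>
    Ideal.span {p | p.totalDegree ≤ δ ∧ (Polynomial.X : Polynomial Ω) ^ T ∣ jet δ p (A l)}
  have hmin : ∀ l, l0 ≤ l → van U (back Φ α l) ∈ (J l).minimalPrimes := by
    intro l hl
    have hJ : J l ≤ van U (back Φ α l) := by
      refine Ideal.span_le.2 fun f hf => ?_
      refine jet_vanish U (back Φ α l) S (hSb l) t ht (g l) (fun w _ => hg l w) hvS
        (hgpos l v hv) (hμ v) (hn l) (hA0 l) ?_ (hT3 l) hf.1 hf.2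
      exact (hfol l).mono (le_min (hl0 l hl) le_rfl)
    obtain ⟨Q, hQ, hQle⟩ := Ideal.exists_minimalPrimes_le hJ
    have hQp : Q.IsPrime := hQ.1.1
    have h1 : Algebra.trdeg K (MvPolynomial (Fin N) K ⧸ Q) ≤ 1 :=
      trdeg_of_jets F hF2 (hAF l) hT1 Q fun f h1 h2 => hQ.1.2 (Ideal.subset_span ⟨h1, h2⟩)
    have h2 : ¬ Algebra.IsAlgebraic K (MvPolynomial (Fin N) K ⧸ van U (back Φ α l)) := by
      refine van_transc fun c => ?_
      have h3 : {n | orb Φ α n = c}.Subsingleton := fun n hn m hm => hinj (hn.trans hm.symm)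
      rcases h3.eq_empty_or_singleton with h | ⟨m, h⟩
      · refine Eventually.of_forall fun n hn => ?_
        have : n - l ∈ {n | orb Φ α n = c} := hn
        rw [h] at this
        exact this
      · filter_upwards [eventually_ge hU (m + l + 1)] with n hn hn'
        have : n - l ∈ {n | orb Φ α n = c} := hn'
        rw [h, Set.mem_singleton_iff] at this
        omega
    rw [← prime_eq hQle h1 h2]
    exact hQ
  have hAmul : ∀ k r, A (r + k * p) = A r := by
    intro k r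
    induction k with
    | zero => rw [zero_mul, add_zero]
    | succ k ih => rw [Nat.succ_mul, ← add_assoc, hAper, ih]
  have hJmod : ∀ l, J l = J (l % p) := by
    intro l
    have h1 : A l = A (l % p) := by
      conv_lhs => rw [← Nat.mod_add_div l p, mul_comm]
      exact hAmul _ _
    simp only [J, h1]
  have hfin : (⋃ r ∈ Finset.range p, (J r).minimalPrimes).Finite := by
    refine Set.Finite.biUnion (Finset.finite_toSet _) fun r _ => ?_
    exact Ideal.finite_minimalPrimes_of_isNoetherianRing _ _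
  have hmem : ∀ l : ℕ, van U (back Φ α (l0 + l)) ∈ ⋃ r ∈ Finset.range p, (J r).minimalPrimes := by
    intro l
    have h1 := hmin (l0 + l) (Nat.le_add_right _ _)
    rw [hJmod] at h1
    exact Set.mem_biUnion (Finset.mem_coe.2 (Finset.mem_range.2 (Nat.mod_lt _ hp))) h1
  obtain ⟨l, l', hll, heq⟩ : ∃ l l' : ℕ, l < l' ∧
      van U (back Φ α (l0 + l)) = van U (back Φ α (l0 + l')) := by
    have : Finite (⋃ r ∈ Finset.range p, (J r).minimalPrimes : Set _) := hfin.to_subtype
    obtain ⟨l, l', hne, h⟩ := Finite.exists_ne_map_eq_of_infinite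
      (fun l : ℕ => (⟨van U (back Φ α (l0 + l)), hmem l⟩ :
        (⋃ r ∈ Finset.range p, (J r).minimalPrimes : Set _)))
    have h' := congrArg Subtype.val h
    rcases lt_or_gt_of_ne hne with h1 | h1
    · exact ⟨l, l', h1, h'⟩
    · exact ⟨l', l, h1, h'.symm⟩
  refine ⟨l' - l, by omega, fun f hf => ?_⟩
  have h1 := (cmp_iter_mem (Φ := Φ) (α := α) hU (l0 + l') 0 f).2 hf
  rw [zero_add, ← heq, show l0 + l' = (l0 + l) + (l' - l) by omega, Function.iterate_add_apply] at h1
  have h2 := cmp_iter_mem (Φ := Φ) (α := α) hU (l0 + l) 0 ((cmp Φ)^[l' - l] f)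
  rw [zero_add] at h2
  exact h2.1 h1

/-- Theorem R: the return set is a finite union of progressions. -/
theorem main [IsAlgClosure K Ω] (hd : 2 ≤ d) {Φ : Fin N → MvPolynomial (Fin N) K}
    (hΦ : Reg Ω d Φ) (α : Fin N → K) {I : Ideal (MvPolynomial (Fin N) K)}
    (hI : ∀ P : Ideal (MvPolynomial (Fin N) K), P.IsPrime → I ≤ P →
      Algebra.trdeg K (MvPolynomial (Fin N) K ⧸ P) ≤ 1) (hcrit : NoCrit Ω d Φ I) :
    ∃ A : Finset (ℕ × ℕ), {n | ∀ f ∈ I, eval (orb Φ α n) f = 0} =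
      ⋃ p ∈ A, {n | ∃ k, n = p.1 + p.2 * k} := by
  classical
  by_cases hinj : Function.Injective (orb Φ α)
  · refine union_of_ultra _ fun U hU hR => ?_
    obtain ⟨m, hm, hinv⟩ := main_inj hd hΦ hinj hI hcrit hU hR
    have hIle : I ≤ van U (back Φ α 0) := fun f hf => by
      rw [mem_van]
      filter_upwards [hR] with n hn
      exact hn f hf
    -- almost all points are in the curve
    obtain ⟨s, hs⟩ := (isNoetherianRing_iff_ideal_fg _).1 inferInstance (van U (back Φ α 0))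
    have hW : ∀ᶠ n in (U : Filter ℕ), ∀ f ∈ van U (back Φ α 0), eval (orb Φ α n) f = 0 := by
      have h1 : ∀ᶠ n in (U : Filter ℕ), ∀ f ∈ s, eval (orb Φ α n) f = 0 := by
        rw [Filter.eventually_all_finset]
        intro f hf
        have : f ∈ van U (back Φ α 0) := by rw [← hs]; exact Ideal.subset_span hf
        exact this
      filter_upwards [h1] with n hn f hf
      rw [← hs] at hf
      have h2 : Ideal.span (s : Set (MvPolynomial (Fin N) K)) ≤ RingHom.ker (eval (orb Φ α n)) :=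
        Ideal.span_le.2 fun f hf => hn f hf
      exact h2 hf
    have hstep : ∀ n, (∀ f ∈ van U (back Φ α 0), eval (orb Φ α n) f = 0) →
        ∀ f ∈ van U (back Φ α 0), eval (orb Φ α (n + m)) f = 0 := by
      intro n hn f hf
      have h1 := hn _ (hinv f hf)
      rw [eval_cmp_iter] at h1
      have h2 : (pmap Φ)^[m] (orb Φ α n) = orb Φ α (n + m) := by
        unfold orb
        rw [← Function.iterate_add_apply, add_comm]
      rw [h2] at h1
      exact h1
    -- a residue class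
    obtain ⟨r, hr⟩ : ∃ r, ∀ᶠ n in (U : Filter ℕ), n % m = r := by
      have h1 : (Set.Iio m) ∈ U.map (fun n => n % m) :=
        Filter.mem_map.2 (Filter.univ_mem' fun n => Nat.mod_lt n hm)
      obtain ⟨r, -, h2⟩ := Ultrafilter.eq_pure_of_finite_mem (Set.finite_Iio m) h1
      have h3 : ({r} : Set ℕ) ∈ U.map (fun n => n % m) := by
        rw [h2]
        exact Ultrafilter.mem_pure.2 rfl
      exact ⟨r, h3⟩
    obtain ⟨a, haW, har⟩ := (hW.and hr).exists
    have hall : ∀ k, ∀ f ∈ van U (back Φ α 0), eval (orb Φ α (a + m * k)) f = 0 := by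
      intro k
      induction k with
      | zero => rw [Nat.mul_zero, Nat.add_zero]; exact haW
      | succ k ih => rw [Nat.mul_succ, ← add_assoc]; exact hstep _ ih
    refine ⟨a, m, hm, fun k f hf => hall k f (hIle hf), ?_⟩
    have h4 : ∀ᶠ n in (U : Filter ℕ), ∃ k, n = a + m * k := by
      filter_upwards [hr, eventually_ge hU a] with n h1 h2
      refine ⟨(n - a) / m, ?_⟩
      have h3 : m ∣ n - a := (Nat.modEq_iff_dvd' h2).1 (har.trans h1.symm)
      rw [Nat.mul_div_cancel' h3]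
      omega
    exact h4
  · -- finite orbits
    have : ∃ n0 m, 0 < m ∧ orb Φ α (n0 + m) = orb Φ α n0 := by
      unfold Function.Injective at hinj
      push Not at hinj
      obtain ⟨a, b, hab, hne⟩ := hinj
      rcases lt_or_gt_of_ne hne with h | h
      · exact ⟨a, b - a, by omega, by rw [Nat.add_sub_cancel' h.le]; exact hab.symm⟩
      · exact ⟨b, a - b, by omega, by rw [Nat.add_sub_cancel' h.le]; exact hab⟩
    obtain ⟨n0, m, hm, hn0⟩ := this
    have hper : ∀ n, n0 ≤ n → orb Φ α (n + m) = orb Φ α n := by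
      intro n hn
      induction n, hn using Nat.le_induction with
      | base => exact hn0
      | succ n hn ih =>
        rw [show n + 1 + m = (n + m) + 1 by ring, orb_succ, ih, ← orb_succ]
    exact union_of_periodic hm hper {x | ∀ f ∈ I, eval x f = 0}

end main

end Pool.Agent.Helper26.RC
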