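import Pool.Agent.Helper26.RC.Defs

/-! Block RC-RATE (easy, about 150 lines): elementary properties of sizes and rates.

Write `s n = sz μ (y n) ≥ 1`, `T n = log (s n) → ∞` (hypothesis `hg`). `Rate f ρ`: `log μ (f (y n)) = (ρ + o(1)) T n`, and `f (y n) ≠ 0` a.e.
* `eval_le`: expand `f` in monomials; `μ (∏ x_i ^ m_i) ≤ sz ^ |m| ≤ sz ^ totalDegree` as `μ (x i) ≤ sz` and `1 ≤ sz`;
  `C = 1 + ∑ μ (coefficients)`.
* `Rate.unique`: `tendsto_nhds_unique` (`U` is nontrivial). `Rate.le`, `rate_le_of_bound`: take logarithms and divide by `T`.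
* `Rate.mul`, `Rate.pow`, `rate_const`, `Rate.const_mul`: logarithms; the product is not in `van` (prime).
* `Rate.add_lt`: `μ (g) / μ (f) = exp ((ρ' - ρ + o(1)) T) → 0`, so `μ (f + g)` is between `μ f / 2` and `2 μ f` a.e.
* `Rate.le_max`: `μ (f + g) ≤ 2 max`.
* `exists_coord`: `sz = 1 + ∑ μ (y i) ≤ 1 + N max`, so for every `n` with `s n ≥ 2` some `i` has `s n ≤ 2 N μ (y n i)`;
  an ultrafilter picks one `i` (`Ultrafilter.eventually_exists` or finite union); then `T - log (2N) ≤ log μ (y i) ≤ T`.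
* `rate_poly`: the leading term dominates (or `rate_sum` with the powers of `X i`).
* `rate_sum`: induction on `s` or: all other terms are `o(μ (f i0))`. -/

set_option autoImplicit false

namespace Pool.Agent.Helper26.RC

open MvPolynomial Filter Topology

variable {Ω : Type*} [Field Ω] {N : ℕ} {μ : AbsoluteValue Ω ℝ} {U : Ultrafilter ℕ}
  {y : ℕ → Fin N → Ω}

theorem one_le_sz (μ : AbsoluteValue Ω ℝ) (x : Fin N → Ω) : 1 ≤ sz μ x := by
  unfold sz
  have : 0 ≤ ∑ i, μ (x i) := Finset.sum_nonneg fun i _ => μ.nonneg _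
  linarith

theorem le_sz (μ : AbsoluteValue Ω ℝ) (x : Fin N → Ω) (i : Fin N) : μ (x i) ≤ sz μ x := by
  unfold sz
  have : μ (x i) ≤ ∑ i, μ (x i) :=
    Finset.single_le_sum (f := fun i => μ (x i)) (fun i _ => μ.nonneg _) (Finset.mem_univ i)
  linarith

theorem eval_le (μ : AbsoluteValue Ω ℝ) (f : MvPolynomial (Fin N) Ω) :
    ∃ C : ℝ, 0 < C ∧ ∀ x, μ (eval x f) ≤ C * sz μ x ^ f.totalDegree := by
  refine ⟨1 + ∑ m ∈ f.support, μ (f.coeff m), ?_, fun x => ?_⟩
  · have : 0 ≤ ∑ m ∈ f.support, μ (f.coeff m) := Finset.sum_nonneg fun i _ => μ.nonneg _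
    linarith
  · have hs := one_le_sz μ x
    have h1 : μ (eval x f) ≤ ∑ m ∈ f.support, μ (f.coeff m) * sz μ x ^ f.totalDegree := by
      rw [eval_eq]
      refine (μ.sum_le _ _).trans (Finset.sum_le_sum fun m hm => ?_)
      rw [map_mul]
      refine mul_le_mul_of_nonneg_left ?_ (μ.nonneg _)
      rw [map_prod]
      calc ∏ i ∈ m.support, μ (x i ^ m i) ≤ ∏ i ∈ m.support, sz μ x ^ m i :=
            Finset.prod_le_prod (fun i _ => μ.nonneg _) fun i _ => by
              rw [map_pow]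
              exact pow_le_pow_left₀ (μ.nonneg _) (le_sz μ x i) _
        _ = sz μ x ^ (∑ i ∈ m.support, m i) := Finset.prod_pow_eq_pow_sum _ _ _
        _ ≤ sz μ x ^ f.totalDegree := pow_le_pow_right₀ hs (le_totalDegree hm)
    rw [← Finset.sum_mul] at h1
    have h2 : 0 < sz μ x ^ f.totalDegree := by positivity
    nlinarith

/-- lower estimate: from the rate -/
private theorem r_lower (hg : Tendsto (fun n => Real.log (sz μ (y n))) (U : Filter ℕ) atTop)
    {f : MvPolynomial (Fin N) Ω} {ρ : ℝ} (h : Rate μ U y f ρ) {ε : ℝ} (hε : 0 < ε) :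
    ∀ᶠ n in (U : Filter ℕ), 0 < μ (eval (y n) f) ∧ 0 < Real.log (sz μ (y n)) ∧
      (ρ - ε) * Real.log (sz μ (y n)) ≤ Real.log (μ (eval (y n) f)) ∧
      Real.log (μ (eval (y n) f)) ≤ (ρ + ε) * Real.log (sz μ (y n)) := by
  have h1 := h.2.eventually (Icc_mem_nhds (show ρ - ε < ρ by linarith) (show ρ < ρ + ε by linarith))
  filter_upwards [h1, notMem_van.1 h.1, hg.eventually_gt_atTop 0] with n h2 h3 h4
  refine ⟨μ.pos h3, h4, ?_, ?_⟩
  · have := h2.1
    rwa [le_div_iff₀ h4] at this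
  · have := h2.2
    rwa [div_le_iff₀ h4] at this

theorem Rate.unique {f : MvPolynomial (Fin N) Ω} {ρ ρ' : ℝ} (h : Rate μ U y f ρ)
    (h' : Rate μ U y f ρ') : ρ = ρ' :=
  tendsto_nhds_unique h.2 h'.2

theorem rate_le_of_bound (hg : Tendsto (fun n => Real.log (sz μ (y n))) (U : Filter ℕ) atTop)
    {f : MvPolynomial (Fin N) Ω} {ρ C σ : ℝ} (h : Rate μ U y f ρ)
    (hb : ∀ᶠ n in (U : Filter ℕ), μ (eval (y n) f) ≤ C * sz μ (y n) ^ σ) : ρ ≤ σ := by
  have h1 : Tendsto (fun n => Real.log (|C| + 1) / Real.log (sz μ (y n)) + σ) (U : Filter ℕ)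
      (𝓝 (0 + σ)) := (hg.const_div_atTop _).add_const σ
  rw [zero_add] at h1
  refine le_of_tendsto_of_tendsto h.2 h1 ?_
  filter_upwards [hb, notMem_van.1 h.1, hg.eventually_gt_atTop 0] with n h2 h3 h4
  have hs : 0 < sz μ (y n) := lt_of_lt_of_le one_pos (one_le_sz μ _)
  have h5 : μ (eval (y n) f) ≤ (|C| + 1) * sz μ (y n) ^ σ := by
    refine h2.trans (mul_le_mul_of_nonneg_right ?_ (Real.rpow_nonneg hs.le _))
    have := le_abs_self C
    linarith
  have h6 := Real.log_le_log (μ.pos h3) h5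
  have hC : 0 < |C| + 1 := by positivity
  rw [Real.log_mul hC.ne' (Real.rpow_pos_of_pos hs _).ne', Real.log_rpow hs] at h6
  rw [div_le_iff₀ h4, add_mul, div_mul_cancel₀ _ h4.ne']
  exact h6

theorem Rate.le (hg : Tendsto (fun n => Real.log (sz μ (y n))) (U : Filter ℕ) atTop)
    {f : MvPolynomial (Fin N) Ω} {ρ : ℝ} (h : Rate μ U y f ρ) : ρ ≤ f.totalDegree := by
  obtain ⟨C, -, hC⟩ := eval_le μ f
  refine rate_le_of_bound hg h (C := C) (Eventually.of_forall fun n => ?_)
  rw [Real.rpow_natCast]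
  exact hC _

theorem Rate.mul {f g : MvPolynomial (Fin N) Ω} {ρ σ : ℝ} (h : Rate μ U y f ρ)
    (h' : Rate μ U y g σ) : Rate μ U y (f * g) (ρ + σ) := by
  refine ⟨fun hm => ?_, ?_⟩
  · rcases (van_prime U y).mem_or_mem hm with h1 | h1
    · exact h.1 h1
    · exact h'.1 h1
  · refine (h.2.add h'.2).congr' ?_
    filter_upwards [notMem_van.1 h.1, notMem_van.1 h'.1] with n h1 h2
    rw [map_mul, map_mul, Real.log_mul (μ.pos h1).ne' (μ.pos h2).ne', add_div]

theorem rate_const (hg : Tendsto (fun n => Real.log (sz μ (y n))) (U : Filter ℕ) atTop)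
    {c : Ω} (hc : c ≠ 0) : Rate μ U y (C c) 0 := by
  refine ⟨?_, ?_⟩
  · rw [notMem_van]
    exact Eventually.of_forall fun n => by rw [eval_C]; exact hc
  · simp only [eval_C]
    exact hg.const_div_atTop _

theorem Rate.const_mul (hg : Tendsto (fun n => Real.log (sz μ (y n))) (U : Filter ℕ) atTop)
    {c : Ω} (hc : c ≠ 0) {f : MvPolynomial (Fin N) Ω} {ρ : ℝ} (h : Rate μ U y f ρ) :
    Rate μ U y (C c * f) ρ := by
  have h1 := (rate_const (μ := μ) (U := U) (y := y) hg hc).mul h
  rwa [zero_add] at h1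

theorem Rate.pow (hg : Tendsto (fun n => Real.log (sz μ (y n))) (U : Filter ℕ) atTop)
    {f : MvPolynomial (Fin N) Ω} {ρ : ℝ} (h : Rate μ U y f ρ) (k : ℕ) :
    Rate μ U y (f ^ k) (k * ρ) := by
  induction k with
  | zero =>
    have h1 := rate_const (μ := μ) (U := U) (y := y) hg (one_ne_zero : (1 : Ω) ≠ 0)
    simpa using h1
  | succ k ih =>
    have h1 := ih.mul h
    rw [pow_succ]
    push_cast
    rw [add_mul, one_mul]
    exact h1

theorem Rate.add_lt (hg : Tendsto (fun n => Real.log (sz μ (y n))) (U : Filter ℕ) atTop)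
    {f g : MvPolynomial (Fin N) Ω} {ρ σ : ℝ} (h : Rate μ U y f ρ) (h' : Rate μ U y g σ)
    (hlt : σ < ρ) : Rate μ U y (f + g) ρ := by
  have hε : 0 < (ρ - σ) / 4 := by linarith
  -- a.e. `2 μ g ≤ μ f`
  have hsmall : ∀ᶠ n in (U : Filter ℕ), 2 * μ (eval (y n) g) ≤ μ (eval (y n) f) := by
    filter_upwards [r_lower hg h hε, r_lower hg h' hε,
      hg.eventually_ge_atTop (Real.log 2 / ((ρ - σ) / 4))] with n h1 h2 h3
    rw [div_le_iff₀ hε] at h3
    have h4 : Real.log (2 * μ (eval (y n) g)) ≤ Real.log (μ (eval (y n) f)) := by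
      rw [Real.log_mul two_ne_zero h2.1.ne']
      have h5 := h1.2.2.1
      have h6 := h2.2.2.2
      nlinarith [h1.2.1]
    exact (Real.log_le_log_iff (by have := h2.1; positivity) h1.1).1 h4
  have hne : ∀ᶠ n in (U : Filter ℕ), eval (y n) (f + g) ≠ 0 ∧
      |Real.log (μ (eval (y n) (f + g))) - Real.log (μ (eval (y n) f))| ≤ Real.log 2 := by
    filter_upwards [hsmall, notMem_van.1 h.1] with n h1 h2
    have hf := μ.pos h2
    have h3 : μ (eval (y n) f) / 2 ≤ μ (eval (y n) (f + g)) := by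
      have h4 := μ.sub_le (eval (y n) (f + g)) (eval (y n) g) 
      rw [map_add, add_sub_cancel_right] at h4
      rw [map_add]
      have h5 : μ (eval (y n) f) ≤ μ (eval (y n) f + eval (y n) g) + μ (eval (y n) g) := by
        have := μ.add_le (eval (y n) f + eval (y n) g) (-(eval (y n) g))
        rw [add_neg_cancel_right, μ.map_neg] at this
        exact this
      linarith
    have h4 : μ (eval (y n) (f + g)) ≤ 2 * μ (eval (y n) f) := by
      rw [map_add]
      have := μ.add_le (eval (y n) f) (eval (y n) g)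
      linarith [μ.nonneg (eval (y n) g)]
    have h5 : 0 < μ (eval (y n) (f + g)) := by linarith
    refine ⟨μ.ne_zero_iff.1 h5.ne', ?_⟩
    rw [abs_le]
    have h6 := Real.log_le_log (by linarith) h3
    have h7 := Real.log_le_log h5 h4
    rw [Real.log_div hf.ne' two_ne_zero] at h6
    rw [Real.log_mul two_ne_zero hf.ne'] at h7
    constructor <;> linarith
  refine ⟨notMem_van.2 (hne.mono fun n hn => hn.1), ?_⟩
  have h1 : Tendsto (fun n => Real.log (μ (eval (y n) (f + g))) / Real.log (sz μ (y n)) -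
      Real.log (μ (eval (y n) f)) / Real.log (sz μ (y n))) (U : Filter ℕ) (𝓝 0) := by
    refine squeeze_zero_norm' ?_ (hg.const_div_atTop (Real.log 2))
    filter_upwards [hne, hg.eventually_gt_atTop 0] with n h2 h3
    rw [← sub_div, Real.norm_eq_abs, abs_div, abs_of_pos h3]
    exact div_le_div_of_nonneg_right h2.2 h3.le
  have h2 := h1.add h.2
  rw [zero_add] at h2
  simpa using h2

theorem Rate.le_max (hg : Tendsto (fun n => Real.log (sz μ (y n))) (U : Filter ℕ) atTop)
    {f g : MvPolynomial (Fin N) Ω} {ρ σ τ : ℝ} (h : Rate μ U y f ρ) (h' : Rate μ U y g σ)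
    (h'' : Rate μ U y (f + g) τ) : τ ≤ max ρ σ := by
  refine le_of_forall_pos_le_add fun ε hε => ?_
  refine rate_le_of_bound hg h'' (C := 2) ?_
  filter_upwards [r_lower hg h hε, r_lower hg h' hε] with n h1 h2
  have hs1 := one_le_sz μ (y n)
  have hs : 0 < sz μ (y n) := lt_of_lt_of_le one_pos hs1
  have key : ∀ {a κ : ℝ}, 0 < a → Real.log a ≤ κ * Real.log (sz μ (y n)) → κ ≤ max ρ σ + ε →
      a ≤ sz μ (y n) ^ (max ρ σ + ε) := by
    intro a κ ha hlog hκ
    rw [← Real.log_le_log_iff ha (Real.rpow_pos_of_pos hs _), Real.log_rpow hs]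
    exact hlog.trans (mul_le_mul_of_nonneg_right hκ (Real.log_nonneg hs1))
  have h3 := key h1.1 h1.2.2.2 (by linarith [le_max_left ρ σ])
  have h4 := key h2.1 h2.2.2.2 (by linarith [le_max_right ρ σ])
  rw [map_add]
  have := μ.add_le (eval (y n) f) (eval (y n) g)
  linarith

/-- Adding an element of the ideal does not change the rate. -/
theorem Rate.congr {f g : MvPolynomial (Fin N) Ω} {ρ : ℝ} (h : Rate μ U y f ρ)
    (hfg : f - g ∈ van U y) : Rate μ U y g ρ := by
  have he : ∀ᶠ n in (U : Filter ℕ), eval (y n) f = eval (y n) g := by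
    filter_upwards [mem_van.1 hfg] with n hn
    rw [map_sub, sub_eq_zero] at hn
    exact hn
  refine ⟨?_, ?_⟩
  · rw [notMem_van]
    filter_upwards [he, notMem_van.1 h.1] with n h1 h2
    rw [← h1]
    exact h2
  · refine h.2.congr' ?_
    filter_upwards [he] with n h1
    rw [h1]

theorem rate_sum (hg : Tendsto (fun n => Real.log (sz μ (y n))) (U : Filter ℕ) atTop)
    {ι : Type*} (s : Finset ι) (f : ι → MvPolynomial (Fin N) Ω) {i0 : ι} (hi0 : i0 ∈ s) {ρ : ℝ}
    (h : Rate μ U y (f i0) ρ)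
    (h' : ∀ i ∈ s, i ≠ i0 → f i ∈ van U y ∨ ∃ σ < ρ, Rate μ U y (f i) σ) :
    Rate μ U y (∑ i ∈ s, f i) ρ := by
  classical
  have key : ∀ t : Finset ι, t ⊆ s.erase i0 → Rate μ U y (f i0 + ∑ i ∈ t, f i) ρ := by
    intro t
    induction t using Finset.induction_on with
    | empty =>
      intro _
      rw [Finset.sum_empty, add_zero]
      exact h
    | insert a t ha ih =>
      intro hsub
      have hat := hsub (Finset.mem_insert_self a t)
      have ih' := ih ((Finset.subset_insert a t).trans hsub)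
      rw [Finset.sum_insert ha, add_left_comm]
      rcases h' a (Finset.mem_of_mem_erase hat) (Finset.ne_of_mem_erase hat) with h1 | ⟨σ, hσ, h1⟩
      · refine ih'.congr ?_
        have : f i0 + ∑ i ∈ t, f i - (f a + (f i0 + ∑ i ∈ t, f i)) = -(f a) := by ring
        rw [this]
        exact (van U y).neg_mem h1
      · rw [add_comm]
        exact ih'.add_lt hg h1 hσ
  have h1 := key (s.erase i0) subset_rfl
  rwa [Finset.add_sum_erase _ _ hi0] at h1

theorem exists_coord (hg : Tendsto (fun n => Real.log (sz μ (y n))) (U : Filter ℕ) atTop) :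
    ∃ i, Rate μ U y (X i) 1 ∧ ∃ C : ℝ, 0 < C ∧ ∀ᶠ n in (U : Filter ℕ), sz μ (y n) ≤ C * μ (y n i) := by
  have h1 : ∀ᶠ n in (U : Filter ℕ), ∃ i, sz μ (y n) ≤ (2 * N) * μ (y n i) := by
    filter_upwards [hg.eventually_ge_atTop (Real.log 2)] with n hn
    have hs1 := one_le_sz μ (y n)
    have h2 : 2 ≤ sz μ (y n) := (Real.log_le_log_iff two_pos (by linarith)).1 hn
    by_contra hcon
    push Not at hcon
    rcases Nat.eq_zero_or_pos N with hN | hN
    · subst hN
      simp [sz] at h2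
    · have h3 : ∑ i, (2 * N) * μ (y n i) < ∑ _i : Fin N, sz μ (y n) :=
        Finset.sum_lt_sum_of_nonempty ⟨⟨0, hN⟩, Finset.mem_univ _⟩ fun i _ => hcon i
      rw [← Finset.mul_sum, Finset.sum_const, Finset.card_univ, Fintype.card_fin, nsmul_eq_mul] at h3
      have h4 : ∑ i, μ (y n i) = sz μ (y n) - 1 := by unfold sz; ring
      rw [h4] at h3
      have hN' : (0 : ℝ) < N := by exact_mod_cast hN
      nlinarith
  obtain ⟨i, hi⟩ := Ultrafilter.eventually_exists_iff.1 h1
  have hN : (0 : ℝ) < 2 * N := by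
    have : 0 < N := i.pos
    positivity
  refine ⟨i, ⟨?_, ?_⟩, 2 * N, hN, hi⟩
  · rw [notMem_van]
    filter_upwards [hi] with n hn
    rw [eval_X]
    intro h0
    rw [h0, map_zero, mul_zero] at hn
    linarith [one_le_sz μ (y n)]
  · have h2 : Tendsto (fun n => 1 - Real.log (2 * N) / Real.log (sz μ (y n))) (U : Filter ℕ)
        (𝓝 (1 - 0)) := (hg.const_div_atTop _).const_sub 1
    rw [sub_zero] at h2
    refine tendsto_of_tendsto_of_tendsto_of_le_of_le' h2 tendsto_const_nhds ?_ ?_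
    · filter_upwards [hi, hg.eventually_gt_atTop 0] with n hn hpos
      have hs1 := one_le_sz μ (y n)
      have h3 : 0 < μ (y n i) := by
        by_contra hcon
        have : μ (y n i) = 0 := le_antisymm (not_lt.1 hcon) (μ.nonneg _)
        rw [this, mul_zero] at hn
        linarith
      have h4 := Real.log_le_log (by linarith) hn
      rw [Real.log_mul hN.ne' h3.ne'] at h4
      rw [eval_X, sub_le_iff_le_add, ← add_div, one_le_div hpos]
      linarith
    · filter_upwards [hi, hg.eventually_gt_atTop 0] with n hn hpos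
      have hs1 := one_le_sz μ (y n)
      have h3 : 0 < μ (y n i) := by
        by_contra hcon
        have : μ (y n i) = 0 := le_antisymm (not_lt.1 hcon) (μ.nonneg _)
        rw [this, mul_zero] at hn
        linarith
      rw [eval_X, div_le_one hpos]
      exact Real.log_le_log h3 (le_sz μ _ _)

theorem rate_poly (hg : Tendsto (fun n => Real.log (sz μ (y n))) (U : Filter ℕ) atTop)
    {i : Fin N} (hi : Rate μ U y (X i) 1) {p : Polynomial Ω} (hp : p ≠ 0) :
    Rate μ U y (Polynomial.aeval (X i : MvPolynomial (Fin N) Ω) p) p.natDegree := by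
  have h1 : Polynomial.aeval (X i : MvPolynomial (Fin N) Ω) p =
      ∑ k ∈ Finset.range (p.natDegree + 1), C (p.coeff k) * (X i : MvPolynomial (Fin N) Ω) ^ k := by
    rw [Polynomial.aeval_eq_sum_range]
    refine Finset.sum_congr rfl fun k _ => ?_
    rw [smul_eq_C_mul]
  have hpow : ∀ k : ℕ, Rate μ U y ((X i : MvPolynomial (Fin N) Ω) ^ k) k := by
    intro k
    have := hi.pow hg k
    rwa [mul_one] at this
  rw [h1]
  refine rate_sum hg _ _ (i0 := p.natDegree) (Finset.mem_range.2 (Nat.lt_succ_self _)) ?_ ?_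
  · exact (hpow _).const_mul hg (by
      rw [Polynomial.coeff_natDegree]
      exact Polynomial.leadingCoeff_ne_zero.2 hp)
  · intro k hk hne
    by_cases h0 : p.coeff k = 0
    · left
      rw [h0, C_0, zero_mul]
      exact (van U y).zero_mem
    · right
      refine ⟨k, ?_, (hpow k).const_mul hg h0⟩
      have : k < p.natDegree := lt_of_le_of_ne (Nat.lt_succ_iff.1 (Finset.mem_range.1 hk)) hne
      exact_mod_cast this

end Pool.Agent.Helper26.RC
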