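import Pool.Agent.Helper26.RC.VZero

/-! Block RC-V1 (about 200 lines): the growth rates form a discrete group.

Let `A = Ω[x] / van U y` (a domain), `ξ` the class of `X i`, `i` as in `exists_coord`.

(1) There is `e` such that among any `e + 1` polynomials `f_0, .., f_e ∉ van` there are two whose rates differ by an integer. Proof. `ξ` is transcendental
over `Ω` (`rate_poly`). All elements of `A` are algebraic over `Ω[ξ]` (`exists_rel` with `g = 1`). `A` is generated over `Ω[ξ]` by the
finitely many classes of the `X j`, so `Frac A` is a finite extension of `Ω(ξ)`, of degree `e` say. (E.g. make `A` an algebra over `Polynomial Ω` by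
`aeval ξ`, take fraction fields; or: `X j` satisfies a relation of degree `e_j` over `Ω[ξ]`, and by induction every element of `A`,
multiplied by a suitable nonzero element of `Ω[ξ]`, is an `Ω[ξ]`-combination of the `∏ e_j` monomials with exponents `< e_j`; `e = ∏ e_j`.)
So `e + 1` elements are linearly dependent: `∑ a_k (ξ) f_k = 0`, `a_k` polynomials, not all zero. If the rates `ρ_k` are pairwise incongruent
modulo `ℤ`, the rates `deg a_k + ρ_k` of the nonzero terms are pairwise different (`rate_poly`, `Rate.mul`) and `rate_sum` (the term with the largest rate)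
says that the sum is not in `van`: contradiction.

(2) Let `Γ ⊂ ℝ / ℤ` (`AddCircle (1 : ℝ)`, or work with `QuotientAddGroup` or `Int.fract`) be the set of the classes of all rates. It contains `0`
(constants) and is closed under addition (`Rate.mul`), finite with at most `e` elements by (1); a finite nonempty subset of a group closed
under addition is a subgroup. Let `b` be its order. Then `b Γ = 0`, i.e. all rates are of the form `m / b`; the classes `r / b`, `r = 0, .., b - 1` of
`ℝ / ℤ` are exactly the elements killed by `b`, there are `b` of them, so `Γ` is the set of all of them: every residue `r`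
modulo `b` is attained. -/

set_option autoImplicit false

namespace Pool.Agent.Helper26.RC

open MvPolynomial Filter Topology

variable {Ω : Type*} [Field Ω] {N : ℕ} {μ : AbsoluteValue Ω ℝ} {U : Ultrafilter ℕ}
  {y : ℕ → Fin N → Ω}

/-- finitely many polynomials are linearly dependent over the polynomials in one coordinate -/
private theorem dep86 (h : Algebra.trdeg Ω (MvPolynomial (Fin N) Ω ⧸ van U y) ≤ 1) (i : Fin N)
    (hi : ∀ p : Polynomial Ω, p ≠ 0 → Polynomial.aeval (X i : MvPolynomial (Fin N) Ω) p ∉ van U y) :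
    ∃ e : ℕ, ∀ f : Fin (e + 1) → MvPolynomial (Fin N) Ω, ∃ a : Fin (e + 1) → Polynomial Ω,
      (∃ k, a k ≠ 0) ∧ ∑ k, Polynomial.aeval (X i : MvPolynomial (Fin N) Ω) (a k) * f k ∈ van U y := by
  classical
  let A := MvPolynomial (Fin N) Ω ⧸ van U y
  let L := FractionRing A
  let π : MvPolynomial (Fin N) Ω →ₐ[Ω] L :=
    (IsScalarTower.toAlgHom Ω A L).comp (Ideal.Quotient.mkₐ Ω (van U y))
  have hπ : ∀ r, π r = 0 ↔ r ∈ van U y := by
    intro r
    change algebraMap A L (Ideal.Quotient.mk (van U y) r) = 0 ↔ _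
    rw [map_eq_zero_iff _ (IsFractionRing.injective A L), Ideal.Quotient.eq_zero_iff_mem]
  have hpoly : ∀ p : Polynomial Ω, Polynomial.aeval (π (X i)) p = π (Polynomial.aeval (X i) p) :=
    fun p => Polynomial.aeval_algHom_apply π (X i) p
  let F : IntermediateField Ω L := IntermediateField.adjoin Ω {π (X i)}
  have hξ : π (X i) ∈ F := IntermediateField.mem_adjoin_simple_self Ω _
  have hpF : ∀ p : Polynomial Ω, Polynomial.aeval (π (X i)) p ∈ F := by
    intro p
    have := Polynomial.aeval_mem_adjoin_singleton (R := Ω) (p := p) (π (X i))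
    exact IntermediateField.algebra_adjoin_le_adjoin Ω _ this
  let E : IntermediateField F L := IntermediateField.adjoin F (Set.range fun j => π (X j))
  have hint : ∀ x ∈ Set.range (fun j => π (X j)), IsIntegral F x := by
    rintro x ⟨j, rfl⟩
    have hone : (1 : MvPolynomial (Fin N) Ω) ∉ van U y := by
      rw [notMem_van]
      exact Eventually.of_forall fun n => by rw [map_one]; exact one_ne_zero
    obtain ⟨J, a, ⟨j0, hj0, ha0⟩, hrel⟩ := exists_rel h i (f := X j) hone
    rw [← isAlgebraic_iff_isIntegral]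
    refine ⟨∑ k ∈ Finset.range (J + 1), Polynomial.C (⟨Polynomial.aeval (π (X i)) (a k), hpF _⟩ : F) *
      Polynomial.X ^ k, ?_, ?_⟩
    · intro h0
      have h1 := congrArg (fun p => Polynomial.coeff p j0) h0
      simp only [Polynomial.finsetSum_coeff, Polynomial.coeff_C_mul, Polynomial.coeff_X_pow,
        Polynomial.coeff_zero, mul_ite, mul_one, mul_zero] at h1
      rw [Finset.sum_ite_eq, if_pos (Finset.mem_range.2 (by omega))] at h1
      have h2 : Polynomial.aeval (π (X i)) (a j0) = 0 := congrArg Subtype.val h1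
      rw [hpoly, hπ] at h2
      exact hi _ ha0 h2
    · rw [map_sum]
      have h1 := (hπ _).2 hrel
      rw [map_sum] at h1
      rw [← h1]
      refine Finset.sum_congr rfl fun k _ => ?_
      rw [map_mul, map_pow, Polynomial.aeval_C, Polynomial.aeval_X, one_pow, mul_one, map_mul, map_pow, ← hpoly]
      rfl
  have : Finite (Set.range fun j => π (X j)) := Set.finite_range _
  have hfin : FiniteDimensional F E := IntermediateField.finiteDimensional_adjoin hint
  have hmem : ∀ f : MvPolynomial (Fin N) Ω, π f ∈ E := by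
    intro f
    induction f using MvPolynomial.induction_on with
    | C c =>
      have h1 : π (C c) = algebraMap F L (algebraMap Ω F c) := by
        rw [← MvPolynomial.algebraMap_eq, AlgHom.commutes]
        rfl
      rw [h1]
      exact E.algebraMap_mem _
    | add p q hp hq =>
      rw [map_add]
      exact E.add_mem hp hq
    | mul_X p j hp =>
      rw [map_mul]
      exact E.mul_mem hp (IntermediateField.subset_adjoin F _ ⟨j, rfl⟩)
  refine ⟨Module.finrank F E, fun f => ?_⟩
  have hnli : ¬ LinearIndependent F (fun k => (⟨π (f k), hmem (f k)⟩ : E)) := by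
    intro hli
    have := hli.fintype_card_le_finrank
    rw [Fintype.card_fin] at this
    omega
  obtain ⟨c, hc, k0, hk0⟩ := Fintype.not_linearIndependent_iff.1 hnli
  -- denominators
  have hrs : ∀ k, ∃ r s : Polynomial Ω, s ≠ 0 ∧ Polynomial.aeval (π (X i)) s * (c k : L) =
      Polynomial.aeval (π (X i)) r ∧ (c k ≠ 0 → r ≠ 0) := by
    intro k
    by_cases h0 : c k = 0
    · refine ⟨0, 1, one_ne_zero, ?_, fun h => absurd h0 h⟩
      rw [h0, map_zero]
      simp
    · obtain ⟨r, s, hrs⟩ := (IntermediateField.mem_adjoin_simple_iff Ω (c k : L)).1 (c k).2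
      have hck : (c k : L) ≠ 0 := fun h => h0 (Subtype.ext h)
      have hs : Polynomial.aeval (π (X i)) s ≠ 0 := by
        intro h
        rw [h, div_zero] at hrs
        exact hck hrs
      have hr : Polynomial.aeval (π (X i)) r ≠ 0 := by
        intro h
        rw [h, zero_div] at hrs
        exact hck hrs
      refine ⟨r, s, fun h => hs (by rw [h, map_zero]), ?_, fun _ h => hr (by rw [h, map_zero])⟩
      rw [hrs, mul_comm, div_mul_cancel₀ _ hs]
  choose r s hs hrs hr using hrs
  refine ⟨fun k => r k * ∏ l ∈ Finset.univ.erase k, s l, ⟨k0, ?_⟩, ?_⟩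
  · exact mul_ne_zero (hr k0 hk0) (Finset.prod_ne_zero_iff.2 fun l _ => hs l)
  · rw [← hπ, map_sum]
    have h1 : ∑ k, (c k : L) * π (f k) = 0 := by
      have := congrArg Subtype.val hc
      rw [AddSubmonoidClass.coe_finsetSum] at this
      exact this
    have h2 : ∀ k ∈ (Finset.univ : Finset (Fin (Module.finrank F E + 1))),
        π (Polynomial.aeval (X i) (r k * ∏ l ∈ Finset.univ.erase k, s l) * f k) =
        (∏ l, Polynomial.aeval (π (X i)) (s l)) * ((c k : L) * π (f k)) := by
      intro k hk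
      rw [map_mul, ← hpoly, map_mul, ← hrs k, map_prod, ← Finset.mul_prod_erase Finset.univ _ hk]
      ring
    rw [Finset.sum_congr rfl h2, ← Finset.mul_sum, h1, mul_zero]

theorem exists_index (h : Cv μ U y) : ∃ e : ℕ, ∀ (f : Fin (e + 1) → MvPolynomial (Fin N) Ω)
    (ρ : Fin (e + 1) → ℝ), (∀ k, Rate μ U y (f k) (ρ k)) →
    ∃ k l, k ≠ l ∧ ∃ m : ℤ, ρ k - ρ l = m := by
  classical
  obtain ⟨i, hi, -⟩ := exists_coord h.grow
  obtain ⟨e, he⟩ := dep86 h.trdeg i (fun p hp => (rate_poly h.grow hi hp).1)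
  refine ⟨e, fun f ρ hρ => ?_⟩
  by_contra hcon
  push Not at hcon
  obtain ⟨a, ⟨k1, hk1⟩, ha⟩ := he f
  obtain ⟨k0, hk0, hmax⟩ := Finset.exists_max_image (Finset.univ.filter fun k => a k ≠ 0)
    (fun k => ((a k).natDegree : ℝ) + ρ k) ⟨k1, Finset.mem_filter.2 ⟨Finset.mem_univ _, hk1⟩⟩
  have hk0' : a k0 ≠ 0 := (Finset.mem_filter.1 hk0).2
  have h1 := rate_sum h.grow Finset.univ (fun k => Polynomial.aeval (X i : MvPolynomial (Fin N) Ω) (a k) * f k)
    (Finset.mem_univ k0) ((rate_poly h.grow hi hk0').mul (hρ k0)) (by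
      intro k _ hne
      by_cases h0 : a k = 0
      · left
        rw [h0, map_zero, zero_mul]
        exact (van U y).zero_mem
      · right
        refine ⟨_, lt_of_le_of_ne (hmax k (Finset.mem_filter.2 ⟨Finset.mem_univ _, h0⟩)) ?_,
          (rate_poly h.grow hi h0).mul (hρ k)⟩
        intro heq
        refine hcon k k0 hne ((a k0).natDegree - (a k).natDegree : ℤ) ?_
        push_cast
        linarith)
  exact h1.1 ha

theorem exists_ram (h : Cv μ U y) : ∃ b : ℕ, Ram μ U y b := by
  classical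
  obtain ⟨e, he⟩ := exists_index h
  obtain ⟨S, hS⟩ : ∃ S : Set ℝ, S = {ρ | ∃ f, Rate μ U y f ρ} := ⟨_, rfl⟩
  have hS0 : (0 : ℝ) ∈ S := by
    rw [hS]
    exact ⟨C 1, rate_const h.grow one_ne_zero⟩
  have hSadd : ∀ ρ ∈ S, ∀ σ ∈ S, ρ + σ ∈ S := by
    rw [hS]
    rintro ρ ⟨f, hf⟩ σ ⟨g, hg⟩
    exact ⟨f * g, hf.mul hg⟩
  obtain ⟨T, hT⟩ : ∃ T : Set (AddCircle (1 : ℝ)), T = (fun ρ : ℝ => (ρ : AddCircle (1 : ℝ))) '' S := ⟨_, rfl⟩
  have hT0 : (0 : AddCircle (1 : ℝ)) ∈ T := by
    rw [hT]
    exact ⟨0, hS0, rfl⟩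
  have hTadd : ∀ x ∈ T, ∀ z ∈ T, x + z ∈ T := by
    rw [hT]
    rintro x ⟨ρ, hρ, rfl⟩ z ⟨σ, hσ, rfl⟩
    exact ⟨ρ + σ, hSadd ρ hρ σ hσ, AddCircle.coe_add _ _ _⟩
  have hTfin : T.Finite := by
    by_contra hinf
    obtain ⟨s, hsT, hscard⟩ := Set.Infinite.exists_subset_card_eq hinf (e + 1)
    have hch : ∀ x : AddCircle (1 : ℝ), ∃ ρ : ℝ, x ∈ s → (∃ f, Rate μ U y f ρ) ∧ (ρ : AddCircle (1 : ℝ)) = x := by
      intro x
      by_cases hx : x ∈ s
      · have := hsT hx
        rw [hT, hS] at this
        obtain ⟨ρ, hρ, rfl⟩ := this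
        exact ⟨ρ, fun _ => ⟨hρ, rfl⟩⟩
      · exact ⟨0, fun h => absurd h hx⟩
    choose ρ hρ using hch
    have eq := s.equivFinOfCardEq hscard
    have hf : ∀ k : Fin (e + 1), ∃ f, Rate μ U y f (ρ (eq.symm k)) := fun k => (hρ _ (eq.symm k).2).1
    choose f hf using hf
    obtain ⟨k, l, hkl, m, hm⟩ := he f (fun k => ρ (eq.symm k)) hf
    apply hkl
    apply eq.symm.injective
    apply Subtype.ext
    rw [← (hρ _ (eq.symm k).2).2, ← (hρ _ (eq.symm l).2).2]
    have h1 : ρ (eq.symm k) = ρ (eq.symm l) + m := by linarith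
    rw [h1, AddCircle.coe_add]
    have h2 : ((m : ℝ) : AddCircle (1 : ℝ)) = 0 := by
      rw [AddCircle.coe_eq_zero_iff]
      exact ⟨m, by simp⟩
    rw [h2, add_zero]
  -- the group
  have hnsmul : ∀ x ∈ T, ∀ n : ℕ, n • x ∈ T := by
    intro x hx n
    induction n with
    | zero => rw [zero_smul]; exact hT0
    | succ n ih => rw [succ_nsmul]; exact hTadd _ ih _ hx
  have hTneg : ∀ x ∈ T, -x ∈ T := by
    intro x hx
    have h1 : ∃ m n : ℕ, m < n ∧ m • x = n • x := by
      have := Set.Finite.exists_lt_map_eq_of_forall_mem (f := fun n : ℕ => n • x) (fun n => hnsmul x hx n) hTfin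
      obtain ⟨m, n, hmn, heq⟩ := this
      exact ⟨m, n, hmn, heq⟩
    obtain ⟨m, n, hmn, heq⟩ := h1
    have h2 : (n - m) • x = 0 := by
      have h3 : n • x = (n - m) • x + m • x := by
        rw [← add_smul]
        congr 1
        omega
      rw [h3] at heq
      have := heq.symm
      exact add_eq_right.1 this
    have h3 : -x = (n - m - 1) • x := by
      rw [neg_eq_iff_add_eq_zero]
      have h4 : n - m = (n - m - 1) + 1 := by omega
      rw [h4, succ_nsmul] at h2
      rw [add_comm]
      exact h2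
    rw [h3]
    exact hnsmul x hx _
  let Γ : AddSubgroup (AddCircle (1 : ℝ)) :=
    { carrier := T
      add_mem' := fun {a b} ha hb => hTadd a ha b hb
      zero_mem' := hT0
      neg_mem' := fun {a} ha => hTneg a ha }
  have : Finite Γ := hTfin.to_subtype
  obtain ⟨b, hb⟩ : ∃ b : ℕ, b = Nat.card Γ := ⟨_, rfl⟩
  have hbpos : 0 < b := by rw [hb]; exact Nat.card_pos
  have hbR : (0 : ℝ) < b := by exact_mod_cast hbpos
  have hkill : ∀ x ∈ T, b • x = 0 := by
    intro x hx
    have h1 : Nat.card Γ • (⟨x, hx⟩ : Γ) = 0 := card_nsmul_eq_zero'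
    have h2 := congrArg Subtype.val h1
    rw [← hb] at h2
    exact h2
  have hint : ∀ ρ ∈ S, ∃ m : ℤ, ρ = m / b := by
    intro ρ hρ
    have h1 := hkill (ρ : AddCircle (1 : ℝ)) (by rw [hT]; exact ⟨ρ, hρ, rfl⟩)
    have h2 : ((b • ρ : ℝ) : AddCircle (1 : ℝ)) = 0 := by
      rw [← h1]
      exact AddCircle.coe_nsmul (p := (1 : ℝ))
    rw [AddCircle.coe_eq_zero_iff] at h2
    obtain ⟨m, hm⟩ := h2
    refine ⟨m, ?_⟩
    rw [eq_div_iff hbR.ne']
    rw [zsmul_one, nsmul_eq_mul] at hm
    rw [hm, mul_comm]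
  -- all residues
  have himg : hTfin.toFinset = (Finset.range b).image (fun r : ℕ => (((r : ℝ) / b : ℝ) : AddCircle (1 : ℝ))) := by
    refine Finset.eq_of_subset_of_card_le ?_ ?_
    · intro x hx
      rw [Set.Finite.mem_toFinset, hT] at hx
      obtain ⟨ρ, hρ, rfl⟩ := hx
      obtain ⟨m, hm⟩ := hint ρ hρ
      rw [Finset.mem_image]
      have hbZ : (0 : ℤ) < b := by exact_mod_cast hbpos
      have hmod := Int.emod_nonneg m hbZ.ne'
      have hmod2 := Int.emod_lt_of_pos m hbZ
      refine ⟨(m % b).toNat, Finset.mem_range.2 (by omega), ?_⟩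
      have h1 : (((m % b).toNat : ℕ) : ℝ) = m - b * (m / b : ℤ) := by
        have h2 : (((m % b).toNat : ℕ) : ℤ) = m - b * (m / b) := by
          rw [Int.toNat_of_nonneg hmod]
          have := Int.emod_add_mul_ediv m b
          linarith
        exact_mod_cast h2
      have h3 : (((m % b).toNat : ℕ) : ℝ) / b = ρ - ((m / b : ℤ) : ℝ) := by
        rw [h1, hm]
        field_simp
      dsimp only
      rw [h3, AddCircle.coe_sub]
      have h4 : (((m / b : ℤ) : ℝ) : AddCircle (1 : ℝ)) = 0 := by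
        rw [AddCircle.coe_eq_zero_iff]
        exact ⟨m / b, by simp⟩
      rw [h4, sub_zero]
    · refine Finset.card_image_le.trans ?_
      rw [Finset.card_range, hb, ← Set.ncard_eq_toFinset_card T hTfin]
      exact le_of_eq (Nat.card_coe_set_eq T)
  refine ⟨b, hbpos, ?_, ?_⟩
  · intro f hf
    obtain ⟨ρ, hρ⟩ := rate_exists h hf
    obtain ⟨m, hm⟩ := hint ρ (by rw [hS]; exact ⟨f, hρ⟩)
    exact ⟨m, hm ▸ hρ⟩
  · intro r
    have hbZ : (0 : ℤ) < b := by exact_mod_cast hbpos
    have hmod := Int.emod_nonneg r hbZ.ne'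
    have hmod2 := Int.emod_lt_of_pos r hbZ
    have h1 : ((((r % b).toNat : ℝ) / b : ℝ) : AddCircle (1 : ℝ)) ∈ T := by
      rw [← Set.Finite.mem_toFinset hTfin, himg, Finset.mem_image]
      exact ⟨(r % b).toNat, Finset.mem_range.2 (by omega), rfl⟩
    rw [hT] at h1
    obtain ⟨ρ, hρ, h2⟩ := h1
    obtain ⟨m, hm⟩ := hint ρ hρ
    rw [hS] at hρ
    obtain ⟨f, hf⟩ := hρ
    refine ⟨f, m, hm ▸ hf, ?_⟩
    have h3 : ((ρ - ((r % b).toNat : ℝ) / b : ℝ) : AddCircle (1 : ℝ)) = 0 := by
      rw [AddCircle.coe_sub]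
      exact sub_eq_zero.2 h2
    rw [AddCircle.coe_eq_zero_iff] at h3
    obtain ⟨k, hk⟩ := h3
    rw [zsmul_one, hm] at hk
    have h4 : (k : ℝ) * b = m - ((r % b).toNat : ℝ) := by
      rw [hk]
      field_simp
    have h5 : k * (b : ℤ) = m - ((r % b).toNat : ℤ) := by exact_mod_cast h4
    rw [Int.toNat_of_nonneg hmod] at h5
    have h6 := Int.emod_add_mul_ediv r b
    refine ⟨k - r / b, ?_⟩
    linarith

end Pool.Agent.Helper26.RC
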