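import Pool.Agent.Helper26.RC.VTwo
import Pool.Agent.Helper26.RC.VOne

/-! Block RC-AB (about 150 lines): a basis of the polynomials of degree at most `δ` on the curve with strictly decreasing rates.

Let `A = Ω[x] / van U y`, `V ⊂ A` the image of the polynomials of degree `≤ δ`, `D = hilb U y δ = dim V` (finite: `restrictTotalDegree` is a
finite module). Elements of `V ∖ 0` have rates in `(1/b) ℤ` (`Ram.int`, `Rate.congr`), at most `δ` (`Rate.le`).
Claim: every subspace `W ≤ V` of dimension `m` has elements `w_0, .., w_{m-1}` (represented by polynomials of degree `≤ δ`), linearly independent, with rates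
`ρ_0 > ρ_1 > ..`. Induction on `m`: if `m > 0` let `ρ_0` be the largest rate on `W ∖ 0` (it exists: bounded above, in `(1/b) ℤ`), attained at `w_0`.
`W' = {w ∈ W : w = 0 or rate < ρ_0}` is a subspace (`Rate.const_mul`, `Rate.le_max`), `w_0 ∉ W'`, and `W = Ω w_0 + W'` by `resid`. So `dim W' = m - 1`.
Rates in `(1/b) ℤ` strictly decreasing from `ρ_0 ≤ δ`: `ρ_k ≤ δ - k / b`. Apply to `W = V`.
(Linear independence also follows from `rate_sum`: different rates.) -/

set_option autoImplicit false

namespace Pool.Agent.Helper26.RC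

open MvPolynomial Filter Topology

variable {Ω : Type*} [Field Ω] [IsAlgClosed Ω] {N : ℕ} {μ : AbsoluteValue Ω ℝ} {U : Ultrafilter ℕ}
  {y : ℕ → Fin N → Ω}

omit [IsAlgClosed Ω] in
private theorem mkA_eq_zero (f : MvPolynomial (Fin N) Ω) :
    (Ideal.Quotient.mkₐ Ω (van U y)).toLinearMap f = 0 ↔ f ∈ van U y := by
  rw [AlgHom.toLinearMap_apply, Ideal.Quotient.mkₐ_eq_mk, Ideal.Quotient.eq_zero_iff_mem]

/-- the elements of `W` with rate less than `ρ` -/
private def below (h : Cv μ U y) {b : ℕ} (hb : Ram μ U y b)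
    (W : Submodule Ω (MvPolynomial (Fin N) Ω)) (ρ : ℝ) : Submodule Ω (MvPolynomial (Fin N) Ω) where
  carrier := {f | f ∈ W ∧ (f ∈ van U y ∨ ∃ σ < ρ, Rate μ U y f σ)}
  zero_mem' := ⟨W.zero_mem, Or.inl (van U y).zero_mem⟩
  add_mem' := by
    rintro f g ⟨hf, hf'⟩ ⟨hg, hg'⟩
    refine ⟨W.add_mem hf hg, ?_⟩
    by_cases hfg : f + g ∈ van U y
    · exact Or.inl hfg
    · refine Or.inr ?_
      rcases hf' with hf' | ⟨σ, hσ, hf'⟩
      · rcases hg' with hg' | ⟨τ, hτ, hg'⟩
        · exact absurd ((van U y).add_mem hf' hg') hfg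
        · refine ⟨τ, hτ, hg'.congr ?_⟩
          have : g - (f + g) = -f := by ring
          rw [this]
          exact (van U y).neg_mem hf'
      · rcases hg' with hg' | ⟨τ, hτ, hg'⟩
        · refine ⟨σ, hσ, hf'.congr ?_⟩
          have : f - (f + g) = -g := by ring
          rw [this]
          exact (van U y).neg_mem hg'
        · obtain ⟨m, hm⟩ := hb.int _ hfg
          exact ⟨_, lt_of_le_of_lt (hf'.le_max h.grow hg' hm) (max_lt hσ hτ), hm⟩
  smul_mem' := by
    rintro c f ⟨hf, hf'⟩
    refine ⟨W.smul_mem c hf, ?_⟩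
    rw [smul_eq_C_mul]
    rcases hf' with hf' | ⟨σ, hσ, hf'⟩
    · exact Or.inl ((van U y).mul_mem_left _ hf')
    · by_cases hc : c = 0
      · left
        rw [hc, C_0, zero_mul]
        exact (van U y).zero_mem
      · exact Or.inr ⟨σ, hσ, hf'.const_mul h.grow hc⟩

private theorem chain (h : Cv μ U y) {b : ℕ} (hb : Ram μ U y b) (δ : ℕ) (m : ℕ) :
    ∀ (W : Submodule Ω (MvPolynomial (Fin N) Ω)) (_ : W ≤ restrictTotalDegree (Fin N) Ω δ) (R : ℤ)
      (_ : ∀ f ∈ W, ∀ r : ℤ, Rate μ U y f (r / b) → r ≤ R)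
      (_ : Module.finrank Ω (Submodule.map (Ideal.Quotient.mkₐ Ω (van U y)).toLinearMap W) = m),
      ∃ (g : Fin m → MvPolynomial (Fin N) Ω) (r : Fin m → ℤ), (∀ k, g k ∈ W) ∧
        Function.Injective r ∧ (∀ k, Rate μ U y (g k) (r k / b)) ∧ ∀ k, r k ≤ R - (k : ℕ) := by
  have hbpos : (0 : ℝ) < b := Nat.cast_pos.2 hb.pos
  induction m with
  | zero =>
    intro W _ R _ _
    exact ⟨fun k => k.elim0, fun k => k.elim0, fun k => k.elim0, fun k => k.elim0,
      fun k => k.elim0, fun k => k.elim0⟩
  | succ m ih =>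
    intro W hW R hR hm
    -- a nonzero element
    have h1 : ∃ f ∈ W, f ∉ van U y := by
      by_contra hcon
      push Not at hcon
      have h2 : Submodule.map (Ideal.Quotient.mkₐ Ω (van U y)).toLinearMap W = ⊥ := by
        rw [eq_bot_iff]
        rintro _ ⟨f, hf, rfl⟩
        rw [Submodule.mem_bot]
        exact (mkA_eq_zero f).2 (hcon f hf)
      rw [h2, finrank_bot] at hm
      omega
    -- the largest rate
    obtain ⟨r0, ⟨w0, hw0, hr0⟩, hmax⟩ : ∃ r0 : ℤ, (∃ w ∈ W, Rate μ U y w (r0 / b)) ∧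
        ∀ r : ℤ, (∃ w ∈ W, Rate μ U y w (r / b)) → r ≤ r0 := by
      obtain ⟨f, hf, hf'⟩ := h1
      obtain ⟨r, hr⟩ := hb.int f hf'
      obtain ⟨r0, h3, h4⟩ := Int.exists_greatest_of_bdd
        (P := fun r : ℤ => ∃ w ∈ W, Rate μ U y w (r / b))
        ⟨R, fun z ⟨w, hw, hw'⟩ => hR w hw z hw'⟩ ⟨r, f, hf, hr⟩
      exact ⟨r0, h3, h4⟩
    have hW' : below h hb W (r0 / b) ≤ W := fun f hf => hf.1
    have hlt : ∀ f ∈ below h hb W (r0 / b), ∀ r : ℤ, Rate μ U y f (r / b) → r ≤ r0 - 1 := by
      rintro f ⟨_, hf⟩ r hr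
      rcases hf with hf | ⟨σ, hσ, hf⟩
      · exact absurd hf hr.1
      · rw [hf.unique hr, div_lt_div_iff_of_pos_right hbpos] at hσ
        have : r < r0 := by exact_mod_cast hσ
        omega
    have hrk : Module.finrank Ω (Submodule.map (Ideal.Quotient.mkₐ Ω (van U y)).toLinearMap
        (below h hb W (r0 / b))) = m := by
      set π := (Ideal.Quotient.mkₐ Ω (van U y)).toLinearMap with hπ
      have e1 : Submodule.map π W = Submodule.map π (below h hb W (r0 / b)) ⊔
          Submodule.span Ω {π w0} := by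
        apply le_antisymm
        · rintro _ ⟨f, hf, rfl⟩
          by_cases hf0 : f ∈ van U y
          · have : π f = 0 := (mkA_eq_zero f).2 hf0
            rw [this]
            exact Submodule.zero_mem _
          · obtain ⟨r, hr⟩ := hb.int f hf0
            have hr' := hmax r ⟨f, hf, hr⟩
            rcases lt_or_eq_of_le hr' with hr' | hr'
            · refine Submodule.mem_sup_left ⟨f, ⟨hf, Or.inr ⟨_, ?_, hr⟩⟩, rfl⟩
              rw [div_lt_div_iff_of_pos_right hbpos]
              exact_mod_cast hr'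
            · subst hr'
              obtain ⟨c, -, hc⟩ := resid h hr hr0
              have hmem : f - C c * w0 ∈ below h hb W (r / b) := by
                refine ⟨W.sub_mem hf ?_, hc⟩
                rw [← smul_eq_C_mul]
                exact W.smul_mem c hw0
              have e2 : f = (f - C c * w0) + c • w0 := by
                rw [smul_eq_C_mul]; ring
              rw [e2, map_add, map_smul]
              exact Submodule.add_mem_sup (Submodule.mem_map_of_mem hmem)
                (Submodule.smul_mem _ _ (Submodule.mem_span_singleton_self _))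
        · rw [sup_le_iff, Submodule.span_singleton_le_iff_mem]
          exact ⟨Submodule.map_mono hW', Submodule.mem_map_of_mem hw0⟩
      have e3 : π w0 ∉ Submodule.map π (below h hb W (r0 / b)) := by
        rintro ⟨w, hw, hw'⟩
        have h5 : w0 - w ∈ van U y := by
          rw [← mkA_eq_zero, map_sub]
          exact sub_eq_zero.2 hw'.symm
        have h6 := hlt w hw r0 (hr0.congr h5)
        omega
      have e4 : Submodule.map π (below h hb W (r0 / b)) ⊓ Submodule.span Ω {π w0} = ⊥ := by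
        rw [eq_bot_iff]
        rintro v ⟨hv1, hv2⟩
        obtain ⟨c, rfl⟩ := Submodule.mem_span_singleton.1 hv2
        rw [Submodule.mem_bot]
        by_cases hc : c = 0
        · rw [hc, zero_smul]
        · exact absurd ((Submodule.smul_mem_iff _ hc).1 hv1) e3
      have e5 : π w0 ≠ 0 := fun h0 => e3 (h0 ▸ Submodule.zero_mem _)
      have i0 : Module.Finite Ω (restrictTotalDegree (Fin N) Ω δ) := inferInstance
      have i1 : FiniteDimensional Ω (below h hb W (r0 / b)) :=
        Submodule.finiteDimensional_of_le (hW'.trans hW)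
      have i2 : FiniteDimensional Ω (Submodule.map π (below h hb W (r0 / b))) := inferInstance
      have e6 := Submodule.finrank_sup_add_finrank_inf_eq
        (Submodule.map π (below h hb W (r0 / b))) (Submodule.span Ω {π w0})
      rw [e4, finrank_bot, finrank_span_singleton e5, ← e1, hm] at e6
      omega
    obtain ⟨g, r, hg1, hg2, hg3, hg4⟩ := ih _ (hW'.trans hW) (r0 - 1) hlt hrk
    refine ⟨Fin.cons w0 g, Fin.cons r0 r, ?_, ?_, ?_, ?_⟩
    · intro k
      refine Fin.cases ?_ (fun k => ?_) k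
      · exact hw0
      · rw [Fin.cons_succ]
        exact hW' (hg1 k)
    · rw [Fin.cons_injective_iff]
      refine ⟨?_, hg2⟩
      rintro ⟨k, hk⟩
      have := hg4 k
      omega
    · intro k
      refine Fin.cases ?_ (fun k => ?_) k
      · exact hr0
      · rw [Fin.cons_succ, Fin.cons_succ]
        exact hg3 k
    · intro k
      have h7 : r0 ≤ R := hR w0 hw0 r0 hr0
      refine Fin.cases ?_ (fun k => ?_) k
      · simpa using h7
      · rw [Fin.cons_succ, Fin.val_succ]
        have := hg4 k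
        push_cast
        omega

theorem adapted (h : Cv μ U y) {b : ℕ} (hb : Ram μ U y b) (δ : ℕ) :
    ∃ g : Fin (hilb U y δ) → MvPolynomial (Fin N) Ω, (∀ k, (g k).totalDegree ≤ δ) ∧
      (∀ a : Fin (hilb U y δ) → Ω, ∑ k, C (a k) * g k ∈ van U y → a = 0) ∧
      ∀ k : Fin (hilb U y δ), ∃ ρ : ℝ, ρ ≤ δ - ((k : ℕ) : ℝ) / b ∧ Rate μ U y (g k) ρ := by
  have hbpos : (0 : ℝ) < b := Nat.cast_pos.2 hb.pos
  obtain ⟨g, r, hg1, hg2, hg3, hg4⟩ := chain h hb δ (hilb U y δ) (restrictTotalDegree (Fin N) Ω δ)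
    le_rfl (b * δ) (fun f hf r hr => by
      have h1 := hr.le h.grow
      rw [mem_restrictTotalDegree] at hf
      have h2 : (r : ℝ) / b ≤ δ := h1.trans (Nat.cast_le.2 hf)
      rw [div_le_iff₀ hbpos] at h2
      have h3 : (r : ℝ) ≤ ((b * δ : ℤ) : ℝ) := by
        push_cast
        linarith
      exact_mod_cast h3) rfl
  refine ⟨g, fun k => (mem_restrictTotalDegree _ _ _).1 (hg1 k), fun a ha => ?_, fun k =>
    ⟨r k / b, ?_, hg3 k⟩⟩
  · classical
    by_contra hne
    have h1 : (Finset.univ.filter fun k => a k ≠ 0).Nonempty := by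
      obtain ⟨k, hk⟩ := Function.ne_iff.1 hne
      exact ⟨k, Finset.mem_filter.2 ⟨Finset.mem_univ _, hk⟩⟩
    obtain ⟨k0, hk0, hmax⟩ := Finset.exists_max_image _ r h1
    have hk0' : a k0 ≠ 0 := (Finset.mem_filter.1 hk0).2
    have h2 := rate_sum h.grow Finset.univ (fun k => C (a k) * g k) (Finset.mem_univ k0)
      ((hg3 k0).const_mul h.grow hk0') (fun k _ hk => by
        by_cases hak : a k = 0
        · left
          rw [hak, C_0, zero_mul]
          exact (van U y).zero_mem
        · right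
          refine ⟨r k / b, ?_, (hg3 k).const_mul h.grow hak⟩
          rw [div_lt_div_iff_of_pos_right hbpos]
          have h3 := hmax k (Finset.mem_filter.2 ⟨Finset.mem_univ _, hak⟩)
          have h4 : r k ≠ r k0 := fun h => hk (hg2 h)
          exact_mod_cast lt_of_le_of_ne h3 h4)
    exact h2.1 ha
  · have h1 := hg4 k
    have h2 : (r k : ℝ) ≤ b * δ - ((k : ℕ) : ℝ) := by exact_mod_cast h1
    rw [div_le_iff₀ hbpos, sub_mul, div_mul_cancel₀ _ hbpos.ne']
    linarith

end Pool.Agent.Helper26.RC
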