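import Pool.Agent.Helper26.RC.Defs

/-! Block RC-BC (about 150 lines): monomial bases of the coordinate ring of the curve.

Let `y = emb Ω x`. Consider the finitely many monomials `x ^ m`, `|m| ≤ δ` (`Finsupp.degree m ≤ δ`). (1) A `K`-linear relation: for `a : monomials → K`, `∑ a_m x^m ∈ van U x`. (2) For coefficients in `Ω`: `∑ a_m x^m ∈ van U y`
with `a_m ∈ Ω`: expand `a_m = ∑_k a_{m,k} ω_k` in a basis of `Ω` over `K` (finitely many basis vectors occur); since the `x n` have coordinates in `K`,
`∑ a_m (x n)^m = ∑_k (∑_m a_{m,k} (x n)^m) ω_k`, which vanishes iff all `∑_m a_{m,k} (x n)^m = 0`; so a relation over `Ω` is equivalent to finitely many relations over `K`.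
Choose a maximal set `B` of monomials of degree `≤ δ` which is linearly independent modulo `van U x` over `K` (`exists_linearIndependent` etc.). It is linearly independent over `Ω` modulo `van U y` by (2)
and every monomial `x^m`, `|m| ≤ δ`, is `≡ ∑_{k ∈ B} κ_{m,k} x^k` modulo `van U x` with `κ_{m,k} ∈ K`. So `B` gives a basis of the image of `restrictTotalDegree` modulo `van U y`, `#B = hilb U y δ`,
and for `f = ∑ c_m x^m` the coefficients are `a_k = ∑_m c_m κ_{m,k}`, in `L` if all `c_m ∈ L`. -/

set_option autoImplicit false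

namespace Pool.Agent.Helper26.RC

open MvPolynomial Filter Topology

variable {K Ω : Type*} [Field K] [Field Ω] [Algebra K Ω] {N : ℕ}

private theorem h21_eval_emb (x : ℕ → Fin N → K) (n : ℕ) (p : MvPolynomial (Fin N) K) :
    eval (emb Ω x n) (p.map (algebraMap K Ω)) = algebraMap K Ω (eval (x n) p) := by
  rw [eval_map]
  have h1 := eval₂_comp_left (algebraMap K Ω) (RingHom.id K) (x n) p
  rw [RingHom.comp_id] at h1
  exact h1.symm

private theorem h21_map_van (U : Ultrafilter ℕ) (x : ℕ → Fin N → K) {p : MvPolynomial (Fin N) K}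
    (hp : p ∈ van U x) : p.map (algebraMap K Ω) ∈ van U (emb Ω x) := by
  rw [mem_van] at hp ⊢
  filter_upwards [hp] with n hn
  rw [h21_eval_emb, hn, map_zero]

private theorem h21_key (U : Ultrafilter ℕ) (x : ℕ → Fin N → K) (δ : ℕ) :
    ∃ (κ : Type) (_ : Fintype κ) (m : κ → (Fin N →₀ ℕ)), (∀ k, (m k).degree ≤ δ) ∧
      (∀ a : κ → Ω, ∑ k, C (a k) * monomial (m k) 1 ∈ van U (emb Ω x) → a = 0) ∧
      ∀ (L : IntermediateField K Ω) (f : MvPolynomial (Fin N) Ω), f.totalDegree ≤ δ →
        (∀ n, f.coeff n ∈ L) → ∃ a : κ → Ω, (∀ k, a k ∈ L) ∧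
          f - ∑ k, C (a k) * monomial (m k) 1 ∈ van U (emb Ω x) := by
  classical
  let ι : Type := {n : Fin N →₀ ℕ // n.degree ≤ δ}
  have hι : Finite ι := (Finsupp.finite_of_degree_le (σ := Fin N) δ).to_subtype
  let vK : ι → MvPolynomial (Fin N) K ⧸ van U x := fun n => Ideal.Quotient.mk _ (monomial n.1 1)
  obtain ⟨κ, a, ha, hsp, hli⟩ := exists_linearIndependent' K vK
  have hκ : Finite κ := Finite.of_injective a ha
  let fκ : Fintype κ := Fintype.ofFinite κ
  have hsm : ∀ (c : K) (p : MvPolynomial (Fin N) K),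
      c • (Ideal.Quotient.mk (van U x) p) = Ideal.Quotient.mk (van U x) (C c * p) := by
    intro c p
    rw [← smul_eq_C_mul]
    rfl
  have hspan : ∀ n : ι, ∃ c : κ → K,
      monomial n.1 1 - ∑ k, C (c k) * monomial (a k).1 1 ∈ van U x := by
    intro n
    have h1 : vK n ∈ Submodule.span K (Set.range (vK ∘ a)) := by
      rw [hsp]
      exact Submodule.subset_span ⟨n, rfl⟩
    obtain ⟨c, hc⟩ := (Submodule.mem_span_range_iff_exists_fun K).mp h1
    refine ⟨c, ?_⟩
    rw [← Ideal.Quotient.eq, map_sum]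
    simp only [← hsm]
    exact hc.symm
  choose c hc using hspan
  let cc : (Fin N →₀ ℕ) → κ → K := fun n => if h : n.degree ≤ δ then c ⟨n, h⟩ else 0
  have hcc : ∀ n : Fin N →₀ ℕ, n.degree ≤ δ →
      monomial n 1 - ∑ k, C (algebraMap K Ω (cc n k)) * monomial (a k).1 1 ∈
        van U (emb Ω x) := by
    intro n hn
    have h1 := h21_map_van (Ω := Ω) U x (hc ⟨n, hn⟩)
    have h2 : cc n = c ⟨n, hn⟩ := dif_pos hn
    rw [h2]
    simpa only [map_sub, map_sum, map_mul, map_monomial, map_C, map_one] using h1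
  refine ⟨κ, fκ, fun k => (a k).1, fun k => (a k).2, ?_, ?_⟩
  · -- linear independence over `Ω`
    intro b hb
    funext k
    rw [Pi.zero_apply]
    rw [← Module.forall_dual_apply_eq_zero_iff K]
    intro ℓ
    have h1 : ∑ k, C (ℓ (b k)) * monomial (a k).1 1 ∈ van U x := by
      rw [mem_van] at hb ⊢
      filter_upwards [hb] with n hn
      rw [map_sum] at hn ⊢
      have h2 := congrArg ℓ hn
      rw [map_sum, map_zero] at h2
      rw [← h2]
      apply Finset.sum_congr rfl
      intro k _
      rw [map_mul, map_mul, eval_C, eval_C]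
      have h3 : eval (emb Ω x n) (monomial (a k).1 1) =
          algebraMap K Ω (eval (x n) (monomial (a k).1 1)) := by
        rw [← h21_eval_emb, map_monomial, RingHom.map_one]
      rw [h3, mul_comm (b k), ← Algebra.smul_def, map_smul, smul_eq_mul, mul_comm]
    have h4 : ∑ k, ℓ (b k) • (vK ∘ a) k = 0 := by
      have h5 := Ideal.Quotient.eq_zero_iff_mem.mpr h1
      rw [map_sum] at h5
      simp only [← hsm] at h5
      exact h5
    exact Fintype.linearIndependent_iff.mp hli _ h4 k
  · intro L f hf hL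
    refine ⟨fun k => ∑ n ∈ f.support, f.coeff n * algebraMap K Ω (cc n k), ?_, ?_⟩
    · intro k
      apply sum_mem
      intro n _
      exact mul_mem (hL n) (L.algebraMap_mem _)
    · have h1 : f - ∑ k, C (∑ n ∈ f.support, f.coeff n * algebraMap K Ω (cc n k)) *
          monomial (a k).1 1 = ∑ n ∈ f.support, C (f.coeff n) *
            (monomial n 1 - ∑ k, C (algebraMap K Ω (cc n k)) * monomial (a k).1 1) := by
        simp only [mul_sub, Finset.sum_sub_distrib]
        congr 1
        · conv_lhs => rw [f.as_sum]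
          apply Finset.sum_congr rfl
          intro n _
          rw [C_mul_monomial, mul_one]
        · simp only [map_sum, Finset.sum_mul, Finset.mul_sum]
          rw [Finset.sum_comm]
          apply Finset.sum_congr rfl
          intro n _
          apply Finset.sum_congr rfl
          intro k _
          rw [map_mul, mul_assoc]
      rw [h1]
      apply sum_mem
      intro n hn
      apply Ideal.mul_mem_left
      apply hcc
      refine le_trans ?_ hf
      have h2 := le_totalDegree hn
      rwa [Finsupp.degree_eq_sum, ← Finsupp.sum_fintype n (fun _ e => e) (fun _ => rfl)]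

theorem exists_basis (U : Ultrafilter ℕ) (x : ℕ → Fin N → K) (δ : ℕ) :
    ∃ m : Fin (hilb U (emb Ω x) δ) → (Fin N →₀ ℕ), (∀ k, (m k).degree ≤ δ) ∧
      (∀ a : Fin (hilb U (emb Ω x) δ) → Ω,
        ∑ k, C (a k) * monomial (m k) 1 ∈ van U (emb Ω x) → a = 0) ∧
      ∀ (L : IntermediateField K Ω) (f : MvPolynomial (Fin N) Ω), f.totalDegree ≤ δ →
        (∀ n, f.coeff n ∈ L) → ∃ a : Fin (hilb U (emb Ω x) δ) → Ω, (∀ k, a k ∈ L) ∧
          f - ∑ k, C (a k) * monomial (m k) 1 ∈ van U (emb Ω x) := by
  classical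
  obtain ⟨κ, fκ, m, hm, hli, hsp⟩ := h21_key (Ω := Ω) U x δ
  have hsm : ∀ (c : Ω) (p : MvPolynomial (Fin N) Ω),
      c • (Ideal.Quotient.mk (van U (emb Ω x)) p) = Ideal.Quotient.mk (van U (emb Ω x)) (C c * p) := by
    intro c p
    rw [← smul_eq_C_mul]
    rfl
  let w : κ → MvPolynomial (Fin N) Ω ⧸ van U (emb Ω x) := fun k =>
    Ideal.Quotient.mk _ (monomial (m k) 1)
  have hw : LinearIndependent Ω w := by
    rw [Fintype.linearIndependent_iff]
    intro g hg k
    have h1 : ∑ k, C (g k) * monomial (m k) 1 ∈ van U (emb Ω x) := by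
      rw [← Ideal.Quotient.eq_zero_iff_mem, map_sum]
      simp only [← hsm]
      exact hg
    exact congrFun (hli g h1) k
  have hspan : Submodule.map (Ideal.Quotient.mkₐ Ω (van U (emb Ω x))).toLinearMap
      (restrictTotalDegree (Fin N) Ω δ) = Submodule.span Ω (Set.range w) := by
    apply le_antisymm
    · rintro _ ⟨f, hf, rfl⟩
      have hf' : f.totalDegree ≤ δ := (mem_restrictTotalDegree _ _ _).mp hf
      obtain ⟨a, -, ha⟩ := hsp ⊤ f hf' (fun n => IntermediateField.mem_top)
      rw [Submodule.mem_span_range_iff_exists_fun]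
      refine ⟨a, ?_⟩
      have h1 := Ideal.Quotient.eq.mpr ha
      rw [map_sum] at h1
      simp only [← hsm] at h1
      exact h1.symm
    · rw [Submodule.span_le]
      rintro _ ⟨k, rfl⟩
      refine ⟨monomial (m k) 1, ?_, rfl⟩
      rw [SetLike.mem_coe, mem_restrictTotalDegree]
      refine (totalDegree_monomial_le _ _).trans ?_
      have h1 := hm k
      rwa [Finsupp.degree_eq_sum, ← Finsupp.sum_fintype (m k) (fun _ e => e) (fun _ => rfl)] at h1
  have hcard : Fintype.card κ = hilb U (emb Ω x) δ := by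
    unfold hilb
    rw [hspan, finrank_span_eq_card hw]
  let e : Fin (hilb U (emb Ω x) δ) ≃ κ := (Fintype.equivFinOfCardEq hcard).symm
  refine ⟨fun k => m (e k), fun k => hm _, ?_, ?_⟩
  · intro a ha
    have h1 : ∑ k, C (a (e.symm k)) * monomial (m k) 1 ∈ van U (emb Ω x) := by
      rw [← Equiv.sum_comp e]
      simpa only [Equiv.symm_apply_apply] using ha
    have h2 := hli _ h1
    funext k
    have h3 := congrFun h2 (e k)
    simp only [Equiv.symm_apply_apply, Pi.zero_apply] at h3
    rw [Pi.zero_apply]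
    exact h3
  · intro L f hf hL
    obtain ⟨a, ha1, ha2⟩ := hsp L f hf hL
    refine ⟨fun k => a (e k), fun k => ha1 _, ?_⟩
    rw [← Equiv.sum_comp e] at ha2
    exact ha2

theorem hilb_pos (U : Ultrafilter ℕ) {Ω : Type*} [Field Ω] (y : ℕ → Fin N → Ω) (δ : ℕ) :
    0 < hilb U y δ := by
  unfold hilb
  have hmem : (1 : MvPolynomial (Fin N) Ω) ∈ restrictTotalDegree (Fin N) Ω δ := by
    rw [mem_restrictTotalDegree, totalDegree_one]
    exact Nat.zero_le _
  have hne : (1 : MvPolynomial (Fin N) Ω ⧸ van U y) ≠ 0 := one_ne_zero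
  have hnt : Nontrivial (Submodule.map (Ideal.Quotient.mkₐ Ω (van U y)).toLinearMap
      (restrictTotalDegree (Fin N) Ω δ)) := by
    refine ⟨⟨⟨1, 1, hmem, rfl⟩, 0, fun h => hne (congrArg Subtype.val h)⟩⟩
  exact Module.finrank_pos

end Pool.Agent.Helper26.RC
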