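import Pool.Agent.Helper26.RC.DirX

/-! Block RC-DSTEP (about 120 lines): the limit points and the map at infinity.

`dir_map`. Let `y' = emb Ω x'`, `q' i' = 1`, `s' = y' n i'` (nonzero). By `Dir.tendsto_top` (`f = map (algebraMap K Ω) (Φ j)`, `m = d`, degrees `≤ d`): `Φ_j (y') / s' ^ d → infMap d Φ q' j =: w j`, and `w ≠ 0` by `hΦ.2`
(`q' ≠ 0`). Let `i` be the index of `hq` (`q i = 1`, `q j = 0` for `j < i`, `μ (y j / y i - q j) → 0`), `y = emb Ω x = Φ (y')`. `y j / s' ^ d → w j` for all `j`. `y j * 1 = (y j / y i) y i`: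
`w j = lim (y j / y i) (y i / s' ^ d) = q j w i` (limits with respect to `μ`; `μ`-limits are unique: `μ (a) = 0 → a = 0`). So `w = w i • q` and `w i ≠ 0` since `w ≠ 0`.

`at_inf`. `m = f.totalDegree`. `f (x n) = 0` a.e.; by `Dir.tendsto_top` `0 = f (y n) / (y n i) ^ m → eval q (homogeneousComponent m f)` (mapped to `Ω`). -/

set_option autoImplicit false

namespace Pool.Agent.Helper26.RC

open MvPolynomial Filter Topology

variable {K Ω : Type*} [Field K] [Field Ω] [Algebra K Ω] {N d : ℕ} {U : Ultrafilter ℕ}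
  {μ : AbsoluteValue Ω ℝ}

omit [Algebra K Ω] in
private theorem ds_hc [Algebra K Ω] (m : ℕ) (f : MvPolynomial (Fin N) K) (z : Fin N → Ω) :
    eval z (homogeneousComponent m (MvPolynomial.map (algebraMap K Ω) f)) =
      aeval z (homogeneousComponent m f) := by
  have h : homogeneousComponent m (MvPolynomial.map (algebraMap K Ω) f) =
      MvPolynomial.map (algebraMap K Ω) (homogeneousComponent m f) := by
    ext n
    rw [coeff_homogeneousComponent, coeff_map, coeff_map, coeff_homogeneousComponent]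
    split_ifs
    · rfl
    · rw [map_zero]
  rw [h, eval_map, aeval_def]

omit [Algebra K Ω] in
private theorem ds_eval [Algebra K Ω] (f : MvPolynomial (Fin N) K) (x : ℕ → Fin N → K) (n : ℕ) :
    eval (emb Ω x n) (MvPolynomial.map (algebraMap K Ω) f) = algebraMap K Ω (eval (x n) f) := by
  rw [eval_map]
  have h := eval₂_comp_left (algebraMap K Ω) (RingHom.id K) (x n) f
  rw [RingHom.comp_id] at h
  exact h.symm

omit [Algebra K Ω] in
private theorem ds_deg [Algebra K Ω] (f : MvPolynomial (Fin N) K) :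
    (MvPolynomial.map (algebraMap K Ω) f).totalDegree ≤ f.totalDegree := by
  refine Finset.sup_mono ?_
  exact support_map_subset _ _

theorem dir_map {Φ : Fin N → MvPolynomial (Fin N) K} (hΦ : Reg Ω d Φ) {x x' : ℕ → Fin N → K}
    (hg : Tendsto (fun n => Real.log (sz μ (emb Ω x n))) (U : Filter ℕ) atTop)
    (hg' : Tendsto (fun n => Real.log (sz μ (emb Ω x' n))) (U : Filter ℕ) atTop)
    (hx : ∀ᶠ n in (U : Filter ℕ), x n = pmap Φ (x' n)) {q q' : Fin N → Ω}
    (hq : Dir μ U (emb Ω x) q) (hq' : Dir μ U (emb Ω x') q') :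
    ∃ c : Ω, c ≠ 0 ∧ infMap d Φ q' = c • q := by
  obtain ⟨i', hi', hi'0, -⟩ := id hq'
  obtain ⟨i, hi, -, C, η, hC, hη, hev⟩ := id hq
  set w : Fin N → Ω := infMap d Φ q' with hw
  -- convergence of the scaled points
  have hA : ∀ j, Tendsto (fun n => μ (emb Ω x n j / emb Ω x' n i' ^ d - w j)) (U : Filter ℕ) (𝓝 0) := by
    intro j
    have h1 := hq'.tendsto_top hg' (f := MvPolynomial.map (algebraMap K Ω) (Φ j)) (m := d)
      ((ds_deg _).trans (hΦ.1 j)) hi'
    rw [ds_hc] at h1
    refine h1.congr' ?_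
    filter_upwards [hx] with n hn
    rw [ds_eval]
    have : x n j = eval (x' n) (Φ j) := by rw [hn]; rfl
    rw [← this]
    rfl
  have hw0 : w ≠ 0 := by
    intro h0
    have h1 := hΦ.2 q' h0
    rw [h1] at hi'
    exact zero_ne_one hi'
  -- the size tends to infinity
  have hsz : Tendsto (fun n => C * sz μ (emb Ω x n) ^ (-η)) (U : Filter ℕ) (𝓝 0) := by
    have h1 : Tendsto (fun n => sz μ (emb Ω x n)) (U : Filter ℕ) atTop := by
      refine (Real.tendsto_exp_atTop.comp hg).congr fun n => ?_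
      exact Real.exp_log (lt_of_lt_of_le one_pos (one_le_sz μ _))
    have h2 := ((tendsto_rpow_neg_atTop hη).comp h1).const_mul C
    rw [mul_zero] at h2
    exact h2
  have hmain : ∀ j, w j = q j * w i := by
    intro j
    have h1 : Tendsto (fun n => μ (emb Ω x n j / emb Ω x' n i' ^ d - w j) +
        (μ (emb Ω x n i / emb Ω x' n i' ^ d - w i) + μ (w i)) * (C * sz μ (emb Ω x n) ^ (-η)) +
        μ (q j) * μ (emb Ω x n i / emb Ω x' n i' ^ d - w i)) (U : Filter ℕ)
        (𝓝 (0 + (0 + μ (w i)) * 0 + μ (q j) * 0)) :=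
      ((hA j).add (((hA i).add_const _).mul hsz)).add ((hA i).const_mul _)
    rw [mul_zero, mul_zero, add_zero, add_zero] at h1
    have h2 : μ (w j - q j * w i) ≤ 0 := by
      refine ge_of_tendsto h1 ?_
      filter_upwards [hev] with n hn
      obtain ⟨hn0, -, hn1⟩ := hn
      set s := emb Ω x' n i' ^ d
      have e1 : w j - q j * w i = -(emb Ω x n j / s - w j) +
          (emb Ω x n i / s * (emb Ω x n j / emb Ω x n i - q j) + q j * (emb Ω x n i / s - w i)) := by
        have : emb Ω x n i / s * (emb Ω x n j / emb Ω x n i) = emb Ω x n j / s := by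
          field_simp
        rw [mul_sub, this]
        ring
      rw [e1]
      refine (μ.add_le _ _).trans ?_
      rw [μ.map_neg, add_assoc]
      refine add_le_add le_rfl ((μ.add_le _ _).trans (add_le_add ?_ ?_))
      · rw [map_mul]
        refine mul_le_mul ?_ (hn1 j) (μ.nonneg _) (by
          have := μ.nonneg (emb Ω x n i / s - w i)
          have := μ.nonneg (w i)
          linarith)
        have h3 := μ.add_le (emb Ω x n i / s - w i) (w i)
        rwa [sub_add_cancel] at h3
      · rw [map_mul]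
    have h3 : μ (w j - q j * w i) = 0 := le_antisymm h2 (μ.nonneg _)
    exact sub_eq_zero.1 (μ.eq_zero.1 h3)
  refine ⟨w i, fun h0 => hw0 ?_, ?_⟩
  · funext j
    rw [hmain j, h0, mul_zero]
    rfl
  · funext j
    rw [hmain j, Pi.smul_apply, smul_eq_mul, mul_comm]

theorem at_inf {x : ℕ → Fin N → K} {q : Fin N → Ω}
    (hg : Tendsto (fun n => Real.log (sz μ (emb Ω x n))) (U : Filter ℕ) atTop)
    (hq : Dir μ U (emb Ω x) q) {f : MvPolynomial (Fin N) K} (hf : f ∈ van U x) :
    aeval q (homogeneousComponent f.totalDegree f) = 0 := by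
  obtain ⟨i, hi, -⟩ := id hq
  have h1 := hq.tendsto_top hg (f := MvPolynomial.map (algebraMap K Ω) f) (m := f.totalDegree)
    (ds_deg _) hi
  rw [ds_hc] at h1
  have h2 : Tendsto (fun _ : ℕ => μ (aeval q (homogeneousComponent f.totalDegree f)))
      (U : Filter ℕ) (𝓝 0) := by
    refine h1.congr' ?_
    filter_upwards [mem_van.1 hf] with n hn
    rw [ds_eval, hn, map_zero, zero_div, zero_sub, μ.map_neg]
  exact μ.eq_zero.1 (tendsto_nhds_unique tendsto_const_nhds h2)

theorem Dir.nrm {y : ℕ → Fin N → Ω} {q : Fin N → Ω} (h : Dir μ U y q) : Nrm q := by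
  obtain ⟨i, h1, h2, -⟩ := h
  exact ⟨i, h1, h2⟩

end Pool.Agent.Helper26.RC
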