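import Mathlib
import Pool.Agent.Helper64.Vojta.OneSpace
import Pool.Agent.Helper52.Vojta.BaseChange

/-!
# Exact dynamical Mordell-Lang for curves and polynomial maps regular at infinity: definitions

Project RC (problem MP_295d38_ag). Overview of the proof: /team-store/h26_RC_README.md.
-/

set_option autoImplicit false

namespace Pool.Agent.Helper26.RC

open MvPolynomial Filter Topology NumberField
open Pool.Agent.Helper64.Vojta (Pl nv)

section dyn

variable {K : Type*} [Field K] {N : ℕ}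

/-- The polynomial self-map of affine space. -/
noncomputable def pmap (Φ : Fin N → MvPolynomial (Fin N) K) (x : Fin N → K) : Fin N → K :=
  fun i => eval x (Φ i)

/-- The orbit of `α`. -/
noncomputable def orb (Φ : Fin N → MvPolynomial (Fin N) K) (α : Fin N → K) (n : ℕ) : Fin N → K :=
  (pmap Φ)^[n] α

variable {Ω : Type*} [Field Ω] [Algebra K Ω]

/-- The lift to affine space of the map induced on the hyperplane at infinity. -/
noncomputable def infMap (d : ℕ) (Φ : Fin N → MvPolynomial (Fin N) K) (z : Fin N → Ω) : Fin N → Ω :=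
  fun i => aeval z (homogeneousComponent d (Φ i))

variable (Ω) in
/-- `Φ` has degree at most `d` and the forms of degree `d` have no common nontrivial zero. -/
def Reg (d : ℕ) (Φ : Fin N → MvPolynomial (Fin N) K) : Prop :=
  (∀ i, (Φ i).totalDegree ≤ d) ∧ ∀ z : Fin N → Ω, infMap d Φ z = 0 → z = 0

/-- The Jacobian determinant of the lift at infinity. -/
noncomputable def jac (d : ℕ) (Φ : Fin N → MvPolynomial (Fin N) K) (z : Fin N → Ω) : Ω :=
  (Matrix.of fun i j => aeval z (pderiv j (homogeneousComponent d (Φ i)))).det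

variable (Ω) in
/-- A sequence of points over `K`, seen over `Ω`. -/
def emb (x : ℕ → Fin N → K) : ℕ → Fin N → Ω := fun n i => algebraMap K Ω (x n i)

/-- The vector `q` is normalised: its first nonzero coordinate is `1`. -/
def Nrm (q : Fin N → Ω) : Prop := ∃ i, q i = 1 ∧ ∀ j < i, q j = 0

/-- Homogenised map: `s ^ d * Φ (Y / s)` as a polynomial in `s`, `Y` a polynomial arc. -/
noncomputable def homP (d : ℕ) (Φ : Fin N → MvPolynomial (Fin N) K) (A : Fin N → Polynomial Ω) :
    Fin N → Polynomial Ω :=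
  fun i => ∑ e ∈ Finset.range (d + 1), Polynomial.X ^ (d - e) * aeval A (homogeneousComponent e (Φ i))

/-- Homogenised map: `s ^ d * Φ (Y / s)`, `s` and `Y` in `Ω`. -/
noncomputable def homV (d : ℕ) (Φ : Fin N → MvPolynomial (Fin N) K) (s : Ω) (Y : Fin N → Ω) :
    Fin N → Ω :=
  fun i => ∑ e ∈ Finset.range (d + 1), s ^ (d - e) * aeval Y (homogeneousComponent e (Φ i))

/-- The restriction of `s ^ δ * g (Y / s)` to a polynomial arc. -/
noncomputable def jet (δ : ℕ) (g : MvPolynomial (Fin N) K) (A : Fin N → Polynomial Ω) : Polynomial Ω :=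
  ∑ e ∈ Finset.range (δ + 1), Polynomial.X ^ (δ - e) * aeval A (homogeneousComponent e g)

end dyn

section val

variable {Ω : Type*} [Field Ω] {N : ℕ}

/-- The size of a point. -/
noncomputable def sz (μ : AbsoluteValue Ω ℝ) (x : Fin N → Ω) : ℝ := 1 + ∑ i, μ (x i)

/-- The ideal of the polynomials which vanish along the ultrafilter. -/
def van (U : Ultrafilter ℕ) (y : ℕ → Fin N → Ω) : Ideal (MvPolynomial (Fin N) Ω) where
  carrier := {f | ∀ᶠ n in (U : Filter ℕ), eval (y n) f = 0}
  add_mem' := by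
    intro f g hf hg
    filter_upwards [hf, hg] with n h1 h2
    rw [map_add, h1, h2, add_zero]
  zero_mem' := Eventually.of_forall fun n => map_zero _
  smul_mem' := by
    intro c f hf
    filter_upwards [hf] with n h1
    rw [smul_eq_mul, map_mul, h1, mul_zero]

theorem mem_van {U : Ultrafilter ℕ} {y : ℕ → Fin N → Ω} {f : MvPolynomial (Fin N) Ω} :
    f ∈ van U y ↔ ∀ᶠ n in (U : Filter ℕ), eval (y n) f = 0 := Iff.rfl

theorem notMem_van {U : Ultrafilter ℕ} {y : ℕ → Fin N → Ω} {f : MvPolynomial (Fin N) Ω} :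
    f ∉ van U y ↔ ∀ᶠ n in (U : Filter ℕ), eval (y n) f ≠ 0 := by
  rw [mem_van, ← Ultrafilter.eventually_not]

theorem van_prime (U : Ultrafilter ℕ) (y : ℕ → Fin N → Ω) : (van U y).IsPrime := by
  constructor
  · rw [Ne, Ideal.eq_top_iff_one, mem_van]
    intro h
    obtain ⟨n, hn⟩ := h.exists
    rw [map_one] at hn
    exact one_ne_zero hn
  · intro f g hfg
    rw [mem_van] at hfg ⊢
    rw [mem_van, ← Ultrafilter.eventually_or]
    filter_upwards [hfg] with n hn
    rw [map_mul] at hn
    exact mul_eq_zero.1 hn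

instance (U : Ultrafilter ℕ) (y : ℕ → Fin N → Ω) : (van U y).IsPrime := van_prime U y

/-- `f` has growth rate `ρ` relative to the size of the points. -/
def Rate (μ : AbsoluteValue Ω ℝ) (U : Ultrafilter ℕ) (y : ℕ → Fin N → Ω) (f : MvPolynomial (Fin N) Ω)
    (ρ : ℝ) : Prop :=
  f ∉ van U y ∧
    Tendsto (fun n => Real.log (μ (eval (y n) f)) / Real.log (sz μ (y n))) (U : Filter ℕ) (𝓝 ρ)

/-- The points tend to infinity and their Zariski closure along the ultrafilter is a curve. -/
structure Cv (μ : AbsoluteValue Ω ℝ) (U : Ultrafilter ℕ) (y : ℕ → Fin N → Ω) : Prop where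
  grow : Tendsto (fun n => Real.log (sz μ (y n))) (U : Filter ℕ) atTop
  trdeg : Algebra.trdeg Ω (MvPolynomial (Fin N) Ω ⧸ van U y) ≤ 1

/-- The group of the growth rates is generated by `1 / b`. -/
structure Ram (μ : AbsoluteValue Ω ℝ) (U : Ultrafilter ℕ) (y : ℕ → Fin N → Ω) (b : ℕ) : Prop where
  pos : 0 < b
  int : ∀ f, f ∉ van U y → ∃ m : ℤ, Rate μ U y f (m / b)
  res : ∀ r : ℤ, ∃ (f : MvPolynomial (Fin N) Ω) (m : ℤ), Rate μ U y f (m / b) ∧ (b : ℤ) ∣ m - r

/-- The points tend to the point at infinity with the normalised homogeneous coordinates `q`, with a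
polynomial rate. -/
def Dir (μ : AbsoluteValue Ω ℝ) (U : Ultrafilter ℕ) (y : ℕ → Fin N → Ω) (q : Fin N → Ω) : Prop :=
  ∃ i, q i = 1 ∧ (∀ j < i, q j = 0) ∧ ∃ C η : ℝ, 0 < C ∧ 0 < η ∧ ∀ᶠ n in (U : Filter ℕ), y n i ≠ 0 ∧
    sz μ (y n) ≤ C * μ (y n i) ∧ ∀ j, μ (y n j / y n i - q j) ≤ C * sz μ (y n) ^ (-η)

/-- The Hilbert function of the Zariski closure along the ultrafilter. -/
noncomputable def hilb (U : Ultrafilter ℕ) (y : ℕ → Fin N → Ω) (δ : ℕ) : ℕ :=
  Module.finrank Ω (Submodule.map (Ideal.Quotient.mkₐ Ω (van U y)).toLinearMap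
    (restrictTotalDegree (Fin N) Ω δ))

/-- The points follow the polynomial arc `A (s) / s` up to an error of relative order `τ`. -/
def Follow (μ : AbsoluteValue Ω ℝ) (U : Ultrafilter ℕ) (y : ℕ → Fin N → Ω)
    (A : Fin N → Polynomial Ω) (τ : ℝ) : Prop :=
  ∃ s : ℕ → Ω, (∀ᶠ n in (U : Filter ℕ), s n ≠ 0) ∧ Tendsto (fun n => μ (s n)) (U : Filter ℕ) (𝓝 0) ∧
    ∃ C : ℝ, ∀ᶠ n in (U : Filter ℕ), ∀ i, μ (s n * y n i - (A i).eval (s n)) ≤ C * μ (s n) ^ τ

end val

section places

variable {K : Type*} [Field K] [NumberField K]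

/-- The absolute value of a place (not normalised at the complex places). -/
noncomputable def av : Pl K → AbsoluteValue K ℝ
  | .inl v => v.1
  | .inr v => v.1

/-- The exponent of the normalisation. -/
noncomputable def wt : Pl K → ℕ
  | .inl v => v.mult
  | .inr _ => 1

theorem nv_eq (v : Pl K) (x : K) : nv v x = av v x ^ wt v := by
  rcases v with v | v
  · rfl
  · change v x = v.1 x ^ 1
    rw [pow_one]
    rfl

theorem wt_pos (v : Pl K) : 0 < wt v := by
  rcases v with v | v
  · exact InfinitePlace.mult_pos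
  · exact one_pos

/-- The absolute value `μ` of an algebraic closure extends the place `v`, and it restricts to a place
above `v` on every finite extension. -/
structure Ext {Ω : Type*} [Field Ω] [Algebra K Ω] (v : Pl K) (μ : AbsoluteValue Ω ℝ) : Prop where
  base : ∀ z : K, μ (algebraMap K Ω z) = av v z
  fin : ∀ (L : IntermediateField K Ω) [FiniteDimensional K L] [NumberField L],
    ∃ w ∈ Pool.Agent.Helper64.Vojta.above L v, ∃ a : ℝ, 0 < a ∧ ∀ z : L, nv w z = μ (z : Ω) ^ a

end places

section gal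

variable {K Ω : Type*} [Field K] [Field Ω] [Algebra K Ω]

/-- The absolute value `x ↦ μ (σ x)`. -/
def tw (μ : AbsoluteValue Ω ℝ) (σ : Ω ≃ₐ[K] Ω) : AbsoluteValue Ω ℝ :=
  μ.comp (f := (σ : Ω →+* Ω)) σ.injective

end gal

end Pool.Agent.Helper26.RC
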