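import Pool.Agent.Helper26.RC.VZero

/-! Block RC-DIR (about 200 lines): limit directions.

`dir_exists`. Let `i0` be as in `exists_coord` (`s n = sz μ (y n) ≤ C μ (y n i0)`). For every `j` apply `exists_rel` with `i = i0`, `f = X j`, `g = X i0`: `u = y n j / y n i0`
satisfies `∑_{k ≤ J} a_k (ξ) u ^ k = 0`, `ξ = y n i0`, `μ u ≤ s / μ ξ ≤ C`. Let `M = max natDegree (a_k)`, `q_k = coeff (a_k) M`, `Q (u) = ∑ q_k u ^ k`; dividing by `ξ ^ M`:
`μ (Q (u)) ≤ C μ (ξ)⁻¹`. `Q ≠ 0`; if `Q` is constant this is a contradiction; otherwise `Q = q ∏ (X - c)` (`Ω` algebraically closed, `D ≥ 1` factors) and one root `c = c_j`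
has `μ (u - c_j) ≤ C s ^ (-1/D)` a.e. (ultrafilter). Take `c_{i0} = 1`. Let `i` be the least index with `c_i ≠ 0`, `q = c / c_i`. Then
`y_j / y_i - c_j / c_i = (u_j c_i - c_j u_i) / (u_i c_i)` and `μ (u_i) ≥ μ (c_i) / 2` a.e.; rate `η = min` of the finitely many `1/D_j`.
(`μ (u_j c_i - c_j u_i) ≤ μ (c_i) μ (u_j - c_j) + μ (c_j) μ (u_i - c_i)`.)

`Dir.unique`: both `i`, `i'` satisfy `s ≤ C μ (y_i)`. `y_j / y_i → q_j`; for `i'` : `q_{i'} ≠ 0` because `μ (y_{i'} / y_i) ≥ c > 0`; so `i ≤ i'` and by symmetry `i = i'`; then the limits agree.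

`Dir.rate_form`: `e (y) = y_i ^ m e (y / y_i)` and `e (y / y_i) → e (q)` (polynomials are continuous for `μ`; `μ (e (q + r) - e (q)) ≤ C max μ (r_j)` for `r` small), so
`μ (e (y))` is between `c s ^ m` and `C s ^ m`. `Dir.rate_form_lt`: if `e (q) = 0` then `μ (e (y)) ≤ C s ^ (m - η)` (`rate_le_of_bound`).
`Dir.scale`: `μ (s n * y n i ...)`: see the statement. -/

set_option autoImplicit false

namespace Pool.Agent.Helper26.RC

open MvPolynomial Filter Topology

variable {Ω : Type*} [Field Ω] {N : ℕ} {μ : AbsoluteValue Ω ℝ} {U : Ultrafilter ℕ}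
  {y : ℕ → Fin N → Ω}

/-- Polynomials are Lipschitz near a point. -/
theorem lip_eval86 (μ : AbsoluteValue Ω ℝ) (q : Fin N → Ω) (e : MvPolynomial (Fin N) Ω) :
    ∃ C : ℝ, 0 ≤ C ∧ ∀ z : Fin N → Ω, (∀ j, μ (z j - q j) ≤ 1) →
      μ (eval z e - eval q e) ≤ C * ∑ j, μ (z j - q j) := by
  induction e using MvPolynomial.induction_on with
  | C a =>
    refine ⟨0, le_rfl, fun z _ => ?_⟩
    rw [eval_C, eval_C, sub_self, map_zero, zero_mul]
  | add p r hp hr =>
    obtain ⟨C1, hC1, h1⟩ := hp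
    obtain ⟨C2, hC2, h2⟩ := hr
    refine ⟨C1 + C2, by positivity, fun z hz => ?_⟩
    have e1 : eval z (p + r) - eval q (p + r) = (eval z p - eval q p) + (eval z r - eval q r) := by
      rw [map_add, map_add]; ring
    rw [e1, add_mul]
    exact (μ.add_le _ _).trans (add_le_add (h1 z hz) (h2 z hz))
  | mul_X p i hp =>
    obtain ⟨C1, hC1, h1⟩ := hp
    refine ⟨C1 * (μ (q i) + 1) + μ (eval q p), by
      have := μ.nonneg (q i); have := μ.nonneg (eval q p); positivity, fun z hz => ?_⟩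
    have e1 : eval z (p * X i) - eval q (p * X i) =
        (eval z p - eval q p) * z i + eval q p * (z i - q i) := by
      rw [map_mul, map_mul, eval_X, eval_X]; ring
    have h2 : μ (z i) ≤ μ (q i) + 1 := by
      have := μ.add_le (q i) (z i - q i)
      rw [add_sub_cancel] at this
      linarith [hz i]
    have h3 : μ (z i - q i) ≤ ∑ j, μ (z j - q j) :=
      Finset.single_le_sum (f := fun j => μ (z j - q j)) (fun j _ => μ.nonneg _) (Finset.mem_univ i)
    have h4 : 0 ≤ ∑ j, μ (z j - q j) := Finset.sum_nonneg fun j _ => μ.nonneg _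
    rw [e1]
    refine (μ.add_le _ _).trans ?_
    rw [map_mul, map_mul]
    have h5 : μ (eval z p - eval q p) * μ (z i) ≤ (C1 * ∑ j, μ (z j - q j)) * (μ (q i) + 1) :=
      mul_le_mul (h1 z hz) h2 (μ.nonneg _) (by positivity)
    have h6 : μ (eval q p) * μ (z i - q i) ≤ μ (eval q p) * ∑ j, μ (z j - q j) :=
      mul_le_mul_of_nonneg_left h3 (μ.nonneg _)
    calc _ ≤ (C1 * ∑ j, μ (z j - q j)) * (μ (q i) + 1) + μ (eval q p) * ∑ j, μ (z j - q j) :=
          add_le_add h5 h6
      _ = _ := by ring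

/-- Continuity of polynomials along a filter. -/
theorem tendsto_eval86 (μ : AbsoluteValue Ω ℝ) {ι : Type*} {l : Filter ι} {z : ι → Fin N → Ω} {q : Fin N → Ω}
    (h : ∀ j, Tendsto (fun n => μ (z n j - q j)) l (𝓝 0)) (e : MvPolynomial (Fin N) Ω) :
    Tendsto (fun n => μ (eval (z n) e - eval q e)) l (𝓝 0) := by
  obtain ⟨C, hC, h1⟩ := lip_eval86 μ q e
  have h2 : Tendsto (fun n => C * ∑ j, μ (z n j - q j)) l (𝓝 (C * ∑ _j : Fin N, 0)) :=
    (tendsto_finsetSum _ fun j _ => h j).const_mul C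
  rw [Finset.sum_const_zero, mul_zero] at h2
  refine squeeze_zero' (Eventually.of_forall fun n => μ.nonneg _) ?_ h2
  have h3 : ∀ᶠ n in l, ∀ j, μ (z n j - q j) ≤ 1 := by
    rw [eventually_all]
    intro j
    exact (h j).eventually (Iic_mem_nhds one_pos)
  filter_upwards [h3] with n hn
  exact h1 _ hn

/-- A homogeneous polynomial at a point and at the normalised point. -/
theorem eval_homog86 {e : MvPolynomial (Fin N) Ω} {m : ℕ} (he : e.IsHomogeneous m) {a : Ω} (ha : a ≠ 0)
    (x : Fin N → Ω) : eval x e = a ^ m * eval (fun j => x j / a) e := by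
  have h1 : eval (fun j => a * (x j / a)) e = a ^ m * eval (fun j => x j / a) e := by
    rw [eval_eq, eval_eq, Finset.mul_sum]
    refine Finset.sum_congr rfl fun d hd => ?_
    have h2 : ∑ i ∈ d.support, d i = m := by
      have h := he (mem_support_iff.1 hd)
      rw [Finsupp.weight_apply, Finsupp.sum] at h
      simpa using h
    have h3 : ∏ i ∈ d.support, (a * (x i / a)) ^ d i = a ^ m * ∏ i ∈ d.support, (x i / a) ^ d i := by
      simp_rw [mul_pow]
      rw [Finset.prod_mul_distrib, Finset.prod_pow_eq_pow_sum, h2]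
    rw [h3]
    ring
  rw [← h1]
  have h2 : x = fun j => a * (x j / a) := by
    funext j
    field_simp
  exact congrArg (fun z => eval z e) h2

private theorem s_pos86 (μ : AbsoluteValue Ω ℝ) (x : Fin N → Ω) : 0 < sz μ x :=
  lt_of_lt_of_le one_pos (one_le_sz μ x)

/-- `sz → ∞` -/
private theorem sz_top86 (hg : Tendsto (fun n => Real.log (sz μ (y n))) (U : Filter ℕ) atTop) :
    Tendsto (fun n => sz μ (y n)) (U : Filter ℕ) atTop := by
  refine (Real.tendsto_exp_atTop.comp hg).congr fun n => ?_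
  exact Real.exp_log (s_pos86 μ _)

private theorem rpow_zero86 (hg : Tendsto (fun n => Real.log (sz μ (y n))) (U : Filter ℕ) atTop)
    (C : ℝ) {η : ℝ} (hη : 0 < η) : Tendsto (fun n => C * sz μ (y n) ^ (-η)) (U : Filter ℕ) (𝓝 0) := by
  have h := ((tendsto_rpow_neg_atTop hη).comp (sz_top86 hg)).const_mul C
  rw [mul_zero] at h
  exact h

/-- In a chart `q i = 1` the points converge. -/
theorem Dir.conv86 (hg : Tendsto (fun n => Real.log (sz μ (y n))) (U : Filter ℕ) atTop)
    {q : Fin N → Ω} (h : Dir μ U y q) {i : Fin N} (hi : q i = 1) :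
    (∀ᶠ n in (U : Filter ℕ), y n i ≠ 0) ∧
      (∀ j, Tendsto (fun n => μ (y n j / y n i - q j)) (U : Filter ℕ) (𝓝 0)) ∧
      Tendsto (fun n => μ (y n i)) (U : Filter ℕ) atTop := by
  obtain ⟨i1, hi1, -, C, η, hC, hη, hev⟩ := h
  have h0 : ∀ j, Tendsto (fun n => μ (y n j / y n i1 - q j)) (U : Filter ℕ) (𝓝 0) := by
    intro j
    refine squeeze_zero' (Eventually.of_forall fun n => μ.nonneg _) ?_ (rpow_zero86 hg C hη)
    filter_upwards [hev] with n hn
    exact hn.2.2 j
  have ha := h0 i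
  rw [hi] at ha
  have hhalf : ∀ᶠ n in (U : Filter ℕ), 1 / 2 ≤ μ (y n i / y n i1) := by
    filter_upwards [ha.eventually (Iic_mem_nhds (show (0 : ℝ) < 1 / 2 by norm_num))] with n hn
    have h1 := μ.sub_le 1 (y n i / y n i1) 0
    rw [sub_zero, sub_zero, map_one, μ.map_sub] at h1
    have hn' : μ (y n i / y n i1 - 1) ≤ 1 / 2 := hn
    linarith
  have hne : ∀ᶠ n in (U : Filter ℕ), y n i ≠ 0 := by
    filter_upwards [hhalf] with n hn h0
    rw [h0, zero_div, map_zero] at hn
    norm_num at hn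
  refine ⟨hne, fun j => ?_, ?_⟩
  · have h1 : Tendsto (fun n => 2 * (μ (y n j / y n i1 - q j) + μ (q j) * μ (y n i / y n i1 - 1)))
        (U : Filter ℕ) (𝓝 (2 * (0 + μ (q j) * 0))) := ((h0 j).add (ha.const_mul _)).const_mul 2
    rw [mul_zero, add_zero, mul_zero] at h1
    refine squeeze_zero' (Eventually.of_forall fun n => μ.nonneg _) ?_ h1
    filter_upwards [hev, hhalf, hne] with n hn h2 h3
    have h4 : y n i1 ≠ 0 := hn.1
    have e1 : y n j / y n i - q j =
        ((y n j / y n i1 - q j) - q j * (y n i / y n i1 - 1)) / (y n i / y n i1) := by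
      field_simp
      ring
    rw [e1, map_div₀]
    have h5 : 0 < μ (y n i / y n i1) := by linarith
    rw [div_le_iff₀ h5]
    have h6 := μ.sub_le (y n j / y n i1 - q j) 0 (q j * (y n i / y n i1 - 1))
    rw [sub_zero, zero_sub, μ.map_neg, map_mul] at h6
    have h7 : 0 ≤ μ (y n j / y n i1 - q j) + μ (q j) * μ (y n i / y n i1 - 1) := by
      have := μ.nonneg (y n j / y n i1 - q j)
      have := μ.nonneg (q j)
      have := μ.nonneg (y n i / y n i1 - 1)
      positivity
    have h8 := mul_le_mul_of_nonneg_left h2 h7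
    linarith
  · have h1 : Tendsto (fun n => (1 / (2 * C)) * sz μ (y n)) (U : Filter ℕ) atTop :=
      (sz_top86 hg).const_mul_atTop (by positivity)
    refine tendsto_atTop_mono' _ ?_ h1
    filter_upwards [hev, hhalf] with n hn h2
    have h4 : y n i1 ≠ 0 := hn.1
    have e1 : y n i = (y n i / y n i1) * y n i1 := by field_simp
    rw [e1, map_mul]
    have h5 := hn.2.1
    have h6 : 1 / 2 * μ (y n i1) ≤ μ (y n i / y n i1) * μ (y n i1) :=
      mul_le_mul_of_nonneg_right h2 (μ.nonneg _)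
    have h7 : (1 / (2 * C)) * sz μ (y n) ≤ 1 / 2 * μ (y n i1) := by
      rw [div_mul_eq_mul_div, one_mul, div_le_iff₀ (by positivity)]
      linarith
    linarith

theorem Dir.unique (hg : Tendsto (fun n => Real.log (sz μ (y n))) (U : Filter ℕ) atTop)
    {q q' : Fin N → Ω} (h : Dir μ U y q) (h' : Dir μ U y q') : q = q' := by
  have key : ∀ {q q' : Fin N → Ω}, (∃ i, q i = 1 ∧ (∀ j < i, q j = 0) ∧ Dir μ U y q) →
      ∀ i', q' i' = 1 → (∃ C : ℝ, 0 < C ∧ ∀ᶠ n in (U : Filter ℕ), sz μ (y n) ≤ C * μ (y n i')) →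
      q i' ≠ 0 := by
    rintro q q' ⟨i, hi, -, hd⟩ i' hi' ⟨C, hC, hev⟩ h0
    obtain ⟨h1, h2, -⟩ := hd.conv86 hg hi
    have h3 := h2 i'
    rw [h0] at h3
    have h4 : ∀ᶠ n in (U : Filter ℕ), 1 / C ≤ μ (y n i' / y n i - 0) := by
      filter_upwards [h1, hev] with n hn1 hn2
      rw [sub_zero, map_div₀, div_le_div_iff₀ hC (μ.pos hn1)]
      have := le_sz μ (y n) i
      linarith
    have h5 : 1 / C ≤ 0 := ge_of_tendsto h3 h4
    have : 0 < 1 / C := by positivity
    linarith
  obtain ⟨i, hi, hlt, C, η, hC, hη, hev⟩ := h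
  obtain ⟨i', hi', hlt', C', η', hC', hη', hev'⟩ := h'
  have hd : Dir μ U y q := ⟨i, hi, hlt, C, η, hC, hη, hev⟩
  have hd' : Dir μ U y q' := ⟨i', hi', hlt', C', η', hC', hη', hev'⟩
  have h1 : q i' ≠ 0 := key (q' := q') ⟨i, hi, hlt, hd⟩ i' hi' ⟨C', hC', hev'.mono fun n hn => hn.2.1⟩
  have h2 : q' i ≠ 0 := key (q' := q) ⟨i', hi', hlt', hd'⟩ i hi ⟨C, hC, hev.mono fun n hn => hn.2.1⟩
  have h3 : i = i' := by
    apply le_antisymm
    · by_contra hc
      exact h1 (hlt i' (not_le.1 hc))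
    · by_contra hc
      exact h2 (hlt' i (not_le.1 hc))
  subst h3
  funext j
  have h4 := (hd.conv86 hg hi).2.1 j
  have h5 := (hd'.conv86 hg hi').2.1 j
  have h6 := h4.add h5
  rw [add_zero] at h6
  have h7 : μ (q j - q' j) ≤ 0 := by
    refine ge_of_tendsto' h6 fun n => ?_
    have := μ.sub_le (q j) (y n j / y n i) (q' j)
    rw [μ.map_sub (q j) (y n j / y n i)] at this
    exact this
  have h8 : μ (q j - q' j) = 0 := le_antisymm h7 (μ.nonneg _)
  exact sub_eq_zero.1 (μ.eq_zero.1 h8)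

theorem Dir.rate_form (hg : Tendsto (fun n => Real.log (sz μ (y n))) (U : Filter ℕ) atTop)
    {q : Fin N → Ω} (h : Dir μ U y q) {e : MvPolynomial (Fin N) Ω} {m : ℕ}
    (he : e.IsHomogeneous m) (hq : eval q e ≠ 0) : Rate μ U y e m := by
  obtain ⟨i, hi, hlt, C, η, hC, hη, hev⟩ := h
  have hd : Dir μ U y q := ⟨i, hi, hlt, C, η, hC, hη, hev⟩
  obtain ⟨h1, h2, -⟩ := hd.conv86 hg hi
  have h3 := tendsto_eval86 μ h2 e
  have hpos : 0 < μ (eval q e) := μ.pos hq
  have h4 : ∀ᶠ n in (U : Filter ℕ), μ (eval q e) / 2 ≤ μ (eval (fun j => y n j / y n i) e) ∧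
      μ (eval (fun j => y n j / y n i) e) ≤ 2 * μ (eval q e) := by
    filter_upwards [h3.eventually (Iic_mem_nhds (show (0 : ℝ) < μ (eval q e) / 2 by positivity))] with n hn
    have hn' : μ (eval (fun j => y n j / y n i) e - eval q e) ≤ μ (eval q e) / 2 := hn
    have h5 := μ.sub_le (eval q e) (eval (fun j => y n j / y n i) e) 0
    rw [sub_zero, sub_zero, μ.map_sub (eval q e)] at h5
    have h6 := μ.sub_le (eval (fun j => y n j / y n i) e) (eval q e) 0
    rw [sub_zero, sub_zero] at h6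
    constructor <;> linarith
  have hev2 : ∀ᶠ n in (U : Filter ℕ), 0 < μ (eval (fun j => y n j / y n i) e) ∧ 0 < μ (y n i) ∧
      eval (y n) e = y n i ^ m * eval (fun j => y n j / y n i) e := by
    filter_upwards [h1, h4] with n hn1 hn2
    exact ⟨by linarith [hn2.1], μ.pos hn1, eval_homog86 he hn1 (y n)⟩
  refine ⟨?_, ?_⟩
  · rw [notMem_van]
    filter_upwards [hev2, h1] with n hn hn1
    rw [hn.2.2]
    exact mul_ne_zero (pow_ne_zero _ hn1) (μ.ne_zero_iff.1 hn.1.ne')
  · -- logarithms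
    obtain ⟨B, hB⟩ : ∃ B : ℝ, B = m * |Real.log C| + |Real.log (μ (eval q e))| + Real.log 2 := ⟨_, rfl⟩
    have h5 : Tendsto (fun n => Real.log (μ (eval (y n) e)) / Real.log (sz μ (y n)) - m)
        (U : Filter ℕ) (𝓝 0) := by
      refine squeeze_zero_norm' ?_ (hg.const_div_atTop B)
      filter_upwards [hev2, h4, hev, hg.eventually_gt_atTop 0] with n hn hn4 hn5 hn6
      have hs := s_pos86 μ (y n)
      have e1 : Real.log (μ (eval (y n) e)) =
          m * Real.log (μ (y n i)) + Real.log (μ (eval (fun j => y n j / y n i) e)) := by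
        rw [hn.2.2, map_mul, map_pow, Real.log_mul (pow_pos hn.2.1 _).ne' hn.1.ne', Real.log_pow]
      have e2 : Real.log (μ (eval (y n) e)) / Real.log (sz μ (y n)) - m =
          (Real.log (μ (eval (y n) e)) - m * Real.log (sz μ (y n))) / Real.log (sz μ (y n)) := by
        field_simp
      rw [e2, norm_div, Real.norm_eq_abs, Real.norm_eq_abs, abs_of_pos hn6]
      refine div_le_div_of_nonneg_right ?_ hn6.le
      have h6 := Real.log_le_log hn.2.1 (le_sz μ (y n) i)
      have h7 := Real.log_le_log hs hn5.2.1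
      rw [Real.log_mul hC.ne' hn.2.1.ne'] at h7
      have h8 := Real.log_le_log (by positivity) hn4.1
      rw [Real.log_div hpos.ne' two_ne_zero] at h8
      have h9 := Real.log_le_log hn.1 hn4.2
      rw [Real.log_mul two_ne_zero hpos.ne'] at h9
      have h10 := le_abs_self (Real.log C)
      have h11 := neg_abs_le (Real.log (μ (eval q e)))
      have h12 := le_abs_self (Real.log (μ (eval q e)))
      have h13 : 0 ≤ Real.log 2 := Real.log_nonneg (by norm_num)
      have hm : (0 : ℝ) ≤ m := Nat.cast_nonneg m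
      have h14 : (m : ℝ) * (Real.log (sz μ (y n)) - Real.log (μ (y n i))) ≤ m * |Real.log C| :=
        mul_le_mul_of_nonneg_left (by linarith) hm
      have h15 : 0 ≤ (m : ℝ) * (Real.log (sz μ (y n)) - Real.log (μ (y n i))) :=
        mul_nonneg hm (by linarith)
      have h16 : 0 ≤ (m : ℝ) * |Real.log C| := mul_nonneg hm (abs_nonneg _)
      rw [e1, hB, abs_le]
      constructor <;> linarith
    have h6 := h5.add_const (m : ℝ)
    rw [zero_add] at h6
    simpa using h6

theorem Dir.rate_form_lt (hg : Tendsto (fun n => Real.log (sz μ (y n))) (U : Filter ℕ) atTop)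
    {q : Fin N → Ω} (h : Dir μ U y q) {e : MvPolynomial (Fin N) Ω} {m : ℕ}
    (he : e.IsHomogeneous m) (hq : eval q e = 0) {σ : ℝ} (hr : Rate μ U y e σ) : σ < m := by
  obtain ⟨i, hi, hlt, C, η, hC, hη, hev⟩ := h
  obtain ⟨C1, hC1, hlip⟩ := lip_eval86 μ q e
  have h1 : σ ≤ m - η := by
    refine rate_le_of_bound hg hr (C := C1 * (N * C)) ?_
    filter_upwards [hev, (rpow_zero86 hg C hη).eventually (Iic_mem_nhds (one_pos : (0 : ℝ) < 1))]
      with n hn hn1
    have hs := s_pos86 μ (y n)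
    have hn1' : C * sz μ (y n) ^ (-η) ≤ 1 := hn1
    have h2 := hlip (fun j => y n j / y n i) fun j => (hn.2.2 j).trans hn1'
    rw [hq, sub_zero] at h2
    have h3 : ∑ j, μ (y n j / y n i - q j) ≤ N * (C * sz μ (y n) ^ (-η)) := by
      have := Finset.sum_le_card_nsmul (Finset.univ : Finset (Fin N)) (fun j => μ (y n j / y n i - q j))
        (C * sz μ (y n) ^ (-η)) fun j _ => hn.2.2 j
      rwa [nsmul_eq_mul, Finset.card_univ, Fintype.card_fin] at this
    rw [eval_homog86 he hn.1 (y n), map_mul, map_pow]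
    have h4 : μ (y n i) ^ m ≤ sz μ (y n) ^ m := pow_le_pow_left₀ (μ.nonneg _) (le_sz μ _ _) m
    have h5 : μ (eval (fun j => y n j / y n i) e) ≤ C1 * (N * (C * sz μ (y n) ^ (-η))) :=
      h2.trans (mul_le_mul_of_nonneg_left h3 hC1)
    have h6 : sz μ (y n) ^ ((m : ℝ) - η) = sz μ (y n) ^ m * sz μ (y n) ^ (-η) := by
      rw [sub_eq_add_neg, Real.rpow_add hs, Real.rpow_natCast]
    rw [h6]
    calc μ (y n i) ^ m * μ (eval (fun j => y n j / y n i) e)
        ≤ sz μ (y n) ^ m * (C1 * (N * (C * sz μ (y n) ^ (-η)))) :=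
          mul_le_mul h4 h5 (μ.nonneg _) (by positivity)
      _ = _ := by ring
  linarith

/-- Polynomials of degree at most `m`: only the form of degree `m` matters in the limit. -/
theorem Dir.tendsto_top (hg : Tendsto (fun n => Real.log (sz μ (y n))) (U : Filter ℕ) atTop)
    {q : Fin N → Ω} (h : Dir μ U y q) {f : MvPolynomial (Fin N) Ω} {m : ℕ}
    (hf : f.totalDegree ≤ m) {i : Fin N} (hi : q i = 1) :
    Tendsto (fun n => μ (eval (y n) f / y n i ^ m - eval q (homogeneousComponent m f)))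
      (U : Filter ℕ) (𝓝 0) := by
  obtain ⟨h1, h2, h3⟩ := h.conv86 hg hi
  have hsum : f = ∑ e ∈ Finset.range (m + 1), homogeneousComponent e f := by
    refine (sum_homogeneousComponent f).symm.trans
      (Finset.sum_subset (Finset.range_subset_range.2 (Nat.succ_le_succ hf)) ?_)
    intro e _ he
    exact homogeneousComponent_eq_zero _ _ (by rw [Finset.mem_range] at he; omega)
  -- the terms
  have hterm : ∀ e ∈ Finset.range m, Tendsto (fun n => μ (eval (fun j => y n j / y n i)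
      (homogeneousComponent e f)) * μ (y n i)⁻¹ ^ (m - e)) (U : Filter ℕ) (𝓝 0) := by
    intro e he
    rw [Finset.mem_range] at he
    have h4 := tendsto_eval86 μ h2 (homogeneousComponent e f)
    have h5 : Tendsto (fun n => (μ (eval q (homogeneousComponent e f)) + 1) * μ (y n i)⁻¹ ^ (m - e))
        (U : Filter ℕ) (𝓝 0) := by
      have h6 : Tendsto (fun n => μ (y n i)⁻¹ ^ (m - e)) (U : Filter ℕ) (𝓝 0) := by
        have h7 : Tendsto (fun n => μ (y n i)⁻¹) (U : Filter ℕ) (𝓝 0) := by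
          have := tendsto_inv_atTop_zero.comp h3
          refine this.congr fun n => ?_
          rw [Function.comp_apply, map_inv₀]
        have := h7.pow (m - e)
        rwa [zero_pow (by omega)] at this
      have := h6.const_mul (μ (eval q (homogeneousComponent e f)) + 1)
      rwa [mul_zero] at this
    refine squeeze_zero' (Eventually.of_forall fun n => ?_) ?_ h5
    · exact mul_nonneg (μ.nonneg _) (pow_nonneg (μ.nonneg _) _)
    · filter_upwards [h4.eventually (Iic_mem_nhds (one_pos : (0 : ℝ) < 1))] with n hn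
      refine mul_le_mul_of_nonneg_right ?_ (pow_nonneg (μ.nonneg _) _)
      have hn' : μ (eval (fun j => y n j / y n i) (homogeneousComponent e f) -
        eval q (homogeneousComponent e f)) ≤ 1 := hn
      have h6 := μ.sub_le (eval (fun j => y n j / y n i) (homogeneousComponent e f))
        (eval q (homogeneousComponent e f)) 0
      rw [sub_zero, sub_zero] at h6
      linarith
  have h4 := tendsto_eval86 μ h2 (homogeneousComponent m f)
  have h5 := (tendsto_finsetSum (Finset.range m) hterm).add h4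
  rw [Finset.sum_const_zero, zero_add] at h5
  refine squeeze_zero' (Eventually.of_forall fun n => μ.nonneg _) ?_ h5
  filter_upwards [h1] with n hn
  have e1 : eval (y n) f / y n i ^ m - eval q (homogeneousComponent m f) =
      ∑ e ∈ Finset.range m, eval (fun j => y n j / y n i) (homogeneousComponent e f) * (y n i)⁻¹ ^ (m - e) +
        (eval (fun j => y n j / y n i) (homogeneousComponent m f) - eval q (homogeneousComponent m f)) := by
    have e2 : eval (y n) f / y n i ^ m = ∑ e ∈ Finset.range (m + 1),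
        eval (fun j => y n j / y n i) (homogeneousComponent e f) * (y n i)⁻¹ ^ (m - e) := by
      conv_lhs => rw [hsum]
      rw [map_sum, Finset.sum_div]
      refine Finset.sum_congr rfl fun e he => ?_
      rw [Finset.mem_range] at he
      rw [eval_homog86 (homogeneousComponent_isHomogeneous e f) hn (y n)]
      have h6 : y n i ^ m = y n i ^ e * y n i ^ (m - e) := by
        rw [← pow_add]
        congr 1
        omega
      rw [h6, inv_pow]
      field_simp
    rw [e2, Finset.sum_range_succ, Nat.sub_self, pow_zero, mul_one]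
    ring
  rw [e1]
  refine (μ.add_le _ _).trans (add_le_add ?_ le_rfl)
  refine (μ.sum_le _ _).trans (Finset.sum_le_sum fun e _ => ?_)
  rw [map_mul, map_pow]

private theorem top86 (μ : AbsoluteValue Ω ℝ) (p : Polynomial Ω) {M : ℕ} (h : p.natDegree ≤ M) :
    ∃ C : ℝ, 0 ≤ C ∧ ∀ ξ : Ω, 1 ≤ μ ξ → μ (p.eval ξ - p.coeff M * ξ ^ M) * μ ξ ≤ C * μ ξ ^ M := by
  refine ⟨∑ m ∈ Finset.range M, μ (p.coeff m), Finset.sum_nonneg fun m _ => μ.nonneg _, fun ξ hξ => ?_⟩
  rw [Polynomial.eval_eq_sum_range' (Nat.lt_succ_of_le h), Finset.sum_range_succ, add_sub_cancel_right]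
  refine (mul_le_mul_of_nonneg_right (μ.sum_le _ _) (μ.nonneg _)).trans ?_
  rw [Finset.sum_mul, Finset.sum_mul]
  refine Finset.sum_le_sum fun m hm => ?_
  rw [map_mul, map_pow, mul_assoc, ← pow_succ]
  exact mul_le_mul_of_nonneg_left (pow_le_pow_right₀ hξ (Finset.mem_range.1 hm)) (μ.nonneg _)

private theorem prod86 (μ : AbsoluteValue Ω ℝ) (u : Ω) {t : ℝ} (ht : 0 ≤ t) (R : Multiset Ω)
    (h : ∀ c ∈ R, t ≤ μ (u - c)) : t ^ R.card ≤ μ (R.map (fun c => u - c)).prod := by
  induction R using Multiset.induction_on with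
  | empty => simp
  | cons a R ih =>
    rw [Multiset.map_cons, Multiset.prod_cons, map_mul, Multiset.card_cons, pow_succ']
    exact mul_le_mul (h a (Multiset.mem_cons_self a R)) (ih fun c hc => h c (Multiset.mem_cons_of_mem hc))
      (pow_nonneg ht _) (μ.nonneg _)

/-- A bounded solution of an algebraic equation over the field of rational functions of a quantity
tending to infinity converges. -/
theorem root_conv86 [IsAlgClosed Ω] {J : ℕ} {a : ℕ → Polynomial Ω} (ha : ∃ j ≤ J, a j ≠ 0) {ξ u : ℕ → Ω}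
    (hξ : Tendsto (fun n => μ (ξ n)) (U : Filter ℕ) atTop) {B : ℝ}
    (hu : ∀ᶠ n in (U : Filter ℕ), μ (u n) ≤ B)
    (hrel : ∀ᶠ n in (U : Filter ℕ), ∑ k ∈ Finset.range (J + 1), (a k).eval (ξ n) * u n ^ k = 0) :
    ∃ (c : Ω) (C η : ℝ), 0 < C ∧ 0 < η ∧ ∀ᶠ n in (U : Filter ℕ), μ (u n - c) ≤ C * μ (ξ n) ^ (-η) := by
  classical
  -- the maximal degree
  obtain ⟨k1, hk1, hmax⟩ := Finset.exists_max_image ((Finset.range (J + 1)).filter fun k => a k ≠ 0)
    (fun k => (a k).natDegree) (by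
      obtain ⟨j, hj, hj0⟩ := ha
      exact ⟨j, Finset.mem_filter.2 ⟨Finset.mem_range.2 (by omega), hj0⟩⟩)
  rw [Finset.mem_filter] at hk1
  obtain ⟨M, hM⟩ : ∃ M, M = (a k1).natDegree := ⟨_, rfl⟩
  have hle : ∀ k ∈ Finset.range (J + 1), (a k).natDegree ≤ M := by
    intro k hk
    by_cases h0 : a k = 0
    · rw [h0, Polynomial.natDegree_zero]; exact Nat.zero_le _
    · rw [hM]; exact hmax k (Finset.mem_filter.2 ⟨hk, h0⟩)
  obtain ⟨Q, hQ⟩ : ∃ Q : Polynomial Ω, Q = ∑ k ∈ Finset.range (J + 1),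
      Polynomial.C ((a k).coeff M) * Polynomial.X ^ k := ⟨_, rfl⟩
  have hQ0 : Q ≠ 0 := by
    intro h
    have h1 : Q.coeff k1 = (a k1).coeff M := by
      rw [hQ, Polynomial.finsetSum_coeff]
      rw [Finset.sum_eq_single k1]
      · rw [Polynomial.coeff_C_mul, Polynomial.coeff_X_pow, if_pos rfl, mul_one]
      · intro k _ hne
        rw [Polynomial.coeff_C_mul, Polynomial.coeff_X_pow, if_neg (Ne.symm hne), mul_zero]
      · intro h2
        exact absurd hk1.1 h2
    rw [h, Polynomial.coeff_zero, hM, Polynomial.coeff_natDegree] at h1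
    exact hk1.2 (Polynomial.leadingCoeff_eq_zero.1 h1.symm)
  have hex : ∀ k, ∃ C : ℝ, 0 ≤ C ∧ (k ∈ Finset.range (J + 1) → ∀ ξ : Ω, 1 ≤ μ ξ →
      μ ((a k).eval ξ - (a k).coeff M * ξ ^ M) * μ ξ ≤ C * μ ξ ^ M) := by
    intro k
    by_cases hk : k ∈ Finset.range (J + 1)
    · obtain ⟨C, hC, h⟩ := top86 μ (a k) (hle k hk)
      exact ⟨C, hC, fun _ => h⟩
    · exact ⟨0, le_rfl, fun h => absurd h hk⟩
  choose Ck hCk0 hCk using hex
  obtain ⟨C0, hC0⟩ : ∃ C0 : ℝ, C0 = ∑ k ∈ Finset.range (J + 1), Ck k * |B| ^ k + 1 := ⟨_, rfl⟩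
  have hC0p : 0 < C0 := by
    have : 0 ≤ ∑ k ∈ Finset.range (J + 1), Ck k * |B| ^ k :=
      Finset.sum_nonneg fun k _ => mul_nonneg (hCk0 k) (by positivity)
    rw [hC0]; linarith
  have hQu : ∀ᶠ n in (U : Filter ℕ), μ (Q.eval (u n)) * μ (ξ n) ≤ C0 := by
    filter_upwards [hu, hrel, hξ.eventually_ge_atTop 1] with n h1 h2 h3
    have hpos : 0 < μ (ξ n) ^ M := pow_pos (by linarith) _
    have e1 : Q.eval (u n) = ∑ k ∈ Finset.range (J + 1), (a k).coeff M * u n ^ k := by
      rw [hQ, Polynomial.eval_finsetSum]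
      refine Finset.sum_congr rfl fun k _ => ?_
      rw [Polynomial.eval_mul, Polynomial.eval_C, Polynomial.eval_pow, Polynomial.eval_X]
    have e2 : ξ n ^ M * Q.eval (u n) = -∑ k ∈ Finset.range (J + 1),
        ((a k).eval (ξ n) - (a k).coeff M * ξ n ^ M) * u n ^ k := by
      have e3 : ∑ k ∈ Finset.range (J + 1), ((a k).eval (ξ n) - (a k).coeff M * ξ n ^ M) * u n ^ k =
          ∑ k ∈ Finset.range (J + 1), (a k).eval (ξ n) * u n ^ k -
            ξ n ^ M * ∑ k ∈ Finset.range (J + 1), (a k).coeff M * u n ^ k := by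
        rw [Finset.mul_sum, ← Finset.sum_sub_distrib]
        refine Finset.sum_congr rfl fun k _ => ?_
        ring
      rw [e3, h2, e1]
      ring
    have h4 : μ (ξ n) ^ M * (μ (Q.eval (u n)) * μ (ξ n)) ≤ μ (ξ n) ^ M * C0 := by
      have e4 : μ (ξ n) ^ M * (μ (Q.eval (u n)) * μ (ξ n)) = μ (ξ n ^ M * Q.eval (u n)) * μ (ξ n) := by
        rw [map_mul, map_pow]; ring
      rw [e4, e2, μ.map_neg]
      refine (mul_le_mul_of_nonneg_right (μ.sum_le _ _) (μ.nonneg _)).trans ?_
      rw [Finset.sum_mul]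
      have h5 : ∑ k ∈ Finset.range (J + 1), μ (((a k).eval (ξ n) - (a k).coeff M * ξ n ^ M) * u n ^ k) * μ (ξ n) ≤
          ∑ k ∈ Finset.range (J + 1), μ (ξ n) ^ M * (Ck k * |B| ^ k) := by
        refine Finset.sum_le_sum fun k hk => ?_
        rw [map_mul, map_pow]
        have h6 := hCk k hk (ξ n) h3
        have h7 : μ (u n) ^ k ≤ |B| ^ k := pow_le_pow_left₀ (μ.nonneg _) (h1.trans (le_abs_self B)) k
        calc μ ((a k).eval (ξ n) - (a k).coeff M * ξ n ^ M) * μ (u n) ^ k * μ (ξ n)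
            = (μ ((a k).eval (ξ n) - (a k).coeff M * ξ n ^ M) * μ (ξ n)) * μ (u n) ^ k := by ring
          _ ≤ (Ck k * μ (ξ n) ^ M) * |B| ^ k :=
              mul_le_mul h6 h7 (pow_nonneg (μ.nonneg _) _) (mul_nonneg (hCk0 k) hpos.le)
          _ = _ := by ring
      refine h5.trans ?_
      rw [← Finset.mul_sum]
      refine mul_le_mul_of_nonneg_left ?_ hpos.le
      rw [hC0]; linarith
    exact le_of_mul_le_mul_left h4 hpos
  have hsp := IsAlgClosed.splits Q
  have hlc : 0 < μ Q.leadingCoeff := μ.pos (Polynomial.leadingCoeff_ne_zero.2 hQ0)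
  by_cases hD : Q.roots.card = 0
  · -- constant
    exfalso
    have h1 : ∀ᶠ n in (U : Filter ℕ), μ Q.leadingCoeff * μ (ξ n) ≤ C0 := by
      filter_upwards [hQu] with n hn
      rw [hsp.eval_eq_prod_roots, Multiset.card_eq_zero.1 hD, Multiset.map_zero, Multiset.prod_zero, mul_one] at hn
      exact hn
    obtain ⟨n, hn1, hn2⟩ := (h1.and (hξ.eventually_gt_atTop (C0 / μ Q.leadingCoeff))).exists
    rw [div_lt_iff₀ hlc] at hn2
    linarith
  · have hDp : 0 < Q.roots.card := Nat.pos_of_ne_zero hD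
    obtain ⟨η, hη⟩ : ∃ η : ℝ, η = 1 / (Q.roots.card : ℝ) := ⟨_, rfl⟩
    have hηp : 0 < η := by rw [hη]; positivity
    obtain ⟨C1, hC1⟩ : ∃ C1 : ℝ, C1 = (C0 / μ Q.leadingCoeff) ^ η := ⟨_, rfl⟩
    have hC1p : 0 < C1 := by rw [hC1]; positivity
    have h1 : ∀ᶠ n in (U : Filter ℕ), ∃ c ∈ Q.roots.toFinset, μ (u n - c) ≤ (C1 + C1) * μ (ξ n) ^ (-η) := by
      filter_upwards [hQu, hξ.eventually_ge_atTop 1] with n hn h3
      have hξp : 0 < μ (ξ n) := by linarith
      by_contra hcon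
      push Not at hcon
      have hr : 0 < μ (ξ n) ^ (-η) := Real.rpow_pos_of_pos hξp _
      have h4 := prod86 μ (u n) (t := (C1 + C1) * μ (ξ n) ^ (-η)) (by positivity) Q.roots
        (fun c hc => (hcon c (Multiset.mem_toFinset.2 hc)).le)
      rw [hsp.eval_eq_prod_roots, map_mul] at hn
      have h5 : C1 ^ Q.roots.card = C0 / μ Q.leadingCoeff := by
        rw [hC1, hη, ← Real.rpow_natCast, ← Real.rpow_mul (by positivity)]
        rw [one_div_mul_cancel (by positivity), Real.rpow_one]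
      have h6 : (μ (ξ n) ^ (-η)) ^ Q.roots.card = (μ (ξ n))⁻¹ := by
        rw [← Real.rpow_natCast, ← Real.rpow_mul hξp.le, hη, neg_mul, one_div_mul_cancel (by positivity),
          Real.rpow_neg_one]
      have h7 : C1 ^ Q.roots.card < (C1 + C1) ^ Q.roots.card :=
        pow_lt_pow_left₀ (by linarith) hC1p.le hD
      rw [mul_pow, h6] at h4
      rw [h5] at h7
      have h8 : (C0 / μ Q.leadingCoeff) * (μ (ξ n))⁻¹ < μ (Q.roots.map fun c => u n - c).prod :=
        lt_of_lt_of_le (mul_lt_mul_of_pos_right h7 (inv_pos.2 hξp)) h4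
      have h9 : μ Q.leadingCoeff * ((C0 / μ Q.leadingCoeff) * (μ (ξ n))⁻¹) * μ (ξ n) <
          μ Q.leadingCoeff * μ (Q.roots.map fun c => u n - c).prod * μ (ξ n) :=
        mul_lt_mul_of_pos_right (mul_lt_mul_of_pos_left h8 hlc) hξp
      have h10 : μ Q.leadingCoeff * ((C0 / μ Q.leadingCoeff) * (μ (ξ n))⁻¹) * μ (ξ n) = C0 := by
        field_simp
      linarith
    have h2 : ∃ c ∈ Q.roots.toFinset, ∀ᶠ n in (U : Filter ℕ), μ (u n - c) ≤ (C1 + C1) * μ (ξ n) ^ (-η) := by
      by_contra hcon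
      have h3 : ∀ c ∈ Q.roots.toFinset, ∀ᶠ n in (U : Filter ℕ), ¬ μ (u n - c) ≤ (C1 + C1) * μ (ξ n) ^ (-η) := by
        intro c hc
        rw [Ultrafilter.eventually_not]
        exact fun h => hcon ⟨c, hc, h⟩
      rw [← Filter.eventually_all_finset] at h3
      obtain ⟨n, ⟨c, hc, hn⟩, hn2⟩ := (h1.and h3).exists
      exact hn2 c hc hn
    obtain ⟨c, -, hc⟩ := h2
    exact ⟨c, C1 + C1, η, by positivity, hηp, hc⟩

theorem dir_exists [IsAlgClosed Ω] (h : Cv μ U y) : ∃ q, Dir μ U y q := by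
  classical
  obtain ⟨i0, hi0, C0, hC0, hev0⟩ := exists_coord h.grow
  have hs := sz_top86 h.grow
  have hξ : Tendsto (fun n => μ (y n i0)) (U : Filter ℕ) atTop := by
    refine tendsto_atTop_mono' _ ?_ (hs.const_mul_atTop (show (0 : ℝ) < 1 / C0 by positivity))
    filter_upwards [hev0] with n hn
    rw [div_mul_eq_mul_div, one_mul, div_le_iff₀ hC0]
    linarith
  have hne : ∀ᶠ n in (U : Filter ℕ), y n i0 ≠ 0 := by
    filter_upwards [hξ.eventually_gt_atTop 0] with n hn
    exact μ.ne_zero_iff.1 hn.ne'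
  -- all ratios converge
  have hex : ∀ j, ∃ (c : Ω) (C η : ℝ), 0 < C ∧ 0 < η ∧ (j = i0 → c = 1) ∧
      ∀ᶠ n in (U : Filter ℕ), μ (y n j / y n i0 - c) ≤ C * sz μ (y n) ^ (-η) := by
    intro j
    by_cases hj : j = i0
    · refine ⟨1, 1, 1, one_pos, one_pos, fun _ => rfl, ?_⟩
      filter_upwards [hne] with n hn
      rw [hj, div_self hn, sub_self, map_zero, one_mul]
      exact Real.rpow_nonneg (s_pos86 μ _).le _
    · obtain ⟨J, a, ha, hrel⟩ := exists_rel h.trdeg i0 (f := X j) hi0.1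
      have hrel2 : ∀ᶠ n in (U : Filter ℕ), ∑ k ∈ Finset.range (J + 1), (a k).eval (y n i0) *
          (y n j / y n i0) ^ k = 0 := by
        filter_upwards [mem_van.1 hrel, hne] with n hn1 hn2
        rw [map_sum] at hn1
        have e1 : ∑ k ∈ Finset.range (J + 1), (a k).eval (y n i0) * (y n j / y n i0) ^ k =
            (∑ k ∈ Finset.range (J + 1), eval (y n) (Polynomial.aeval (X i0 : MvPolynomial (Fin N) Ω) (a k) *
              X j ^ k * X i0 ^ (J - k))) / y n i0 ^ J := by
          rw [Finset.sum_div]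
          refine Finset.sum_congr rfl fun k hk => ?_
          rw [Finset.mem_range] at hk
          have e2 : eval (y n) (Polynomial.aeval (X i0 : MvPolynomial (Fin N) Ω) (a k)) = (a k).eval (y n i0) := by
            have e3 := Polynomial.hom_eval₂ (a k) (algebraMap Ω (MvPolynomial (Fin N) Ω)) (eval (y n)) (X i0)
            rw [eval_X] at e3
            rw [Polynomial.aeval_def, e3]
            have e4 : (eval (y n)).comp (algebraMap Ω (MvPolynomial (Fin N) Ω)) = RingHom.id Ω := by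
              ext c
              simp
            rw [e4]
            rfl
          have e5 : y n i0 ^ J = y n i0 ^ k * y n i0 ^ (J - k) := by
            rw [← pow_add]
            congr 1
            omega
          rw [map_mul, map_mul, map_pow, map_pow, eval_X, eval_X, e2, e5, div_pow]
          field_simp
        rw [e1, hn1, zero_div]
      obtain ⟨c, C, η, hC, hη, hc⟩ := root_conv86 ha hξ (u := fun n => y n j / y n i0) (B := C0) (by
        filter_upwards [hev0, hne] with n hn1 hn2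
        rw [map_div₀, div_le_iff₀ (μ.pos hn2)]
        exact (le_sz μ _ j).trans hn1) hrel2
      refine ⟨c, C * C0 ^ η, η, by positivity, hη, fun h => absurd h hj, ?_⟩
      filter_upwards [hc, hev0, hne] with n hn1 hn2 hn3
      refine hn1.trans ?_
      have hsp := s_pos86 μ (y n)
      have hxp := μ.pos hn3
      rw [mul_assoc]
      refine mul_le_mul_of_nonneg_left ?_ hC.le
      rw [Real.rpow_neg hxp.le, Real.rpow_neg hsp.le]
      have h1 : sz μ (y n) ^ η ≤ C0 ^ η * μ (y n i0) ^ η := by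
        rw [← Real.mul_rpow hC0.le hxp.le]
        exact Real.rpow_le_rpow hsp.le hn2 hη.le
      have h2 : 0 < sz μ (y n) ^ η := Real.rpow_pos_of_pos hsp _
      have h3 : 0 < μ (y n i0) ^ η := Real.rpow_pos_of_pos hxp _
      rw [← div_eq_mul_inv, le_div_iff₀ h2, inv_mul_le_iff₀ h3]
      linarith
  choose c C η hC hη hc1 hc using hex
  -- a common exponent
  obtain ⟨η0, hη0, hη0le⟩ : ∃ η0 : ℝ, 0 < η0 ∧ ∀ j, η0 ≤ η j := by
    have hne0 : (Finset.univ : Finset (Fin N)).Nonempty := ⟨i0, Finset.mem_univ _⟩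
    obtain ⟨j0, -, hj0⟩ := Finset.exists_min_image Finset.univ η hne0
    exact ⟨η j0, hη j0, fun j => hj0 j (Finset.mem_univ j)⟩
  obtain ⟨D, hD⟩ : ∃ D : ℝ, D = ∑ j, C j := ⟨_, rfl⟩
  have hDp : 0 < D := by
    rw [hD]
    exact Finset.sum_pos (fun j _ => hC j) ⟨i0, Finset.mem_univ _⟩
  have hall : ∀ᶠ n in (U : Filter ℕ), ∀ j, μ (y n j / y n i0 - c j) ≤ D * sz μ (y n) ^ (-η0) := by
    rw [eventually_all]
    intro j
    filter_upwards [hc j] with n hn
    refine hn.trans (mul_le_mul ?_ ?_ (Real.rpow_nonneg (s_pos86 μ _).le _) hDp.le)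
    · rw [hD]
      exact Finset.single_le_sum (fun j _ => (hC j).le) (Finset.mem_univ j)
    · exact Real.rpow_le_rpow_of_exponent_le (one_le_sz μ _) (by linarith [hη0le j])
  -- the first nonzero coordinate
  obtain ⟨i, hci, hmin⟩ : ∃ i, c i ≠ 0 ∧ ∀ j < i, c j = 0 := by
    obtain ⟨i, hi, hmin⟩ := Finset.exists_minimal (s := Finset.univ.filter fun i => c i ≠ 0)
      ⟨i0, Finset.mem_filter.2 ⟨Finset.mem_univ _, by rw [hc1 i0 rfl]; exact one_ne_zero⟩⟩
    refine ⟨i, (Finset.mem_filter.1 hi).2, fun j hj => ?_⟩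
    by_contra hcj
    exact absurd (hmin (Finset.mem_filter.2 ⟨Finset.mem_univ j, hcj⟩) hj.le) (not_le.2 hj)
  have hcip : 0 < μ (c i) := μ.pos hci
  obtain ⟨E, hE⟩ : ∃ E : ℝ, E = ∑ j, μ (c j) := ⟨_, rfl⟩
  have hEj : ∀ j, μ (c j) ≤ E := fun j => by
    rw [hE]
    exact Finset.single_le_sum (f := fun j => μ (c j)) (fun j _ => μ.nonneg _) (Finset.mem_univ j)
  have hEp : 0 < E := lt_of_lt_of_le hcip (hEj i)
  refine ⟨fun j => c j / c i, i, div_self hci, fun j hj => by simp only [hmin j hj, zero_div],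
    max (2 * C0 / μ (c i)) (4 * E * D / μ (c i) ^ 2), η0, by positivity, hη0, ?_⟩
  filter_upwards [hall, hne, hev0, (rpow_zero86 h.grow D hη0).eventually
    (Iic_mem_nhds (show (0 : ℝ) < μ (c i) / 2 by positivity))] with n hn1 hn2 hn3 hn4
  have hn4' : D * sz μ (y n) ^ (-η0) ≤ μ (c i) / 2 := hn4
  have hhalf : μ (c i) / 2 ≤ μ (y n i / y n i0) := by
    have h1 := μ.sub_le (c i) (y n i / y n i0) 0
    rw [sub_zero, sub_zero, μ.map_sub (c i) (y n i / y n i0)] at h1
    have := hn1 i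
    linarith
  have hup : 0 < μ (y n i / y n i0) := by linarith
  have hyi : y n i ≠ 0 := by
    intro h0
    rw [h0, zero_div, map_zero] at hup
    exact lt_irrefl _ hup
  refine ⟨hyi, ?_, fun j => ?_⟩
  · have e1 : μ (y n i0) = μ (y n i) / μ (y n i / y n i0) := by
      rw [map_div₀]
      have := (μ.pos hyi).ne'
      have := (μ.pos hn2).ne'
      field_simp
    have h1 : μ (y n i0) ≤ μ (y n i) / (μ (c i) / 2) := by
      rw [e1]
      exact div_le_div_of_nonneg_left (μ.nonneg _) (by positivity) hhalf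
    calc sz μ (y n) ≤ C0 * μ (y n i0) := hn3
      _ ≤ C0 * (μ (y n i) / (μ (c i) / 2)) := mul_le_mul_of_nonneg_left h1 hC0.le
      _ = (2 * C0 / μ (c i)) * μ (y n i) := by field_simp
      _ ≤ _ := mul_le_mul_of_nonneg_right (le_max_left _ _) (μ.nonneg _)
  · have e1 : y n j / y n i - c j / c i =
        ((y n j / y n i0 - c j) * c i - c j * (y n i / y n i0 - c i)) / ((y n i / y n i0) * c i) := by
      field_simp
      ring
    rw [e1, map_div₀, map_mul]
    have hden : 0 < μ (y n i / y n i0) * μ (c i) := by positivity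
    rw [div_le_iff₀ hden]
    have h1 := μ.sub_le ((y n j / y n i0 - c j) * c i) 0 (c j * (y n i / y n i0 - c i))
    rw [sub_zero, zero_sub, μ.map_neg, map_mul, map_mul] at h1
    obtain ⟨ε, hε⟩ : ∃ ε : ℝ, ε = sz μ (y n) ^ (-η0) := ⟨_, rfl⟩
    have hε0 : 0 ≤ ε := by rw [hε]; exact Real.rpow_nonneg (s_pos86 μ _).le _
    rw [← hε]
    have h2 : μ (y n j / y n i0 - c j) * μ (c i) ≤ (D * ε) * E :=
      mul_le_mul (by rw [hε]; exact hn1 j) (hEj i) (μ.nonneg _) (by positivity)
    have h3 : μ (c j) * μ (y n i / y n i0 - c i) ≤ E * (D * ε) :=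
      mul_le_mul (hEj j) (by rw [hε]; exact hn1 i) (μ.nonneg _) hEp.le
    have h4 : (4 * E * D / μ (c i) ^ 2) * ε * (μ (c i) / 2 * μ (c i)) = 2 * (E * (D * ε)) := by
      field_simp
      ring
    have h5 : (4 * E * D / μ (c i) ^ 2) * ε * (μ (c i) / 2 * μ (c i)) ≤
        max (2 * C0 / μ (c i)) (4 * E * D / μ (c i) ^ 2) * ε * (μ (y n i / y n i0) * μ (c i)) := by
      refine mul_le_mul (mul_le_mul_of_nonneg_right (le_max_right _ _) hε0)
        (mul_le_mul_of_nonneg_right hhalf hcip.le) (by positivity) (by positivity)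
    linarith

end Pool.Agent.Helper26.RC
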