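import Pool.Agent.Helper26.RC.Low

/-! Block RC-GAL (about 120 lines): conjugate absolute values.

The points `emb Ω x n` have coordinates in `K`, so `σ (f (y n)) = f^σ (y n)` where `f^σ = MvPolynomial.map σ f`, and `tw μ σ (f (y n)) = μ (f^σ (y n))`, `sz (tw μ σ) (y n) = sz μ (y n)`.
`f ∈ van ↔ f^σ ∈ van`. Hence `Rate (tw μ σ) f ρ ↔ Rate μ (f^σ) ρ` (`rate_tw`), and `Cv.tw`, `Ram.tw` (replace `f` by `f^{σ⁻¹}` in `Ram.res`). `Dir.tw`:
`μ (σ (y_j / y_i - σ⁻¹ (q_j))) = μ (y_j / y_i - q_j)`.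
`three`: `hilb_lower` for `tw μ (σ 0)⁻¹ ..`: the limit directions of `tw μ (σ i).symm` are `σ i ∘ q`. -/

set_option autoImplicit false

namespace Pool.Agent.Helper26.RC

open MvPolynomial Filter Topology

variable {K Ω : Type*} [Field K] [Field Ω] [Algebra K Ω] {N : ℕ} {μ : AbsoluteValue Ω ℝ}
  {U : Ultrafilter ℕ} {x : ℕ → Fin N → K}

private theorem ev_map97 (σ : Ω ≃ₐ[K] Ω) (f : MvPolynomial (Fin N) Ω) (n : ℕ) :
    eval (emb Ω x n) (MvPolynomial.map (σ : Ω →+* Ω) f) = σ (eval (emb Ω x n) f) := by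
  induction f using MvPolynomial.induction_on with
  | C a => simp
  | add p q hp hq => rw [map_add, map_add, hp, hq, map_add, map_add]
  | mul_X p i hp =>
    rw [map_mul, map_mul, hp, map_mul, map_mul, MvPolynomial.map_X, MvPolynomial.eval_X]
    congr 1
    exact (σ.commutes (x n i)).symm

private theorem van_map97 (σ : Ω ≃ₐ[K] Ω) (f : MvPolynomial (Fin N) Ω) :
    MvPolynomial.map (σ : Ω →+* Ω) f ∈ van U (emb Ω x) ↔ f ∈ van U (emb Ω x) := by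
  rw [mem_van, mem_van]
  refine Filter.eventually_congr (Eventually.of_forall fun n => ?_)
  rw [ev_map97]
  exact EmbeddingLike.map_eq_zero_iff

private theorem tw_apply97 (σ : Ω ≃ₐ[K] Ω) (z : Ω) : tw μ σ z = μ (σ z) := rfl

private theorem sz_tw97 (σ : Ω ≃ₐ[K] Ω) (n : ℕ) : sz (tw μ σ) (emb Ω x n) = sz μ (emb Ω x n) := by
  unfold sz
  congr 1
  refine Finset.sum_congr rfl fun i _ => ?_
  rw [tw_apply97]
  congr 1
  exact σ.commutes (x n i)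

theorem rate_tw (σ : Ω ≃ₐ[K] Ω) {f : MvPolynomial (Fin N) Ω} {ρ : ℝ} :
    Rate (tw μ σ) U (emb Ω x) f ρ ↔ Rate μ U (emb Ω x) (MvPolynomial.map (σ : Ω →+* Ω) f) ρ := by
  unfold Rate
  rw [van_map97]
  refine and_congr_right fun _ => ?_
  have h : (fun n => Real.log (tw μ σ (eval (emb Ω x n) f)) / Real.log (sz (tw μ σ) (emb Ω x n))) =
      fun n => Real.log (μ (eval (emb Ω x n) (MvPolynomial.map (σ : Ω →+* Ω) f))) /
        Real.log (sz μ (emb Ω x n)) := by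
    funext n
    rw [sz_tw97, ev_map97, tw_apply97]
  rw [h]

theorem Cv.tw (h : Cv μ U (emb Ω x)) (σ : Ω ≃ₐ[K] Ω) : Cv (RC.tw μ σ) U (emb Ω x) := by
  refine ⟨?_, h.trdeg⟩
  simp only [sz_tw97]
  exact h.grow

theorem Ram.tw {b : ℕ} (h : Ram μ U (emb Ω x) b) (σ : Ω ≃ₐ[K] Ω) :
    Ram (RC.tw μ σ) U (emb Ω x) b := by
  refine ⟨h.pos, fun f hf => ?_, fun r => ?_⟩
  · obtain ⟨m, hm⟩ := h.int (MvPolynomial.map (σ : Ω →+* Ω) f) (fun h' => hf ((van_map97 σ f).mp h'))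
    exact ⟨m, (rate_tw σ).mpr hm⟩
  · obtain ⟨f, m, hm, hd⟩ := h.res r
    refine ⟨MvPolynomial.map ((σ.symm : Ω ≃ₐ[K] Ω) : Ω →+* Ω) f, m, (rate_tw σ).mpr ?_, hd⟩
    rw [MvPolynomial.map_map]
    have h1 : ((σ : Ω →+* Ω)).comp ((σ.symm : Ω ≃ₐ[K] Ω) : Ω →+* Ω) = RingHom.id Ω := by
      ext z
      exact σ.apply_symm_apply z
    rw [h1, MvPolynomial.map_id]
    exact hm

theorem Dir.tw {q : Fin N → Ω} (h : Dir μ U (emb Ω x) q) (σ : Ω ≃ₐ[K] Ω) :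
    Dir (RC.tw μ σ) U (emb Ω x) (fun j => σ.symm (q j)) := by
  obtain ⟨i, h1, h2, C, η, hC, hη, h3⟩ := h
  refine ⟨i, ?_, fun j hj => ?_, C, η, hC, hη, ?_⟩
  · show σ.symm (q i) = 1
    rw [h1, map_one]
  · show σ.symm (q j) = 0
    rw [h2 j hj, map_zero]
  · filter_upwards [h3] with n hn
    obtain ⟨a1, a2, a3⟩ := hn
    have hc : ∀ j, σ (emb Ω x n j) = emb Ω x n j := fun j => σ.commutes (x n j)
    refine ⟨a1, ?_, fun j => ?_⟩
    · rw [sz_tw97, tw_apply97, hc]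
      exact a2
    · rw [sz_tw97, tw_apply97, map_sub, map_div₀, hc, hc, AlgEquiv.apply_symm_apply]
      exact a3 j

theorem three (h : Cv μ U (emb Ω x)) {b : ℕ} (hb : Ram μ U (emb Ω x) b) {q : Fin N → Ω}
    (hq : Dir μ U (emb Ω x) q) {σ : Fin 3 → (Ω ≃ₐ[K] Ω)}
    (hinj : Function.Injective fun (i : Fin 3) (j : Fin N) => σ i (q j)) :
    ∃ C : ℕ, ∀ δ : ℕ, 3 * b * δ ≤ hilb U (emb Ω x) δ + C := by
  refine hilb_lower (μ := fun i => RC.tw μ (σ i).symm) (fun i => h.tw _) (fun i => hb.tw _)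
    (q := fun i j => σ i (q j)) (fun i => ?_) hinj
  have h1 := hq.tw (σ i).symm
  exact h1

end Pool.Agent.Helper26.RC
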