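import Pool.Agent.Helper26.RC.Rates

/-! Block RC-LOC (about 150 lines): the homogenised map is uniformly injective near a noncritical point.

Let `f_i (s, Y) = homV d Φ s Y i`, a polynomial in `(s, Y)` with coefficients in `Ω`. There are polynomials `h_{ij} (s, Y, Y')` with `f_i (s, Y) - f_i (s, Y') = ∑_j h_{ij} (s, Y, Y') (Y_j - Y'_j)` and `h_{ij} (0, q, q) = ∂_j Φ_{i,d} (q)`
(telescoping; for monomials: `Y^m - Y'^m = ∑_j (Y_1..Y_{j-1} powers) (∑ Y_j^a Y'_j^b) (Y'_{j+1}.. powers) (Y_j - Y'_j)`). The `h_{ij}` are continuous for `μ` at `(0, q, q)`. Or avoid the `h_{ij}`: show directly, by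
induction over polynomials (`MvPolynomial.induction_on`), that for every `f ∈ Ω[Y]`, `q` and `ε' > 0` there is `ε > 0` with `μ (f (Y) - f (Y') - ∑_j ∂_j f (q) (Y_j - Y'_j)) ≤ ε' ∑_j μ (Y_j - Y'_j)` for `Y, Y'` in the `ε`-ball of `q`
(strict differentiability; sums, products), and treat the terms with `e < d` as `s * (Lipschitz)`.
Let `J` = matrix of the `∂_j Φ_{i,d} (q)`, `det J = jac ≠ 0`, `Z = Y - Y'`, `W = homV (Y) - homV (Y')`: `W = J Z + E`, `μ (E_i) ≤ ε' ∑ μ (Z_j)`. `Z = J⁻¹ (W - E)`: `∑ μ (Z_j) ≤ C' ∑ μ (W_j) + C' N ε' ∑ μ (Z_j)` with `C' = ` sum of the `μ` of the entries of `J⁻¹`;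
choose `ε' C' N ≤ 1/2`. -/

set_option autoImplicit false

namespace Pool.Agent.Helper26.RC

open MvPolynomial Filter Topology

variable {K Ω : Type*} [Field K] [Field Ω] [Algebra K Ω] {N : ℕ}

/-- Strict differentiability at `q`, uniformly in the small parameter `s`. -/
private def SD6 (μ : AbsoluteValue Ω ℝ) (q : Fin N → Ω) (G : Ω → (Fin N → Ω) → Ω)
    (D : Fin N → Ω) : Prop :=
  ∀ e : ℝ, 0 < e → ∀ᶠ ε in 𝓝[>] (0 : ℝ), ∀ (s : Ω) (Y Y' : Fin N → Ω), μ s < ε →
    (∀ i, μ (Y i - q i) < ε) → (∀ i, μ (Y' i - q i) < ε) →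
    μ (G s Y - G s Y' - ∑ j, D j * (Y j - Y' j)) ≤ e * ∑ j, μ (Y j - Y' j)

private lemma small6 {δ : ℝ} (hδ : 0 < δ) : ∀ᶠ ε in 𝓝[>] (0 : ℝ), 0 < ε ∧ ε < δ := by
  filter_upwards [Ioo_mem_nhdsGT hδ] with ε hε
  exact hε

private lemma mu_sum6 (μ : AbsoluteValue Ω ℝ) (D Z : Fin N → Ω) :
    μ (∑ j, D j * Z j) ≤ (∑ j, μ (D j)) * ∑ j, μ (Z j) := by
  refine (μ.sum_le _ _).trans ?_
  rw [Finset.sum_mul]
  refine Finset.sum_le_sum fun j _ => ?_
  rw [map_mul]
  exact mul_le_mul_of_nonneg_left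
    (Finset.single_le_sum (f := fun j => μ (Z j)) (fun k _ => μ.nonneg _) (Finset.mem_univ j))
    (μ.nonneg _)

private lemma SD6.const (μ : AbsoluteValue Ω ℝ) (q : Fin N → Ω) (c : Ω) :
    SD6 μ q (fun _ _ => c) 0 := by
  intro e he
  refine Eventually.of_forall fun ε s Y Y' _ _ _ => ?_
  have h1 : c - c - ∑ j, (0 : Fin N → Ω) j * (Y j - Y' j) = 0 := by simp
  rw [h1, map_zero]
  exact mul_nonneg he.le (Finset.sum_nonneg fun j _ => μ.nonneg _)

private lemma SD6.add {μ : AbsoluteValue Ω ℝ} {q : Fin N → Ω} {G G' : Ω → (Fin N → Ω) → Ω}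
    {D D' : Fin N → Ω} (h : SD6 μ q G D) (h' : SD6 μ q G' D') :
    SD6 μ q (fun s Y => G s Y + G' s Y) (fun j => D j + D' j) := by
  intro e he
  filter_upwards [h (e / 2) (by positivity), h' (e / 2) (by positivity)] with ε h1 h2
  intro s Y Y' hs hY hY'
  have e1 : G s Y + G' s Y - (G s Y' + G' s Y') - ∑ j, (D j + D' j) * (Y j - Y' j) =
      (G s Y - G s Y' - ∑ j, D j * (Y j - Y' j)) +
        (G' s Y - G' s Y' - ∑ j, D' j * (Y j - Y' j)) := by
    simp only [add_mul, Finset.sum_add_distrib]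
    ring
  rw [e1]
  refine (μ.add_le _ _).trans ?_
  have h3 := h1 s Y Y' hs hY hY'
  have h4 := h2 s Y Y' hs hY hY'
  linarith

private lemma SD6.lip {μ : AbsoluteValue Ω ℝ} {q : Fin N → Ω} {G : Ω → (Fin N → Ω) → Ω}
    {D : Fin N → Ω} (h : SD6 μ q G D) :
    ∀ᶠ ε in 𝓝[>] (0 : ℝ), ∀ (s : Ω) (Y Y' : Fin N → Ω), μ s < ε →
      (∀ i, μ (Y i - q i) < ε) → (∀ i, μ (Y' i - q i) < ε) →
      μ (G s Y - G s Y') ≤ (1 + ∑ j, μ (D j)) * ∑ j, μ (Y j - Y' j) := by
  filter_upwards [h 1 one_pos] with ε h1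
  intro s Y Y' hs hY hY'
  have e1 : G s Y - G s Y' = (G s Y - G s Y' - ∑ j, D j * (Y j - Y' j)) +
      ∑ j, D j * (Y j - Y' j) := by ring
  rw [e1]
  refine (μ.add_le _ _).trans ?_
  have h2 := h1 s Y Y' hs hY hY'
  have h3 := mu_sum6 μ D (fun j => Y j - Y' j)
  rw [add_mul]
  exact add_le_add h2 h3

private lemma SD6.spow {μ : AbsoluteValue Ω ℝ} {q : Fin N → Ω} {G : Ω → (Fin N → Ω) → Ω}
    {D : Fin N → Ω} (h : SD6 μ q G D) {k : ℕ} (hk : k ≠ 0) :
    SD6 μ q (fun s Y => s ^ k * G s Y) 0 := by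
  intro e he
  set M : ℝ := 1 + ∑ j, μ (D j) with hM
  have hM0 : 0 < M := by
    have : 0 ≤ ∑ j, μ (D j) := Finset.sum_nonneg fun j _ => μ.nonneg _
    linarith
  filter_upwards [h.lip, small6 one_pos, small6 (div_pos he hM0)] with ε h1 h2 h3
  intro s Y Y' hs hY hY'
  have e1 : s ^ k * G s Y - s ^ k * G s Y' - ∑ j, (0 : Fin N → Ω) j * (Y j - Y' j) =
      s ^ k * (G s Y - G s Y') := by
    simp only [Pi.zero_apply, zero_mul, Finset.sum_const_zero]
    ring
  rw [e1, map_mul, map_pow]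
  have hsum : 0 ≤ ∑ j, μ (Y j - Y' j) := Finset.sum_nonneg fun j _ => μ.nonneg _
  have h4 : μ s ^ k ≤ e / M :=
    (pow_le_of_le_one (μ.nonneg _) (hs.trans h2.2).le hk).trans (hs.trans h3.2).le
  calc μ s ^ k * μ (G s Y - G s Y') ≤ e / M * (M * ∑ j, μ (Y j - Y' j)) :=
        mul_le_mul h4 (h1 s Y Y' hs hY hY') (μ.nonneg _) (by positivity)
    _ = e * ∑ j, μ (Y j - Y' j) := by
        field_simp

private lemma SD6.mulX {μ : AbsoluteValue Ω ℝ} {q : Fin N → Ω} {F : (Fin N → Ω) → Ω}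
    {D : Fin N → Ω} (h : SD6 μ q (fun _ Y => F Y) D) (i : Fin N) :
    SD6 μ q (fun _ Y => F Y * Y i) (fun j => D j * q i + if j = i then F q else 0) := by
  intro e he
  set M : ℝ := 1 + ∑ j, μ (D j) with hM
  have hD0 : 0 ≤ ∑ j, μ (D j) := Finset.sum_nonneg fun j _ => μ.nonneg _
  have hM0 : 0 < M := by linarith
  have hq0 : 0 ≤ μ (q i) := μ.nonneg _
  have ha : 0 < e / (3 * (μ (q i) + 1)) := by positivity
  have hb : 0 < e / (3 * M) := by positivity
  have hc : 0 < e / (3 * (M * (N + 1))) := by positivity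
  filter_upwards [h _ ha, h.lip, small6 one_pos, small6 hb, small6 hc] with ε h1 h2 h3 h4 h5
  intro s Y Y' hs hY hY'
  set S : ℝ := ∑ j, μ (Y j - Y' j) with hS
  have hS0 : 0 ≤ S := Finset.sum_nonneg fun j _ => μ.nonneg _
  have e1 : F Y * Y i - F Y' * Y' i -
      ∑ j, (D j * q i + if j = i then F q else 0) * (Y j - Y' j) =
      (F Y - F Y' - ∑ j, D j * (Y j - Y' j)) * Y i +
        (∑ j, D j * (Y j - Y' j)) * (Y i - q i) + (F Y' - F q) * (Y i - Y' i) := by
    have h6 : ∑ j, (D j * q i + if j = i then F q else 0) * (Y j - Y' j) =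
        (∑ j, D j * (Y j - Y' j)) * q i + F q * (Y i - Y' i) := by
      simp only [add_mul, Finset.sum_add_distrib, ite_mul, zero_mul, Finset.sum_ite_eq',
        Finset.mem_univ, if_true, Finset.sum_mul]
      congr 1
      exact Finset.sum_congr rfl fun j _ => by ring
    rw [h6]
    ring
  rw [e1]
  refine (μ.add_le _ _).trans ?_
  refine (add_le_add_left (μ.add_le _ _) _).trans ?_
  rw [map_mul, map_mul, map_mul]
  -- first term
  have hYi : μ (Y i) ≤ μ (q i) + 1 := by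
    have h6 : Y i = (Y i - q i) + q i := by ring
    rw [h6]
    refine (μ.add_le _ _).trans ?_
    have := hY i
    linarith [h3.2]
  have t1 : μ (F Y - F Y' - ∑ j, D j * (Y j - Y' j)) * μ (Y i) ≤ e / 3 * S := by
    calc _ ≤ (e / (3 * (μ (q i) + 1)) * S) * (μ (q i) + 1) :=
          mul_le_mul (h1 s Y Y' hs hY hY') hYi (μ.nonneg _) (by positivity)
      _ = e / 3 * S := by field_simp
  -- second term
  have t2 : μ (∑ j, D j * (Y j - Y' j)) * μ (Y i - q i) ≤ e / 3 * S := by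
    have h6 := mu_sum6 μ D (fun j => Y j - Y' j)
    have h7 : (∑ j, μ (D j)) * S ≤ M * S := mul_le_mul_of_nonneg_right (by linarith) hS0
    calc _ ≤ (M * S) * (e / (3 * M)) :=
          mul_le_mul (h6.trans h7) ((hY i).trans h4.2).le (μ.nonneg _) (by positivity)
      _ = e / 3 * S := by field_simp
  -- third term
  have t3 : μ (F Y' - F q) * μ (Y i - Y' i) ≤ e / 3 * S := by
    have h6 := h2 s Y' q hs hY' (fun j => by rw [sub_self, map_zero]; exact h3.1)
    have h7 : ∑ j, μ (Y' j - q j) ≤ (N + 1) * ε := by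
      calc ∑ j, μ (Y' j - q j) ≤ ∑ _j : Fin N, ε := Finset.sum_le_sum fun j _ => (hY' j).le
        _ = N * ε := by rw [Finset.sum_const, Finset.card_univ, Fintype.card_fin, nsmul_eq_mul]
        _ ≤ (N + 1) * ε := by nlinarith [h3.1]
    have h8 : μ (Y i - Y' i) ≤ S :=
      Finset.single_le_sum (f := fun j => μ (Y j - Y' j)) (fun k _ => μ.nonneg _)
        (Finset.mem_univ i)
    have h9 : μ (F Y' - F q) ≤ M * ((N + 1) * ε) :=
      h6.trans (mul_le_mul_of_nonneg_left h7 hM0.le)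
    have h10 : M * ((N + 1) * ε) ≤ e / 3 := by
      have h11 := h5.2.le
      rw [le_div_iff₀ (by positivity)] at h11
      linarith
    exact mul_le_mul (h9.trans h10) h8 (μ.nonneg _) (by positivity)
  linarith

private lemma SD6.poly (μ : AbsoluteValue Ω ℝ) (q : Fin N → Ω) (f : MvPolynomial (Fin N) K) :
    SD6 μ q (fun _ Y => aeval Y f) (fun j => aeval q (pderiv j f)) := by
  classical
  induction f using MvPolynomial.induction_on with
  | C a =>
    have h1 := SD6.const μ q (algebraMap K Ω a)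
    simp only [aeval_C, pderiv_C, map_zero]
    exact h1
  | add p p' hp hp' =>
    simp only [map_add]
    exact hp.add hp'
  | mul_X p i hp =>
    have h1 := hp.mulX i
    have h2 : (fun j => aeval q (pderiv j (p * X i))) =
        fun j => aeval q (pderiv j p) * q i + if j = i then aeval q p else 0 := by
      funext j
      rw [pderiv_mul, map_add, map_mul, map_mul, aeval_X, pderiv_X]
      congr 1
      by_cases hji : j = i
      · subst hji
        simp
      · rw [if_neg hji, Pi.single_eq_of_ne (Ne.symm hji)]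
        simp
    rw [h2]
    simpa only [map_mul, aeval_X] using h1

private lemma SD6.sum {μ : AbsoluteValue Ω ℝ} {q : Fin N → Ω} {G : ℕ → Ω → (Fin N → Ω) → Ω}
    {D : ℕ → Fin N → Ω} (t : Finset ℕ) (h : ∀ e ∈ t, SD6 μ q (G e) (D e)) :
    SD6 μ q (fun s Y => ∑ e ∈ t, G e s Y) (fun j => ∑ e ∈ t, D e j) := by
  classical
  induction t using Finset.induction_on with
  | empty =>
    simp only [Finset.sum_empty]
    exact SD6.const μ q 0
  | insert a t ha ih =>
    simp only [Finset.sum_insert ha]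
    exact (h a (Finset.mem_insert_self _ _)).add
      (ih fun e he => h e (Finset.mem_insert_of_mem he))

private lemma SD6.homV (μ : AbsoluteValue Ω ℝ) (q : Fin N → Ω) (d : ℕ)
    (Φ : Fin N → MvPolynomial (Fin N) K) (i : Fin N) :
    SD6 μ q (fun s Y => RC.homV d Φ s Y i)
      (fun j => aeval q (pderiv j (homogeneousComponent d (Φ i)))) := by
  have h1 : SD6 μ q (fun s Y => RC.homV d Φ s Y i) (fun j => ∑ e ∈ Finset.range (d + 1),
      (if e = d then fun j => aeval q (pderiv j (homogeneousComponent d (Φ i))) else 0 :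
        Fin N → Ω) j) := by
    refine SD6.sum (G := fun e s Y => s ^ (d - e) * aeval Y (homogeneousComponent e (Φ i)))
      (Finset.range (d + 1)) fun e he => ?_
    by_cases hed : e = d
    · subst hed
      rw [if_pos rfl, Nat.sub_self]
      simp only [pow_zero, one_mul]
      exact SD6.poly μ q _
    · rw [if_neg hed]
      have he' := Finset.mem_range.1 he
      exact (SD6.poly μ q (homogeneousComponent e (Φ i))).spow (k := d - e) (by omega)
  have h2 : (fun j => ∑ e ∈ Finset.range (d + 1),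
      (if e = d then fun j => aeval q (pderiv j (homogeneousComponent d (Φ i))) else 0 :
        Fin N → Ω) j) = fun j => aeval q (pderiv j (homogeneousComponent d (Φ i))) := by
    funext j
    rw [Finset.sum_eq_single d]
    · rw [if_pos rfl]
    · intro b _ hb
      rw [if_neg hb]
      rfl
    · intro hd
      exact absurd (Finset.mem_range.2 (Nat.lt_succ_self d)) hd
  rwa [h2] at h1

theorem loc_inj (d : ℕ) (Φ : Fin N → MvPolynomial (Fin N) K) {q : Fin N → Ω} (hq : jac d Φ q ≠ 0)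
    (μ : AbsoluteValue Ω ℝ) : ∃ ε C : ℝ, 0 < ε ∧ 0 < C ∧ ∀ (s : Ω) (Y Y' : Fin N → Ω), μ s < ε →
      (∀ i, μ (Y i - q i) < ε) → (∀ i, μ (Y' i - q i) < ε) →
      ∀ i, μ (Y i - Y' i) ≤ C * ∑ j, μ (homV d Φ s Y j - homV d Φ s Y' j) := by
  classical
  set J : Matrix (Fin N) (Fin N) Ω :=
    Matrix.of fun i j => aeval q (pderiv j (homogeneousComponent d (Φ i))) with hJ
  have hdet : IsUnit J.det := isUnit_iff_ne_zero.2 hq
  set B : ℝ := ∑ i, ∑ j, μ (J⁻¹ i j) with hB
  have hB0 : 0 ≤ B := Finset.sum_nonneg fun i _ => Finset.sum_nonneg fun j _ => μ.nonneg _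
  have he : 0 < 1 / (2 * (B + 1)) := by positivity
  have hall : ∀ᶠ ε in 𝓝[>] (0 : ℝ), ∀ i : Fin N, ∀ (s : Ω) (Y Y' : Fin N → Ω), μ s < ε →
      (∀ i, μ (Y i - q i) < ε) → (∀ i, μ (Y' i - q i) < ε) →
      μ (homV d Φ s Y i - homV d Φ s Y' i - ∑ j, J i j * (Y j - Y' j)) ≤
        1 / (2 * (B + 1)) * ∑ j, μ (Y j - Y' j) :=
    eventually_all.2 fun i => SD6.homV μ q d Φ i _ he
  obtain ⟨ε, hε, hε0, -⟩ := (hall.and (small6 one_pos)).exists
  refine ⟨ε, 2 * B + 1, hε0, by positivity, ?_⟩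
  intro s Y Y' hs hY hY' i
  set Z : Fin N → Ω := fun j => Y j - Y' j with hZ
  set W : Fin N → Ω := fun j => homV d Φ s Y j - homV d Φ s Y' j with hW
  set S : ℝ := ∑ j, μ (Z j) with hS
  have hS0 : 0 ≤ S := Finset.sum_nonneg fun j _ => μ.nonneg _
  set T : ℝ := ∑ j, μ (W j) with hT
  have hT0 : 0 ≤ T := Finset.sum_nonneg fun j _ => μ.nonneg _
  set E : Fin N → Ω := fun k => W k - ∑ j, J k j * Z j with hE
  have hEb : ∀ k, μ (E k) ≤ 1 / (2 * (B + 1)) * S := fun k => hε k s Y Y' hs hY hY'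
  have hJZ : J.mulVec Z = W - E := by
    funext k
    simp only [hE, Pi.sub_apply, sub_sub_cancel]
    rfl
  have hZe : Z = J⁻¹.mulVec (W - E) := by
    rw [← hJZ, Matrix.mulVec_mulVec, Matrix.nonsing_inv_mul J hdet, Matrix.one_mulVec]
  have hZi : ∀ k, μ (Z k) ≤ ∑ j, μ (J⁻¹ k j) * (T + 1 / (2 * (B + 1)) * S) := by
    intro k
    have h1 : Z k = ∑ j, J⁻¹ k j * (W j - E j) := by
      conv_lhs => rw [hZe]
      rfl
    rw [h1]
    refine (μ.sum_le _ _).trans (Finset.sum_le_sum fun j _ => ?_)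
    rw [map_mul]
    refine mul_le_mul_of_nonneg_left ?_ (μ.nonneg _)
    refine (μ.sub_le_add _ _).trans (add_le_add ?_ (hEb j))
    exact Finset.single_le_sum (f := fun j => μ (W j)) (fun k _ => μ.nonneg _)
      (Finset.mem_univ j)
  have hSum : S ≤ B * (T + 1 / (2 * (B + 1)) * S) := by
    rw [hB, Finset.sum_mul]
    refine Finset.sum_le_sum fun k _ => ?_
    rw [Finset.sum_mul]
    exact hZi k
  have h3 : B * (1 / (2 * (B + 1)) * S) ≤ S / 2 := by
    have h4 : B * (1 / (2 * (B + 1))) ≤ 1 / 2 := by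
      rw [mul_one_div, div_le_div_iff₀ (by positivity) two_pos]
      linarith
    calc B * (1 / (2 * (B + 1)) * S) = B * (1 / (2 * (B + 1))) * S := by ring
      _ ≤ 1 / 2 * S := mul_le_mul_of_nonneg_right h4 hS0
      _ = S / 2 := by ring
  have h5 : S ≤ 2 * B * T := by nlinarith
  have h6 : μ (Z i) ≤ S :=
    Finset.single_le_sum (f := fun j => μ (Z j)) (fun k _ => μ.nonneg _) (Finset.mem_univ i)
  calc μ (Y i - Y' i) ≤ S := h6
    _ ≤ 2 * B * T := h5
    _ ≤ (2 * B + 1) * T := by nlinarith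

end Pool.Agent.Helper26.RC
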