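import Pool.Agent.Helper26.RC.DirX
import Pool.Agent.Helper26.RC.VOne

/-! Block RC-LB (about 200 lines): three places with different limit points and the same index `b` force `hilb δ ≥ 3 b δ - C`.

All rates are taken for `μ 0, μ 1, μ 2` (the ideal `van U y` does not depend on the absolute value); write `r_τ (f)` for the rate of `f` for `μ τ`
(it exists for `f ∉ van`, `rate_exists`, unique).

(1) For `σ ≠ τ` the vectors `q σ`, `q τ` are normalised (`Dir`) and different, so not proportional, and there is a linear form with `ℓ_{τσ} (q τ) ≠ 0 = ℓ_{τσ} (q σ)`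
(e.g. `q σ i X j - q σ j X i` for suitable `i, j`).
`e_τ = ∏_{σ ≠ τ} ℓ_{τσ}`: homogeneous of degree `2`, `e_τ (q τ) ≠ 0`, `e_τ (q σ) = 0`. By `Dir.rate_form`, `Dir.rate_form_lt`: `r_τ (e_τ) = 2`, `r_σ (e_τ) < 2`; let `η > 0` be
such that all `r_σ (e_τ) ≤ 2 - η`.
(2) `Ram.res` for `μ τ`: polynomials `h_{τ,r}` (`r = 0..b-1`) with `r_τ (h_{τ,r}) = m_{τ,r} / b`, `m_{τ,r} ≡ r` modulo `b`. Let `δ0` bound their degrees; `r_σ (h_{τ,r}) ≤ δ0` for all `σ` (`Rate.le`).
`exists_coord` (or `Dir` and `rate_form`) gives a coordinate `x_τ` with `r_τ (x_τ) = 1` and `r_σ (x_τ) ≤ 1`.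
(3) Fix `M` with `η M > δ0 - m_{τ,r} / b` for all `τ, r`. For an integer `m ≥ m_0` (`m_0` large) let `r = m mod b`, `a = m / b - 2 M - m_{τ,r} / b` (a natural number if `m_0` is large) and
`G_{τ,m} = e_τ ^ M x_τ ^ a h_{τ,r}`. Then `r_τ (G) = m / b`; for `σ ≠ τ`: `r_σ (G) ≤ (2 - η) M + a + δ0 < m / b`; `deg G ≤ 2 M + a + δ0 ≤ m / b + c` with a constant `c`.
(4) The `G_{τ,m}` are linearly independent modulo `van`: in a nontrivial combination let `m*` be the largest `m` occurring, with `τ*`. With respect to `μ τ*` the term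
`(τ*, m*)` has rate `m* / b` and all other terms have rates `< m* / b` (for `m < m*` all rates are `≤ m / b`). `rate_sum`.
(5) Those with `m_0 ≤ m ≤ b (δ - c)` have degree `≤ δ`: `hilb U y δ ≥ 3 (b δ - b c - m_0)`. -/

set_option autoImplicit false

namespace Pool.Agent.Helper26.RC

open MvPolynomial Filter Topology

variable {Ω : Type*} [Field Ω] {N : ℕ} {U : Ultrafilter ℕ} {y : ℕ → Fin N → Ω}

namespace LB

theorem exists_form {q q' : Fin N → Ω} (hq : ∃ i, q i = 1 ∧ ∀ j < i, q j = 0)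
    (hq' : ∃ i, q' i = 1 ∧ ∀ j < i, q' j = 0) (hne : q ≠ q') :
    ∃ l : MvPolynomial (Fin N) Ω, l.IsHomogeneous 1 ∧ eval q l ≠ 0 ∧ eval q' l = 0 := by
  obtain ⟨i0, hi0, hi0'⟩ := hq'
  obtain ⟨i1, hi1, hi1'⟩ := hq
  by_contra hcon
  push Not at hcon
  have h1 : ∀ j, q j = q' j * q i0 := by
    intro j
    by_contra h2
    have h3 := hcon (X j - C (q' j) * X i0)
      ((isHomogeneous_X Ω j).sub (by simpa using (isHomogeneous_C _ (q' j)).mul (isHomogeneous_X Ω i0)))
      (by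
        rw [map_sub, map_mul, eval_X, eval_C, eval_X]
        exact sub_ne_zero.2 h2)
    apply h3
    rw [map_sub, map_mul, eval_X, eval_C, eval_X, hi0, mul_one, sub_self]
  have h2 := h1 i1
  rw [hi1] at h2
  have h3 : q' i1 ≠ 0 := by
    intro h
    rw [h, zero_mul] at h2
    exact one_ne_zero h2
  have h4 : q i0 ≠ 0 := by
    intro h
    rw [h, mul_zero] at h2
    exact one_ne_zero h2
  have h5 : i0 = i1 := by
    rcases lt_trichotomy i0 i1 with h | h | h
    · exact absurd (hi1' i0 h) h4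
    · exact h
    · exact absurd (hi0' i1 h) h3
  subst h5
  apply hne
  funext j
  rw [h1 j, hi1, mul_one]

theorem exists_e {q : Fin 3 → Fin N → Ω} (hq : ∀ τ, ∃ i, q τ i = 1 ∧ ∀ j < i, q τ j = 0)
    (hinj : Function.Injective q) (τ : Fin 3) :
    ∃ e : MvPolynomial (Fin N) Ω, e.IsHomogeneous 2 ∧ eval (q τ) e ≠ 0 ∧
      ∀ σ, σ ≠ τ → eval (q σ) e = 0 := by
  have h1 : τ ≠ τ + 1 := by fin_cases τ <;> decide
  have h2 : τ ≠ τ + 2 := by fin_cases τ <;> decide
  obtain ⟨l, hl, hl1, hl2⟩ := exists_form (hq τ) (hq (τ + 1)) (hinj.ne h1)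
  obtain ⟨l', hl', hl1', hl2'⟩ := exists_form (hq τ) (hq (τ + 2)) (hinj.ne h2)
  refine ⟨l * l', hl.mul hl', ?_, fun σ hσ => ?_⟩
  · rw [map_mul]
    exact mul_ne_zero hl1 hl1'
  · have h3 : σ = τ + 1 ∨ σ = τ + 2 := by
      revert h1 h2 hσ
      fin_cases τ <;> fin_cases σ <;> decide
    rw [map_mul]
    rcases h3 with h | h
    · rw [h, hl2, zero_mul]
    · rw [h, hl2', mul_zero]

theorem exists_G {μ : Fin 3 → AbsoluteValue Ω ℝ} (h : ∀ τ, Cv (μ τ) U y) {b : ℕ}
    (hb : ∀ τ, Ram (μ τ) U y b) {q : Fin 3 → Fin N → Ω} (hq : ∀ τ, Dir (μ τ) U y (q τ))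
    (hinj : Function.Injective q) : ∃ m0 c : ℕ, ∀ (τ : Fin 3) (m : ℕ), m0 ≤ m →
      ∃ G : MvPolynomial (Fin N) Ω, b * G.totalDegree ≤ m + c ∧ Rate (μ τ) U y G (m / b) ∧
        ∀ σ, σ ≠ τ → ∃ ρ < (m / b : ℝ), Rate (μ σ) U y G ρ := by
  classical
  have hb0 : 0 < b := (hb 0).pos
  have hbR : (0 : ℝ) < b := by exact_mod_cast hb0
  have hqn : ∀ τ, ∃ i, q τ i = 1 ∧ ∀ j < i, q τ j = 0 := by
    intro τ
    obtain ⟨i, h1, h2, -⟩ := hq τ
    exact ⟨i, h1, h2⟩
  choose e he1 he2 he3 using exists_e hqn hinj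
  choose ix hix _ using hqn
  choose H mm hH hmm using fun (τ : Fin 3) (r : ℕ) => (hb τ).res (r : ℤ)
  obtain ⟨δ0, hδ0⟩ : ∃ δ0 : ℕ, ∀ τ, ∀ r < b, (H τ r).totalDegree ≤ δ0 := by
    refine ⟨Finset.univ.sup fun τ => (Finset.range b).sup fun r => (H τ r).totalDegree,
      fun τ r hr => ?_⟩
    refine le_trans ?_ (Finset.le_sup (f := fun τ => (Finset.range b).sup fun r =>
      (H τ r).totalDegree) (Finset.mem_univ τ))
    exact Finset.le_sup (f := fun r => (H τ r).totalDegree) (Finset.mem_range.2 hr)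
  obtain ⟨E, hE⟩ : ∃ E : ℕ, ∀ τ, ∀ r < b, (mm τ r).natAbs ≤ E := by
    refine ⟨Finset.univ.sup fun τ => (Finset.range b).sup fun r => (mm τ r).natAbs,
      fun τ r hr => ?_⟩
    refine le_trans ?_ (Finset.le_sup (f := fun τ => (Finset.range b).sup fun r =>
      (mm τ r).natAbs) (Finset.mem_univ τ))
    exact Finset.le_sup (f := fun r => (mm τ r).natAbs) (Finset.mem_range.2 hr)
  obtain ⟨M, hM⟩ : ∃ M : ℕ, M = b * δ0 + E + 1 := ⟨_, rfl⟩
  refine ⟨E + 2 * M * b, E + b * δ0, fun τ m hm => ?_⟩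
  set r := m % b with hr
  have hrb : r < b := Nat.mod_lt _ hb0
  have hE1 := hE τ r hrb
  -- the exponent `a`
  obtain ⟨k, hk⟩ : ∃ k : ℤ, (m : ℤ) - mm τ r = b * k := by
    have h1 : (b : ℤ) ∣ (m : ℤ) - r := by
      have h2 : (m : ℤ) - r = b * (m / b : ℕ) := by
        have h3 := Nat.mod_add_div m b
        rw [← hr] at h3
        have h4 : (m : ℤ) = r + b * (m / b : ℕ) := by exact_mod_cast h3.symm
        linarith
      rw [h2]
      exact dvd_mul_right _ _
    have h5 := dvd_sub h1 (hmm τ r)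
    obtain ⟨k, hk⟩ := h5
    exact ⟨k, by linarith⟩
  have hmE : mm τ r ≤ E ∧ -(E : ℤ) ≤ mm τ r := by omega
  have hk2 : 2 * (M : ℤ) ≤ k := by
    have h1 : (E : ℤ) + 2 * M * b ≤ m := by exact_mod_cast hm
    have h2 : (2 * (M : ℤ)) * b ≤ k * b := by
      have : (k : ℤ) * b = (m : ℤ) - mm τ r := by rw [hk]; ring
      rw [this]
      linarith [hmE.1]
    exact le_of_mul_le_mul_right h2 (by exact_mod_cast hb0)
  obtain ⟨a, ha⟩ : ∃ a : ℕ, (a : ℤ) = k - 2 * M := ⟨(k - 2 * M).toNat, by omega⟩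
  have hkR : (m : ℝ) - mm τ r = b * k := by exact_mod_cast hk
  have haR : (a : ℝ) = k - 2 * M := by exact_mod_cast ha
  have hmRa : (m : ℝ) / b = M * 2 + a * 1 + mm τ r / b := by
    rw [haR]
    field_simp
    linarith
  have hG : Rate (μ τ) U y (e τ ^ M * X (ix τ) ^ a * H τ r) (m / b) := by
    rw [hmRa]
    refine ((Rate.pow (h τ).grow ?_ M).mul (Rate.pow (h τ).grow ?_ a)).mul (hH τ r)
    · have := (hq τ).rate_form (h τ).grow (he1 τ) (he2 τ)
      exact_mod_cast this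
    · have := (hq τ).rate_form (h τ).grow (isHomogeneous_X Ω (ix τ)) (by
        rw [eval_X, hix]
        exact one_ne_zero)
      exact_mod_cast this
  refine ⟨e τ ^ M * X (ix τ) ^ a * H τ r, ?_, hG, fun σ hσ => ?_⟩
  · -- degree
    have h1 : (e τ ^ M * X (ix τ) ^ a * H τ r).totalDegree ≤ M * 2 + a + δ0 := by
      refine (totalDegree_mul _ _).trans (add_le_add ((totalDegree_mul _ _).trans
        (add_le_add ((totalDegree_pow _ _).trans ?_) ((totalDegree_pow _ _).trans ?_))) (hδ0 τ r hrb))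
      · exact Nat.mul_le_mul_left _ (he1 τ).totalDegree_le
      · rw [totalDegree_X, mul_one]
    refine (Nat.mul_le_mul_left b h1).trans ?_
    have h2 : (b : ℤ) * (M * 2 + a + δ0) ≤ m + (E + b * δ0) := by
      rw [ha]
      have h3 : (b : ℤ) * (M * 2 + (k - 2 * M) + δ0) = b * k + b * δ0 := by ring
      rw [h3, ← hk]
      linarith [hmE.2]
    exact_mod_cast h2
  · -- the other rates
    have hnv : ∀ f : MvPolynomial (Fin N) Ω, f ∣ e τ ^ M * X (ix τ) ^ a * H τ r →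
        f ∉ van U y := by
      rintro f ⟨g, hg⟩ hf
      apply hG.1
      rw [hg]
      exact Ideal.mul_mem_right _ _ hf
    have hX0 : (X (ix τ) : MvPolynomial (Fin N) Ω) ∉ van U y := by
      have := (hq τ).rate_form (h τ).grow (isHomogeneous_X Ω (ix τ)) (by
        rw [eval_X, hix]
        exact one_ne_zero)
      exact this.1
    have he0 : e τ ∉ van U y := ((hq τ).rate_form (h τ).grow (he1 τ) (he2 τ)).1
    obtain ⟨m1, hm1⟩ := (hb σ).int _ he0
    obtain ⟨m2, hm2⟩ := (hb σ).int _ hX0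
    obtain ⟨m3, hm3⟩ := (hb σ).int _ (hH τ r).1
    have h1 := (hq σ).rate_form_lt (h σ).grow (he1 τ) (he3 τ σ hσ) hm1
    have h2 := hm2.le (h σ).grow
    have h3 := hm3.le (h σ).grow
    rw [totalDegree_X] at h2
    have h3' : (m3 / b : ℝ) ≤ δ0 := h3.trans (by exact_mod_cast hδ0 τ r hrb)
    refine ⟨M * (m1 / b) + a * (m2 / b) + m3 / b, ?_,
      ((Rate.pow (h σ).grow hm1 M).mul (Rate.pow (h σ).grow hm2 a)).mul hm3⟩
    have h4 : (m1 / b : ℝ) ≤ 2 - 1 / b := by
      rw [div_lt_iff₀ hbR] at h1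
      have h5 : m1 < 2 * (b : ℤ) := by
        push_cast at h1
        exact_mod_cast h1
      have h6 : (m1 : ℝ) ≤ 2 * b - 1 := by
        have : m1 ≤ 2 * (b : ℤ) - 1 := by omega
        exact_mod_cast this
      rw [div_le_iff₀ hbR, sub_mul, one_div, inv_mul_cancel₀ hbR.ne']
      exact h6
    have h7 : (M : ℝ) * (m1 / b) ≤ M * (2 - 1 / b) := mul_le_mul_of_nonneg_left h4 (Nat.cast_nonneg _)
    have h8 : (a : ℝ) * (m2 / b) ≤ a * 1 := mul_le_mul_of_nonneg_left (by exact_mod_cast h2) (Nat.cast_nonneg _)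
    rw [hmRa]
    have h9 : (δ0 : ℝ) - M / b < mm τ r / b := by
      have h10 : (M : ℝ) = b * δ0 + E + 1 := by rw [hM]; push_cast; ring
      have h11 : -(E : ℝ) ≤ mm τ r := by exact_mod_cast hmE.2
      rw [h10, lt_div_iff₀ hbR]
      field_simp
      linarith
    have h12 : (M : ℝ) * (2 - 1 / b) = M * 2 - M / b := by ring
    linarith

theorem indep {μ : Fin 3 → AbsoluteValue Ω ℝ} (h : ∀ τ, Cv (μ τ) U y) {n : ℕ} {v : Fin n → ℝ}
    (hv : StrictMono v) (G : Fin 3 × Fin n → MvPolynomial (Fin N) Ω)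
    (h1 : ∀ p, Rate (μ p.1) U y (G p) (v p.2))
    (h2 : ∀ p, ∀ σ, σ ≠ p.1 → ∃ ρ < v p.2, Rate (μ σ) U y (G p) ρ)
    (a : Fin 3 × Fin n → Ω) (ha : ∑ p, C (a p) * G p ∈ van U y) : a = 0 := by
  classical
  by_contra hne
  have hne' : (Finset.univ.filter fun p => a p ≠ 0).Nonempty := by
    obtain ⟨p, hp⟩ := Function.ne_iff.1 hne
    exact ⟨p, by simpa using hp⟩
  obtain ⟨p0, hp0, hmax⟩ := Finset.exists_max_image _ (fun p : Fin 3 × Fin n => p.2) hne'
  rw [Finset.mem_filter] at hp0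
  have hr : Rate (μ p0.1) U y (C (a p0) * G p0) (v p0.2) :=
    (h1 p0).const_mul (h p0.1).grow hp0.2
  have hs := rate_sum (h p0.1).grow Finset.univ (fun p => C (a p) * G p) (Finset.mem_univ p0) hr
    (fun p _ hp => by
      by_cases hap : a p = 0
      · left
        simp only [hap, map_zero, zero_mul]
        exact (van U y).zero_mem
      · right
        have hle : p.2 ≤ p0.2 := hmax p (by simpa using hap)
        by_cases hp1 : p.1 = p0.1
        · have hlt : p.2 < p0.2 := lt_of_le_of_ne hle fun h => hp (Prod.ext hp1 h)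
          refine ⟨v p.2, hv hlt, ?_⟩
          have := (h1 p).const_mul (h p.1).grow hap
          rwa [hp1] at this
        · obtain ⟨ρ, hρ, hρ'⟩ := h2 p p0.1 (Ne.symm hp1)
          exact ⟨ρ, hρ.trans_le (hv.monotone hle), hρ'.const_mul (h p0.1).grow hap⟩)
  exact hs.1 ha

theorem count {δ : ℕ} {ι : Type*} [Fintype ι] (G : ι → MvPolynomial (Fin N) Ω)
    (hG : ∀ p, (G p).totalDegree ≤ δ) (h : ∀ a : ι → Ω, ∑ p, C (a p) * G p ∈ van U y → a = 0) :
    Fintype.card ι ≤ hilb U y δ := by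
  classical
  unfold hilb
  set π := (Ideal.Quotient.mkₐ Ω (van U y)).toLinearMap with hπ
  have i0 : Module.Finite Ω (restrictTotalDegree (Fin N) Ω δ) := inferInstance
  have i2 : FiniteDimensional Ω (Submodule.map π (restrictTotalDegree (Fin N) Ω δ)) := inferInstance
  let g : ι → Submodule.map π (restrictTotalDegree (Fin N) Ω δ) := fun p =>
    ⟨π (G p), Submodule.mem_map_of_mem ((mem_restrictTotalDegree (Fin N) δ (G p)).2 (hG p))⟩
  have hli : LinearIndependent Ω g := by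
    rw [Fintype.linearIndependent_iff]
    intro a ha p
    have h1 := congrArg Subtype.val ha
    have h2 : π (∑ p, C (a p) * G p) = 0 := by
      rw [map_sum]
      simp only [← smul_eq_C_mul, map_smul]
      simpa [g] using h1
    have h3 : ∑ p, C (a p) * G p ∈ van U y := by
      rw [hπ, AlgHom.toLinearMap_apply, Ideal.Quotient.mkₐ_eq_mk, Ideal.Quotient.eq_zero_iff_mem] at h2
      exact h2
    exact congrFun (h a h3) p
  exact hli.fintype_card_le_finrank

end LB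

theorem hilb_lower {μ : Fin 3 → AbsoluteValue Ω ℝ} (h : ∀ τ, Cv (μ τ) U y) {b : ℕ}
    (hb : ∀ τ, Ram (μ τ) U y b) {q : Fin 3 → Fin N → Ω} (hq : ∀ τ, Dir (μ τ) U y (q τ))
    (hinj : Function.Injective q) : ∃ C : ℕ, ∀ δ : ℕ, 3 * b * δ ≤ hilb U y δ + C := by
  obtain ⟨m0, c, hmc⟩ := LB.exists_G h hb hq hinj
  have hb0 : 0 < b := (hb 0).pos
  have hbR : (0 : ℝ) < b := by exact_mod_cast hb0
  refine ⟨3 * (m0 + c), fun δ => ?_⟩
  set n := b * δ - (m0 + c) with hn
  choose G hG1 hG2 hG3 using fun (p : Fin 3 × Fin n) => hmc p.1 (m0 + p.2) (Nat.le_add_right _ _)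
  have hdeg : ∀ p, (G p).totalDegree ≤ δ := by
    intro p
    have h1 := hG1 p
    have h2 := p.2.2
    have h3 : b * (G p).totalDegree ≤ b * δ := by omega
    exact Nat.le_of_mul_le_mul_left h3 hb0
  have hcard := LB.count G hdeg (LB.indep h (v := fun j : Fin n => ((m0 + j : ℕ) : ℝ) / b)
    (fun i j hij => by
      have h1 : ((m0 + i : ℕ) : ℝ) < ((m0 + j : ℕ) : ℝ) := by
        have : (i : ℕ) < j := hij
        exact_mod_cast Nat.add_lt_add_left this m0
      exact div_lt_div_of_pos_right h1 hbR) G hG2 hG3)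
  rw [Fintype.card_prod, Fintype.card_fin, Fintype.card_fin] at hcard
  have h5 : 3 * b * δ = 3 * (b * δ) := by ring
  rw [h5]
  omega

end Pool.Agent.Helper26.RC
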