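import Pool.Agent.Helper26.RC.Up
import Pool.Agent.Helper26.RC.Gal

/-! Part A: at some place the limit point has at most two conjugates (from `hilb_upper` and `three`). -/

set_option autoImplicit false

namespace Pool.Agent.Helper26.RC

open MvPolynomial Filter Topology NumberField
open Pool.Agent.Helper64.Vojta (Pl nv above mem_above)

variable {K Ω : Type*} [Field K] [NumberField K] [Field Ω] [Algebra K Ω] [IsAlgClosure K Ω] {N : ℕ}

theorem partA (U : Ultrafilter ℕ) (x : ℕ → Fin N → K) (S : Finset (Pl K))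
    (hS : ∀ n, ∀ v, v ∉ S → ∀ i, nv v (x n i) ≤ 1)
    (t : ℕ → ℝ) (ht : Tendsto t (U : Filter ℕ) atTop) (g : Pl K → ℝ)
    (hg : ∀ v ∈ S, Tendsto (fun n => Real.log (sz (av v) (x n)) / t n) (U : Filter ℕ) (𝓝 (g v)))
    (hpos : ∃ v ∈ S, 0 < g v) (μ : Pl K → AbsoluteValue Ω ℝ) (hμ : ∀ v ∈ S, Ext v (μ v))
    (hcv : ∀ v ∈ S, 0 < g v → Cv (μ v) U (emb Ω x)) (q : Pl K → Fin N → Ω)
    (hq : ∀ v ∈ S, 0 < g v → Dir (μ v) U (emb Ω x) (q v)) :
    ∃ v ∈ S, 0 < g v ∧ ∀ σ : Fin 3 → (Ω ≃ₐ[K] Ω),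
      ¬ Function.Injective fun (i : Fin 3) (j : Fin N) => σ i (q v j) := by
  classical
  haveI : IsAlgClosed Ω := IsAlgClosure.isAlgClosed K
  have hram : ∀ v : Pl K, ∃ b : ℕ, v ∈ S → 0 < g v → Ram (μ v) U (emb Ω x) b := by
    intro v
    by_cases h : v ∈ S ∧ 0 < g v
    · obtain ⟨b, hb⟩ := exists_ram (hcv v h.1 h.2)
      exact ⟨b, fun _ _ => hb⟩
    · exact ⟨0, fun h1 h2 => absurd ⟨h1, h2⟩ h⟩
  choose b hb using hram
  obtain ⟨v, hv, hmax⟩ := Finset.exists_max_image (S.filter fun v => 0 < g v) b (by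
    obtain ⟨v, h1, h2⟩ := hpos
    exact ⟨v, Finset.mem_filter.2 ⟨h1, h2⟩⟩)
  rw [Finset.mem_filter] at hv
  refine ⟨v, hv.1, hv.2, fun σ hinj => ?_⟩
  obtain ⟨C, hC⟩ := three (hcv v hv.1 hv.2) (hb v hv.1 hv.2) (hq v hv.1 hv.2) hinj
  have hup := hilb_upper U x S hS t ht g hg hpos μ hμ hcv b hb (b v)
    (fun w h1 h2 => hmax w (Finset.mem_filter.2 ⟨h1, h2⟩))
  have hbpos := (hb v hv.1 hv.2).pos
  have h1 := hC (C + 2)
  have h2 := hup (C + 2)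
  nlinarith

end Pool.Agent.Helper26.RC
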