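import Pool.Agent.Helper26.RC.Defs

/-! Block RC-REL (about 100 lines): algebraic relations on a curve.

Let `A = Ω[x] / van U y` (a domain), `L = FractionRing A`. `L` is algebraic over `A`, so `trdeg_Ω L = trdeg_Ω A ≤ 1`
(`Algebra.trdeg_add_eq` and `Algebra.trdeg_eq_zero`; or compare directly: see `AlgebraicIndependent.cardinalMk_le_trdeg`). So the two elements
`ξ = x_i` and `u = f / g` of `L` are not algebraically independent over `Ω`: there is `R ≠ 0` in `Ω[X_0, X_1]` with `R (ξ, u) = 0`.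
Write `R = ∑_{j ≤ J} a_j (X_0) X_1 ^ j` (`MvPolynomial.finSuccEquiv`, or the coefficients directly: `a_j = ∑_m R.coeff (m, j) X ^ m`),
some `a_j ≠ 0`. Multiply by `g ^ J`: `∑ a_j (x_i) f ^ j g ^ (J - j) = 0` in `A`. -/

set_option autoImplicit false

namespace Pool.Agent.Helper26.RC

open MvPolynomial Filter Topology

variable {Ω : Type*} [Field Ω] {N : ℕ} {U : Ultrafilter ℕ} {y : ℕ → Fin N → Ω}

/-- Two elements of a field of transcendence degree at most one are algebraically dependent. -/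
private theorem dep_aux {L : Type*} [Field L] [Algebra Ω L] (h : Algebra.trdeg Ω L ≤ 1) (ξ u : L) :
    ∃ (J : ℕ) (a : ℕ → Polynomial Ω), (∃ j ≤ J, a j ≠ 0) ∧
      ∑ j ∈ Finset.range (J + 1), Polynomial.aeval ξ (a j) * u ^ j = 0 := by
  classical
  have hni : ¬ AlgebraicIndependent Ω (![u, ξ] : Fin 2 → L) := by
    intro hi
    have h1 := hi.lift_cardinalMk_le_trdeg
    have h2 : Cardinal.lift.{0} (Algebra.trdeg Ω L) ≤ 1 := by
      rw [Cardinal.lift_uzero]; exact h
    have h3 := h1.trans h2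
    simp at h3
  rw [algebraicIndependent_iff] at hni
  push Not at hni
  obtain ⟨p, hp, hp0⟩ := hni
  set q : Polynomial (MvPolynomial (Fin 1) Ω) := finSuccEquiv Ω 1 p with hq
  have hq0 : q ≠ 0 := by
    rw [hq]
    exact fun h0 => hp0 ((finSuccEquiv Ω 1).injective (by rw [h0, map_zero]))
  let e : MvPolynomial (Fin 1) Ω →ₐ[Ω] Polynomial Ω := aeval (fun _ => Polynomial.X)
  have he : ∀ r : MvPolynomial (Fin 1) Ω,
      Polynomial.aeval (X 0 : MvPolynomial (Fin 1) Ω) (e r) = r := by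
    intro r
    have h1 : (Polynomial.aeval (X 0 : MvPolynomial (Fin 1) Ω)).comp e = AlgHom.id Ω _ := by
      apply MvPolynomial.algHom_ext
      intro j
      have hj : j = 0 := Subsingleton.elim _ _
      subst hj
      simp [e]
    exact DFunLike.congr_fun h1 r
  have heξ : ∀ r : MvPolynomial (Fin 1) Ω,
      Polynomial.aeval ξ (e r) = aeval (fun _ : Fin 1 => ξ) r := by
    intro r
    have h1 : (Polynomial.aeval ξ).comp e = aeval (fun _ : Fin 1 => ξ) := by
      apply MvPolynomial.algHom_ext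
      intro j
      simp [e]
    exact DFunLike.congr_fun h1 r
  let Ψ : Polynomial (MvPolynomial (Fin 1) Ω) →ₐ[Ω] L :=
    Polynomial.eval₂AlgHom (aeval (fun _ : Fin 1 => ξ)) u (fun _ => Commute.all _ _)
  have hΨ : Ψ q = aeval (![u, ξ] : Fin 2 → L) p := by
    have h1 : Ψ.comp (finSuccEquiv Ω 1).toAlgHom = aeval (![u, ξ] : Fin 2 → L) := by
      apply MvPolynomial.algHom_ext
      intro j
      refine Fin.cases ?_ (fun k => ?_) j
      · simp [Ψ, finSuccEquiv_X_zero]
      · have hk : k = 0 := Subsingleton.elim _ _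
        subst hk
        simp only [AlgHom.comp_apply, AlgEquiv.toAlgHom_apply, Ψ]
        rw [finSuccEquiv_X_succ]
        simp
    exact DFunLike.congr_fun h1 p
  refine ⟨q.natDegree, fun j => e (q.coeff j), ⟨q.natDegree, le_rfl, ?_⟩, ?_⟩
  · intro h0
    have h1 := he (q.coeff q.natDegree)
    simp only at h0
    rw [h0, map_zero] at h1
    exact hq0 (Polynomial.leadingCoeff_eq_zero.1 h1.symm)
  · have h1 : Ψ q = ∑ j ∈ Finset.range (q.natDegree + 1),
        aeval (fun _ : Fin 1 => ξ) (q.coeff j) * u ^ j := by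
      change Polynomial.eval₂ _ u q = _
      rw [Polynomial.eval₂_eq_sum_range]
      rfl
    rw [← hp, ← hΨ, h1]
    exact Finset.sum_congr rfl fun j _ => by rw [heξ]

private theorem div_mul_aux {L : Type*} [Field L] {x y z : L} (hy : y ≠ 0) :
    x / y * (y * z) = x * z := by
  field_simp

theorem exists_rel (h : Algebra.trdeg Ω (MvPolynomial (Fin N) Ω ⧸ van U y) ≤ 1) (i : Fin N)
    {f g : MvPolynomial (Fin N) Ω} (hgv : g ∉ van U y) :
    ∃ (J : ℕ) (a : ℕ → Polynomial Ω), (∃ j ≤ J, a j ≠ 0) ∧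
      ∑ j ∈ Finset.range (J + 1),
        Polynomial.aeval (X i : MvPolynomial (Fin N) Ω) (a j) * f ^ j * g ^ (J - j) ∈ van U y := by
  classical
  let A := MvPolynomial (Fin N) Ω ⧸ van U y
  let L := FractionRing A
  have hL : Algebra.trdeg Ω L ≤ 1 := by
    have h1 : Algebra.trdeg Ω A + Algebra.trdeg A L = Algebra.trdeg Ω L := trdeg_add_eq Ω A
    have hal : Algebra.IsAlgebraic A L := IsLocalization.isAlgebraic L (nonZeroDivisors A)
    have h0 : Algebra.trdeg A L = 0 := trdeg_eq_zero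
    rw [h0, add_zero] at h1
    rw [← h1]
    exact h
  let π : MvPolynomial (Fin N) Ω →ₐ[Ω] L :=
    (IsScalarTower.toAlgHom Ω A L).comp (Ideal.Quotient.mkₐ Ω (van U y))
  have hπ : ∀ r, π r = 0 ↔ r ∈ van U y := by
    intro r
    change algebraMap A L (Ideal.Quotient.mk (van U y) r) = 0 ↔ _
    rw [map_eq_zero_iff _ (IsFractionRing.injective A L), Ideal.Quotient.eq_zero_iff_mem]
  obtain ⟨J, a, ha, hs⟩ := dep_aux hL (π (X i)) (π f / π g)
  refine ⟨J, a, ha, ?_⟩
  rw [← hπ, map_sum]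
  have hg0 : π g ≠ 0 := fun h0 => hgv ((hπ g).1 h0)
  have h2 : ∑ j ∈ Finset.range (J + 1),
      π (Polynomial.aeval (X i : MvPolynomial (Fin N) Ω) (a j) * f ^ j * g ^ (J - j)) =
      (∑ j ∈ Finset.range (J + 1), Polynomial.aeval (π (X i)) (a j) * (π f / π g) ^ j) *
        π g ^ J := by
    rw [Finset.sum_mul]
    refine Finset.sum_congr rfl fun j hj => ?_
    have hjJ : j ≤ J := Nat.lt_succ_iff.1 (Finset.mem_range.1 hj)
    rw [map_mul, map_mul, map_pow, map_pow, div_pow, Polynomial.aeval_algHom_apply π]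
    have h3 : π g ^ J = π g ^ j * π g ^ (J - j) := by rw [← pow_add, Nat.add_sub_cancel' hjJ]
    rw [h3, mul_assoc (π _), mul_assoc (π _),
      div_mul_aux (pow_ne_zero j hg0)]
  rw [h2, hs, zero_mul]

end Pool.Agent.Helper26.RC
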