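import Pool.Agent.Helper26.RC.DStep
import Pool.Agent.Helper26.RC.LocInj

/-! Block RC-STEP (about 250 lines): following an arc backwards along the orbit.

Identities: `homV_scale`: `homV d Φ s (s • y) i = s ^ d * Φ_i (y)` for `deg Φ_i ≤ d` (`Φ_{i,e} (s y) = s ^ e Φ_{i,e} (y)`); `homP_eval`: `(homP d Φ A i).eval s = homV d Φ s (fun j => (A j).eval s) i`.

`follow_base`. `i` the index of `Dir`, `s n = (y n i)⁻¹`: `μ (s n) ≤ C / sz → 0` (`sz → ∞`), `μ (s n * y n j - (A j).eval (s n)) ≤ μ (y_j / y_i - q j) + μ (q j - (A j).eval (s n)) ≤ C sz ^ (-η) + C' μ (s n)`, and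
`sz ^ (-η) ≤ μ (y n i) ^ (-η) = μ (s n) ^ η` as `μ (y n i) ≤ sz`. `τ = min η 1`, `μ (s n) ≤ 1` a.e.

`follow_step`. Let `y = emb Ω x`, `y' = emb Ω x'`, `S n` the parameters of `h`: `μ (S y_i - A_i (S)) ≤ C μ (S) ^ τ`, so `S y → q`. Choose `s n` with `s n ^ d = c S n` (`Ω` algebraically closed). Let `i` be the index of `hq'`
(`q' i = 1`, `y' / y' i → q'`) and `k` an index with `q k = 1` (`Nrm q`). `ζ n = s n * y' n i`. `s ^ d Φ_k (y') = c S y_k → c q_k = c`, and `Φ_k (y') / (y' i) ^ d → infMap d Φ q' k = c q_k = c` (`Dir.tendsto_top`).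
Hence `ζ ^ d = (s ^ d Φ_k (y')) / (Φ_k (y') / (y' i) ^ d) → 1`. `X ^ d - 1 = ∏ (X - ω)` over the `d`-th roots of unity in `Ω` (or over the roots of the polynomial `X ^ d - 1` in `Ω` with multiplicity, which splits):
for one of them, `ω ^ d = 1`, `ζ n → ω` along `U` (a product of finitely many factors tends to `0`, so a.e. the least one does). Replace `s n` by `s n / ω`: still `s ^ d = c S`, and `ζ → 1`, so `Y := s y' = ζ (y' / y' i) → q'`.
`s ≠ 0`, `μ (s) ^ d = μ (c) μ (S) → 0`. Let `Y' = (A'_j (s))_j → q'`. `homV d Φ s Y = s ^ d Φ (y') = c S y = c A (S) + O (μ (S) ^ τ)`, and by `hfe` `homV d Φ s Y' = c A (c⁻¹ s ^ d) + O (μ (s) ^ T) = c A (S) + O (μ (s) ^ T)`. `loc_inj` for `q'`: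
`μ (Y_j - Y'_j) ≤ C (μ (S) ^ τ + μ (s) ^ T) ≤ C' μ (s) ^ (min (d τ) T)`, since `μ (S) ^ τ = μ (c) ^ (-τ) μ (s) ^ (d τ)` and `μ (s) ≤ 1` a.e. (`Real.rpow_le_rpow_of_exponent_ge`). -/

set_option autoImplicit false

namespace Pool.Agent.Helper26.RC

open MvPolynomial Filter Topology

variable {K Ω : Type*} [Field K] [Field Ω] [Algebra K Ω] {N d : ℕ} {U : Ultrafilter ℕ}
  {μ : AbsoluteValue Ω ℝ}

namespace Stp

/-- one variable polynomials are bounded on the unit ball -/
theorem bdd1 {Ω : Type*} [Field Ω] (μ : AbsoluteValue Ω ℝ) (r : Polynomial Ω) :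
    ∃ C : ℝ, 0 ≤ C ∧ ∀ s, μ s ≤ 1 → μ (r.eval s) ≤ C := by
  refine ⟨∑ k ∈ Finset.range (r.natDegree + 1), μ (r.coeff k),
    Finset.sum_nonneg fun k _ => μ.nonneg _, fun s hs => ?_⟩
  rw [Polynomial.eval_eq_sum_range]
  refine (μ.sum_le _ _).trans (Finset.sum_le_sum fun k _ => ?_)
  rw [map_mul, map_pow]
  exact mul_le_of_le_one_right (μ.nonneg _) (pow_le_one₀ (μ.nonneg _) hs)

/-- `A (s) - A (0) = O (s)` -/
theorem lip0 {Ω : Type*} [Field Ω] (μ : AbsoluteValue Ω ℝ) (r : Polynomial Ω) :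
    ∃ C : ℝ, 0 ≤ C ∧ ∀ s, μ s ≤ 1 → μ (r.eval s - r.coeff 0) ≤ C * μ s := by
  obtain ⟨C, hC, h⟩ := bdd1 μ r.divX
  refine ⟨C, hC, fun s hs => ?_⟩
  have e : r.eval s - r.coeff 0 = s * r.divX.eval s := by
    conv_lhs => rw [← Polynomial.divX_mul_X_add r]
    simp
    ring
  rw [e, map_mul, mul_comm]
  exact mul_le_mul_of_nonneg_right (h s hs) (μ.nonneg _)

theorem aeval_smul {f : MvPolynomial (Fin N) K} {m : ℕ} (hf : f.IsHomogeneous m) (c : Ω)
    (z : Fin N → Ω) : aeval (fun i => c * z i) f = c ^ m * aeval z f := by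
  rw [aeval_def, aeval_def, eval₂_eq', eval₂_eq', Finset.mul_sum]
  refine Finset.sum_congr rfl fun s hs => ?_
  have h1 : ∑ i, s i = m := by
    have := hf (mem_support_iff.1 hs)
    rw [Finsupp.weight_apply, Finsupp.sum_fintype _ _ (by simp)] at this
    simpa using this
  have h2 : ∏ i, (c * z i) ^ s i = c ^ m * ∏ i, z i ^ s i := by
    simp only [mul_pow]
    rw [Finset.prod_mul_distrib, Finset.prod_pow_eq_pow_sum, h1]
  rw [h2]
  ring

theorem homV_scale {Φ : Fin N → MvPolynomial (Fin N) K} (hΦ : ∀ i, (Φ i).totalDegree ≤ d) (s : Ω)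
    (y : Fin N → Ω) (i : Fin N) : homV d Φ s (fun j => s * y j) i = s ^ d * aeval y (Φ i) := by
  unfold homV
  have h1 : Φ i = ∑ e ∈ Finset.range (d + 1), homogeneousComponent e (Φ i) := by
    conv_lhs => rw [← sum_homogeneousComponent (Φ i)]
    refine Finset.sum_subset (Finset.range_mono (by have := hΦ i; omega)) fun e _ he => ?_
    refine homogeneousComponent_eq_zero _ _ ?_
    rw [Finset.mem_range] at he
    omega
  conv_rhs => rw [h1, map_sum, Finset.mul_sum]
  refine Finset.sum_congr rfl fun e he => ?_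
  have h2 : e ≤ d := by
    rw [Finset.mem_range] at he
    omega
  rw [aeval_smul (homogeneousComponent_isHomogeneous e (Φ i)), ← mul_assoc, ← pow_add,
    Nat.sub_add_cancel h2]

theorem homP_eval (Φ : Fin N → MvPolynomial (Fin N) K) (A : Fin N → Polynomial Ω) (s : Ω)
    (i : Fin N) : (homP d Φ A i).eval s = homV d Φ s (fun j => (A j).eval s) i := by
  unfold homP homV
  rw [Polynomial.eval_finsetSum]
  refine Finset.sum_congr rfl fun e _ => ?_
  rw [Polynomial.eval_mul, Polynomial.eval_pow, Polynomial.eval_X]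
  congr 1
  generalize homogeneousComponent e (Φ i) = f
  induction f using MvPolynomial.induction_on with
  | C a => simp [Polynomial.algebraMap_apply]
  | add f g hf hg => rw [map_add, map_add, Polynomial.eval_add, hf, hg]
  | mul_X f i hf => rw [map_mul, map_mul, Polynomial.eval_mul, hf, aeval_X, aeval_X]

/-- a product of finitely many factors tends to zero along an ultrafilter only if one factor does -/
theorem exists_factor {Ω : Type*} [Field Ω] (U : Ultrafilter ℕ) (μ : AbsoluteValue Ω ℝ) (ζ : ℕ → Ω)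
    (R : Multiset Ω)
    (h : Tendsto (fun n => μ ((R.map fun a => ζ n - a).prod)) (U : Filter ℕ) (𝓝 0)) :
    ∃ a ∈ R, Tendsto (fun n => μ (ζ n - a)) (U : Filter ℕ) (𝓝 0) := by
  induction R using Multiset.induction_on with
  | empty =>
    exfalso
    have h1 : Tendsto (fun _ : ℕ => (1 : ℝ)) (U : Filter ℕ) (𝓝 0) := by
      refine h.congr fun n => ?_
      rw [Multiset.map_zero, Multiset.prod_zero, map_one]
    exact one_ne_zero (tendsto_nhds_unique tendsto_const_nhds h1)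
  | cons a R ih =>
    by_cases ha : Tendsto (fun n => μ (ζ n - a)) (U : Filter ℕ) (𝓝 0)
    · exact ⟨a, Multiset.mem_cons_self a R, ha⟩
    · obtain ⟨ε, hε, hb⟩ : ∃ ε > 0, ∀ᶠ n in (U : Filter ℕ), ε ≤ μ (ζ n - a) := by
        by_contra hcon
        apply ha
        rw [Metric.tendsto_nhds]
        intro ε hε
        by_contra h1
        apply hcon
        refine ⟨ε, hε, ?_⟩
        rw [← Ultrafilter.eventually_not] at h1
        filter_upwards [h1] with n hn
        rw [Real.dist_0_eq_abs, abs_of_nonneg (μ.nonneg _), not_lt] at hn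
        exact hn
      obtain ⟨b, hbR, hb'⟩ := ih (by
        have h1 : Tendsto (fun n => ε⁻¹ * μ (((a ::ₘ R).map fun a => ζ n - a).prod)) (U : Filter ℕ)
            (𝓝 (ε⁻¹ * 0)) := h.const_mul _
        rw [mul_zero] at h1
        refine squeeze_zero' (Eventually.of_forall fun n => μ.nonneg _) ?_ h1
        filter_upwards [hb] with n hn
        rw [Multiset.map_cons, Multiset.prod_cons, map_mul, ← mul_assoc]
        refine le_mul_of_one_le_left (μ.nonneg _) ?_
        rw [← mul_inv_cancel₀ hε.ne', mul_comm]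
        exact mul_le_mul_of_nonneg_left hn (by positivity))
      exact ⟨b, Multiset.mem_cons_of_mem hbR, hb'⟩

theorem exists_root {Ω : Type*} [Field Ω] [IsAlgClosed Ω] (U : Ultrafilter ℕ)
    (μ : AbsoluteValue Ω ℝ) (ζ : ℕ → Ω) {d : ℕ} (hd : 0 < d)
    (h : Tendsto (fun n => μ (ζ n ^ d - 1)) (U : Filter ℕ) (𝓝 0)) :
    ∃ ω : Ω, ω ^ d = 1 ∧ Tendsto (fun n => μ (ζ n - ω)) (U : Filter ℕ) (𝓝 0) := by
  set P : Polynomial Ω := Polynomial.X ^ d - Polynomial.C 1 with hP
  have hPm : P.Monic := Polynomial.monic_X_pow_sub_C 1 hd.ne'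
  have hsp : P.Splits := IsAlgClosed.splits P
  have hev : ∀ z : Ω, z ^ d - 1 = (P.roots.map fun a => z - a).prod := by
    intro z
    have h1 : P.eval z = z ^ d - 1 := by simp [hP]
    rw [← h1]
    conv_lhs => rw [hsp.eq_prod_roots_of_monic hPm]
    rw [Polynomial.eval_multiset_prod, Multiset.map_map]
    simp
  obtain ⟨ω, hω, h1⟩ := exists_factor U μ ζ P.roots (by
    refine h.congr fun n => ?_
    rw [hev])
  refine ⟨ω, ?_, h1⟩
  have h2 := Polynomial.isRoot_of_mem_roots hω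
  rw [Polynomial.IsRoot, hP] at h2
  simpa [sub_eq_zero] using h2

end Stp

theorem follow_base {y : ℕ → Fin N → Ω}
    (hg : Tendsto (fun n => Real.log (sz μ (y n))) (U : Filter ℕ) atTop) {q : Fin N → Ω}
    (hq : Dir μ U y q) {A : Fin N → Polynomial Ω} (hA : ∀ i, (A i).coeff 0 = q i) :
    ∃ τ : ℝ, 0 < τ ∧ Follow μ U y A τ := by
  obtain ⟨i, hi, -, C, η, hC, hη, hev⟩ := hq
  choose CA hCA hCAb using fun j => Stp.lip0 μ (A j)
  have hszt : Tendsto (fun n => sz μ (y n)) (U : Filter ℕ) atTop := by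
    refine (Real.tendsto_exp_atTop.comp hg).congr fun n => ?_
    exact Real.exp_log (lt_of_lt_of_le one_pos (one_le_sz μ _))
  have hs0 : Tendsto (fun n => μ ((y n i)⁻¹)) (U : Filter ℕ) (𝓝 0) := by
    have h1 : Tendsto (fun n => C / sz μ (y n)) (U : Filter ℕ) (𝓝 0) := hszt.const_div_atTop C
    refine squeeze_zero' (Eventually.of_forall fun n => μ.nonneg _) ?_ h1
    filter_upwards [hev] with n hn
    have hp : 0 < μ (y n i) := μ.pos hn.1
    have hs : 0 < sz μ (y n) := lt_of_lt_of_le one_pos (one_le_sz μ _)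
    rw [map_inv₀, inv_eq_one_div, div_le_div_iff₀ hp hs, one_mul]
    exact hn.2.1
  refine ⟨min η 1, lt_min hη one_pos, fun n => (y n i)⁻¹, ?_, hs0, C + ∑ j, CA j, ?_⟩
  · filter_upwards [hev] with n hn
    exact inv_ne_zero hn.1
  · filter_upwards [hev, hs0.eventually (gt_mem_nhds one_pos)] with n hn hn1 j
    obtain ⟨hn0, -, hn2⟩ := hn
    have hp : 0 < μ (y n i) := μ.pos hn0
    have hsp : 0 < μ ((y n i)⁻¹) := μ.pos (inv_ne_zero hn0)
    have h1 : sz μ (y n) ^ (-η) ≤ μ ((y n i)⁻¹) ^ (min η 1) := by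
      have h2 : sz μ (y n) ^ (-η) ≤ μ (y n i) ^ (-η) :=
        Real.rpow_le_rpow_of_nonpos hp (le_sz μ (y n) i) (by linarith)
      have h3 : μ (y n i) ^ (-η) = μ ((y n i)⁻¹) ^ η := by
        rw [map_inv₀, Real.inv_rpow hp.le, Real.rpow_neg hp.le]
      rw [h3] at h2
      exact h2.trans (Real.rpow_le_rpow_of_exponent_ge hsp hn1.le (min_le_left _ _))
    have h4 : μ ((y n i)⁻¹) ≤ μ ((y n i)⁻¹) ^ (min η 1) := by
      conv_lhs => rw [← Real.rpow_one (μ ((y n i)⁻¹))]
      exact Real.rpow_le_rpow_of_exponent_ge hsp hn1.le (min_le_right _ _)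
    have e : (y n i)⁻¹ * y n j - (A j).eval (y n i)⁻¹ =
        (y n j / y n i - q j) - ((A j).eval (y n i)⁻¹ - (A j).coeff 0) := by
      rw [hA]
      ring
    rw [e]
    have h5 : CA j ≤ ∑ j, CA j := Finset.single_le_sum (f := CA) (fun j _ => hCA j) (Finset.mem_univ j)
    have h6 := hCAb j _ hn1.le
    have h7 := hn2 j
    have h8 : 0 ≤ μ ((y n i)⁻¹) ^ (min η 1) := by positivity
    calc μ ((y n j / y n i - q j) - ((A j).eval (y n i)⁻¹ - (A j).coeff 0))
        ≤ μ (y n j / y n i - q j) + μ ((A j).eval (y n i)⁻¹ - (A j).coeff 0) := μ.sub_le_add _ _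
      _ ≤ C * sz μ (y n) ^ (-η) + CA j * μ ((y n i)⁻¹) := add_le_add h7 h6
      _ ≤ C * μ ((y n i)⁻¹) ^ (min η 1) + (∑ j, CA j) * μ ((y n i)⁻¹) ^ (min η 1) :=
          add_le_add (mul_le_mul_of_nonneg_left h1 hC.le)
            (mul_le_mul h5 h4 hsp.le (Finset.sum_nonneg fun j _ => hCA j))
      _ = _ := by ring

theorem follow_step [IsAlgClosed Ω] {Φ : Fin N → MvPolynomial (Fin N) K} (hd : 2 ≤ d)
    (hΦ : Reg Ω d Φ) {x x' : ℕ → Fin N → K}
    (hx : ∀ᶠ n in (U : Filter ℕ), x n = pmap Φ (x' n))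
    (hg' : Tendsto (fun n => Real.log (sz μ (emb Ω x' n))) (U : Filter ℕ) atTop) {q q' : Fin N → Ω}
    (hq' : Dir μ U (emb Ω x') q') (hqn : Nrm q) {c : Ω} (hc : c ≠ 0)
    (hcq : infMap d Φ q' = c • q) (hjac : jac d Φ q' ≠ 0) {A A' : Fin N → Polynomial Ω}
    (hA : ∀ i, (A i).coeff 0 = q i) (hA' : ∀ i, (A' i).coeff 0 = q' i) {T : ℕ}
    (hfe : ∀ i, (Polynomial.X : Polynomial Ω) ^ T ∣ homP d Φ A' i -
      Polynomial.C c * (A i).comp (Polynomial.C c⁻¹ * Polynomial.X ^ d))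
    {τ : ℝ} (hτ : 0 < τ) (h : Follow μ U (emb Ω x) A τ) :
    Follow μ U (emb Ω x') A' (min (d * τ) T) := by
  have hd0 : 0 < d := by omega
  obtain ⟨S, hS0, hS, C, hC⟩ := h
  obtain ⟨i0, hi0, -, C', η, hC', hη, hev'⟩ := id hq'
  obtain ⟨k, hk, -⟩ := hqn
  choose CA hCA hCAb using fun j => Stp.lip0 μ (A j)
  choose CA' hCA' hCAb' using fun j => Stp.lip0 μ (A' j)
  choose w hw using hfe
  choose Cw hCw hCwb using fun j => Stp.bdd1 μ (w j)
  -- the roots
  choose s1 hs1 using fun n => IsAlgClosed.exists_pow_nat_eq (c * S n) hd0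
  have hszt : Tendsto (fun n => sz μ (emb Ω x' n)) (U : Filter ℕ) atTop := by
    refine (Real.tendsto_exp_atTop.comp hg').congr fun n => ?_
    exact Real.exp_log (lt_of_lt_of_le one_pos (one_le_sz μ _))
  have heval : ∀ᶠ n in (U : Filter ℕ), ∀ j, aeval (emb Ω x' n) (Φ j) = emb Ω x n j := by
    filter_upwards [hx] with n hn j
    unfold emb
    rw [hn]
    unfold pmap
    rw [MvPolynomial.aeval_def, MvPolynomial.eval₂_eq', MvPolynomial.eval_eq', map_sum]
    refine Finset.sum_congr rfl fun m _ => ?_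
    rw [map_mul, map_prod]
    simp only [map_pow]
  have hSτ : Tendsto (fun n => μ (S n) ^ τ) (U : Filter ℕ) (𝓝 0) := by
    have := hS.rpow_const (p := τ) (Or.inr hτ.le)
    rwa [Real.zero_rpow hτ.ne'] at this
  -- `S x_k → 1`
  have hlimk : Tendsto (fun n => μ (S n * emb Ω x n k - 1)) (U : Filter ℕ) (𝓝 0) := by
    have h1 : Tendsto (fun n => |C| * μ (S n) ^ τ + CA k * μ (S n)) (U : Filter ℕ)
        (𝓝 (|C| * 0 + CA k * 0)) := (hSτ.const_mul _).add (hS.const_mul _)
    rw [mul_zero, mul_zero, add_zero] at h1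
    refine squeeze_zero' (Eventually.of_forall fun n => μ.nonneg _) ?_ h1
    filter_upwards [hC, hS.eventually (gt_mem_nhds one_pos)] with n h2 h3
    have e : S n * emb Ω x n k - 1 = (S n * emb Ω x n k - (A k).eval (S n)) +
        ((A k).eval (S n) - (A k).coeff 0) := by
      rw [hA, hk]
      ring
    rw [e]
    refine (μ.add_le _ _).trans (add_le_add ((h2 k).trans ?_) (hCAb k _ h3.le))
    exact mul_le_mul_of_nonneg_right (le_abs_self C) (Real.rpow_nonneg (μ.nonneg _) _)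
  -- `Φ_k (y') / (y'_i) ^ d → c`
  have hlimb : Tendsto (fun n => μ (emb Ω x n k / emb Ω x' n i0 ^ d - c)) (U : Filter ℕ) (𝓝 0) := by
    have h1 := hq'.tendsto_top hg' (f := MvPolynomial.map (algebraMap K Ω) (Φ k)) (m := d)
      ((Finset.sup_mono (support_map_subset _ _)).trans (hΦ.1 k)) hi0
    have h2 : eval q' (homogeneousComponent d (MvPolynomial.map (algebraMap K Ω) (Φ k))) = c := by
      have h3 : homogeneousComponent d (MvPolynomial.map (algebraMap K Ω) (Φ k)) =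
          MvPolynomial.map (algebraMap K Ω) (homogeneousComponent d (Φ k)) := by
        ext n
        rw [coeff_homogeneousComponent, coeff_map, coeff_map, coeff_homogeneousComponent]
        split_ifs
        · rfl
        · rw [map_zero]
      have h4 := congrFun hcq k
      rw [h3, eval_map, ← aeval_def]
      rw [Pi.smul_apply, hk, smul_eq_mul, mul_one] at h4
      exact h4
    rw [h2] at h1
    refine h1.congr' ?_
    filter_upwards [heval] with n hn
    rw [eval_map, ← aeval_def, hn]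
  -- `ζ ^ d → 1`
  have hζ : Tendsto (fun n => μ ((s1 n * emb Ω x' n i0) ^ d - 1)) (U : Filter ℕ) (𝓝 0) := by
    have hμc : 0 < μ c := μ.pos hc
    have h1 : Tendsto (fun n => 2 / μ c * (μ c * μ (S n * emb Ω x n k - 1) +
        μ (emb Ω x n k / emb Ω x' n i0 ^ d - c))) (U : Filter ℕ) (𝓝 (2 / μ c * (μ c * 0 + 0))) :=
      ((hlimk.const_mul _).add hlimb).const_mul _
    rw [mul_zero, add_zero, mul_zero] at h1
    refine squeeze_zero' (Eventually.of_forall fun n => μ.nonneg _) ?_ h1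
    filter_upwards [hev', hlimb.eventually (gt_mem_nhds (half_pos hμc))] with n h2 h3
    have hy0 := h2.1
    set b := emb Ω x n k / emb Ω x' n i0 ^ d with hb
    have hb1 : μ c / 2 ≤ μ b := by
      have h4 := μ.le_sub (c) (c - b)
      rw [sub_sub_cancel, μ.map_sub] at h4
      linarith
    have e : ((s1 n * emb Ω x' n i0) ^ d - 1) * b = c * (S n * emb Ω x n k - 1) - (b - c) := by
      rw [mul_pow, hs1, hb]
      field_simp
      ring
    have h5 : μ ((s1 n * emb Ω x' n i0) ^ d - 1) * μ b ≤ μ c * μ (S n * emb Ω x n k - 1) + μ (b - c) := by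
      rw [← map_mul, e, ← map_mul]
      exact μ.sub_le_add _ _
    have h6 : μ ((s1 n * emb Ω x' n i0) ^ d - 1) * (μ c / 2) ≤
        μ c * μ (S n * emb Ω x n k - 1) + μ (b - c) :=
      (mul_le_mul_of_nonneg_left hb1 (μ.nonneg _)).trans h5
    rw [← le_div_iff₀ (half_pos hμc)] at h6
    refine h6.trans (le_of_eq ?_)
    field_simp
  obtain ⟨ω, hω, hζω⟩ := Stp.exists_root U μ _ hd0 hζ
  have hω0 : ω ≠ 0 := by
    rintro rfl
    rw [zero_pow hd0.ne'] at hω
    exact zero_ne_one hω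
  have hμω : 0 < μ ω := μ.pos hω0
  set s : ℕ → Ω := fun n => s1 n / ω with hs
  have hsd : ∀ n, s n ^ d = c * S n := by
    intro n
    rw [hs]
    simp only
    rw [div_pow, hs1, hω, div_one]
  have hs0 : ∀ᶠ n in (U : Filter ℕ), s n ≠ 0 := by
    filter_upwards [hS0] with n hn h0
    have h1 := hsd n
    rw [h0, zero_pow hd0.ne'] at h1
    exact mul_ne_zero hc hn h1.symm
  have hslim : Tendsto (fun n => μ (s n)) (U : Filter ℕ) (𝓝 0) := by
    rw [Metric.tendsto_nhds]
    intro ε hε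
    have h1 : Tendsto (fun n => μ c * μ (S n)) (U : Filter ℕ) (𝓝 (μ c * 0)) := hS.const_mul _
    rw [mul_zero] at h1
    filter_upwards [h1.eventually (gt_mem_nhds (pow_pos hε d))] with n hn
    rw [Real.dist_0_eq_abs, abs_of_nonneg (μ.nonneg _)]
    rw [← map_mul, ← hsd, map_pow] at hn
    exact lt_of_pow_lt_pow_left₀ d hε.le hn
  have hζ1 : Tendsto (fun n => μ (s n * emb Ω x' n i0 - 1)) (U : Filter ℕ) (𝓝 0) := by
    have h1 : Tendsto (fun n => (μ ω)⁻¹ * μ (s1 n * emb Ω x' n i0 - ω)) (U : Filter ℕ)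
        (𝓝 ((μ ω)⁻¹ * 0)) := hζω.const_mul _
    rw [mul_zero] at h1
    refine h1.congr fun n => ?_
    rw [← map_inv₀, ← map_mul]
    congr 1
    rw [hs]
    field_simp
  -- `Y → q'`
  have hY : ∀ j, Tendsto (fun n => μ (s n * emb Ω x' n j - q' j)) (U : Filter ℕ) (𝓝 0) := by
    intro j
    have hdlim : Tendsto (fun n => C' * sz μ (emb Ω x' n) ^ (-η)) (U : Filter ℕ) (𝓝 0) := by
      have h2 := ((tendsto_rpow_neg_atTop hη).comp hszt).const_mul C'
      rw [mul_zero] at h2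
      exact h2
    have h1 : Tendsto (fun n => μ (s n * emb Ω x' n i0 - 1) *
        (C' * sz μ (emb Ω x' n) ^ (-η) + μ (q' j)) + C' * sz μ (emb Ω x' n) ^ (-η)) (U : Filter ℕ)
        (𝓝 (0 * (0 + μ (q' j)) + 0)) := (hζ1.mul (hdlim.add_const _)).add hdlim
    rw [zero_mul, add_zero] at h1
    refine squeeze_zero' (Eventually.of_forall fun n => μ.nonneg _) ?_ h1
    filter_upwards [hev'] with n hn
    obtain ⟨h2, -, h3⟩ := hn
    have e : s n * emb Ω x' n j - q' j = (s n * emb Ω x' n i0 - 1) *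
        ((emb Ω x' n j / emb Ω x' n i0 - q' j) + q' j) + (emb Ω x' n j / emb Ω x' n i0 - q' j) := by
      field_simp
      ring
    rw [e]
    refine (μ.add_le _ _).trans (add_le_add ?_ (h3 j))
    rw [map_mul]
    refine mul_le_mul_of_nonneg_left ?_ (μ.nonneg _)
    exact (μ.add_le _ _).trans (add_le_add (h3 j) le_rfl)
  have hY' : ∀ j, Tendsto (fun n => μ ((A' j).eval (s n) - q' j)) (U : Filter ℕ) (𝓝 0) := by
    intro j
    have h1 : Tendsto (fun n => CA' j * μ (s n)) (U : Filter ℕ) (𝓝 (CA' j * 0)) := hslim.const_mul _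
    rw [mul_zero] at h1
    refine squeeze_zero' (Eventually.of_forall fun n => μ.nonneg _) ?_ h1
    filter_upwards [hslim.eventually (gt_mem_nhds one_pos)] with n hn
    rw [← hA']
    exact hCAb' j _ hn.le
  obtain ⟨ε, CL, hε, hCL, hloc⟩ := loc_inj d Φ hjac μ
  have hμc : 0 < μ c := μ.pos hc
  refine ⟨s, hs0, hslim, CL * ∑ j, (μ c * (|C| * μ c ^ (-τ)) + Cw j), ?_⟩
  have hYa : ∀ᶠ n in (U : Filter ℕ), ∀ j, μ (s n * emb Ω x' n j - q' j) < ε :=
    Filter.eventually_all.2 fun j => (hY j).eventually (gt_mem_nhds hε)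
  have hYa' : ∀ᶠ n in (U : Filter ℕ), ∀ j, μ ((A' j).eval (s n) - q' j) < ε :=
    Filter.eventually_all.2 fun j => (hY' j).eventually (gt_mem_nhds hε)
  filter_upwards [hYa, hYa', hslim.eventually (gt_mem_nhds hε), hslim.eventually (gt_mem_nhds one_pos),
    heval, hC, hs0] with n h1 h2 h3 h4 h5 h6 h7 i
  have h8 := hloc (s n) (fun j => s n * emb Ω x' n j) (fun j => (A' j).eval (s n)) h3 h1 h2 i
  refine h8.trans ?_
  rw [mul_assoc, Finset.sum_mul]
  refine mul_le_mul_of_nonneg_left (Finset.sum_le_sum fun j _ => ?_) hCL.le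
  have hsp : 0 < μ (s n) := μ.pos h7
  have e1 : homV d Φ (s n) (fun j => s n * emb Ω x' n j) j = c * S n * emb Ω x n j := by
    rw [Stp.homV_scale hΦ.1, hsd, h5]
  have e2 : homV d Φ (s n) (fun j => (A' j).eval (s n)) j =
      c * (A j).eval (S n) + s n ^ T * (w j).eval (s n) := by
    rw [← Stp.homP_eval]
    have h9 := congrArg (Polynomial.eval (s n)) (sub_eq_iff_eq_add.1 (hw j))
    rw [Polynomial.eval_add, Polynomial.eval_mul, Polynomial.eval_mul, Polynomial.eval_C,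
      Polynomial.eval_comp, Polynomial.eval_mul, Polynomial.eval_C, Polynomial.eval_pow,
      Polynomial.eval_pow, Polynomial.eval_X, hsd, inv_mul_cancel_left₀ hc] at h9
    rw [h9, add_comm]
  rw [e1, e2]
  have e3 : c * S n * emb Ω x n j - (c * (A j).eval (S n) + s n ^ T * (w j).eval (s n)) =
      c * (S n * emb Ω x n j - (A j).eval (S n)) - s n ^ T * (w j).eval (s n) := by ring
  rw [e3]
  have e4 : μ (S n) ^ τ = μ c ^ (-τ) * μ (s n) ^ (d * τ) := by
    have h9 : μ (S n) = (μ c)⁻¹ * μ (s n) ^ d := by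
      rw [← map_pow, hsd, map_mul, inv_mul_cancel_left₀ hμc.ne']
    rw [h9, Real.mul_rpow (by positivity) (by positivity), Real.inv_rpow hμc.le,
      Real.rpow_neg hμc.le, Real.rpow_mul hsp.le, Real.rpow_natCast]
  have h9 : μ (s n) ^ (d * τ) ≤ μ (s n) ^ (min (d * τ) T) :=
    Real.rpow_le_rpow_of_exponent_ge hsp h4.le (min_le_left _ _)
  have h10 : μ (s n) ^ T ≤ μ (s n) ^ (min (d * τ) T) := by
    rw [← Real.rpow_natCast]
    exact Real.rpow_le_rpow_of_exponent_ge hsp h4.le (min_le_right _ _)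
  have h11 : μ (S n * emb Ω x n j - (A j).eval (S n)) ≤ |C| * (μ c ^ (-τ) * μ (s n) ^ (d * τ)) := by
    rw [← e4]
    exact (h6 j).trans (mul_le_mul_of_nonneg_right (le_abs_self C) (Real.rpow_nonneg (μ.nonneg _) _))
  have h12 : 0 ≤ μ c ^ (-τ) := Real.rpow_nonneg hμc.le _
  calc μ (c * (S n * emb Ω x n j - (A j).eval (S n)) - s n ^ T * (w j).eval (s n))
      ≤ μ (c * (S n * emb Ω x n j - (A j).eval (S n))) + μ (s n ^ T * (w j).eval (s n)) :=
        μ.sub_le_add _ _
    _ ≤ μ c * (|C| * (μ c ^ (-τ) * μ (s n) ^ (d * τ))) + μ (s n) ^ T * Cw j := by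
        rw [map_mul, map_mul, map_pow]
        exact add_le_add (mul_le_mul_of_nonneg_left h11 hμc.le)
          (mul_le_mul_of_nonneg_left (hCwb j _ h4.le) (by positivity))
    _ ≤ μ c * (|C| * (μ c ^ (-τ) * μ (s n) ^ (min (d * τ) T))) + μ (s n) ^ (min (d * τ) T) * Cw j := by
        refine add_le_add ?_ (mul_le_mul_of_nonneg_right h10 (hCw j))
        refine mul_le_mul_of_nonneg_left ?_ hμc.le
        refine mul_le_mul_of_nonneg_left ?_ (abs_nonneg C)
        exact mul_le_mul_of_nonneg_left h9 h12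
    _ = _ := by ring

end Pool.Agent.Helper26.RC
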