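import Pool.Agent.Helper26.RC.Defs
import Pool.Agent.Helper26.DMC.SubStub
import Pool.Agent.Helper21.V2.BB
import Pool.Agent.Helper21.V2.AR5

/-! Block RC-SUB (about 150 lines): the subspace theorem for limits of exponents. Model: `subspace_lw` in `Pool/Agent/Helper36/SB/Sub.lean`
and `Pool/Agent/Helper26/DMC/SU1.lean` (same kind of deduction from `Helper26.DMC.subspace_stub`, which is the proved theorem `Pool.Agent.V2.subspace`).

Suppose `σ = ∑_{w ∈ S} ∑_i c w i < 0` (so `S` is not empty). `F : Frm L (Fin D)`: `F.L w = M w` for `w ∈ S`, `1` otherwise, `F.S = S.toRight`. Exponents `c' w i = c w i + κ`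
for `w ∈ S` with `κ = - σ / (D #S) > 0`, `0` otherwise; `deg c' = 0` (`gsum`). For `t n` large and `ε < κ`: for `w ∈ S`
`nv w (L_i (z n)) exp (- t (c w i + κ)) ≤ exp ((ε - κ) t)`, for `w ∉ S` `nv w (z n i) ≤ 1`; so `tH F (sc (t n) c') (z n) ≤ #S (ε - κ) t n`
(`z n ≠ 0` a.e. by `hgen`, so the local norms are positive and almost all equal to ... use `tH` as a sum over the finite set where the log is not zero, all logs outside `S` are `≤ 0`;
see `SU1`/`subspace_lw` for the handling of `gsum`). With `ε = κ / 2`: `tH ≤ - (κ #S / 2) t n`. `subspace_stub` gives a proper subspace `W` with `z n ∈ W` a.e.; a nonzero linear form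
vanishing on `W` contradicts `hgen`. -/

set_option autoImplicit false

namespace Pool.Agent.Helper26.RC

open Filter Topology NumberField
open Pool.Agent.Helper64.Vojta (Pl nv)

theorem sub_lim {L : Type*} [Field L] [NumberField L] {D : ℕ} (hD : 0 < D) (U : Ultrafilter ℕ)
    (t : ℕ → ℝ) (ht : Tendsto t (U : Filter ℕ) atTop) (S : Finset (Pl L)) (z : ℕ → Fin D → L)
    (hint : ∀ n, ∀ w, w ∉ S → ∀ i, nv w (z n i) ≤ 1)
    (hgen : ∀ a : Fin D → L, a ≠ 0 → ∀ᶠ n in (U : Filter ℕ), ∑ i, a i * z n i ≠ 0)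
    (M : Pl L → Matrix (Fin D) (Fin D) L) (hM : ∀ w ∈ S, (M w).det ≠ 0) (c : Pl L → Fin D → ℝ)
    (hc : ∀ w ∈ S, ∀ i, ∀ ε : ℝ, 0 < ε → ∀ᶠ n in (U : Filter ℕ),
      nv w ((M w).mulVec (z n) i) ≤ Real.exp ((c w i + ε) * t n)) :
    0 ≤ ∑ w ∈ S, ∑ i, c w i := by
  classical
  by_contra hcon
  rw [not_le] at hcon
  set σ : ℝ := ∑ w ∈ S, ∑ i, c w i with hσ
  have hSc : 0 < S.card := by
    rw [Finset.card_pos]
    by_contra h
    rw [Finset.not_nonempty_iff_eq_empty] at h
    have : σ = 0 := by rw [hσ, h]; simp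
    rw [this] at hcon
    exact lt_irrefl _ hcon
  have hD' : (0 : ℝ) < D := by exact_mod_cast hD
  have hSc' : (0 : ℝ) < S.card := by exact_mod_cast hSc
  let Fr : Pool.Agent.V2.Frm L (Fin D) :=
    { S := S.toRight
      L := fun v => if v ∈ S then M v else 1
      hL := fun v => by
        by_cases h : v ∈ S
        · rw [if_pos h]; exact hM v h
        · rw [if_neg h, Matrix.det_one]; exact one_ne_zero
      hS := fun v hv => by
        have h : Sum.inr v ∉ S := fun h => hv (Finset.mem_toRight.mpr h)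
        rw [if_neg h] }
  let c' : Pl L → Fin D → ℝ := fun v i => if v ∈ S then c v i - σ / (D * S.card) else 0
  have hcT : ∀ v, v ∈ S → ∀ i, c' v i = c v i - σ / (D * S.card) := fun v h i => by
    simp only [c', h, if_true]
  have hcN : ∀ v, v ∉ S → ∀ i, c' v i = 0 := fun v h i => by simp only [c', h, if_false]
  have hFT : ∀ v, v ∈ S → Fr.L v = M v := fun v h => by simp only [Fr, h, if_true]
  have hFN : ∀ v, v ∉ S → Fr.L v = 1 := fun v h => by simp only [Fr, h, if_false]
  have hcE : Pool.Agent.V2.ExpS Fr.S c' := fun v hv => by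
    have h : Sum.inr v ∉ S := fun h => hv (Finset.mem_toRight.mpr h)
    funext i
    exact hcN _ h i
  have hdeg : Pool.Agent.V2.deg c' = 0 := by
    unfold Pool.Agent.V2.deg
    rw [Pool.Agent.V2.AR5.gsum_supp S _ fun v hv => Finset.sum_eq_zero fun i _ => hcN v hv i]
    have h1 : ∀ v ∈ S, ∑ i, c' v i = (∑ i, c v i) - σ / S.card := by
      intro v hv
      simp_rw [hcT v hv]
      rw [Finset.sum_sub_distrib, Finset.sum_const, Finset.card_univ, Fintype.card_fin,
        nsmul_eq_mul]
      congr 1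
      field_simp
    rw [Finset.sum_congr rfl h1, Finset.sum_sub_distrib, ← hσ, Finset.sum_const, nsmul_eq_mul]
    field_simp
    ring
  set ε : ℝ := -σ / (2 * D * S.card) with hε
  have hε0 : 0 < ε := div_pos (by linarith) (by positivity)
  have e2 : ∀ᶠ n in (U : Filter ℕ), ∀ v : S, ∀ i,
      nv v.1 ((M v.1).mulVec (z n) i) ≤ Real.exp ((c v.1 i + ε) * t n) :=
    Filter.eventually_all.mpr fun v => Filter.eventually_all.mpr fun i => hc v.1 v.2 i ε hε0
  have e3 : ∀ᶠ n in (U : Filter ℕ), z n ≠ 0 := by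
    have h1 := hgen (Pi.single ⟨0, hD⟩ 1) (by
      intro h
      have := congrFun h ⟨0, hD⟩
      rw [Pi.single_eq_same] at this
      exact one_ne_zero this)
    filter_upwards [h1] with n hn h0
    apply hn
    rw [h0]
    simp
  have hmain : ∀ᶠ n in (U : Filter ℕ), z n ≠ 0 ∧
      Pool.Agent.V2.tH Fr (Pool.Agent.V2.sc (t n) c') (z n) ≤ -(-σ / (2 * D)) * t n := by
    filter_upwards [e2, e3, ht.eventually_gt_atTop 0] with n h2 hy ht0
    refine ⟨hy, ?_⟩
    have hloc : ∀ v, Real.log (Pool.Agent.V2.tn Fr (Pool.Agent.V2.sc (t n) c') v (z n)) ≤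
        (if v ∈ S then (ε + σ / (D * S.card)) * t n else 0) := by
      intro v
      rw [Real.log_le_iff_le_exp (Pool.Agent.V2.tn_pos _ _ _ hy)]
      refine Pool.Agent.V2.tn_le _ _ _ _ (Real.exp_pos _).le fun i => ?_
      by_cases hv : v ∈ S
      · rw [if_pos hv, hFT v hv]
        have h8 := h2 ⟨v, hv⟩ i
        have h9 : Pool.Agent.V2.sc (t n) c' v i = t n * (c v i - σ / (D * S.card)) := by
          show t n * c' v i = _
          rw [hcT v hv]
        rw [h9]
        refine (mul_le_mul_of_nonneg_right h8 (Real.exp_pos _).le).trans (le_of_eq ?_)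
        rw [← Real.exp_add]
        congr 1
        ring
      · rw [if_neg hv, hFN v hv, Matrix.one_mulVec]
        have h9 : Pool.Agent.V2.sc (t n) c' v i = 0 := by
          show t n * c' v i = _
          rw [hcN v hv, mul_zero]
        rw [h9, neg_zero, Real.exp_zero, mul_one]
        exact hint n v hv i
    have hfT : Pool.Agent.V2.FinS (fun v : Pl L =>
        (if v ∈ S then (ε + σ / (D * S.card)) * t n else 0)) :=
      Pool.Agent.V2.AR5.finS_supp S _ fun v hv => if_neg hv
    have hg := Pool.Agent.V2.gsum_mono (Pool.Agent.V2.finS_tn Fr (Pool.Agent.V2.sc (t n) c')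
      (hcE.sc _) hy) hfT hloc
    rw [Pool.Agent.V2.AR5.gsum_supp S _ (fun v hv => if_neg hv)] at hg
    have h6 : ∑ v ∈ S, (if v ∈ S then (ε + σ / (D * S.card)) * t n else 0) =
        -(-σ / (2 * D)) * t n := by
      rw [Finset.sum_congr rfl fun v hv => if_pos hv, Finset.sum_const, nsmul_eq_mul, hε]
      field_simp
      ring
    rw [h6] at hg
    exact hg
  obtain ⟨W, hW, hyW⟩ := Pool.Agent.Helper26.DMC.subspace_stub Fr c' hcE hdeg U t ht
    (-σ / (2 * D)) (div_pos (by linarith) (by positivity)) z hmain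
  obtain ⟨g, hg0, hgW⟩ := Submodule.exists_le_ker_of_lt_top W (lt_top_iff_ne_top.mpr hW)
  have hfy : ∀ y : Fin D → L, g y = ∑ i, g (Pi.single i 1) * y i := by
    intro y
    conv_lhs => rw [pi_eq_sum_univ' y]
    rw [map_sum]
    refine Finset.sum_congr rfl fun i _ => ?_
    rw [map_smul, smul_eq_mul, mul_comm]
  have hc0 : (fun i => g (Pi.single i 1)) ≠ 0 := by
    intro h0
    apply hg0
    apply LinearMap.ext
    intro y
    rw [hfy y]
    simp only [LinearMap.zero_apply]
    exact Finset.sum_eq_zero fun i _ => by rw [congrFun h0 i]; simp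
  obtain ⟨n, hn1, hn2⟩ := ((hgen _ hc0).and hyW).exists
  apply hn1
  rw [← hfy]
  exact LinearMap.mem_ker.mp (hgW hn2)

end Pool.Agent.Helper26.RC
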