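import Pool.Agent.Helper26.RC.Adapt
import Pool.Agent.Helper26.RC.Sub
import Pool.Agent.Helper26.RC.ExtA
import Pool.Agent.Helper26.RC.Basis

/-! Block RC-UP (about 250 lines): the upper bound for the Hilbert function from the subspace theorem.

Write `y = emb Ω x`, `D = hilb U y δ > 0`, `E = {v ∈ S : 0 < g v}`. For `v ∈ E` let `G_v : Fin D → Ω[x]` be the adapted basis (`adapted (hcv v) (hb v) δ`) with rates `ρ_{v,k} ≤ δ - k / b v` for `μ v`.
Let `m : Fin D → (Fin N →₀ ℕ)` be as in `exists_basis`, `e k = monomial (m k) 1`. Let `L` be a finite Galois extension of `K` in `Ω` containing all coefficients of all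
`G_v k` (`v ∈ E`, `k < D`) (normal closure of the field generated by them; `IsGalois`, characteristic zero). `G_v k ≡ ∑_j M_{v,k,j} e_j` modulo `van`, `M_v ∈ Mat (L)`, invertible since the `G_v k` are linearly independent modulo
`van` (last property of `adapted`): if `a M_v = 0` then `∑ a_k G_v k ∈ van`.
Places: `S_L = S.biUnion (above L)`. Every place `w` of `L` is above exactly one `v` (`exists_below`, `above_unique`). For `v ∈ S` let `w_v ∈ above L v`, `a_v > 0` with `nv w_v z = μ v z ^ a_v` on `L` (`hμ`).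
For `w ∈ above L v`, `exists_gal`: `τ_w : L ≃ₐ[K] L` with `nv w_v (τ_w z) = nv w z`.
Apply `sub_lim` over `L` with `z n k = (e k) (x n) ∈ K ⊂ L`, `t`, `S_L`:
* `hint`: for `w ∉ S_L`, `w` above `v ∉ S`: `nv w (z n k) = nv v ((e k) (x n)) ^ ldeg ≤ 1` by `hS` (`nv_above`).
* `hgen`: `exists_basis`, linear independence.
* for `w` above `v ∈ E`: `M w = (M_v)` with `τ_w⁻¹` applied to the entries; then `nv w ((M w z)_k) = nv w_v (∑_j M_{v,k,j} z_j) = μ v (G_v k (y n)) ^ a_v` a.e., whose logarithm is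
  `a_v (ρ_{v,k} + o(1)) log sz (μ v) (y n)`, and `log sz (μ v) (y n) = log sz (av v) (x n) = (g v + o(1)) t n` (`Ext.base`). So `c w k = a_v g_v ρ_{v,k}`.
* for `w` above `v ∈ S ∖ E`: `M w = 1`, `c w k = 0`: `nv w (z n k) = nv v (..) ^ ldeg ≤ sz (av v) (x n) ^ C = exp (o (t n))` since `g v = 0` (`g v ≥ 0` always as `sz ≥ 1`).
Conclusion: `0 ≤ ∑_{w above E} a_v g_v ∑_k ρ_{v,k}`, and `∑_k ρ_{v,k} ≤ δ D - D (D - 1) / (2 b_v) ≤ δ D - D (D - 1) / (2 B)`; the weights `a_v g_v` are positive and there is at least one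
`w`; hence `δ D ≥ D (D - 1) / (2 B)`, i.e. `D ≤ 2 B δ + 1`. (`B > 0` because `b v > 0`.) -/

set_option autoImplicit false

namespace Pool.Agent.Helper26.RC

open MvPolynomial Filter Topology NumberField
open Pool.Agent.Helper64.Vojta (Pl nv above mem_above)
open Pool.Agent.Helper52.Vojta (ldeg nv_above sum_ldeg)

variable {K Ω : Type*} [Field K] [NumberField K] [Field Ω] [Algebra K Ω] [IsAlgClosure K Ω] {N : ℕ}

namespace Up

omit [NumberField K] in
theorem exists_galois [CharZero K] (T : Finset Ω) : ∃ L : IntermediateField K Ω,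
    FiniteDimensional K L ∧ IsGalois K L ∧ ∀ z ∈ T, z ∈ L := by
  have hcl : IsAlgClosed Ω := IsAlgClosure.isAlgClosed K
  have halg : Algebra.IsAlgebraic K Ω := IsAlgClosure.isAlgebraic
  set L0 : IntermediateField K Ω := IntermediateField.adjoin K (T : Set Ω) with hL0
  have hfd : FiniteDimensional K L0 := by
    rw [hL0]
    have : Finite (T : Set Ω) := Finset.finite_toSet T
    exact IntermediateField.finiteDimensional_adjoin fun z _ => (halg.isAlgebraic z).isIntegral
  have hn : Normal K Ω := IsAlgClosure.normal K Ω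
  refine ⟨IntermediateField.normalClosure K L0 Ω, inferInstance, ?_, fun z hz => ?_⟩
  · exact { }
  · exact (IntermediateField.le_normalClosure L0) (IntermediateField.subset_adjoin K _ hz)

omit [NumberField K] [IsAlgClosure K Ω] in
theorem eval_mono (x : ℕ → Fin N → K) (n : ℕ) (m : Fin N →₀ ℕ) :
    eval (emb Ω x n) (monomial m (1 : Ω)) = algebraMap K Ω (eval (x n) (monomial m (1 : K))) := by
  rw [eval_monomial, eval_monomial, one_mul, one_mul]
  unfold emb Finsupp.prod
  rw [map_prod]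
  simp only [map_pow]

omit [NumberField K] [IsAlgClosure K Ω] in
theorem det_ne {U : Ultrafilter ℕ} {x : ℕ → Fin N → K} {L : IntermediateField K Ω} {D : ℕ}
    {m : Fin D → (Fin N →₀ ℕ)} {G : Fin D → MvPolynomial (Fin N) Ω}
    (hG : ∀ a : Fin D → Ω, ∑ k, C (a k) * G k ∈ van U (emb Ω x) → a = 0)
    (a : Matrix (Fin D) (Fin D) L)
    (ha : ∀ k, G k - ∑ j, C (a k j : Ω) * monomial (m j) 1 ∈ van U (emb Ω x)) : a.det ≠ 0 := by
  intro h0
  obtain ⟨c, hc0, hc⟩ := Matrix.exists_vecMul_eq_zero_iff.2 h0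
  apply hc0
  have h1 : ∑ k, C (c k : Ω) * G k ∈ van U (emb Ω x) := by
    have e1 : ∑ k, C (c k : Ω) * G k =
        ∑ k, C (c k : Ω) * (G k - ∑ j, C (a k j : Ω) * monomial (m j) 1) +
        ∑ j, C ((∑ k, c k * a k j : L) : Ω) * monomial (m j) 1 := by
      have e2 : ∑ j, C ((∑ k, c k * a k j : L) : Ω) * monomial (m j) (1 : Ω) =
          ∑ k, C (c k : Ω) * ∑ j, C (a k j : Ω) * monomial (m j) 1 := by
        simp only [Finset.mul_sum]
        rw [Finset.sum_comm]
        refine Finset.sum_congr rfl fun j _ => ?_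
        rw [IntermediateField.coe_sum, map_sum, Finset.sum_mul]
        refine Finset.sum_congr rfl fun k _ => ?_
        rw [← mul_assoc, ← map_mul]
        rfl
      rw [e2, ← Finset.sum_add_distrib]
      refine Finset.sum_congr rfl fun k _ => ?_
      ring
    rw [e1]
    refine Ideal.add_mem _ (Ideal.sum_mem _ fun k _ => Ideal.mul_mem_left _ _ (ha k)) ?_
    refine Ideal.sum_mem _ fun j _ => ?_
    have h2 : ∑ k, c k * a k j = 0 := congrFun hc j
    rw [h2]
    simp
  have h3 := hG _ h1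
  funext k
  have h4 := congrFun h3 k
  exact Subtype.ext h4

omit [IsAlgClosure K Ω] in
/-- the values at the places above a place where the points grow -/
theorem at_pos {L : IntermediateField K Ω} [FiniteDimensional K L] [NumberField L] [IsGalois K L]
    {U : Ultrafilter ℕ} {x : ℕ → Fin N → K} {t : ℕ → ℝ} (ht : Tendsto t (U : Filter ℕ) atTop)
    {v : Pl K} {gv : ℝ}
    (hg : Tendsto (fun n => Real.log (sz (av v) (x n)) / t n) (U : Filter ℕ) (𝓝 gv))
    {μ : AbsoluteValue Ω ℝ} (hμ : Ext v μ) (hcv : Cv μ U (emb Ω x)) {D : ℕ}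
    {m : Fin D → (Fin N →₀ ℕ)} {G : Fin D → MvPolynomial (Fin N) Ω} {ρ : Fin D → ℝ}
    (hρ : ∀ k, Rate μ U (emb Ω x) (G k) (ρ k))
    (a : Matrix (Fin D) (Fin D) L)
    (ha : ∀ k, G k - ∑ j, C (a k j : Ω) * monomial (m j) 1 ∈ van U (emb Ω x)) (hdet : a.det ≠ 0) :
    ∃ α : ℝ, 0 < α ∧ ∀ w ∈ above L v, ∃ M : Matrix (Fin D) (Fin D) L, M.det ≠ 0 ∧
      ∀ k, ∀ ε : ℝ, 0 < ε → ∀ᶠ n in (U : Filter ℕ),
        nv w (M.mulVec (fun j => algebraMap K L (eval (x n) (monomial (m j) 1))) k) ≤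
          Real.exp ((α * gv * ρ k + ε) * t n) := by
  obtain ⟨wv, hwv, α, hα, hαz⟩ := hμ.fin L
  refine ⟨α, hα, fun w hw => ?_⟩
  obtain ⟨σ, hσ⟩ := Pool.Agent.Helper36.SB.exists_gal hw hwv
  refine ⟨a.map σ.symm, ?_, fun k ε hε => ?_⟩
  · have e : (a.map σ.symm).det = σ.symm a.det := (AlgEquiv.map_det σ.symm a).symm
    rw [e]
    exact (map_ne_zero_iff _ σ.symm.injective).2 hdet
  have hsz : ∀ n, sz μ (emb Ω x n) = sz (av v) (x n) := by
    intro n
    unfold sz emb
    simp only [hμ.base]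
  -- the limit
  have hlim : Tendsto (fun n => Real.log (μ (eval (emb Ω x n) (G k))) / t n) (U : Filter ℕ)
      (𝓝 (ρ k * gv)) := by
    have h1 := (hρ k).2.mul hg
    refine h1.congr' ?_
    filter_upwards [hcv.grow.eventually_gt_atTop 0] with n hn
    rw [← hsz n]
    field_simp
  have hε' : 0 < ε / α := div_pos hε hα
  have hev := hlim.eventually (gt_mem_nhds (lt_add_of_pos_right (ρ k * gv) hε'))
  filter_upwards [hev, ht.eventually_gt_atTop 0, ha k, notMem_van.1 (hρ k).1] with n h1 h2 h3 h4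
  have e1 : σ ((a.map σ.symm).mulVec (fun j => algebraMap K L (eval (x n) (monomial (m j) 1))) k) =
      a.mulVec (fun j => algebraMap K L (eval (x n) (monomial (m j) 1))) k := by
    unfold Matrix.mulVec dotProduct
    rw [map_sum]
    refine Finset.sum_congr rfl fun j _ => ?_
    change σ (σ.symm (a k j) * algebraMap K L (eval (x n) (monomial (m j) 1))) =
      a k j * algebraMap K L (eval (x n) (monomial (m j) 1))
    rw [map_mul, AlgEquiv.apply_symm_apply, AlgEquiv.commutes]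
  have e2 : ((a.mulVec (fun j => algebraMap K L (eval (x n) (monomial (m j) 1))) k : L) : Ω) =
      eval (emb Ω x n) (G k) := by
    rw [map_sub, sub_eq_zero] at h3
    rw [h3, map_sum]
    unfold Matrix.mulVec dotProduct
    rw [IntermediateField.coe_sum]
    refine Finset.sum_congr rfl fun j _ => ?_
    rw [map_mul, eval_C, eval_mono]
    rfl
  rw [← hσ, e1, hαz, e2]
  have hpos : 0 < μ (eval (emb Ω x n) (G k)) := μ.pos h4
  rw [Real.rpow_def_of_pos hpos]
  refine Real.exp_le_exp.2 ?_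
  rw [div_lt_iff₀ h2] at h1
  calc Real.log (μ (eval (emb Ω x n) (G k))) * α ≤ ((ρ k * gv + ε / α) * t n) * α :=
        mul_le_mul_of_nonneg_right h1.le hα.le
    _ = _ := by field_simp

omit [IsAlgClosure K Ω] in
/-- the values of monomials at the places above a place where the points do not grow -/
theorem at_zero {L : IntermediateField K Ω} [FiniteDimensional K L] [NumberField L]
    {U : Ultrafilter ℕ} {x : ℕ → Fin N → K} {t : ℕ → ℝ} (ht : Tendsto t (U : Filter ℕ) atTop)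
    {v : Pl K} (hg : Tendsto (fun n => Real.log (sz (av v) (x n)) / t n) (U : Filter ℕ) (𝓝 0))
    {w : Pl L} (hw : w ∈ above L v) (m : Fin N →₀ ℕ) {ε : ℝ} (hε : 0 < ε) :
    ∀ᶠ n in (U : Filter ℕ), nv w (algebraMap K L (eval (x n) (monomial m 1))) ≤
      Real.exp (ε * t n) := by
  obtain ⟨C, hC0, hC⟩ := eval_le (av v) (monomial m (1 : K))
  set δ := (monomial m (1 : K)).totalDegree
  have hlim : Tendsto (fun n => (ldeg v w * wt v : ℝ) * (Real.log C / t n +
      δ * (Real.log (sz (av v) (x n)) / t n))) (U : Filter ℕ)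
      (𝓝 ((ldeg v w * wt v : ℝ) * (0 + δ * 0))) :=
    ((ht.const_div_atTop _).add (hg.const_mul _)).const_mul _
  rw [mul_zero, add_zero, mul_zero] at hlim
  filter_upwards [hlim.eventually (gt_mem_nhds hε), ht.eventually_gt_atTop 0] with n h1 h2
  rw [nv_above hw, nv_eq]
  have h3 : av v (eval (x n) (monomial m 1)) ≤ Real.exp (Real.log C + δ * Real.log (sz (av v) (x n))) := by
    rw [Real.exp_add, Real.exp_log hC0, mul_comm (δ : ℝ), Real.exp_mul,
      Real.exp_log (lt_of_lt_of_le one_pos (one_le_sz _ _)), Real.rpow_natCast]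
    exact hC _
  have h4 : (av v (eval (x n) (monomial m 1)) ^ wt v) ^ ldeg v w ≤
      Real.exp ((ldeg v w * wt v : ℝ) * (Real.log C + δ * Real.log (sz (av v) (x n)))) := by
    rw [← pow_mul]
    refine (pow_le_pow_left₀ ((av v).nonneg _) h3 _).trans (le_of_eq ?_)
    rw [← Real.exp_nat_mul]
    congr 1
    push_cast
    ring
  refine h4.trans (Real.exp_le_exp.2 ?_)
  have h5 : (ldeg v w * wt v : ℝ) * (Real.log C + δ * Real.log (sz (av v) (x n))) =
      (ldeg v w * wt v : ℝ) * (Real.log C / t n + δ * (Real.log (sz (av v) (x n)) / t n)) * t n := by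
    field_simp
  rw [h5]
  exact mul_le_mul_of_nonneg_right h1.le h2.le

omit [IsAlgClosure K Ω] in
theorem at_int {L : IntermediateField K Ω} [FiniteDimensional K L] [NumberField L]
    {y : Fin N → K} {v : Pl K} (hy : ∀ i, nv v (y i) ≤ 1) {w : Pl L} (hw : w ∈ above L v)
    (m : Fin N →₀ ℕ) : nv w (algebraMap K L (eval y (monomial m 1))) ≤ 1 := by
  rw [nv_above hw, nv_eq, eval_monomial, one_mul]
  have h1 : ∀ i, av v (y i) ≤ 1 := by
    intro i
    have := hy i
    rw [nv_eq] at this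
    exact (pow_le_one_iff_of_nonneg ((av v).nonneg _) (wt_pos v).ne').1 this
  have h2 : av v (m.prod fun n e => y n ^ e) ≤ 1 := by
    unfold Finsupp.prod
    rw [map_prod]
    refine Finset.prod_le_one (fun i _ => (av v).nonneg _) fun i _ => ?_
    rw [map_pow]
    exact pow_le_one₀ ((av v).nonneg _) (h1 i)
  exact pow_le_one₀ (pow_nonneg ((av v).nonneg _) _) (pow_le_one₀ ((av v).nonneg _) h2)

theorem sum_rates {D : ℕ} {δ b B : ℕ} (hb : 0 < b) (hbB : b ≤ B) (ρ : Fin D → ℝ)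
    (hρ : ∀ k, ρ k ≤ δ - ((k : ℕ) : ℝ) / b) (hD : 2 * B * δ + 1 < D) : ∑ k, ρ k < 0 := by
  have h1 : ∑ k, ρ k ≤ ∑ k : Fin D, ((δ : ℝ) - ((k : ℕ) : ℝ) / b) :=
    Finset.sum_le_sum fun k _ => hρ k
  have h2 : ∑ k : Fin D, ((δ : ℝ) - ((k : ℕ) : ℝ) / b) = D * δ - (D * (D - 1) / 2) / b := by
    rw [Finset.sum_sub_distrib, ← Finset.sum_div, Finset.sum_const, Finset.card_univ,
      Fintype.card_fin, nsmul_eq_mul]
    congr 2
    rw [Fin.sum_univ_eq_sum_range (fun k => (k : ℝ)) D]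
    have h3 := Finset.sum_range_id_mul_two D
    have h4 : (∑ i ∈ Finset.range D, (i : ℝ)) * 2 = D * (D - 1) := by
      have h5 : 1 ≤ D := by omega
      have := congrArg (Nat.cast (R := ℝ)) h3
      push_cast [Nat.cast_sub h5] at this
      exact this
    linarith
  refine h1.trans_lt ?_
  rw [h2, sub_neg, lt_div_iff₀ (by exact_mod_cast hb)]
  have h5 : (2 * B * δ + 1 : ℝ) < D := by exact_mod_cast hD
  have h6 : (b : ℝ) ≤ B := by exact_mod_cast hbB
  have h7 : (0 : ℝ) ≤ δ := Nat.cast_nonneg _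
  have h8 : (0 : ℝ) < b := by exact_mod_cast hb
  have h9 : (0 : ℝ) < D := by
    have : 0 < D := by omega
    exact_mod_cast this
  have h10 : (δ : ℝ) * b ≤ δ * B := mul_le_mul_of_nonneg_left h6 h7
  have h11 : (δ : ℝ) * b < (D - 1) / 2 := by nlinarith
  calc (D : ℝ) * δ * b = D * (δ * b) := by ring
    _ < D * ((D - 1) / 2) := mul_lt_mul_of_pos_left h11 h9
    _ = _ := by ring

end Up

theorem hilb_upper (U : Ultrafilter ℕ) (x : ℕ → Fin N → K) (S : Finset (Pl K))
    (hS : ∀ n, ∀ v, v ∉ S → ∀ i, nv v (x n i) ≤ 1)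
    (t : ℕ → ℝ) (ht : Tendsto t (U : Filter ℕ) atTop) (g : Pl K → ℝ)
    (hg : ∀ v ∈ S, Tendsto (fun n => Real.log (sz (av v) (x n)) / t n) (U : Filter ℕ) (𝓝 (g v)))
    (hpos : ∃ v ∈ S, 0 < g v) (μ : Pl K → AbsoluteValue Ω ℝ) (hμ : ∀ v ∈ S, Ext v (μ v))
    (hcv : ∀ v ∈ S, 0 < g v → Cv (μ v) U (emb Ω x)) (b : Pl K → ℕ)
    (hb : ∀ v ∈ S, 0 < g v → Ram (μ v) U (emb Ω x) (b v)) (B : ℕ)
    (hB : ∀ v ∈ S, 0 < g v → b v ≤ B) (δ : ℕ) :
    hilb U (emb Ω x) δ ≤ 2 * B * δ + 1 := by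
  classical
  set D := hilb U (emb Ω x) δ with hD
  by_contra hcon
  rw [not_le] at hcon
  have hD0 : 0 < D := by omega
  have hcl : IsAlgClosed Ω := IsAlgClosure.isAlgClosed K
  obtain ⟨m, hm1, hm2, hm3⟩ := exists_basis (Ω := Ω) U x δ
  have hAd : ∀ v : Pl K, ∃ (G : Fin D → MvPolynomial (Fin N) Ω) (ρ : Fin D → ℝ), v ∈ S → 0 < g v →
      (∀ k, (G k).totalDegree ≤ δ) ∧
      (∀ a : Fin D → Ω, ∑ k, C (a k) * G k ∈ van U (emb Ω x) → a = 0) ∧
      ∀ k, ρ k ≤ δ - ((k : ℕ) : ℝ) / b v ∧ Rate (μ v) U (emb Ω x) (G k) (ρ k) := by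
    intro v
    by_cases h : v ∈ S ∧ 0 < g v
    · obtain ⟨G, h1, h2, h3⟩ := adapted (hcv v h.1 h.2) (hb v h.1 h.2) δ
      choose ρ hρ using h3
      exact ⟨G, ρ, fun _ _ => ⟨h1, h2, hρ⟩⟩
    · exact ⟨fun _ => 0, fun _ => 0, fun h1 h2 => absurd ⟨h1, h2⟩ h⟩
  choose G ρ hGρ using hAd
  -- the field
  obtain ⟨L, hfd, hgal, hL⟩ := Up.exists_galois (K := K) (Ω := Ω)
    (S.biUnion fun v => Finset.univ.biUnion fun k => ((G v k).support.image fun n => (G v k).coeff n))
  have hnf : NumberField L := numberField_of L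
  have hcoef : ∀ v ∈ S, ∀ k n, (G v k).coeff n ∈ L := by
    intro v hv k n
    by_cases hn : n ∈ (G v k).support
    · refine hL _ ?_
      rw [Finset.mem_biUnion]
      refine ⟨v, hv, ?_⟩
      rw [Finset.mem_biUnion]
      exact ⟨k, Finset.mem_univ _, Finset.mem_image_of_mem _ hn⟩
    · rw [notMem_support_iff.1 hn]
      exact L.zero_mem
  have hmat : ∀ v : Pl K, ∃ a : Matrix (Fin D) (Fin D) L, v ∈ S → 0 < g v →
      ∀ k, G v k - ∑ j, C (a k j : Ω) * monomial (m j) 1 ∈ van U (emb Ω x) := by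
    intro v
    by_cases h : v ∈ S ∧ 0 < g v
    · choose a ha1 ha2 using fun k => hm3 L (G v k) ((hGρ v h.1 h.2).1 k) (hcoef v h.1 k)
      exact ⟨fun k j => ⟨a k j, ha1 k j⟩, fun _ _ k => ha2 k⟩
    · exact ⟨0, fun h1 h2 => absurd ⟨h1, h2⟩ h⟩
  choose a ha using hmat
  have hloc : ∀ v : Pl K, ∃ α : ℝ, v ∈ S → 0 < g v → 0 < α ∧ ∀ w ∈ above L v,
      ∃ M : Matrix (Fin D) (Fin D) L, M.det ≠ 0 ∧
      ∀ k, ∀ ε : ℝ, 0 < ε → ∀ᶠ n in (U : Filter ℕ),
        nv w (M.mulVec (fun j => algebraMap K L (eval (x n) (monomial (m j) 1))) k) ≤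
          Real.exp ((α * g v * ρ v k + ε) * t n) := by
    intro v
    by_cases h : v ∈ S ∧ 0 < g v
    · obtain ⟨α, h1, h2⟩ := Up.at_pos ht (hg v h.1) (hμ v h.1) (hcv v h.1 h.2)
        (fun k => ((hGρ v h.1 h.2).2.2 k).2) (a v) (ha v h.1 h.2)
        (Up.det_ne (hGρ v h.1 h.2).2.1 (a v) (ha v h.1 h.2))
      exact ⟨α, fun _ _ => ⟨h1, h2⟩⟩
    · exact ⟨0, fun h1 h2 => absurd ⟨h1, h2⟩ h⟩
  choose α hα using hloc
  choose bel hbel using fun w : Pl L => Pool.Agent.Helper52.Vojta.exists_below (L := K) w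
  have hbel' : ∀ (v : Pl K) (w : Pl L), w ∈ above L v → bel w = v := fun v w hw =>
    Pool.Agent.Helper64.Vojta.above_unique (mem_above.1 (hbel w)) (mem_above.1 hw)
  have hMw : ∀ w : Pl L, ∃ M : Matrix (Fin D) (Fin D) L, bel w ∈ S → M.det ≠ 0 ∧
      ∀ k, ∀ ε : ℝ, 0 < ε → ∀ᶠ n in (U : Filter ℕ),
        nv w (M.mulVec (fun j => algebraMap K L (eval (x n) (monomial (m j) 1))) k) ≤
          Real.exp (((if 0 < g (bel w) then α (bel w) * g (bel w) * ρ (bel w) k else 0) + ε) * t n) := by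
    intro w
    by_cases h : bel w ∈ S
    · by_cases h' : 0 < g (bel w)
      · obtain ⟨M, hM1, hM2⟩ := (hα (bel w) h h').2 w (hbel w)
        refine ⟨M, fun _ => ⟨hM1, ?_⟩⟩
        simp only [h', if_true]
        exact hM2
      · refine ⟨1, fun _ => ⟨?_, ?_⟩⟩
        · rw [Matrix.det_one]
          exact one_ne_zero
        · intro k ε hε
          have hg0 : 0 ≤ g (bel w) := by
            refine ge_of_tendsto (hg _ h) ?_
            filter_upwards [ht.eventually_gt_atTop 0] with n hn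
            exact div_nonneg (Real.log_nonneg (one_le_sz _ _)) hn.le
          have hg1 : g (bel w) = 0 := le_antisymm (not_lt.1 h') hg0
          have h2 := hg _ h
          rw [hg1] at h2
          simp only [h', if_false, zero_add, Matrix.one_mulVec]
          exact Up.at_zero ht h2 (hbel w) (m k) hε
    · exact ⟨1, fun h1 => absurd h1 h⟩
  choose Mw hMw using hMw
  have hSL : ∀ w : Pl L, w ∈ S.biUnion (above L) ↔ bel w ∈ S := by
    intro w
    rw [Finset.mem_biUnion]
    constructor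
    · rintro ⟨v, hv, hw⟩
      rw [hbel' v w hw]
      exact hv
    · intro h
      exact ⟨_, h, hbel w⟩
  have hmain := sub_lim hD0 U t ht (S.biUnion (above L))
    (fun n j => algebraMap K L (eval (x n) (monomial (m j) 1))) ?_ ?_ Mw
    (fun w hw => (hMw w ((hSL w).1 hw)).1)
    (fun w k => if 0 < g (bel w) then α (bel w) * g (bel w) * ρ (bel w) k else 0)
    (fun w hw => (hMw w ((hSL w).1 hw)).2)
  · obtain ⟨v0, hv0, hgv0⟩ := hpos
    have hle : ∀ w ∈ S.biUnion (above L),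
        ∑ k, (if 0 < g (bel w) then α (bel w) * g (bel w) * ρ (bel w) k else 0) ≤ 0 := by
      intro w hw
      by_cases h' : 0 < g (bel w)
      · simp only [h', if_true]
        rw [← Finset.mul_sum]
        have hS' := (hSL w).1 hw
        refine mul_nonpos_of_nonneg_of_nonpos (mul_nonneg (hα _ hS' h').1.le h'.le) ?_
        exact (Up.sum_rates (hb _ hS' h').pos (hB _ hS' h') _
          (fun k => ((hGρ _ hS' h').2.2 k).1) hcon).le
      · simp only [h', if_false, Finset.sum_const_zero, le_refl]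
    have hlt : ∃ w ∈ S.biUnion (above L),
        ∑ k, (if 0 < g (bel w) then α (bel w) * g (bel w) * ρ (bel w) k else 0) < 0 := by
      obtain ⟨w, hw, -⟩ := (hμ v0 hv0).fin L
      have e := hbel' v0 w hw
      refine ⟨w, (hSL w).2 (by rw [e]; exact hv0), ?_⟩
      rw [e]
      simp only [hgv0, if_true]
      rw [← Finset.mul_sum]
      refine mul_neg_of_pos_of_neg (mul_pos (hα _ hv0 hgv0).1 hgv0) ?_
      exact Up.sum_rates (hb _ hv0 hgv0).pos (hB _ hv0 hgv0) _
          (fun k => ((hGρ _ hv0 hgv0).2.2 k).1) hcon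
    exact absurd hmain (not_le.2 (Finset.sum_neg' hle hlt))
  · intro n w hw k
    have h1 : bel w ∉ S := fun h => hw ((hSL w).2 h)
    exact Up.at_int (hS n _ h1) (hbel w) (m k)
  · intro c hc
    refine Ultrafilter.eventually_not.2 fun hz => hc ?_
    have h1 : ∑ k, C (c k : Ω) * monomial (m k) 1 ∈ van U (emb Ω x) := by
      rw [mem_van]
      filter_upwards [hz] with n hn
      have e : eval (emb Ω x n) (∑ k, C (c k : Ω) * monomial (m k) 1) =
          ((∑ k, c k * algebraMap K L (eval (x n) (monomial (m k) 1)) : L) : Ω) := by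
        rw [map_sum, IntermediateField.coe_sum]
        refine Finset.sum_congr rfl fun j _ => ?_
        rw [map_mul, eval_C, Up.eval_mono]
        rfl
      rw [e, hn]
      rfl
    have h2 := hm2 _ h1
    funext k
    exact Subtype.ext (congrFun h2 k)

end Pool.Agent.Helper26.RC
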