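import Pool.Agent.Helper26.RC.VZero

/-! Block RC-V2 (about 150 lines): the residue field is `Ω`.

Let `i` be as in `exists_coord`, `s n = sz μ (y n)`, `ξ = y n i` (`s ≤ C μ (ξ)`), `u = f (y n) / g (y n)`. `exists_rel`: `∑_{j ≤ J} a_j (ξ) f ^ j g ^ (J - j) = 0`, so
`∑ a_j (ξ) u ^ j = 0`. Let `M = max natDegree (a_j)` (over `j ≤ J`), `q_j = coeff (a_j) M`; not all `q_j` are zero. Dividing by `ξ ^ M`:
`Q (u) = ∑ q_j u ^ j` satisfies `μ (Q (u)) = μ (∑ (q_j - a_j (ξ) / ξ ^ M) u ^ j) ≤ C μ (ξ)⁻¹ (1 + μ (u)) ^ J`. The rates of `f` and `g`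
agree, so `μ (u) ≤ s ^ ε` a.e. for every `ε > 0`; with `ε = 1 / (2 J + 2)`: `μ (Q (u)) ≤ s ^ (-1/3)` a.e. If `Q` is a constant, it is
nonzero: contradiction. Otherwise `Q = q ∏ (X - c_k)` (`Ω` algebraically closed; `D = deg Q ≥ 1` factors) and a.e. some factor
(one and the same `k`, ultrafilter) has `μ (u - c_k) ≤ (s ^ (-1/3) / μ q) ^ (1 / D) ≤ s ^ (-1 / (4 D))`.
`c = c_k` is not zero: otherwise `μ (u) ≤ s ^ (-1/(4D))`, against `log μ (u) / log s → 0`. Finally
`μ (f - c g) = μ (g) μ (u - c)`, so if `f - c g ∉ van` its rate (`rate_exists`) is at most `ρ - 1 / (4 D) < ρ`. -/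

set_option autoImplicit false

namespace Pool.Agent.Helper26.RC

open MvPolynomial Filter Topology

variable {Ω : Type*} [Field Ω] [IsAlgClosed Ω] {N : ℕ} {μ : AbsoluteValue Ω ℝ} {U : Ultrafilter ℕ}
  {y : ℕ → Fin N → Ω}

private theorem prod_ge_pow {δ : ℝ} (hδ : 0 ≤ δ) (s : Multiset ℝ) (h : ∀ x ∈ s, δ ≤ x) :
    δ ^ Multiset.card s ≤ s.prod := by
  induction s using Multiset.induction_on with
  | empty => simp
  | cons a s ih =>
    rw [Multiset.card_cons, Multiset.prod_cons, pow_succ']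
    have h1 : δ ≤ a := h a (Multiset.mem_cons_self a s)
    have h2 := ih fun x hx => h x (Multiset.mem_cons_of_mem hx)
    exact mul_le_mul h1 h2 (pow_nonneg hδ _) (hδ.trans h1)

omit [IsAlgClosed Ω] in
/-- Comparison of a polynomial with its term of degree `M`. -/
private theorem top_coeff (μ : AbsoluteValue Ω ℝ) (a : Polynomial Ω) {M : ℕ} (hM : a.natDegree ≤ M) :
    ∃ C : ℝ, 0 ≤ C ∧ ∀ x : Ω, 1 ≤ μ x →
      μ (a.eval x - a.coeff M * x ^ M) * μ x ≤ C * μ x ^ M := by
  refine ⟨∑ m ∈ Finset.range M, μ (a.coeff m), Finset.sum_nonneg fun m _ => μ.nonneg _, ?_⟩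
  intro x hx
  have h1 : a.eval x - a.coeff M * x ^ M = ∑ m ∈ Finset.range M, a.coeff m * x ^ m := by
    rw [Polynomial.eval_eq_sum_range' (Nat.lt_succ_of_le hM), Finset.sum_range_succ]
    ring
  rw [h1]
  calc μ (∑ m ∈ Finset.range M, a.coeff m * x ^ m) * μ x
      ≤ (∑ m ∈ Finset.range M, μ (a.coeff m * x ^ m)) * μ x :=
        mul_le_mul_of_nonneg_right (μ.sum_le _ _) (μ.nonneg _)
    _ = ∑ m ∈ Finset.range M, μ (a.coeff m) * μ x ^ (m + 1) := by
        rw [Finset.sum_mul]
        refine Finset.sum_congr rfl fun m _ => ?_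
        rw [map_mul, map_pow]
        ring
    _ ≤ ∑ m ∈ Finset.range M, μ (a.coeff m) * μ x ^ M := by
        refine Finset.sum_le_sum fun m hm => ?_
        exact mul_le_mul_of_nonneg_left
          (pow_le_pow_right₀ hx (Nat.succ_le_of_lt (Finset.mem_range.1 hm))) (μ.nonneg _)
    _ = _ := by rw [Finset.sum_mul]

omit [IsAlgClosed Ω] in
/-- The polynomial of the top coefficients. -/
private theorem exists_Q (μ : AbsoluteValue Ω ℝ) {J : ℕ} {a : ℕ → Polynomial Ω}
    (ha : ∃ j ≤ J, a j ≠ 0) :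
    ∃ Q : Polynomial Ω, Q ≠ 0 ∧ ∃ C : ℝ, 0 < C ∧ ∀ x u : Ω, 1 ≤ μ x →
      ∑ j ∈ Finset.range (J + 1), (a j).eval x * u ^ j = 0 →
      μ (Q.eval u) * μ x ≤ C * (1 + μ u) ^ J := by
  classical
  set S : Finset ℕ := (Finset.range (J + 1)).filter (fun j => a j ≠ 0) with hS
  have hSne : S.Nonempty := by
    obtain ⟨j, hj, hj0⟩ := ha
    exact ⟨j, Finset.mem_filter.2 ⟨Finset.mem_range.2 (Nat.lt_succ_of_le hj), hj0⟩⟩
  obtain ⟨j1, hj1, hmax⟩ := Finset.exists_max_image S (fun j => (a j).natDegree) hSne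
  obtain ⟨hj1r, hj10⟩ := Finset.mem_filter.1 hj1
  set M := (a j1).natDegree with hM
  have hdeg : ∀ j ∈ Finset.range (J + 1), (a j).natDegree ≤ M := by
    intro j hj
    by_cases h0 : a j = 0
    · rw [h0, Polynomial.natDegree_zero]; exact Nat.zero_le _
    · exact hmax j (Finset.mem_filter.2 ⟨hj, h0⟩)
  choose! K hK0 hK using fun j (hj : j ∈ Finset.range (J + 1)) => top_coeff μ (a j) (hdeg j hj)
  set Q : Polynomial Ω := ∑ j ∈ Finset.range (J + 1),
    Polynomial.C ((a j).coeff M) * Polynomial.X ^ j with hQ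
  have hQc : Q.coeff j1 = (a j1).coeff M := by
    rw [hQ, Polynomial.finsetSum_coeff, Finset.sum_eq_single j1]
    · rw [Polynomial.coeff_C_mul_X_pow, if_pos rfl]
    · intro j _ hne
      rw [Polynomial.coeff_C_mul_X_pow, if_neg hne.symm]
    · exact fun hn => absurd hj1r hn
  refine ⟨Q, ?_, 1 + ∑ j ∈ Finset.range (J + 1), K j, ?_, ?_⟩
  · intro h0
    rw [h0, Polynomial.coeff_zero] at hQc
    exact hj10 (Polynomial.leadingCoeff_eq_zero.1 hQc.symm)
  · have := Finset.sum_nonneg hK0
    linarith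
  · intro x u hx hsum
    have hx0 : 0 < μ x := by linarith
    have hQe : Q.eval u = ∑ j ∈ Finset.range (J + 1), (a j).coeff M * u ^ j := by
      rw [hQ, Polynomial.eval_finsetSum]
      exact Finset.sum_congr rfl fun j _ => by simp
    have h1 : Q.eval u * x ^ M = - ∑ j ∈ Finset.range (J + 1),
        ((a j).eval x - (a j).coeff M * x ^ M) * u ^ j := by
      have h2 : ∑ j ∈ Finset.range (J + 1), ((a j).eval x - (a j).coeff M * x ^ M) * u ^ j =
          ∑ j ∈ Finset.range (J + 1), (a j).eval x * u ^ j -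
          (∑ j ∈ Finset.range (J + 1), (a j).coeff M * u ^ j) * x ^ M := by
        rw [Finset.sum_mul, ← Finset.sum_sub_distrib]
        exact Finset.sum_congr rfl fun j _ => by ring
      rw [h2, hsum, hQe]
      ring
    have hu1 : 1 ≤ 1 + μ u := by have := μ.nonneg u; linarith
    have h3 : μ (Q.eval u) * μ x * μ x ^ M ≤
        ((1 + ∑ j ∈ Finset.range (J + 1), K j) * (1 + μ u) ^ J) * μ x ^ M := by
      calc μ (Q.eval u) * μ x * μ x ^ M = μ (Q.eval u * x ^ M) * μ x := by
            rw [map_mul, map_pow]; ring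
        _ = μ (∑ j ∈ Finset.range (J + 1),
              ((a j).eval x - (a j).coeff M * x ^ M) * u ^ j) * μ x := by
            rw [h1, AbsoluteValue.map_neg]
        _ ≤ (∑ j ∈ Finset.range (J + 1),
              μ (((a j).eval x - (a j).coeff M * x ^ M) * u ^ j)) * μ x :=
            mul_le_mul_of_nonneg_right (μ.sum_le _ _) hx0.le
        _ = ∑ j ∈ Finset.range (J + 1),
              (μ ((a j).eval x - (a j).coeff M * x ^ M) * μ x) * μ u ^ j := by
            rw [Finset.sum_mul]
            refine Finset.sum_congr rfl fun j _ => ?_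
            rw [map_mul, map_pow]; ring
        _ ≤ ∑ j ∈ Finset.range (J + 1), (K j * μ x ^ M) * (1 + μ u) ^ J := by
            refine Finset.sum_le_sum fun j hj => ?_
            have h4 : μ u ^ j ≤ (1 + μ u) ^ J :=
              (pow_le_pow_left₀ (μ.nonneg u) (by linarith) j).trans
                (pow_le_pow_right₀ hu1 (Nat.lt_succ_iff.1 (Finset.mem_range.1 hj)))
            exact mul_le_mul (hK j hj x hx) h4 (pow_nonneg (μ.nonneg u) j)
              (mul_nonneg (hK0 j hj) (pow_nonneg hx0.le _))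
        _ = (∑ j ∈ Finset.range (J + 1), K j) * (1 + μ u) ^ J * μ x ^ M := by
            rw [Finset.sum_mul, Finset.sum_mul]
            exact Finset.sum_congr rfl fun j _ => by ring
        _ ≤ _ := by
            refine mul_le_mul_of_nonneg_right ?_ (pow_nonneg hx0.le _)
            refine mul_le_mul_of_nonneg_right (by linarith) (pow_nonneg (by linarith) _)
    exact le_of_mul_le_mul_right h3 (pow_pos hx0 M)

theorem resid (h : Cv μ U y) {f g : MvPolynomial (Fin N) Ω} {ρ : ℝ} (hf : Rate μ U y f ρ)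
    (hg : Rate μ U y g ρ) :
    ∃ c : Ω, c ≠ 0 ∧ (f - C c * g ∈ van U y ∨ ∃ σ < ρ, Rate μ U y (f - C c * g) σ) := by
  classical
  obtain ⟨i, hi, C0, hC0, hC⟩ := exists_coord h.grow
  obtain ⟨J, a, ha, hrel⟩ := exists_rel h.trdeg i (f := f) hg.1
  obtain ⟨Q, hQ0, C1, hC1, hQ⟩ := exists_Q μ ha
  set T : ℕ → ℝ := fun n => Real.log (sz μ (y n)) with hT
  set u : ℕ → Ω := fun n => eval (y n) f / eval (y n) g with hu
  have hfe := notMem_van.1 hf.1
  have hge := notMem_van.1 hg.1
  have hTpos : ∀ᶠ n in (U : Filter ℕ), 0 < T n := h.grow.eventually_gt_atTop 0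
  have hlogu : Tendsto (fun n => Real.log (μ (u n)) / T n) (U : Filter ℕ) (𝓝 0) := by
    have h1 := hf.2.sub hg.2
    rw [sub_self] at h1
    refine h1.congr' ?_
    filter_upwards [hfe, hge] with n h2 h3
    rw [hu]
    simp only
    rw [map_div₀, Real.log_div (by simpa using h2) (by simpa using h3), sub_div]
  have hexp : ∀ n, Real.exp (T n) = sz μ (y n) := fun n =>
    Real.exp_log (lt_of_lt_of_le one_pos (one_le_sz μ (y n)))
  have hup : ∀ ε : ℝ, 0 < ε → ∀ᶠ n in (U : Filter ℕ), μ (u n) ≤ Real.exp (ε * T n) := by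
    intro ε hε
    filter_upwards [hlogu.eventually_lt_const hε, hTpos, hfe, hge] with n h1 h2 h3 h4
    have h5 : 0 < μ (u n) := μ.pos (div_ne_zero h3 h4)
    rw [div_lt_iff₀ h2] at h1
    rw [← Real.log_le_iff_le_exp h5]
    exact h1.le
  have hlow : ∀ ε : ℝ, 0 < ε → ∀ᶠ n in (U : Filter ℕ), Real.exp (-(ε * T n)) ≤ μ (u n) := by
    intro ε hε
    filter_upwards [hlogu.eventually_const_lt (neg_lt_zero.2 hε), hTpos, hfe, hge]
      with n h1 h2 h3 h4
    have h5 : 0 < μ (u n) := μ.pos (div_ne_zero h3 h4)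
    rw [lt_div_iff₀ h2] at h1
    rw [← Real.le_log_iff_exp_le h5]
    linarith
  -- the bound for `Q (u)`
  have hQu : ∀ᶠ n in (U : Filter ℕ),
      μ (Q.eval (u n)) ≤ (C1 * 2 ^ J * C0) * Real.exp (-(T n / 2)) := by
    have hJ : (0 : ℝ) < 1 / (2 * J + 2) := by positivity
    have hbig : ∀ᶠ n in (U : Filter ℕ), Real.log C0 < T n := h.grow.eventually_gt_atTop _
    filter_upwards [hup _ hJ, hC, hTpos, hfe, hge, mem_van.1 hrel, hbig]
      with n h1 h2 h3 h4 h5 h6 h7
    have hx : 1 ≤ μ (y n i) := by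
      have h8 : C0 ≤ Real.exp (T n) := ((Real.log_lt_iff_lt_exp hC0).1 h7).le
      rw [← hexp n] at h2
      by_contra hcon
      push Not at hcon
      have h9 : C0 * μ (y n i) < C0 * 1 := mul_lt_mul_of_pos_left hcon hC0
      linarith
    have hsum : ∑ j ∈ Finset.range (J + 1), (a j).eval (y n i) * u n ^ j = 0 := by
      have hG : (eval (y n) g) ^ J ≠ 0 := pow_ne_zero _ h5
      have h8 : (∑ j ∈ Finset.range (J + 1), (a j).eval (y n i) * u n ^ j) *
          (eval (y n) g) ^ J = 0 := by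
        rw [← h6, map_sum, Finset.sum_mul]
        refine Finset.sum_congr rfl fun j hj => ?_
        have hjJ : j ≤ J := Nat.lt_succ_iff.1 (Finset.mem_range.1 hj)
        have h9 : (eval (y n) g) ^ J = (eval (y n) g) ^ j * (eval (y n) g) ^ (J - j) := by
          rw [← pow_add, Nat.add_sub_cancel' hjJ]
        have h10 : eval (y n) (Polynomial.aeval (X i : MvPolynomial (Fin N) Ω) (a j)) =
            (a j).eval (y n i) := by
          rw [← MvPolynomial.coe_aeval_eq_eval]
          change (aeval (y n)) (Polynomial.aeval (X i : MvPolynomial (Fin N) Ω) (a j)) = _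
          rw [← Polynomial.aeval_algHom_apply, aeval_X, Polynomial.coe_aeval_eq_eval]
        rw [map_mul, map_mul, map_pow, map_pow, h10, h9, hu]
        simp only
        rw [div_pow]
        field_simp
      exact (mul_eq_zero.1 h8).resolve_right hG
    have h8 := hQ (y n i) (u n) hx hsum
    have hx0 : 0 < μ (y n i) := by linarith
    have hE : 1 ≤ Real.exp (1 / (2 * (J : ℝ) + 2) * T n) :=
      Real.one_le_exp (mul_nonneg hJ.le h3.le)
    have h9 : (1 + μ (u n)) ^ J ≤ 2 ^ J * Real.exp (T n / 2) := by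
      calc (1 + μ (u n)) ^ J ≤ (2 * Real.exp (1 / (2 * (J : ℝ) + 2) * T n)) ^ J :=
            pow_le_pow_left₀ (by have := μ.nonneg (u n); linarith) (by linarith) J
        _ = 2 ^ J * Real.exp ((J : ℝ) * (1 / (2 * (J : ℝ) + 2) * T n)) := by
            rw [mul_pow, Real.exp_nat_mul]
        _ ≤ 2 ^ J * Real.exp (T n / 2) := by
            refine mul_le_mul_of_nonneg_left (Real.exp_le_exp.2 ?_) (by positivity)
            have h10 : (J : ℝ) * (1 / (2 * J + 2)) ≤ 1 / 2 := by
              rw [mul_one_div, div_le_div_iff₀ (by positivity) (by norm_num)]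
              linarith
            calc (J : ℝ) * (1 / (2 * (J : ℝ) + 2) * T n) = (J * (1 / (2 * J + 2))) * T n := by ring
              _ ≤ 1 / 2 * T n := mul_le_mul_of_nonneg_right h10 h3.le
              _ = T n / 2 := by ring
    have h11 : μ (Q.eval (u n)) * μ (y n i) ≤ C1 * (2 ^ J * Real.exp (T n / 2)) :=
      h8.trans (mul_le_mul_of_nonneg_left h9 hC1.le)
    have h12 : μ (Q.eval (u n)) * Real.exp (T n) ≤ C1 * 2 ^ J * C0 * Real.exp (T n / 2) := by
      calc μ (Q.eval (u n)) * Real.exp (T n) ≤ μ (Q.eval (u n)) * (C0 * μ (y n i)) :=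
            mul_le_mul_of_nonneg_left (by rw [hexp n]; exact h2) (μ.nonneg _)
        _ = C0 * (μ (Q.eval (u n)) * μ (y n i)) := by ring
        _ ≤ C0 * (C1 * (2 ^ J * Real.exp (T n / 2))) := mul_le_mul_of_nonneg_left h11 hC0.le
        _ = _ := by ring
    have h13 : Real.exp (T n / 2) = Real.exp (-(T n / 2)) * Real.exp (T n) := by
      rw [← Real.exp_add]; congr 1; ring
    rw [h13, ← mul_assoc] at h12
    exact le_of_mul_le_mul_right h12 (Real.exp_pos _)
  have hexp0 : Tendsto (fun n => Real.exp (-(T n / 4))) (U : Filter ℕ) (𝓝 0) := by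
    refine Real.tendsto_exp_neg_atTop_nhds_zero.comp ?_
    exact h.grow.atTop_div_const (by norm_num)
  -- `Q` is not constant
  have hD : 0 < Q.natDegree := by
    rw [Nat.pos_iff_ne_zero]
    intro h0
    have h1 : Q = Polynomial.C (Q.coeff 0) := Polynomial.eq_C_of_natDegree_eq_zero h0
    have hq : Q.coeff 0 ≠ 0 := by
      intro h2
      rw [h2, map_zero] at h1
      exact hQ0 h1
    have h2 : Tendsto (fun n => (C1 * 2 ^ J * C0) * Real.exp (-(T n / 2))) (U : Filter ℕ)
        (𝓝 ((C1 * 2 ^ J * C0) * 0)) := by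
      refine Tendsto.const_mul _ ?_
      refine Real.tendsto_exp_neg_atTop_nhds_zero.comp ?_
      exact h.grow.atTop_div_const (by norm_num)
    rw [mul_zero] at h2
    have h3 := (h2.eventually_lt_const (μ.pos hq)).and hQu
    obtain ⟨n, h4, h5⟩ := h3.exists
    rw [h1, Polynomial.eval_C] at h5
    linarith
  set D := Q.natDegree with hDdef
  have hDr : (0 : ℝ) < D := by exact_mod_cast hD
  have hlead : Q.leadingCoeff ≠ 0 := Polynomial.leadingCoeff_ne_zero.2 hQ0
  -- one root is close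
  have hroot : ∀ᶠ n in (U : Filter ℕ), ∃ c ∈ Q.roots.toFinset,
      μ (u n - c) ≤ Real.exp (-(T n / (4 * D))) := by
    have h1 : Tendsto (fun n => (C1 * 2 ^ J * C0) * Real.exp (-(T n / 4))) (U : Filter ℕ)
        (𝓝 ((C1 * 2 ^ J * C0) * 0)) := Tendsto.const_mul _ hexp0
    rw [mul_zero] at h1
    filter_upwards [h1.eventually_lt_const (μ.pos hlead), hQu] with n h2 h3
    by_contra hcon
    push Not at hcon
    have hsplit : Q.Splits := IsAlgClosed.splits Q
    have h4 : Q.eval (u n) = Q.leadingCoeff * (Q.roots.map fun c => u n - c).prod := by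
      have h5 := hsplit.eq_prod_roots
      conv_lhs => rw [h5]
      rw [Polynomial.eval_mul, Polynomial.eval_C, Polynomial.eval_multiset_prod, Multiset.map_map]
      congr 2
      refine Multiset.map_congr rfl fun c _ => ?_
      simp
    have h5 : μ (Q.eval (u n)) = μ Q.leadingCoeff *
        (Q.roots.map fun c => μ (u n - c)).prod := by
      rw [h4, map_mul, map_multiset_prod, Multiset.map_map]
      rfl
    have h6 : Multiset.card (Q.roots.map fun c => μ (u n - c)) = D := by
      rw [Multiset.card_map]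
      exact hsplit.natDegree_eq_card_roots.symm
    have h7 : Real.exp (-(T n / (4 * D))) ^ D ≤ (Q.roots.map fun c => μ (u n - c)).prod := by
      have h8 := prod_ge_pow (Real.exp_pos (-(T n / (4 * D)))).le
        (Q.roots.map fun c => μ (u n - c)) (by
          intro x hx
          obtain ⟨c, hc, rfl⟩ := Multiset.mem_map.1 hx
          exact (hcon c (Multiset.mem_toFinset.2 hc)).le)
      rw [h6] at h8
      exact h8
    have h9 : Real.exp (-(T n / (4 * D))) ^ D = Real.exp (-(T n / 4)) := by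
      rw [← Real.exp_nat_mul]
      congr 1
      field_simp
    rw [h9] at h7
    have h10 : μ Q.leadingCoeff * Real.exp (-(T n / 4)) ≤
        (C1 * 2 ^ J * C0) * Real.exp (-(T n / 2)) := by
      calc _ ≤ μ Q.leadingCoeff * (Q.roots.map fun c => μ (u n - c)).prod :=
            mul_le_mul_of_nonneg_left h7 (μ.nonneg _)
        _ = μ (Q.eval (u n)) := h5.symm
        _ ≤ _ := h3
    have h11 : Real.exp (-(T n / 2)) = Real.exp (-(T n / 4)) * Real.exp (-(T n / 4)) := by
      rw [← Real.exp_add]; congr 1; ring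
    rw [h11, ← mul_assoc] at h10
    have h12 := le_of_mul_le_mul_right h10 (Real.exp_pos _)
    linarith
  have hroot2 : ∃ c ∈ Q.roots.toFinset, ∀ᶠ n in (U : Filter ℕ),
      μ (u n - c) ≤ Real.exp (-(T n / (4 * D))) := by
    have h1 : (⋃ c ∈ (Q.roots.toFinset : Set Ω),
        {n : ℕ | μ (u n - c) ≤ Real.exp (-(T n / (4 * D)))}) ∈ U := by
      filter_upwards [hroot] with n hn
      obtain ⟨c, hc, hcn⟩ := hn
      exact Set.mem_biUnion (Finset.mem_coe.2 hc) hcn
    rw [Ultrafilter.finite_biUnion_mem_iff (Finset.finite_toSet _)] at h1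
    obtain ⟨c, hc, hcn⟩ := h1
    exact ⟨c, Finset.mem_coe.1 hc, hcn⟩
  obtain ⟨c, -, hc⟩ := hroot2
  refine ⟨c, ?_, ?_⟩
  · rintro rfl
    have hε : (0 : ℝ) < 1 / (8 * D) := by positivity
    obtain ⟨n, h1, h2, h3⟩ := (hc.and ((hlow _ hε).and hTpos)).exists
    rw [sub_zero] at h1
    have h4 := Real.exp_le_exp.1 (h2.trans h1)
    have h5 : T n / (4 * D) = 2 * (1 / (8 * D) * T n) := by
      field_simp
      ring
    have h6 : 0 < 1 / (8 * D) * T n := mul_pos hε h3
    rw [h5] at h4
    linarith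
  · by_cases hv : f - C c * g ∈ van U y
    · exact Or.inl hv
    · refine Or.inr ?_
      obtain ⟨σ, hσ⟩ := rate_exists h hv
      refine ⟨σ, ?_, hσ⟩
      have hve := notMem_van.1 hv
      have h1 : σ ≤ ρ - 1 / (4 * D) := by
        refine le_of_tendsto_of_tendsto hσ.2 (hg.2.sub_const (1 / (4 * (D : ℝ)))) ?_
        filter_upwards [hc, hTpos, hge, hve] with n h1 h2 h3 h4
        have h5 : eval (y n) (f - C c * g) = eval (y n) g * (u n - c) := by
          rw [map_sub, map_mul, eval_C, hu]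
          simp only
          field_simp
        have h6 : u n - c ≠ 0 := by
          intro h7
          rw [h5, h7, mul_zero] at h4
          exact h4 rfl
        rw [h5, map_mul, Real.log_mul (μ.pos h3).ne' (μ.pos h6).ne', add_div]
        have h8 : Real.log (μ (u n - c)) ≤ -(T n / (4 * D)) :=
          (Real.log_le_iff_le_exp (μ.pos h6)).2 h1
        have h9 : Real.log (μ (u n - c)) / T n ≤ -(1 / (4 * (D : ℝ))) := by
          rw [div_le_iff₀ h2]
          have : -(1 / (4 * (D : ℝ))) * T n = -(T n / (4 * D)) := by ring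
          rw [this]
          exact h8
        have h10 : Real.log (sz μ (y n)) = T n := rfl
        rw [h10]
        linarith
      have h2 : (0 : ℝ) < 1 / (4 * D) := by positivity
      linarith

end Pool.Agent.Helper26.RC
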