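import Pool.Agent.Helper26.RC.Rates
import Pool.Agent.Helper26.RC.Rel

/-! Block RC-V0 (about 120 lines): every polynomial which does not vanish on the curve has a growth rate.

Let `i` be as in `exists_coord`. `exists_rel` with `g = 1`: `∑_{j ≤ J} a_j (x_i) f ^ j = 0` a.e., some `a_j ≠ 0`. Let `k` be the least `j` with
`a_j ≠ 0`; dividing by `f ^ k` (`f (y n) ≠ 0` a.e.) one gets `a_k (x_i) = - f * ∑_{j > k} a_j (x_i) f ^ (j - k - 1)`, and
`μ (a_k (y n i)) ≥ c > 0` a.e. for some constant `c` (`rate_poly`: the rate of `a_k (x_i)` is `natDegree ≥ 0`; if the degree is zero it is a nonzero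
constant; simplest: `μ (a_k (y n i)) ≥ s ^ (-1)` a.e. by the rate). The sum is at most `C s ^ C'` by `eval_le`. Hence `μ (f (y n)) ≥ s ^ (-C'')` a.e.
and by `eval_le` `μ (f (y n)) ≤ C s ^ deg`. So `log μ (f) / log s` is a.e. in a compact interval and has a limit along the
ultrafilter (`isCompact_Icc.ultrafilter_le_nhds'`). -/

set_option autoImplicit false

namespace Pool.Agent.Helper26.RC

open MvPolynomial Filter Topology

variable {Ω : Type*} [Field Ω] {N : ℕ} {μ : AbsoluteValue Ω ℝ} {U : Ultrafilter ℕ}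
  {y : ℕ → Fin N → Ω}

/-- the relation `P + f Q = 0` with `P` a nonzero polynomial in one coordinate -/
private lemma h74_rel (h : Cv μ U y) {f : MvPolynomial (Fin N) Ω} (hf : f ∉ van U y) (i : Fin N) :
    ∃ (p : Polynomial Ω) (Q : MvPolynomial (Fin N) Ω), p ≠ 0 ∧
      Polynomial.aeval (X i : MvPolynomial (Fin N) Ω) p + f * Q ∈ van U y := by
  classical
  have h1 : (1 : MvPolynomial (Fin N) Ω) ∉ van U y := (Ideal.ne_top_iff_one _).1 (van_prime U y).ne_top
  obtain ⟨J, a, hex, hsum⟩ := exists_rel h.trdeg i (f := f) h1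
  have hex' : ∃ j, j ≤ J ∧ a j ≠ 0 := by
    obtain ⟨j, hj, hj'⟩ := hex
    exact ⟨j, hj, hj'⟩
  obtain ⟨k, ⟨hkJ, hk0⟩, hmin⟩ : ∃ k, (k ≤ J ∧ a k ≠ 0) ∧ ∀ j < k, ¬ (j ≤ J ∧ a j ≠ 0) :=
    ⟨Nat.find hex', Nat.find_spec hex', fun j hj => Nat.find_min hex' hj⟩
  have hzero : ∀ j < k, a j = 0 := by
    intro j hj
    by_contra hne
    exact hmin j hj ⟨by omega, hne⟩
  refine ⟨a k, ∑ j ∈ Finset.range (J - k), Polynomial.aeval (X i : MvPolynomial (Fin N) Ω) (a (k + 1 + j)) * f ^ j,
    hk0, ?_⟩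
  have hfac : ∑ j ∈ Finset.range (J + 1),
        Polynomial.aeval (X i : MvPolynomial (Fin N) Ω) (a j) * f ^ j * 1 ^ (J - j) =
      f ^ k * (Polynomial.aeval (X i : MvPolynomial (Fin N) Ω) (a k) + f * ∑ j ∈ Finset.range (J - k),
        Polynomial.aeval (X i : MvPolynomial (Fin N) Ω) (a (k + 1 + j)) * f ^ j) := by
    have e1 : J + 1 = k + (1 + (J - k)) := by omega
    rw [e1, Finset.sum_range_add]
    have e2 : ∑ j ∈ Finset.range k, Polynomial.aeval (X i : MvPolynomial (Fin N) Ω) (a j) * f ^ j * 1 ^ (J - j) = 0 := by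
      refine Finset.sum_eq_zero fun j hj => ?_
      rw [hzero j (Finset.mem_range.1 hj), map_zero, zero_mul, zero_mul]
    rw [e2, zero_add, Finset.sum_range_add, Finset.sum_range_one, add_zero, one_pow, mul_one, mul_add]
    congr 1
    · ring
    · rw [← mul_assoc, Finset.mul_sum]
      refine Finset.sum_congr rfl fun j _ => ?_
      rw [one_pow, mul_one, ← add_assoc, pow_add, pow_add]
      ring
  rw [hfac] at hsum
  rcases (van_prime U y).mem_or_mem hsum with h2 | h2
  · exact absurd ((van_prime U y).mem_of_pow_mem _ h2) hf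
  · exact h2

theorem rate_exists (h : Cv μ U y) {f : MvPolynomial (Fin N) Ω} (hf : f ∉ van U y) :
    ∃ ρ : ℝ, Rate μ U y f ρ := by
  obtain ⟨i, hi, -⟩ := exists_coord h.grow
  obtain ⟨p, Q, hp, hpQ⟩ := h74_rel h hf i
  have hP := rate_poly h.grow hi hp
  obtain ⟨C1, hC1, hQ⟩ := eval_le μ Q
  obtain ⟨C2, hC2, hF⟩ := eval_le μ f
  set φ : ℕ → ℝ := fun n => Real.log (μ (eval (y n) f)) / Real.log (sz μ (y n)) with hφ
  have hcomp : ∀ᶠ n in (U : Filter ℕ), φ n ∈ Set.Icc (-(Q.totalDegree : ℝ) - 2) ((f.totalDegree : ℝ) + 1) := by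
    have hP2 := hP.2.eventually (eventually_gt_nhds (show (-1 : ℝ) < (p.natDegree : ℝ) by
      have : (0 : ℝ) ≤ p.natDegree := Nat.cast_nonneg _
      linarith))
    filter_upwards [hP2, notMem_van.1 hP.1, notMem_van.1 hf, mem_van.1 hpQ, h.grow.eventually_gt_atTop 0,
      h.grow.eventually_ge_atTop (Real.log C1), h.grow.eventually_ge_atTop (Real.log C2)] with n h1 h2 h3 h4 h5 h6 h7
    have hs : 0 < sz μ (y n) := lt_of_lt_of_le one_pos (one_le_sz μ _)
    have hfpos := μ.pos h3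
    rw [map_add, map_mul] at h4
    have h8 : μ (eval (y n) (Polynomial.aeval (X i : MvPolynomial (Fin N) Ω) p)) =
        μ (eval (y n) f) * μ (eval (y n) Q) := by
      rw [← map_mul μ, ← μ.map_neg (eval (y n) f * eval (y n) Q), eq_neg_of_add_eq_zero_left h4]
    have hPpos := μ.pos h2
    have hQpos : 0 < μ (eval (y n) Q) := by
      rw [h8] at hPpos
      exact pos_of_mul_pos_right hPpos hfpos.le
    have h9 : Real.log (μ (eval (y n) Q)) ≤ Real.log C1 + Q.totalDegree * Real.log (sz μ (y n)) := by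
      have := Real.log_le_log hQpos (hQ (y n))
      rwa [Real.log_mul hC1.ne' (by positivity), Real.log_pow] at this
    have h10 : Real.log (μ (eval (y n) f)) ≤ Real.log C2 + f.totalDegree * Real.log (sz μ (y n)) := by
      have := Real.log_le_log hfpos (hF (y n))
      rwa [Real.log_mul hC2.ne' (by positivity), Real.log_pow] at this
    rw [lt_div_iff₀ h5] at h1
    rw [h8, Real.log_mul hfpos.ne' hQpos.ne'] at h1
    rw [Set.mem_Icc, hφ]
    simp only
    constructor
    · rw [le_div_iff₀ h5]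
      nlinarith
    · rw [div_le_iff₀ h5]
      nlinarith
  obtain ⟨ρ, -, hρ⟩ := isCompact_Icc.ultrafilter_le_nhds' (U.map φ) hcomp
  exact ⟨ρ, hf, hρ⟩

end Pool.Agent.Helper26.RC
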